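import Mathlib

set_option autoImplicit false
open Filter Topology
open scoped ENNReal

namespace Pool.Agent.Helper902.GP

/-- The real Hilbert space `ℓ₂`. -/
abbrev H : Type := lp (fun _ : ℕ => ℝ) 2

/-- Two families of `(k+1)²` subsets of `ℕ` whose indicator functions differ, up to an error `1`
at each point, by `(k+1)²` times the indicator of `{t}`. -/
def Adm (k : ℕ) (A A' : Fin ((k + 1) ^ 2) → Set ℕ) (t : ℕ) : Prop :=
  ∀ r : ℕ, |(∑ i, ((A i).indicator (fun _ => (1 : ℝ)) r - (A' i).indicator (fun _ => (1 : ℝ)) r))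
      - (k + 1 : ℝ) ^ 2 * (if r = t then 1 else 0)| ≤ 1

/-- The point condition at scale `k`. -/
def Good (k : ℕ) (f : ℕ → ℝ) (g : Set ℕ → ℝ) : Prop :=
  (∀ B, |g B| ≤ (k + 1 : ℝ)) ∧
  ∀ (A A' : Fin ((k + 1) ^ 2) → Set ℕ) (t : ℕ), Adm k A A' t →
    |(∑ i, (g (A i) - g (A' i))) - (k + 1 : ℝ) ^ 2 * f t| ≤ 2 * (k + 1 : ℝ)

/-- The set of points on which the space lives. -/
structure D : Type where
  f : H
  G : ℕ → Set ℕ → ℝ
  hf : ‖f‖ ≤ 1
  hG : ∀ k, Good k (fun n => f n) (G k)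

/-- The ambient space `ℓ_∞(D)`. -/
abbrev V : Type := lp (fun _ : D => ℝ) ∞

/-- evaluation of the Hilbert space on points. -/
noncomputable def eLin : H →ₗ[ℝ] V where
  toFun x := ⟨fun p => inner ℝ p.f x, memℓp_infty ⟨‖x‖, by
    rintro _ ⟨p, rfl⟩
    calc ‖(inner ℝ p.f x : ℝ)‖ ≤ ‖p.f‖ * ‖x‖ := norm_inner_le_norm _ _
      _ ≤ 1 * ‖x‖ := by gcongr; exact p.hf
      _ = ‖x‖ := one_mul _⟩⟩
  map_add' x y := by
    ext p
    simp [inner_add_right]
  map_smul' c x := by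
    ext p
    simp [inner_smul_right]

noncomputable def z (q : ℕ × Set ℕ) : V :=
  ⟨fun p => p.G q.1 q.2, memℓp_infty ⟨q.1 + 1, by
    rintro _ ⟨p, rfl⟩
    exact (p.hG q.1).1 q.2⟩⟩

@[simp] lemma eLin_apply (x : H) (p : D) : (eLin x : V) p = inner ℝ p.f x := rfl

@[simp] lemma z_apply (q : ℕ × Set ℕ) (p : D) : (z q : V) p = p.G q.1 q.2 := rfl

/-- algebraic part. -/
noncomputable def Lam : (H × ((ℕ × Set ℕ) →₀ ℝ)) →ₗ[ℝ] V :=
  eLin.coprod (Finsupp.linearCombination ℝ z)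

lemma Lam_apply (a : H × ((ℕ × Set ℕ) →₀ ℝ)) (p : D) :
    (Lam a : V) p = inner ℝ p.f a.1 + a.2.sum (fun q c => c * p.G q.1 q.2) := by
  have h : ∀ b : (ℕ × Set ℕ) →₀ ℝ, ((Finsupp.linearCombination ℝ z b : V) : D → ℝ) p
      = b.sum (fun q c => c * p.G q.1 q.2) := by
    intro b
    rw [Finsupp.linearCombination_apply, Finsupp.sum, Finsupp.sum, lp.coeFn_sum]
    simp
  simp only [Lam, LinearMap.coprod_apply, lp.coeFn_add, Pi.add_apply, eLin_apply, h]

/-- The space. -/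
noncomputable def XS : Submodule ℝ V := (LinearMap.range Lam).topologicalClosure

abbrev X : Type := XS

lemma Lam_mem (a : H × ((ℕ × Set ℕ) →₀ ℝ)) : Lam a ∈ XS :=
  Submodule.le_topologicalClosure _ ⟨a, rfl⟩

lemma eLin_mem (x : H) : eLin x ∈ XS := by
  have := Lam_mem (x, 0)
  simpa [Lam] using this

lemma z_mem (q : ℕ × Set ℕ) : z q ∈ XS := by
  have := Lam_mem (0, Finsupp.single q 1)
  simpa [Lam] using this

lemma norm_z (q : ℕ × Set ℕ) : ‖z q‖ ≤ q.1 + 1 := by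
  refine lp.norm_le_of_forall_le (by positivity) fun p => ?_
  exact (p.hG q.1).1 q.2

lemma approx (k : ℕ) (A A' : Fin ((k + 1) ^ 2) → Set ℕ) (t : ℕ) (h : Adm k A A' t) :
    ‖(∑ i, (z (k, A i) - z (k, A' i))) - ((k + 1 : ℝ) ^ 2) • eLin (lp.single 2 t (1 : ℝ))‖
      ≤ 2 * (k + 1 : ℝ) := by
  refine lp.norm_le_of_forall_le (by positivity) fun p => ?_
  have := (p.hG k).2 A A' t h
  have h2 : inner ℝ p.f (lp.single 2 t (1 : ℝ)) = p.f t := by
    rw [lp.inner_single_right]; simp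
  rw [Real.norm_eq_abs]
  convert this using 2
  rw [lp.coeFn_sub, Pi.sub_apply, lp.coeFn_sum]
  simp [h2]

/-- small points -/
lemma good_small (k : ℕ) (g : Set ℕ → ℝ) (hg : ∀ B, |g B| ≤ 1 / (k + 1 : ℝ)) :
    Good k (fun n => (0 : H) n) g := by
  have hk : (0 : ℝ) < k + 1 := by positivity
  refine ⟨fun B => (hg B).trans ?_, fun A A' t _ => ?_⟩
  · rw [div_le_iff₀ hk]; nlinarith [(Nat.cast_nonneg k : (0 : ℝ) ≤ k)]
  · have h0 : ((0 : H) : ℕ → ℝ) t = 0 := rfl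
    simp only [h0, mul_zero, sub_zero]
    calc |∑ i, (g (A i) - g (A' i))| ≤ ∑ i : Fin ((k + 1) ^ 2), |g (A i) - g (A' i)| :=
          Finset.abs_sum_le_sum_abs _ _
      _ ≤ ∑ i : Fin ((k + 1) ^ 2), (1 / (k + 1 : ℝ) + 1 / (k + 1 : ℝ)) := by
          refine Finset.sum_le_sum fun i _ => ?_
          exact (abs_sub _ _).trans (add_le_add (hg _) (hg _))
      _ = 2 * (k + 1 : ℝ) := by
          rw [Finset.sum_const, Finset.card_univ, Fintype.card_fin, nsmul_eq_mul]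
          push_cast
          field_simp
          ring

lemma good_zero (k : ℕ) : Good k (fun n => (0 : H) n) (fun _ => 0) :=
  good_small k _ (fun _ => by simp; positivity)

end Pool.Agent.Helper902.GP
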