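import Mathlib
import Pool.Agent.Helper902.GPDef

set_option autoImplicit false
open Filter Topology
open scoped ENNReal

namespace Pool.Agent.Helper902.GP

/-- threshold function -/
noncomputable def th (k : ℕ) (s : ℝ) : ℝ := if 1 / (k + 1 : ℝ) ≤ |s| then s else 0

lemma th_abs_le (k : ℕ) (s : ℝ) : |th k s| ≤ (k + 1 : ℝ) * s ^ 2 := by
  have hk : (0 : ℝ) < k + 1 := by positivity
  unfold th
  split_ifs with h
  · rw [div_le_iff₀ hk] at h
    have : s ^ 2 = |s| * |s| := by rw [← sq_abs, sq]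
    rw [this]
    nlinarith [abs_nonneg s]
  · simp; positivity

lemma th_sub_le (k : ℕ) (s : ℝ) : |th k s - s| ≤ 1 / (k + 1 : ℝ) := by
  unfold th
  split_ifs with h
  · simp; positivity
  · push Not at h
    simpa using h.le

lemma sq_sum (f : H) : Summable (fun r => (f r) ^ 2) ∧ ∑' r, (f r) ^ 2 = ‖f‖ ^ 2 := by
  have h := lp.hasSum_norm (p := 2) (by norm_num) f
  have h2 : HasSum (fun r => (f r) ^ 2) (‖f‖ ^ 2) := by
    simpa using h
  exact ⟨h2.summable, h2.tsum_eq⟩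

lemma sum_th (k : ℕ) (f : H) (hf : ‖f‖ ≤ 1) :
    Summable (fun r => |th k (f r)|) ∧ ∑' r, |th k (f r)| ≤ (k + 1 : ℝ) := by
  obtain ⟨h1, h2⟩ := sq_sum f
  have h3 : Summable (fun r => (k + 1 : ℝ) * (f r) ^ 2) := h1.mul_left _
  have h4 : Summable (fun r => |th k (f r)|) :=
    Summable.of_nonneg_of_le (fun _ => abs_nonneg _) (fun r => th_abs_le k (f r)) h3
  refine ⟨h4, ?_⟩
  calc ∑' r, |th k (f r)| ≤ ∑' r, (k + 1 : ℝ) * (f r) ^ 2 :=
        h4.tsum_le_tsum (fun r => th_abs_le k (f r)) h3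
    _ = (k + 1 : ℝ) * ‖f‖ ^ 2 := by rw [tsum_mul_left, h2]
    _ ≤ (k + 1 : ℝ) * 1 := by
        gcongr
        exact pow_le_one₀ (norm_nonneg _) hf
    _ = _ := mul_one _

/-- the canonical extension -/
noncomputable def Gf (f : H) (k : ℕ) (B : Set ℕ) : ℝ :=
  ∑' r, B.indicator (fun _ => (1 : ℝ)) r * th k (f r)

lemma ind_abs_le (B : Set ℕ) (r : ℕ) : |B.indicator (fun _ => (1 : ℝ)) r| ≤ 1 := by
  by_cases h : r ∈ B <;> simp [h]

lemma summ_mul (k : ℕ) (f : H) (hf : ‖f‖ ≤ 1) (c : ℕ → ℝ) (C : ℝ) (hc : ∀ r, |c r| ≤ C) :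
    Summable (fun r => c r * th k (f r)) := by
  refine Summable.of_norm_bounded ((sum_th k f hf).1.mul_left C) fun r => ?_
  rw [Real.norm_eq_abs, abs_mul]
  exact mul_le_mul_of_nonneg_right (hc r) (abs_nonneg _)

lemma tsum_mul_le (k : ℕ) (f : H) (hf : ‖f‖ ≤ 1) (c : ℕ → ℝ) (hc : ∀ r, |c r| ≤ 1) :
    |∑' r, c r * th k (f r)| ≤ (k + 1 : ℝ) := by
  have hs := summ_mul k f hf c 1 hc
  calc |∑' r, c r * th k (f r)| ≤ ∑' r, |c r * th k (f r)| := by
        simpa [Real.norm_eq_abs] using norm_tsum_le_tsum_norm hs.norm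
    _ ≤ ∑' r, |th k (f r)| := by
        refine hs.abs.tsum_le_tsum (fun r => ?_) (sum_th k f hf).1
        rw [abs_mul]
        exact mul_le_of_le_one_left (abs_nonneg _) (hc r)
    _ ≤ _ := (sum_th k f hf).2

lemma good_Gf (f : H) (hf : ‖f‖ ≤ 1) (k : ℕ) : Good k (fun n => f n) (Gf f k) := by
  have hk : (0 : ℝ) < k + 1 := by positivity
  refine ⟨fun B => tsum_mul_le k f hf _ (ind_abs_le B), fun A A' t hA => ?_⟩
  have hs : ∀ B : Set ℕ, Summable (fun r => B.indicator (fun _ => (1 : ℝ)) r * th k (f r)) :=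
    fun B => summ_mul k f hf _ 1 (ind_abs_le B)
  have hst : Summable (fun r => (if r = t then (1 : ℝ) else 0) * th k (f r)) :=
    summ_mul k f hf _ 1 (fun r => by by_cases h : r = t <;> simp [h])
  have e1 : ∑ i, (Gf f k (A i) - Gf f k (A' i))
      = ∑' r, (∑ i, ((A i).indicator (fun _ => (1 : ℝ)) r - (A' i).indicator (fun _ => (1 : ℝ)) r))
          * th k (f r) := by
    simp only [Finset.sum_mul, sub_mul]
    rw [Summable.tsum_finsetSum]
    · refine Finset.sum_congr rfl fun i _ => ?_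
      rw [Summable.tsum_sub (hs _) (hs _)]; rfl
    · intro i _
      exact (hs _).sub (hs _)
  have e2 : ∑' r, (if r = t then (1 : ℝ) else 0) * th k (f r) = th k (f t) := by
    rw [tsum_eq_single t]
    · simp
    · intro r hr; simp [hr]
  have hss : Summable (fun r => (∑ i, ((A i).indicator (fun _ => (1 : ℝ)) r
      - (A' i).indicator (fun _ => (1 : ℝ)) r)) * th k (f r)) := by
    simp only [Finset.sum_mul, sub_mul]
    exact summable_sum fun i _ => (hs _).sub (hs _)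
  have e3 : (∑ i, (Gf f k (A i) - Gf f k (A' i))) - (k + 1 : ℝ) ^ 2 * th k (f t)
      = ∑' r, ((∑ i, ((A i).indicator (fun _ => (1 : ℝ)) r - (A' i).indicator (fun _ => (1 : ℝ)) r))
          - (k + 1 : ℝ) ^ 2 * (if r = t then 1 else 0)) * th k (f r) := by
    rw [e1, ← e2, ← tsum_mul_left, ← Summable.tsum_sub hss (hst.mul_left _)]
    refine tsum_congr fun r => ?_
    ring
  have e4 : |(∑ i, (Gf f k (A i) - Gf f k (A' i))) - (k + 1 : ℝ) ^ 2 * th k (f t)| ≤ (k + 1 : ℝ) := by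
    rw [e3]
    exact tsum_mul_le k f hf _ hA
  have e5 : |(k + 1 : ℝ) ^ 2 * (th k (f t) - f t)| ≤ (k + 1 : ℝ) := by
    rw [abs_mul, abs_of_pos (by positivity : (0 : ℝ) < (k + 1 : ℝ) ^ 2)]
    calc (k + 1 : ℝ) ^ 2 * |th k (f t) - f t| ≤ (k + 1 : ℝ) ^ 2 * (1 / (k + 1 : ℝ)) := by
          gcongr; exact th_sub_le _ _
      _ = _ := by field_simp
  calc |(∑ i, (Gf f k (A i) - Gf f k (A' i))) - (k + 1 : ℝ) ^ 2 * f t|
      = |((∑ i, (Gf f k (A i) - Gf f k (A' i))) - (k + 1 : ℝ) ^ 2 * th k (f t))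
          + (k + 1 : ℝ) ^ 2 * (th k (f t) - f t)| := by congr 1; ring
    _ ≤ _ := (abs_add_le _ _).trans (by linarith)

/-- extension point -/
noncomputable def ptE (f : H) (hf : ‖f‖ ≤ 1) : D := ⟨f, Gf f, hf, good_Gf f hf⟩

lemma norm_eLin (x : H) : ‖eLin x‖ = ‖x‖ := by
  apply le_antisymm
  · refine lp.norm_le_of_forall_le (norm_nonneg _) fun p => ?_
    calc ‖(inner ℝ p.f x : ℝ)‖ ≤ ‖p.f‖ * ‖x‖ := norm_inner_le_norm _ _
      _ ≤ 1 * ‖x‖ := by gcongr; exact p.hf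
      _ = ‖x‖ := one_mul _
  · by_cases hx : x = 0
    · simp [hx]
    have hx' : ‖x‖ ≠ 0 := by simpa using hx
    have hf : ‖(‖x‖⁻¹ • x : H)‖ ≤ 1 := by
      rw [norm_smul, norm_inv, norm_norm, inv_mul_cancel₀ hx']
    have h := lp.norm_apply_le_norm ENNReal.top_ne_zero (eLin x) (ptE _ hf)
    rw [eLin_apply] at h
    refine le_trans (le_of_eq ?_) h
    simp only [ptE]
    rw [real_inner_smul_left, real_inner_self_eq_norm_sq, Real.norm_eq_abs, abs_of_nonneg (by positivity)]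
    field_simp

end Pool.Agent.Helper902.GP
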