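import Mathlib
import Pool.Agent.Helper902.GPExt

set_option autoImplicit false
open Filter Topology
open scoped ENNReal

namespace Pool.Agent.Helper902.GP

/-- node of the tree -/
def node (m : ℕ → ℕ) (σ : ℕ → ℕ) (n : ℕ) : ℕ := m (Encodable.encode (PiNat.res σ n))

lemma node_eq {m : ℕ → ℕ} (hm : Function.Injective m) {σ τ : ℕ → ℕ} {n n' : ℕ} :
    node m σ n = node m τ n' ↔ n = n' ∧ ∀ i < n, σ i = τ i := by
  unfold node
  rw [hm.eq_iff, Encodable.encode_inj]
  constructor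
  · intro h
    have hn : n = n' := by
      have := congrArg List.length h
      simpa [PiNat.res_length] using this
    subst hn
    exact ⟨rfl, fun i hi => PiNat.res_eq_res.1 h hi⟩
  · rintro ⟨rfl, h⟩
    exact PiNat.res_eq_res.2 fun i hi => h i hi

/-- branch -/
def Br (m : ℕ → ℕ) (σ : ℕ → ℕ) : Set ℕ := Set.range (node m σ)

lemma sum_ind_le_one {ι : Type*} [Fintype ι] (A : ι → Set ℕ) (r : ℕ)
    (h : ∀ i j, r ∈ A i → r ∈ A j → i = j) :
    0 ≤ ∑ i, (A i).indicator (fun _ => (1 : ℝ)) r ∧ ∑ i, (A i).indicator (fun _ => (1 : ℝ)) r ≤ 1 := by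
  classical
  refine ⟨Finset.sum_nonneg fun i _ => Set.indicator_nonneg (fun _ _ => zero_le_one) _, ?_⟩
  by_cases hr : ∃ i, r ∈ A i
  · obtain ⟨i, hi⟩ := hr
    rw [Finset.sum_eq_single i]
    · simp [hi]
    · intro j _ hj
      rw [Set.indicator_of_notMem]
      exact fun hjr => hj (h _ _ hjr hi)
    · simp
  · push Not at hr
    rw [Finset.sum_eq_zero]
    · exact zero_le_one
    · intro i _
      rw [Set.indicator_of_notMem (hr i)]

lemma adm_tree {m : ℕ → ℕ} (hm : Function.Injective m) (k L j₀ : ℕ) (τ : ℕ → ℕ)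
    (σ σ' : Fin ((k + 1) ^ 2) → ℕ → ℕ)
    (h1 : ∀ i, ∀ l < L, σ i l = τ l) (h2 : ∀ i, σ i L = j₀) (h3 : ∀ i, σ i (L + 1) = i)
    (h1' : ∀ i, ∀ l < L, σ' i l = τ l) (h2' : ∀ i, σ' i L = j₀ + 1 + i) :
    Adm k (fun i => Br m (σ i)) (fun i => Br m (σ' i)) (m (Encodable.encode (j₀ :: PiNat.res τ L))) := by
  classical
  -- the target node
  set τ' : ℕ → ℕ := Function.update τ L j₀ with hτ'
  have ht : m (Encodable.encode (j₀ :: PiNat.res τ L)) = node m τ' (L + 1) := by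
    unfold node
    rw [PiNat.res_succ]
    congr 3
    · simp [hτ']
    · refine PiNat.res_eq_res.2 fun i hi => ?_
      simp [hτ', hi.ne]
  rw [ht]
  have hτL : ∀ l < L, τ' l = τ l := fun l hl => by simp [hτ', hl.ne]
  have hτL' : τ' L = j₀ := by simp [hτ']
  have hN : 0 < (k + 1) ^ 2 := by positivity
  intro r
  rw [Finset.sum_sub_distrib]
  by_cases c1 : ∃ n ≤ L, r = node m τ n
  · -- common initial part
    obtain ⟨n, hn, rfl⟩ := c1
    have e1 : ∀ i, node m τ n ∈ Br m (σ i) := fun i =>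
      ⟨n, (node_eq hm).2 ⟨rfl, fun l hl => h1 i l (by omega)⟩⟩
    have e2 : ∀ i, node m τ n ∈ Br m (σ' i) := fun i =>
      ⟨n, (node_eq hm).2 ⟨rfl, fun l hl => h1' i l (by omega)⟩⟩
    have e3 : node m τ n ≠ node m τ' (L + 1) := by
      intro h
      have := ((node_eq hm).1 h).1
      omega
    simp [e1, e2, e3]
  · by_cases c2 : r = node m τ' (L + 1)
    · subst c2
      have e1 : ∀ i, node m τ' (L + 1) ∈ Br m (σ i) := fun i =>
        ⟨L + 1, (node_eq hm).2 ⟨rfl, fun l hl => by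
          rcases Nat.lt_succ_iff_lt_or_eq.1 hl with h | h
          · rw [h1 i l h, hτL l h]
          · subst h; rw [h2 i, hτL']⟩⟩
      have e2 : ∀ i, node m τ' (L + 1) ∉ Br m (σ' i) := by
        rintro i ⟨n, hn⟩
        obtain ⟨h4, h5⟩ := (node_eq hm).1 hn
        have := h5 L (by omega)
        rw [h2' i, hτL'] at this
        omega
      simp [e1, e2]
    · have c3 : ∀ i j, r ∈ Br m (σ i) → r ∈ Br m (σ j) → i = j := by
        rintro i j ⟨n, rfl⟩ ⟨n', h⟩
        obtain ⟨h4, h5⟩ := (node_eq hm).1 h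
        subst h4
        have hn : L + 2 ≤ n' := by
          by_contra hlt
          rcases Nat.lt_or_ge n' (L + 1) with hh | hh
          · apply c1
            refine ⟨n', by omega, ?_⟩
            exact (node_eq hm).2 ⟨rfl, fun l hl => h1 i l (by omega)⟩
          · apply c2
            refine (node_eq hm).2 ⟨by omega, fun l hl => ?_⟩
            have : l < L + 1 := by omega
            rcases Nat.lt_succ_iff_lt_or_eq.1 this with h | h
            · rw [h1 i l h, hτL l h]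
            · subst h; rw [h2 i, hτL']
        have := h5 (L + 1) (by omega)
        rw [h3, h3] at this
        exact (Fin.ext this).symm
      have c4 : ∀ i j, r ∈ Br m (σ' i) → r ∈ Br m (σ' j) → i = j := by
        rintro i j ⟨n, rfl⟩ ⟨n', h⟩
        obtain ⟨h4, h5⟩ := (node_eq hm).1 h
        subst h4
        have hn : L + 1 ≤ n' := by
          by_contra hlt
          apply c1
          refine ⟨n', by omega, ?_⟩
          exact (node_eq hm).2 ⟨rfl, fun l hl => h1' i l (by omega)⟩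
        have := h5 L (by omega)
        rw [h2', h2'] at this
        exact (Fin.ext (by omega)).symm
      obtain ⟨a1, a2⟩ := sum_ind_le_one (fun i => Br m (σ i)) r c3
      obtain ⟨b1, b2⟩ := sum_ind_le_one (fun i => Br m (σ' i)) r c4
      simp only [c2, if_false, mul_zero, sub_zero]
      rw [abs_le]
      constructor <;> linarith

/-- Baire category in `ℕ → ℕ`. -/
lemma baire (S : ℕ → Set (ℕ → ℕ)) (hS : ∀ σ, ∃ n, σ ∈ S n) :
    ∃ (n : ℕ) (τ : ℕ → ℕ) (L : ℕ), ∀ σ : ℕ → ℕ, (∀ i < L, σ i = τ i) → ∀ M, ∃ σ' ∈ S n,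
      ∀ i < M, σ' i = σ i := by
  obtain ⟨n, τ, hτ⟩ := nonempty_interior_of_iUnion_of_closed (f := fun n => closure (S n))
    (fun n => isClosed_closure) (by
      rw [Set.eq_univ_iff_forall]
      intro σ
      obtain ⟨n, hn⟩ := hS σ
      exact Set.mem_iUnion.2 ⟨n, subset_closure hn⟩)
  obtain ⟨s, hs, hτs, hss⟩ := (PiNat.isTopologicalBasis_cylinders (fun _ : ℕ => ℕ)).exists_subset_of_mem_open
    hτ isOpen_interior
  obtain ⟨x, L, rfl⟩ := hs
  refine ⟨n, x, L, fun σ hσ M => ?_⟩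
  have h1 : σ ∈ PiNat.cylinder x L := PiNat.mem_cylinder_iff.2 hσ
  have h2 : σ ∈ closure (S n) := interior_subset (hss h1)
  rw [mem_closure_iff] at h2
  obtain ⟨σ', h3, h4⟩ := h2 (PiNat.cylinder σ M) (PiNat.isOpen_cylinder _ σ M) (PiNat.self_mem_cylinder σ M)
  exact ⟨σ', h4, PiNat.mem_cylinder_iff.1 h3⟩

/-- Killing lemma, for functionals on `X`. -/
lemma kill {m : ℕ → ℕ} (hm : Function.Injective m) (h : ℕ → (X →L[ℝ] ℝ)) (C : ℝ)
    (hC : ∀ j, ‖h j‖ ≤ C) (h0 : ∀ x, Tendsto (fun j => h j x) atTop (𝓝 0)) (ε : ℝ) (hε : 0 < ε) :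
    ∃ j, |h j ⟨eLin (lp.single 2 (m j) (1 : ℝ)), eLin_mem _⟩| < ε := by
  obtain ⟨k, hk⟩ := exists_nat_gt (4 * C / ε)
  have hkpos : (0 : ℝ) < k + 1 := by positivity
  have hk1 : 4 * C < ε * (k + 1) := by
    rw [div_lt_iff₀ hε] at hk
    nlinarith
  set zz : (ℕ → ℕ) → X := fun σ => ⟨z (k, Br m σ), z_mem _⟩ with hzz
  obtain ⟨n, τ, L, hB⟩ := baire (fun n => {σ | ∀ j ≥ n, |h j (zz σ)| ≤ ε / 8}) (by
    intro σ
    have := (h0 (zz σ)).eventually (Metric.ball_mem_nhds 0 (by positivity : 0 < ε / 8))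
    obtain ⟨n, hn⟩ := eventually_atTop.1 this
    refine ⟨n, fun j hj => ?_⟩
    have := hn j hj
    rw [Real.dist_eq, sub_zero] at this
    exact this.le)
  -- choice of the child
  have hinj : Function.Injective (fun j₀ : ℕ => Encodable.encode (j₀ :: PiNat.res τ L)) := by
    intro a b hab
    have := Encodable.encode_injective hab
    simpa using this
  obtain ⟨j₀, hj₀⟩ := (hinj.nat_tendsto_atTop.eventually (eventually_ge_atTop n)).exists
  set t := Encodable.encode (j₀ :: PiNat.res τ L) with ht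
  have c1 : ∀ i : Fin ((k + 1) ^ 2), ∃ σ : ℕ → ℕ, σ ∈ {σ | ∀ j ≥ n, |h j (zz σ)| ≤ ε / 8} ∧
      (∀ l < L, σ l = τ l) ∧ σ L = j₀ ∧ σ (L + 1) = i := by
    intro i
    obtain ⟨σ', h1, h2⟩ := hB (Function.update (Function.update τ L j₀) (L + 1) i) (by
      intro l hl
      rw [Function.update_of_ne (by omega), Function.update_of_ne (by omega)]) (L + 2)
    refine ⟨σ', h1, fun l hl => ?_, ?_, ?_⟩
    · rw [h2 l (by omega), Function.update_of_ne (by omega), Function.update_of_ne (by omega)]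
    · rw [h2 L (by omega), Function.update_of_ne (by omega), Function.update_self]
    · rw [h2 (L + 1) (by omega), Function.update_self]
  have c2 : ∀ i : Fin ((k + 1) ^ 2), ∃ σ : ℕ → ℕ, σ ∈ {σ | ∀ j ≥ n, |h j (zz σ)| ≤ ε / 8} ∧
      (∀ l < L, σ l = τ l) ∧ σ L = j₀ + 1 + i := by
    intro i
    obtain ⟨σ', h1, h2⟩ := hB (Function.update τ L (j₀ + 1 + i)) (by
      intro l hl
      rw [Function.update_of_ne (by omega)]) (L + 1)
    refine ⟨σ', h1, fun l hl => ?_, ?_⟩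
    · rw [h2 l (by omega), Function.update_of_ne (by omega)]
    · rw [h2 L (by omega), Function.update_self]
  choose σ s1 s2 s3 s4 using c1
  choose σ' s1' s2' s3' using c2
  have hadm := adm_tree hm k L j₀ τ σ σ' s2 s3 s4 s2' s3'
  rw [← ht] at hadm
  have happ := approx k _ _ _ hadm
  refine ⟨t, ?_⟩
  -- transfer to X
  set y : X := ⟨eLin (lp.single 2 (m t) (1 : ℝ)), eLin_mem _⟩ with hy
  set w : X := ∑ i, (zz (σ i) - zz (σ' i)) with hw
  have hnorm : ‖w - ((k + 1 : ℝ) ^ 2) • y‖ ≤ 2 * (k + 1 : ℝ) := by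
    have : ‖w - ((k + 1 : ℝ) ^ 2) • y‖ = ‖((w - ((k + 1 : ℝ) ^ 2) • y : X) : V)‖ := rfl
    rw [this]
    convert happ using 2
    simp [hw, hzz, hy]
  have hhw : |h t w| ≤ (k + 1 : ℝ) ^ 2 * (ε / 4) := by
    rw [hw, map_sum]
    calc |∑ i, h t (zz (σ i) - zz (σ' i))| ≤ ∑ i : Fin ((k + 1) ^ 2), |h t (zz (σ i) - zz (σ' i))| :=
          Finset.abs_sum_le_sum_abs _ _
      _ ≤ ∑ i : Fin ((k + 1) ^ 2), (ε / 8 + ε / 8) := by
          refine Finset.sum_le_sum fun i _ => ?_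
          rw [map_sub]
          exact (abs_sub _ _).trans (add_le_add (s1 i t hj₀) (s1' i t hj₀))
      _ = _ := by
          rw [Finset.sum_const, Finset.card_univ, Fintype.card_fin, nsmul_eq_mul]
          push_cast
          ring
  have hdiff : |h t (w - ((k + 1 : ℝ) ^ 2) • y)| ≤ C * (2 * (k + 1 : ℝ)) := by
    calc |h t (w - ((k + 1 : ℝ) ^ 2) • y)| ≤ ‖h t‖ * ‖w - ((k + 1 : ℝ) ^ 2) • y‖ := (h t).le_opNorm _
      _ ≤ C * (2 * (k + 1 : ℝ)) := by
          apply mul_le_mul (hC t) hnorm (norm_nonneg _) (le_trans (norm_nonneg (h t)) (hC t))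
  have hfin : (k + 1 : ℝ) ^ 2 * |h t y| ≤ (k + 1 : ℝ) ^ 2 * (ε / 4) + C * (2 * (k + 1 : ℝ)) := by
    have e : (k + 1 : ℝ) ^ 2 * h t y = h t w - h t (w - ((k + 1 : ℝ) ^ 2) • y) := by
      rw [map_sub, map_smul, smul_eq_mul]; ring
    calc (k + 1 : ℝ) ^ 2 * |h t y| = |(k + 1 : ℝ) ^ 2 * h t y| := by
          rw [abs_mul, abs_of_pos (by positivity : (0 : ℝ) < (k + 1 : ℝ) ^ 2)]
      _ = |h t w - h t (w - ((k + 1 : ℝ) ^ 2) • y)| := by rw [e]
      _ ≤ _ := (abs_sub _ _).trans (add_le_add hhw hdiff)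
  by_contra hcon
  push Not at hcon
  have : (k + 1 : ℝ) ^ 2 * ε ≤ (k + 1 : ℝ) ^ 2 * |h t y| := by gcongr
  nlinarith [mul_pos hkpos hkpos, mul_pos hkpos hε]

end Pool.Agent.Helper902.GP
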