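import Mathlib
import Pool.Agent.Helper902.GPTree

set_option autoImplicit false
open Filter Topology
open scoped ENNReal

namespace Pool.Agent.Helper902.GP

/-- the limited sequence -/
noncomputable def ee (n : ℕ) : X := ⟨eLin (lp.single 2 n (1 : ℝ)), eLin_mem _⟩

instance : CompleteSpace X := Submodule.topologicalClosure.completeSpace _

lemma limited (f : ℕ → (X →L[ℝ] ℝ)) (h0 : ∀ x, Tendsto (fun n => f n x) atTop (𝓝 0))
    (ε : ℝ) (hε : 0 < ε) : ∀ᶠ n in atTop, ∀ m, |f n (ee m)| ≤ ε := by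
  -- uniform bound
  obtain ⟨C, hC⟩ : ∃ C, ∀ n, ‖f n‖ ≤ C := by
    refine banach_steinhaus fun x => ?_
    obtain ⟨b, hb⟩ := (h0 x).norm.bddAbove_range
    exact ⟨b, fun n => hb ⟨n, rfl⟩⟩
  by_contra hcon
  rw [not_eventually] at hcon
  have hstep : ∀ p : ℕ × ℕ, ∃ q : ℕ × ℕ, p.1 < q.1 ∧ p.2 < q.2 ∧ ε < |f q.1 (ee q.2)| := by
    intro p
    have h1 : ∀ᶠ n in atTop, ∀ m ∈ Finset.range (p.2 + 1), |f n (ee m)| ≤ ε := by
      rw [Finset.eventually_all]
      intro m _
      have := (h0 (ee m)).eventually (Metric.ball_mem_nhds 0 hε)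
      filter_upwards [this] with n hn
      have hn' : dist (f n (ee m)) 0 < ε := hn
      rw [Real.dist_eq, sub_zero] at hn'
      exact hn'.le
    obtain ⟨n, hn, h2, h3⟩ := (hcon.and_eventually (h1.and (eventually_gt_atTop p.1))).exists
    push Not at hn
    obtain ⟨m, hm⟩ := hn
    refine ⟨(n, m), h3, ?_, hm⟩
    by_contra hlt
    push Not at hlt
    exact absurd (h2 m (Finset.mem_range.2 (by simpa using Nat.lt_succ_of_le hlt))) (not_le.2 hm)
  choose stp hs1 hs2 hs3 using hstep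
  let s : ℕ → ℕ × ℕ := fun n => Nat.rec (0, 0) (fun _ p => stp p) n
  have hs : ∀ n, s (n + 1) = stp (s n) := fun n => rfl
  have m1 : StrictMono (fun n => (s n).1) := strictMono_nat_of_lt_succ fun n => by
    rw [hs]; exact hs1 _
  have m2 : StrictMono (fun n => (s n).2) := strictMono_nat_of_lt_succ fun n => by
    rw [hs]; exact hs2 _
  have hm : Function.Injective (fun n => (s (n + 1)).2) := fun a b hab => by
    have h : a + 1 = b + 1 := m2.injective (by exact hab)
    omega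
  obtain ⟨j, hj⟩ := kill hm (fun n => f (s (n + 1)).1) C (fun j => hC _)
    (fun x => by
      have hT : Tendsto (fun n => (s (n + 1)).1) atTop atTop :=
        (m1.tendsto_atTop).comp (tendsto_add_atTop_nat 1)
      exact (h0 x).comp hT) ε hε
  have := hs3 (s j)
  rw [← hs] at this
  exact absurd hj (not_lt.2 this.le)

lemma dist_ee {m n : ℕ} (h : m ≠ n) : 1 ≤ dist (ee m) (ee n) := by
  rw [dist_eq_norm]
  have h1 : ‖ee m - ee n‖ = ‖(lp.single 2 m (1 : ℝ) : H) - lp.single 2 n (1 : ℝ)‖ := by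
    rw [← norm_eLin, map_sub]
    rfl
  rw [h1]
  have h2 := lp.norm_apply_le_norm (p := 2) (by norm_num)
    ((lp.single 2 m (1 : ℝ) : H) - lp.single 2 n (1 : ℝ)) m
  refine le_trans ?_ h2
  rw [lp.coeFn_sub, Pi.sub_apply]
  simp [lp.single_apply, h]

lemma not_compact : ¬ IsCompact (closure (Set.range ee)) := by
  intro hc
  obtain ⟨a, _, φ, hφ, hlim⟩ := hc.tendsto_subseq (x := ee) (fun n => subset_closure ⟨n, rfl⟩)
  have hcau := hlim.cauchySeq
  rw [Metric.cauchySeq_iff] at hcau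
  obtain ⟨N, hN⟩ := hcau 1 one_pos
  have := hN N le_rfl (N + 1) (by omega)
  exact absurd this (not_lt.2 (dist_ee (hφ (Nat.lt_succ_self N)).ne))

end Pool.Agent.Helper902.GP
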