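import Mathlib
import Pool.Agent.Helper902.GPExt

set_option autoImplicit false
open Filter Topology
open scoped ENNReal ZeroAtInfty

namespace Pool.Agent.Helper902.GP

/-- Gliding hump without humps. -/
lemma gliding {J W : Type*} [AddCommGroup W] (p : J → W → ℝ)
    (hp0 : ∀ j w, 0 ≤ p j w) (hadd : ∀ j w w', p j (w + w') ≤ p j w + p j w')
    (hneg : ∀ j w, p j (-w) = p j w) (u : ℕ → W) (M : ℝ)
    (hM : ∀ (F : Finset ℕ) (Φ : Finset J), ∑ j ∈ Φ, p j (∑ n ∈ F, u n) ≤ M)
    (h0 : ∀ j, Tendsto (fun n => p j (u n)) atTop (𝓝 0)) (δ : ℝ) (hδ : 0 < δ) :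
    ∀ᶠ n in atTop, ∀ Φ : Finset J, ∑ j ∈ Φ, p j (u n) ≤ δ := by
  classical
  by_contra hcon
  rw [not_eventually] at hcon
  set T : Set ℝ := {x | ∃ (F : Finset ℕ) (Φ : Finset J), x = ∑ j ∈ Φ, p j (∑ n ∈ F, u n)} with hT
  have hTne : T.Nonempty := ⟨_, ∅, ∅, rfl⟩
  have hTb : BddAbove T := ⟨M, by rintro _ ⟨F, Φ, rfl⟩; exact hM F Φ⟩
  obtain ⟨_, ⟨F, Φ, rfl⟩, hF⟩ := exists_lt_of_lt_csSup hTne (show sSup T - δ / 8 < sSup T by linarith)
  have hle : ∀ (F : Finset ℕ) (Φ : Finset J), ∑ j ∈ Φ, p j (∑ n ∈ F, u n) ≤ sSup T :=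
    fun F Φ => le_csSup hTb ⟨F, Φ, rfl⟩
  have e1 : ∀ᶠ n in atTop, ∑ j ∈ Φ, p j (u n) < δ / 8 := by
    have : Tendsto (fun n => ∑ j ∈ Φ, p j (u n)) atTop (𝓝 (∑ j ∈ Φ, (0 : ℝ))) :=
      tendsto_finsetSum _ fun j _ => h0 j
    rw [Finset.sum_const_zero] at this
    exact this.eventually (gt_mem_nhds (by positivity))
  have e2 : ∀ᶠ n in atTop, n ∉ F := by
    filter_upwards [eventually_gt_atTop (F.sup id)] with n hn hnF
    exact absurd (Finset.le_sup (f := id) hnF) (not_le.2 hn)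
  obtain ⟨n, hn, h1, h2⟩ := (hcon.and_eventually (e1.and e2)).exists
  push Not at hn
  obtain ⟨Φ', hΦ'⟩ := hn
  set w := ∑ n ∈ F, u n with hw
  have hsum : ∑ n ∈ insert n F, u n = w + u n := by
    rw [Finset.sum_insert h2, add_comm]
  set Ψ := Φ ∪ Φ' with hΨ
  have hsub : Φ ⊆ Ψ := Finset.subset_union_left
  have key := hle (insert n F) Ψ
  rw [hsum] at key
  have a1 : ∑ j ∈ Ψ, p j (w + u n) = ∑ j ∈ Ψ \ Φ, p j (w + u n) + ∑ j ∈ Φ, p j (w + u n) :=
    (Finset.sum_sdiff hsub).symm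
  have a2 : ∑ j ∈ Ψ, p j w = ∑ j ∈ Ψ \ Φ, p j w + ∑ j ∈ Φ, p j w := (Finset.sum_sdiff hsub).symm
  have a3 : ∑ j ∈ Ψ, p j (u n) = ∑ j ∈ Ψ \ Φ, p j (u n) + ∑ j ∈ Φ, p j (u n) :=
    (Finset.sum_sdiff hsub).symm
  have b1 : ∑ j ∈ Φ, p j w - ∑ j ∈ Φ, p j (u n) ≤ ∑ j ∈ Φ, p j (w + u n) := by
    rw [← Finset.sum_sub_distrib]
    refine Finset.sum_le_sum fun j _ => ?_
    have := hadd j (w + u n) (-(u n))
    rw [hneg, add_neg_cancel_right] at this
    linarith
  have b2 : ∑ j ∈ Ψ \ Φ, p j (u n) - ∑ j ∈ Ψ \ Φ, p j w ≤ ∑ j ∈ Ψ \ Φ, p j (w + u n) := by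
    rw [← Finset.sum_sub_distrib]
    refine Finset.sum_le_sum fun j _ => ?_
    have := hadd j (w + u n) (-w)
    rw [hneg, show w + u n + -w = u n by abel] at this
    linarith
  have c1 : ∑ j ∈ Ψ, p j w ≤ sSup T := hle F Ψ
  have c2 : δ < ∑ j ∈ Ψ, p j (u n) := by
    refine lt_of_lt_of_le hΦ' (Finset.sum_le_sum_of_subset_of_nonneg Finset.subset_union_right ?_)
    intro j _ _
    exact hp0 _ _
  linarith

lemma tendsto_of_bdd_sums (x : ℕ → ℝ) (M : ℝ) (h : ∀ F : Finset ℕ, |∑ n ∈ F, x n| ≤ M) :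
    Tendsto (fun n => |x n|) atTop (𝓝 0) := by
  classical
  have hs : Summable (fun n => |x n|) := by
    refine summable_of_sum_le (c := 2 * M) (fun _ => abs_nonneg _) fun F => ?_
    have h1 := h (F.filter (fun n => 0 ≤ x n))
    have h2 := h (F.filter (fun n => ¬ 0 ≤ x n))
    rw [← Finset.sum_filter_add_sum_filter_not F (fun n => 0 ≤ x n)]
    have e1 : ∑ n ∈ F.filter (fun n => 0 ≤ x n), |x n| = ∑ n ∈ F.filter (fun n => 0 ≤ x n), x n := by
      refine Finset.sum_congr rfl fun n hn => abs_of_nonneg (Finset.mem_filter.1 hn).2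
    have e2 : ∑ n ∈ F.filter (fun n => ¬ 0 ≤ x n), |x n|
        = - ∑ n ∈ F.filter (fun n => ¬ 0 ≤ x n), x n := by
      rw [← Finset.sum_neg_distrib]
      refine Finset.sum_congr rfl fun n hn => abs_of_neg (not_le.1 (Finset.mem_filter.1 hn).2)
    rw [e1, e2]
    linarith [(abs_le.1 h1).2, (abs_le.1 h2).1]
  exact hs.tendsto_atTop_zero

/-- Hilbert space: choice of signs. -/
lemma exists_signs {E : Type*} [NormedAddCommGroup E] [InnerProductSpace ℝ E] (x : ℕ → E) (n : ℕ) :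
    ∃ ε : ℕ → ℝ, (∀ i, |ε i| ≤ 1) ∧
      ∑ i ∈ Finset.range n, ‖x i‖ ^ 2 ≤ ‖∑ i ∈ Finset.range n, ε i • x i‖ ^ 2 := by
  induction n with
  | zero => exact ⟨fun _ => 0, fun _ => by simp, by simp⟩
  | succ n ih =>
    obtain ⟨ε, h1, h2⟩ := ih
    set S := ∑ i ∈ Finset.range n, ε i • x i with hS
    by_cases hs : 0 ≤ inner ℝ S (x n)
    · refine ⟨Function.update ε n 1, fun i => ?_, ?_⟩
      · by_cases hi : i = n
        · subst hi; simp
        · rw [Function.update_of_ne hi]; exact h1 i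
      · have e : ∑ i ∈ Finset.range (n + 1), Function.update ε n 1 i • x i = S + x n := by
          rw [Finset.sum_range_succ, Function.update_self, one_smul, hS]
          congr 1
          refine Finset.sum_congr rfl fun i hi => ?_
          rw [Function.update_of_ne (Finset.mem_range.1 hi).ne]
        rw [e, Finset.sum_range_succ, norm_add_sq_real]
        linarith
    · refine ⟨Function.update ε n (-1), fun i => ?_, ?_⟩
      · by_cases hi : i = n
        · subst hi; simp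
        · rw [Function.update_of_ne hi]; exact h1 i
      · have e : ∑ i ∈ Finset.range (n + 1), Function.update ε n (-1) i • x i = S - x n := by
          rw [Finset.sum_range_succ, Function.update_self, neg_smul, one_smul, hS, ← sub_eq_add_neg]
          congr 1
          refine Finset.sum_congr rfl fun i hi => ?_
          rw [Function.update_of_ne (Finset.mem_range.1 hi).ne]
        push Not at hs
        rw [e, Finset.sum_range_succ, norm_sub_sq_real]
        linarith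

/-- the algebraic space -/
abbrev A : Type := H × ((ℕ × Set ℕ) →₀ ℝ)

/-- annihilating points -/
def G0 (k : ℕ) : Type := {g : Set ℕ → ℝ // Good k (fun n => (0 : H) n) g}

lemma good_smul {k : ℕ} {g : Set ℕ → ℝ} (hg : Good k (fun n => (0 : H) n) g) (c : ℝ) (hc : |c| ≤ 1) :
    Good k (fun n => (0 : H) n) (fun B => c * g B) := by
  refine ⟨fun B => ?_, fun A A' t h => ?_⟩
  · rw [abs_mul]
    exact (mul_le_of_le_one_left (abs_nonneg _) hc).trans (hg.1 B)
  · have := hg.2 A A' t h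
    have h0 : ((0 : H) : ℕ → ℝ) t = 0 := rfl
    simp only [h0, mul_zero, sub_zero] at this ⊢
    simp only [← mul_sub, ← Finset.mul_sum]
    rw [abs_mul]
    exact (mul_le_of_le_one_left (abs_nonneg _) hc).trans this

noncomputable def pt0 (G : ℕ → Set ℕ → ℝ) (hG : ∀ k, Good k (fun n => (0 : H) n) (G k)) : D :=
  ⟨0, G, by simp, hG⟩

/-- the evaluation at scale `k` as a linear map in `a` -/
noncomputable def ev (k : ℕ) (g : Set ℕ → ℝ) : A →ₗ[ℝ] ℝ :=
  (Finsupp.linearCombination ℝ (fun q : ℕ × Set ℕ => if q.1 = k then g q.2 else 0)).comp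
    (LinearMap.snd ℝ _ _)

lemma ev_apply (k : ℕ) (g : Set ℕ → ℝ) (a : A) :
    ev k g a = a.2.sum (fun q c => c * (if q.1 = k then g q.2 else 0)) := by
  simp [ev, Finsupp.linearCombination_apply]

/-- evaluation at a point with vanishing first coordinate which is supported by the scales in `Φ` -/
lemma Lam_pt0 (Φ : Finset ℕ) (c : ℕ → ℝ) (g : ℕ → Set ℕ → ℝ) (hG) (a : A) :
    (Lam a : V) (pt0 (fun k B => if k ∈ Φ then c k * g k B else 0) hG)
      = ∑ k ∈ Φ, c k * ev k (g k) a := by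
  rw [Lam_apply]
  simp only [pt0, inner_zero_left, zero_add, ev_apply, Finsupp.sum]
  simp only [Finset.mul_sum]
  rw [Finset.sum_comm]
  refine Finset.sum_congr rfl fun q _ => ?_
  by_cases hq : q.1 ∈ Φ
  · rw [if_pos hq, Finset.sum_eq_single q.1]
    · simp; ring
    · intro k _ hk
      simp [hk.symm]
    · intro h; exact absurd hq h
  · rw [if_neg hq, mul_zero, Finset.sum_eq_zero]
    intro k hk
    have : q.1 ≠ k := fun h => hq (h ▸ hk)
    simp [this]

lemma abs_eval_le (v : V) (p : D) : |v p| ≤ ‖v‖ := by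
  simpa using lp.norm_apply_le_norm ENNReal.top_ne_zero v p

/-- Fact 3 -/
lemma sum_ev_le (a : A) (Φ : Finset ℕ) (g : ℕ → Set ℕ → ℝ)
    (hg : ∀ k, Good k (fun n => (0 : H) n) (g k)) :
    ∑ k ∈ Φ, |ev k (g k) a| ≤ ‖Lam a‖ := by
  classical
  set c : ℕ → ℝ := fun k => if 0 ≤ ev k (g k) a then 1 else -1 with hc
  have hc1 : ∀ k, |c k| ≤ 1 := fun k => by simp only [hc]; split_ifs <;> simp
  have hG : ∀ k, Good k (fun n => (0 : H) n) ((fun k B => if k ∈ Φ then c k * g k B else 0) k) := by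
    intro k
    by_cases hk : k ∈ Φ
    · simpa [hk] using good_smul (hg k) (c k) (hc1 k)
    · simpa [hk] using good_zero k
  have h1 := abs_eval_le (Lam a) (pt0 _ hG)
  rw [Lam_pt0] at h1
  refine le_trans (le_of_eq ?_) ((le_abs_self _).trans h1)
  refine Finset.sum_congr rfl fun k _ => ?_
  simp only [hc]
  split_ifs with h
  · rw [abs_of_nonneg h, one_mul]
  · rw [abs_of_neg (not_le.1 h)]; ring

/-- Fact 1 -/
lemma sum_coeff_le (a : A) (k : ℕ) (Φ : Finset (Set ℕ)) :
    ∑ B ∈ Φ, |a.2 (k, B)| ≤ (k + 1 : ℝ) * ‖Lam a‖ := by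
  classical
  have hk : (0 : ℝ) < k + 1 := by positivity
  set g : Set ℕ → ℝ := fun B => if B ∈ Φ then (if 0 ≤ a.2 (k, B) then 1 else -1) / (k + 1 : ℝ) else 0
    with hg
  have hg1 : Good k (fun n => (0 : H) n) g := by
    refine good_small k g fun B => ?_
    simp only [hg]
    split_ifs <;> simp [abs_div, abs_of_pos hk]
    positivity
  have h1 := sum_ev_le a {k} (fun k' => if h : k' = k then g else fun _ => 0) (by
    intro k'
    by_cases h : k' = k
    · subst h; simpa using hg1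
    · simpa [h] using good_zero k')
  simp only [Finset.sum_singleton, dif_pos] at h1
  have h2 : ev k g a = (∑ B ∈ Φ, |a.2 (k, B)|) / (k + 1 : ℝ) := by
    rw [ev_apply, Finsupp.sum_of_support_subset (s := a.2.support ∪ Φ.map ⟨fun B => (k, B), fun _ _ h => by
      simpa using h⟩) _ Finset.subset_union_left _ (by intro i _; simp)]
    rw [← Finset.sum_subset (s₁ := Φ.map ⟨fun B => (k, B), fun _ _ h => by simpa using h⟩)
      Finset.subset_union_right]
    · rw [Finset.sum_map, Finset.sum_div]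
      refine Finset.sum_congr rfl fun B hB => ?_
      simp only [Function.Embedding.coeFn_mk, if_true, hg, hB]
      split_ifs with h
      · rw [abs_of_nonneg h]; ring
      · rw [abs_of_neg (not_le.1 h)]; ring
    · rintro ⟨k', B⟩ _ hq
      by_cases hk' : k' = k
      · subst hk'
        have : B ∉ Φ := fun h => hq (by simpa using h)
        simp [hg, this]
      · simp [hk']
  rw [h2, abs_of_nonneg (div_nonneg (Finset.sum_nonneg fun _ _ => abs_nonneg _) hk.le),
    div_le_iff₀ hk] at h1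
  linarith

/-- Fact 2 -/
lemma ev_le (a : A) (k : ℕ) (g : Set ℕ → ℝ) (hg : Good k (fun n => (0 : H) n) g) (δ : ℝ)
    (h : ∀ Φ : Finset (Set ℕ), ∑ B ∈ Φ, |a.2 (k, B)| ≤ δ) :
    |ev k g a| ≤ (k + 1 : ℝ) * δ := by
  classical
  rw [ev_apply, Finsupp.sum]
  have h1 : ∀ q ∈ a.2.support, |a.2 q * (if q.1 = k then g q.2 else 0)|
      ≤ (k + 1 : ℝ) * (if q.1 = k then |a.2 (k, q.2)| else 0) := by
    rintro ⟨k', B⟩ _
    by_cases hk : k' = k
    · subst hk
      simp only [if_true]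
      rw [abs_mul, mul_comm]
      exact mul_le_mul_of_nonneg_right (hg.1 B) (abs_nonneg _)
    · simp [hk]
  calc |∑ q ∈ a.2.support, a.2 q * (if q.1 = k then g q.2 else 0)|
      ≤ ∑ q ∈ a.2.support, |a.2 q * (if q.1 = k then g q.2 else 0)| := Finset.abs_sum_le_sum_abs _ _
    _ ≤ ∑ q ∈ a.2.support, (k + 1 : ℝ) * (if q.1 = k then |a.2 (k, q.2)| else 0) :=
        Finset.sum_le_sum h1
    _ = (k + 1 : ℝ) * ∑ q ∈ a.2.support.filter (fun q => q.1 = k), |a.2 (k, q.2)| := by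
        rw [← Finset.mul_sum, Finset.sum_filter]
    _ = (k + 1 : ℝ) * ∑ B ∈ (a.2.support.filter (fun q => q.1 = k)).image Prod.snd, |a.2 (k, B)| := by
        rw [Finset.sum_image]
        rintro ⟨k1, B1⟩ h1 ⟨k2, B2⟩ h2 h3
        simp only [Finset.coe_filter, Set.mem_ofPred_eq] at h1 h2
        ext1
        · exact h1.2.trans h2.2.symm
        · exact h3
    _ ≤ _ := mul_le_mul_of_nonneg_left (h _) (by positivity)

instance (k : ℕ) : Nonempty (G0 k) := ⟨⟨_, good_zero k⟩⟩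

/-- seminorm at scale `k` -/
noncomputable def qs (k : ℕ) (a : A) : ℝ := ⨆ g : G0 k, |ev k g.1 a|

lemma ev_le_norm (k : ℕ) (g : G0 k) (a : A) : |ev k g.1 a| ≤ ‖Lam a‖ := by
  classical
  have h1 := sum_ev_le a {k} (fun k' => if h : k' = k then g.1 else fun _ => 0) (by
    intro k'
    by_cases h : k' = k
    · subst h; simpa using g.2
    · simpa [h] using good_zero k')
  simpa using h1

lemma qs_bdd (k : ℕ) (a : A) : BddAbove (Set.range fun g : G0 k => |ev k g.1 a|) :=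
  ⟨‖Lam a‖, by rintro _ ⟨g, rfl⟩; exact ev_le_norm k g a⟩

lemma le_qs (k : ℕ) (g : G0 k) (a : A) : |ev k g.1 a| ≤ qs k a := le_ciSup (qs_bdd k a) g

lemma qs_nonneg (k : ℕ) (a : A) : 0 ≤ qs k a := Real.iSup_nonneg fun _ => abs_nonneg _

lemma qs_add (k : ℕ) (a b : A) : qs k (a + b) ≤ qs k a + qs k b := by
  refine ciSup_le fun g => ?_
  rw [map_add]
  exact (abs_add_le _ _).trans (add_le_add (le_qs k g a) (le_qs k g b))

lemma qs_neg (k : ℕ) (a : A) : qs k (-a) = qs k a := by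
  simp [qs]

lemma sum_qs_le (a : A) (Φ : Finset ℕ) : ∑ k ∈ Φ, qs k a ≤ ‖Lam a‖ := by
  refine le_of_forall_pos_le_add fun ε hε => ?_
  have hpos : (0 : ℝ) < Φ.card + 1 := by positivity
  have : ∀ k, ∃ g : G0 k, qs k a - ε / (Φ.card + 1) < |ev k g.1 a| := fun k =>
    exists_lt_of_lt_ciSup (by simp only [qs]; linarith [div_pos hε hpos])
  choose g hg using this
  have h1 := sum_ev_le a Φ (fun k => (g k).1) (fun k => (g k).2)
  calc ∑ k ∈ Φ, qs k a ≤ ∑ k ∈ Φ, (|ev k (g k).1 a| + ε / (Φ.card + 1)) :=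
        Finset.sum_le_sum fun k _ => by linarith [hg k]
    _ = ∑ k ∈ Φ, |ev k (g k).1 a| + Φ.card * (ε / (Φ.card + 1)) := by
        rw [Finset.sum_add_distrib, Finset.sum_const, nsmul_eq_mul]
    _ ≤ ‖Lam a‖ + ε := by
        gcongr
        rw [mul_div_assoc', div_le_iff₀ hpos]
        nlinarith

/-- Fact 4: distance to the Hilbert space. -/
lemma dist_le (a : A) (δ ρ : ℝ) (hδ : ∀ Φ : Finset ℕ, ∑ k ∈ Φ, qs k a ≤ δ) (hρ : δ < ρ) :
    ∃ x : H, ‖Lam a - eLin x‖ < ρ := by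
  classical
  let S : Submodule ℝ V := LinearMap.range eLin
  haveI hcl : IsClosed (S : Set V) := by
    have hiso : Isometry (eLin : H → V) := AddMonoidHomClass.isometry_of_norm eLin norm_eLin
    have : (S : Set V) = Set.range (eLin : H → V) := by
      ext v; simp [S]
    rw [this]
    exact hiso.isClosedEmbedding.isClosed_range
  obtain ⟨g, hg1, hg2⟩ := exists_dual_vector'' ℝ (Submodule.Quotient.mk (p := S) (Lam a))
  have hlip : ∀ v : V, |g (Submodule.Quotient.mk v)| ≤ ‖v‖ := by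
    intro v
    calc |g (Submodule.Quotient.mk v)| ≤ ‖g‖ * ‖(Submodule.Quotient.mk v : V ⧸ S)‖ := g.le_opNorm _
      _ ≤ 1 * ‖v‖ := mul_le_mul hg1 (Submodule.Quotient.norm_mk_le S v) (norm_nonneg _) zero_le_one
      _ = ‖v‖ := one_mul _
  let h : V →ₗ[ℝ] ℝ := (g : (V ⧸ S) →ₗ[ℝ] ℝ).comp S.mkQ
  have hh : ∀ v, |h v| ≤ ‖v‖ := hlip
  have hker : ∀ x, h (eLin x) = 0 := by
    intro x
    have : S.mkQ (eLin x) = 0 := by
      rw [Submodule.mkQ_apply, Submodule.Quotient.mk_eq_zero]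
      exact ⟨x, rfl⟩
    simp only [h, LinearMap.comp_apply, this, map_zero]
  set G : ℕ → Set ℕ → ℝ := fun k B => h (z (k, B)) with hGdef
  have hG : ∀ k, Good k (fun n => (0 : H) n) (G k) := by
    intro k
    refine ⟨fun B => (hh _).trans (norm_z _), fun A A' t hA => ?_⟩
    have h1 := (hh _).trans (approx k A A' t hA)
    rw [map_sub, map_smul, hker, smul_zero, sub_zero, map_sum] at h1
    have h0 : ((0 : H) : ℕ → ℝ) t = 0 := rfl
    simp only [h0, mul_zero, sub_zero]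
    simpa [hGdef, map_sub] using h1
  have hval : h (Lam a) = ∑ k ∈ a.2.support.image Prod.fst, ev k (G k) a := by
    have e1 : h (Lam a) = a.2.sum (fun q c => c * h (z q)) := by
      simp only [Lam, LinearMap.coprod_apply, map_add, hker, zero_add]
      rw [Finsupp.linearCombination_apply, Finsupp.sum, Finsupp.sum, map_sum]
      simp
    rw [e1]
    simp only [ev_apply, Finsupp.sum]
    rw [Finset.sum_comm]
    refine Finset.sum_congr rfl fun q hq => ?_
    rw [Finset.sum_eq_single q.1]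
    · simp [hGdef]
    · intro k _ hk; simp [hk.symm]
    · intro hn
      exact absurd (Finset.mem_image_of_mem _ hq) hn
  have hle : ‖(Submodule.Quotient.mk (Lam a) : V ⧸ S)‖ ≤ δ := by
    have e2 : ‖(Submodule.Quotient.mk (Lam a) : V ⧸ S)‖ = h (Lam a) := by
      have : h (Lam a) = g (Submodule.Quotient.mk (Lam a)) := rfl
      rw [this, hg2]; simp
    rw [e2, hval]
    refine le_trans (Finset.sum_le_sum fun k _ => (le_abs_self _).trans (le_qs k ⟨G k, hG k⟩ a)) (hδ _)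
  obtain ⟨v, hv1, hv2⟩ := Submodule.Quotient.norm_mk_lt (S := S) (Submodule.Quotient.mk (Lam a))
    (show 0 < ρ - δ by linarith)
  rw [Submodule.Quotient.eq] at hv1
  obtain ⟨x, hx⟩ := hv1
  refine ⟨-x, ?_⟩
  have : Lam a - eLin (-x) = v := by
    rw [map_neg, hx]; abel
  rw [this]
  linarith

end Pool.Agent.Helper902.GP
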