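import Mathlib
import Pool.Agent.Helper902.GPNoC0
import Pool.Agent.Helper902.GPLim

set_option autoImplicit false
open Filter Topology
open scoped ENNReal ZeroAtInfty

namespace Pool.Agent.Helper902.GP

/-- main sequence lemma in the algebraic space -/
lemma dist_tendsto (a : ℕ → A) (M : ℝ)
    (hM : ∀ F : Finset ℕ, ‖Lam (∑ n ∈ F, a n)‖ ≤ M) (δ : ℝ) (hδ : 0 < δ) :
    ∀ᶠ n in atTop, ∃ x : H, ‖Lam (a n) - eLin x‖ < δ := by
  -- step 1
  have s1 : ∀ k : ℕ, ∀ δ : ℝ, 0 < δ → ∀ᶠ n in atTop, ∀ Φ : Finset (Set ℕ),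
      ∑ B ∈ Φ, |(a n).2 (k, B)| ≤ δ := by
    intro k δ hδ
    refine gliding (fun (B : Set ℕ) (b : A) => |b.2 (k, B)|) (fun _ _ => abs_nonneg _)
      (fun B b b' => by simpa using abs_add_le _ _) (fun B b => by simp) a ((k + 1 : ℝ) * M)
      (fun F Φ => ?_) (fun B => ?_) δ hδ
    · exact (sum_coeff_le _ k Φ).trans (mul_le_mul_of_nonneg_left (hM F) (by positivity))
    · refine tendsto_of_bdd_sums (fun n => (a n).2 (k, B)) ((k + 1 : ℝ) * M) fun F => ?_
      have h1 := sum_coeff_le (∑ n ∈ F, a n) k {B}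
      rw [Finset.sum_singleton] at h1
      have h2 : (∑ n ∈ F, a n).2 (k, B) = ∑ n ∈ F, (a n).2 (k, B) := by
        rw [Prod.snd_sum, Finsupp.finsetSum_apply]
      rw [h2] at h1
      exact h1.trans (mul_le_mul_of_nonneg_left (hM F) (by positivity))
  -- step 2
  have s2 : ∀ k : ℕ, Tendsto (fun n => qs k (a n)) atTop (𝓝 0) := by
    intro k
    rw [Metric.tendsto_atTop]
    intro ε hε
    have hk : (0 : ℝ) < k + 1 := by positivity
    obtain ⟨N, hN⟩ := eventually_atTop.1 (s1 k (ε / (2 * (k + 1))) (by positivity))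
    refine ⟨N, fun n hn => ?_⟩
    rw [Real.dist_eq, sub_zero, abs_of_nonneg (qs_nonneg _ _)]
    have : qs k (a n) ≤ (k + 1 : ℝ) * (ε / (2 * (k + 1))) :=
      ciSup_le fun g => ev_le (a n) k g.1 g.2 _ (hN n hn)
    have e : (k + 1 : ℝ) * (ε / (2 * (k + 1))) = ε / 2 := by field_simp
    linarith
  -- step 3
  have s3 := gliding (fun (k : ℕ) (b : A) => qs k b) (fun _ _ => qs_nonneg _ _)
    (fun k b b' => qs_add k b b') (fun k b => qs_neg k b) a M
    (fun F Φ => (sum_qs_le _ Φ).trans (hM F)) s2 (δ / 2) (by positivity)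
  filter_upwards [s3] with n hn
  exact dist_le (a n) (δ / 2) δ hn (by linarith)

/-- the unit vectors of `c₀` -/
noncomputable def c0e (n : ℕ) : (ℕ →C₀ ℝ) :=
  ⟨⟨fun m => if m = n then 1 else 0, continuous_of_discreteTopology⟩, by
    rw [cocompact_eq_cofinite]
    refine (tendsto_congr' ?_).2 (tendsto_const_nhds (x := (0 : ℝ)))
    have : ∀ᶠ m in cofinite, m ≠ n := (Set.finite_singleton n).compl_mem_cofinite
    filter_upwards [this] with m hm
    simp [hm]⟩

lemma c0e_apply (n m : ℕ) : c0e n m = if m = n then 1 else 0 := rfl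

lemma c0_norm_le (f : ℕ →C₀ ℝ) (C : ℝ) (hC : 0 ≤ C) (h : ∀ m, |f m| ≤ C) : ‖f‖ ≤ C := by
  rw [← ZeroAtInftyContinuousMap.norm_toBCF_eq_norm]
  exact (BoundedContinuousFunction.norm_le hC).2 h

lemma c0_le_norm (f : ℕ →C₀ ℝ) (m : ℕ) : |f m| ≤ ‖f‖ := by
  rw [← ZeroAtInftyContinuousMap.norm_toBCF_eq_norm]
  exact BoundedContinuousFunction.norm_coe_le_norm f.toBCF m

lemma c0_sum (F : Finset ℕ) (ε : ℕ → ℝ) (hε : ∀ n, |ε n| ≤ 1) : ‖∑ n ∈ F, ε n • c0e n‖ ≤ 1 := by
  classical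
  refine c0_norm_le _ _ zero_le_one fun m => ?_
  have h : (∑ n ∈ F, ε n • c0e n) m = ∑ n ∈ F, ε n * (if m = n then 1 else 0) := by
    induction F using Finset.induction_on with
    | empty => simp
    | insert a F ha ih =>
      rw [Finset.sum_insert ha, Finset.sum_insert ha, ZeroAtInftyContinuousMap.add_apply, ih,
        ZeroAtInftyContinuousMap.smul_apply, c0e_apply, smul_eq_mul]
  rw [h]
  simp only [mul_ite, mul_one, mul_zero, Finset.sum_ite_eq]
  split_ifs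
  · exact hε m
  · simp

lemma c0e_norm (n : ℕ) : 1 ≤ ‖c0e n‖ := by
  have := c0_le_norm (c0e n) n
  simpa [c0e_apply] using this

lemma sum_geom_le (F : Finset ℕ) (η : ℝ) (hη : 0 ≤ η) : ∑ n ∈ F, η * (1 / 2 : ℝ) ^ n ≤ 2 * η := by
  have h1 : Summable (fun n : ℕ => η * (1 / 2 : ℝ) ^ n) := summable_geometric_two.mul_left η
  refine (h1.sum_le_tsum F fun n _ => by positivity).trans ?_
  rw [tsum_mul_left, tsum_geometric_two]
  linarith

/-- no copy of `c₀` -/
theorem no_c0 : ¬ ∃ (T : (ℕ →C₀ ℝ) →L[ℝ] X) (c : ℝ), 0 < c ∧ ∀ x, ‖x‖ ≤ c * ‖T x‖ := by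
  classical
  rintro ⟨T, c, hc, hT⟩
  set η : ℝ := 1 / c with hη
  have hηpos : 0 < η := by positivity
  have hu : ∀ n, η ≤ ‖T (c0e n)‖ := by
    intro n
    have := hT (c0e n)
    have h1 := c0e_norm n
    rw [hη, div_le_iff₀ hc]
    linarith [mul_comm c ‖T (c0e n)‖]
  -- approximations
  have happ : ∀ n, ∃ a : A, ‖((T (c0e n) : X) : V) - Lam a‖ ≤ (η / 16) * (1 / 2 : ℝ) ^ n := by
    intro n
    have hmem : ((T (c0e n) : X) : V) ∈ closure ((LinearMap.range Lam : Submodule ℝ V) : Set V) := by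
      have := (T (c0e n)).2
      simpa [XS, Submodule.topologicalClosure_coe] using this
    obtain ⟨v, ⟨a, rfl⟩, hv⟩ := Metric.mem_closure_iff.1 hmem ((η / 16) * (1 / 2 : ℝ) ^ n) (by positivity)
    refine ⟨a, ?_⟩
    rw [dist_eq_norm] at hv
    exact hv.le
  choose a ha using happ
  set M : ℝ := ‖T‖ + η / 8 with hMdef
  have hM : ∀ (F : Finset ℕ) (ε : ℕ → ℝ), (∀ n, |ε n| ≤ 1) → ‖Lam (∑ n ∈ F, ε n • a n)‖ ≤ M := by
    intro F ε hε
    have e1 : Lam (∑ n ∈ F, ε n • a n) = ((T (∑ n ∈ F, ε n • c0e n) : X) : V)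
        - ∑ n ∈ F, ε n • (((T (c0e n) : X) : V) - Lam (a n)) := by
      simp only [map_sum, map_smul, smul_sub, Finset.sum_sub_distrib, Submodule.coe_sum,
        Submodule.coe_smul]
      abel
    rw [e1]
    refine (norm_sub_le _ _).trans (add_le_add ?_ ?_)
    · have : ‖((T (∑ n ∈ F, ε n • c0e n) : X) : V)‖ = ‖T (∑ n ∈ F, ε n • c0e n)‖ := rfl
      rw [this]
      calc ‖T (∑ n ∈ F, ε n • c0e n)‖ ≤ ‖T‖ * ‖∑ n ∈ F, ε n • c0e n‖ := T.le_opNorm _
        _ ≤ ‖T‖ * 1 := by gcongr; exact c0_sum F ε hε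
        _ = ‖T‖ := mul_one _
    · calc ‖∑ n ∈ F, ε n • (((T (c0e n) : X) : V) - Lam (a n))‖
          ≤ ∑ n ∈ F, ‖ε n • (((T (c0e n) : X) : V) - Lam (a n))‖ := norm_sum_le _ _
        _ ≤ ∑ n ∈ F, (η / 16) * (1 / 2 : ℝ) ^ n := by
            refine Finset.sum_le_sum fun n _ => ?_
            rw [norm_smul, Real.norm_eq_abs]
            calc |ε n| * ‖((T (c0e n) : X) : V) - Lam (a n)‖
                ≤ 1 * ((η / 16) * (1 / 2 : ℝ) ^ n) := mul_le_mul (hε n) (ha n) (norm_nonneg _) zero_le_one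
              _ = _ := one_mul _
        _ ≤ 2 * (η / 16) := sum_geom_le F _ (by positivity)
        _ = η / 8 := by ring
  have hlow : ∀ n, η * (15 / 16) ≤ ‖Lam (a n)‖ := by
    intro n
    have h1 : ‖((T (c0e n) : X) : V)‖ = ‖T (c0e n)‖ := rfl
    have h2 : ‖((T (c0e n) : X) : V)‖ ≤ ‖((T (c0e n) : X) : V) - Lam (a n)‖ + ‖Lam (a n)‖ := by
      simpa using norm_add_le (((T (c0e n) : X) : V) - Lam (a n)) (Lam (a n))
    have h3 : (η / 16) * (1 / 2 : ℝ) ^ n ≤ η / 16 := by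
      have : (1 / 2 : ℝ) ^ n ≤ 1 := pow_le_one₀ (by norm_num) (by norm_num)
      have hp : 0 ≤ η / 16 := by positivity
      nlinarith
    have := ha n
    have := hu n
    linarith
  -- passing to a subsequence
  have hev : ∀ j : ℕ, ∀ᶠ n in atTop, ∃ x : H, ‖Lam (a n) - eLin x‖ < (η / 16) * (1 / 2 : ℝ) ^ j := by
    intro j
    refine dist_tendsto a M (fun F => ?_) _ (by positivity)
    have := hM F (fun _ => 1) (fun _ => by simp)
    simpa using this
  obtain ⟨φ, hφ, hx⟩ := extraction_forall_of_eventually hev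
  choose x hx using hx
  have hxlow : ∀ j, η / 2 ≤ ‖x j‖ := by
    intro j
    rw [← norm_eLin]
    have h2 : ‖Lam (a (φ j))‖ ≤ ‖Lam (a (φ j)) - eLin (x j)‖ + ‖eLin (x j)‖ := by
      simpa using norm_add_le (Lam (a (φ j)) - eLin (x j)) (eLin (x j))
    have h3 : (η / 16) * (1 / 2 : ℝ) ^ j ≤ η / 16 := by
      have : (1 / 2 : ℝ) ^ j ≤ 1 := pow_le_one₀ (by norm_num) (by norm_num)
      have hp : 0 ≤ η / 16 := by positivity
      nlinarith
    have := hx j
    have := hlow (φ j)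
    linarith
  have hxup : ∀ (n : ℕ) (ε : ℕ → ℝ), (∀ i, |ε i| ≤ 1) →
      ‖∑ i ∈ Finset.range n, ε i • x i‖ ≤ M + η / 8 := by
    intro n ε hε
    rw [← norm_eLin]
    have e1 : eLin (∑ i ∈ Finset.range n, ε i • x i) = Lam (∑ i ∈ Finset.range n, ε i • a (φ i))
        - ∑ i ∈ Finset.range n, ε i • (Lam (a (φ i)) - eLin (x i)) := by
      simp only [map_sum, map_smul, smul_sub, Finset.sum_sub_distrib]
      abel
    rw [e1]
    refine (norm_sub_le _ _).trans (add_le_add ?_ ?_)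
    · -- reindex
      have e2 : ∑ i ∈ Finset.range n, ε i • a (φ i)
          = ∑ k ∈ (Finset.range n).map ⟨φ, hφ.injective⟩,
              (if h : ∃ i, φ i = k then ε h.choose else 0) • a k := by
        rw [Finset.sum_map]
        refine Finset.sum_congr rfl fun i _ => ?_
        have h : ∃ i', φ i' = φ i := ⟨i, rfl⟩
        simp only [Function.Embedding.coeFn_mk, dif_pos h]
        rw [hφ.injective h.choose_spec]
      rw [e2]
      refine hM _ _ fun k => ?_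
      split_ifs with h
      · exact hε _
      · simp
    · calc ‖∑ i ∈ Finset.range n, ε i • (Lam (a (φ i)) - eLin (x i))‖
          ≤ ∑ i ∈ Finset.range n, ‖ε i • (Lam (a (φ i)) - eLin (x i))‖ := norm_sum_le _ _
        _ ≤ ∑ i ∈ Finset.range n, (η / 16) * (1 / 2 : ℝ) ^ i := by
            refine Finset.sum_le_sum fun i _ => ?_
            rw [norm_smul, Real.norm_eq_abs]
            calc |ε i| * ‖Lam (a (φ i)) - eLin (x i)‖
                ≤ 1 * ((η / 16) * (1 / 2 : ℝ) ^ i) :=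
                  mul_le_mul (hε i) (hx i).le (norm_nonneg _) zero_le_one
              _ = _ := one_mul _
        _ ≤ 2 * (η / 16) := sum_geom_le _ _ (by positivity)
        _ = η / 8 := by ring
  obtain ⟨n, hn⟩ := exists_nat_gt ((M + η / 8) ^ 2 / (η / 2) ^ 2)
  obtain ⟨ε, h1, h2⟩ := exists_signs x n
  have h3 := hxup n ε h1
  have h4 : ∑ i ∈ Finset.range n, (η / 2) ^ 2 ≤ ∑ i ∈ Finset.range n, ‖x i‖ ^ 2 :=
    Finset.sum_le_sum fun i _ => pow_le_pow_left₀ (by positivity) (hxlow i) 2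
  rw [Finset.sum_const, Finset.card_range, nsmul_eq_mul] at h4
  have h5 : ‖∑ i ∈ Finset.range n, ε i • x i‖ ^ 2 ≤ (M + η / 8) ^ 2 :=
    pow_le_pow_left₀ (norm_nonneg _) h3 2
  rw [div_lt_iff₀ (by positivity)] at hn
  linarith

end Pool.Agent.Helper902.GP
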