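import Mathlib

set_option autoImplicit false

open Filter Topology
open scoped ENNReal

namespace Pool.Agent.Helper902.James

/-- Index set: a monotone sequence of natural numbers together with a length. -/
abbrev Idx : Type := (ℕ →o ℕ) × ℕ

abbrev Fib (i : Idx) : Type := EuclideanSpace ℝ (Fin i.2)

/-- the vector of successive differences of `x` along the monotone sequence -/
noncomputable def S (i : Idx) : (ℕ → ℝ) →ₗ[ℝ] Fib i where
  toFun x := WithLp.toLp 2 (fun j : Fin i.2 => x (i.1 (j+1)) - x (i.1 j))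
  map_add' x y := by
    ext j; simp; ring
  map_smul' c x := by
    ext j; simp; ring

/-- the quadratic variation along a monotone sequence -/
def va (x : ℕ → ℝ) (i : Idx) : ℝ := ∑ j ∈ Finset.range i.2, (x (i.1 (j+1)) - x (i.1 j)) ^ 2

theorem norm_S_sq (i : Idx) (x : ℕ → ℝ) : ‖S i x‖ ^ 2 = va x i := by
  rw [EuclideanSpace.real_norm_sq_eq, va, Finset.sum_range]
  rfl

theorem va_nonneg (x : ℕ → ℝ) (i : Idx) : 0 ≤ va x i := Finset.sum_nonneg fun _ _ => sq_nonneg _

theorem norm_S_le_iff (i : Idx) (x : ℕ → ℝ) (C : ℝ) (hC : 0 ≤ C) : ‖S i x‖ ≤ C ↔ va x i ≤ C ^ 2 := by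
  rw [← norm_S_sq]
  exact ⟨fun h => pow_le_pow_left₀ (norm_nonneg _) h 2, fun h => abs_le_of_sq_le_sq' h hC |>.2⟩

theorem continuous_S (i : Idx) : Continuous (fun x : ℕ → ℝ => S i x) := by
  unfold S
  simp only [LinearMap.coe_mk, AddHom.coe_mk]
  apply (PiLp.continuous_toLp 2 _).comp
  fun_prop

/-- the sequence `0, n, n, n, ...` -/
def q0 (n : ℕ) : ℕ →o ℕ := ⟨fun j => if j = 0 then 0 else n, by
  intro a b hab
  by_cases ha : a = 0
  · simp [ha]
  · have hb : b ≠ 0 := by omega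
    simp [ha, hb]⟩

/-- the coordinates -/
noncomputable def crd (F : lp Fib ∞) (n : ℕ) : ℝ := F (q0 n, 1) 0

/-- The James space (bounded quadratic variation, `x 0 = 0`), as a closed subspace of an
`ℓ^∞`-sum of Euclidean spaces. -/
noncomputable def JSub : Submodule ℝ (lp Fib ∞) where
  carrier := {F | ∀ i, F i = S i (crd F)}
  add_mem' := by
    intro F G hF hG i
    have : crd (F + G) = crd F + crd G := by funext n; rfl
    rw [this, map_add, ← hF i, ← hG i]; rfl
  zero_mem' := by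
    intro i
    have : crd (0 : lp Fib ∞) = 0 := by funext n; rfl
    rw [this, map_zero]; rfl
  smul_mem' := by
    intro c F hF i
    have : crd (c • F) = c • crd F := by funext n; rfl
    rw [this, map_smul, ← hF i]; rfl

theorem continuous_apply_lp (i : Idx) : Continuous (fun F : lp Fib ∞ => F i) := by
  rw [Metric.continuous_iff]
  intro F ε hε
  refine ⟨ε, hε, fun G hG => ?_⟩
  have h1 : dist (G i) (F i) ≤ dist G F := by
    rw [dist_eq_norm, dist_eq_norm]
    exact lp.norm_apply_le_norm (by simp) (G - F) i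
  linarith

theorem continuous_crd : Continuous (fun F : lp Fib ∞ => crd F) := by
  refine continuous_pi fun n => ?_
  exact (EuclideanSpace.proj (0 : Fin 1)).continuous.comp (continuous_apply_lp (q0 n, 1))

theorem JSub_closed : IsClosed (JSub : Set (lp Fib ∞)) := by
  have : (JSub : Set (lp Fib ∞)) = ⋂ i, {F : lp Fib ∞ | F i = S i (crd F)} := by
    ext F
    simp only [Set.mem_iInter]
    exact Iff.rfl
  rw [this]
  refine isClosed_iInter fun i => isClosed_eq (continuous_apply_lp i) ?_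
  exact (continuous_S i).comp continuous_crd

/-- The James space. -/
def J : Type := JSub

noncomputable instance : NormedAddCommGroup J := inferInstanceAs (NormedAddCommGroup JSub)
noncomputable instance : NormedSpace ℝ J := inferInstanceAs (NormedSpace ℝ JSub)
instance : CompleteSpace J := JSub_closed.completeSpace_coe

/-- the coordinate sequence of an element of `J` -/
noncomputable def co (x : J) : ℕ → ℝ := crd x.1

theorem co_zero_idx (x : J) : co x 0 = 0 := by
  have h := x.2 (q0 0, 1)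
  have h2 : co x 0 = (x.1 (q0 0, 1)) 0 := rfl
  rw [h2, h]
  simp [S, q0]

theorem co_add (x y : J) : co (x + y) = co x + co y := by funext n; rfl
theorem co_smul (c : ℝ) (x : J) : co (c • x) = c • co x := by funext n; rfl
theorem co_sub (x y : J) : co (x - y) = co x - co y := by funext n; rfl
theorem co_neg (x : J) : co (-x) = - co x := by funext n; rfl
theorem co_z : co (0 : J) = 0 := by funext n; rfl

theorem apply_eq (x : J) (i : Idx) : x.1 i = S i (co x) := x.2 i

theorem S_co_le (x : J) (i : Idx) : ‖S i (co x)‖ ≤ ‖x‖ := by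
  rw [← apply_eq]
  exact lp.norm_apply_le_norm (by simp) x.1 i

theorem va_co_le (x : J) (i : Idx) : va (co x) i ≤ ‖x‖ ^ 2 :=
  (norm_S_le_iff i _ _ (norm_nonneg _)).1 (S_co_le x i)

theorem norm_le (x : J) (C : ℝ) (hC : 0 ≤ C) (h : ∀ i, va (co x) i ≤ C ^ 2) : ‖x‖ ≤ C := by
  refine lp.norm_le_of_forall_le hC (f := x.1) fun i => ?_
  rw [apply_eq]
  exact (norm_S_le_iff i _ _ hC).2 (h i)

theorem co_inj {x y : J} (h : co x = co y) : x = y := by
  apply Subtype.ext
  ext1
  funext i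
  rw [apply_eq, apply_eq, h]

/-- constructor -/
theorem exists_mk (x : ℕ → ℝ) (h0 : x 0 = 0) (C : ℝ) (hC : 0 ≤ C) (h : ∀ i, va x i ≤ C ^ 2) :
    ∃ X : J, co X = x ∧ ‖X‖ ≤ C := by
  have hb : ∀ i, ‖S i x‖ ≤ C := fun i => (norm_S_le_iff i _ _ hC).2 (h i)
  let F : lp Fib ∞ := ⟨fun i => S i x, memℓp_infty ⟨C, by rintro _ ⟨i, rfl⟩; exact hb i⟩⟩
  have hF : crd F = x := by
    funext n
    change (S (q0 n, 1) x) 0 = x n
    simp [S, q0, h0]
  refine ⟨⟨F, fun i => by rw [hF]⟩, hF, ?_⟩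
  exact lp.norm_le_of_forall_le hC (f := F) fun i => hb i

/-- the step sequence `n ↦ (n = 0 ? a : b)` index with one step -/
def q2 (a b : ℕ) (h : a ≤ b) : ℕ →o ℕ := ⟨fun j => if j = 0 then a else b, by
  intro c d hcd
  by_cases ha : c = 0
  · by_cases hd : d = 0 <;> simp [ha, hd, h]
  · have hb : d ≠ 0 := by omega
    simp [ha, hb]⟩

theorem abs_co_sub_le (x : J) (m n : ℕ) : |co x n - co x m| ≤ ‖x‖ := by
  wlog h : m ≤ n generalizing m n
  · rw [abs_sub_comm]; exact this n m (by omega)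
  have h1 := va_co_le x (q2 m n h, 1)
  simp only [va, Finset.range_one, Finset.sum_singleton, q2, OrderHom.coe_mk] at h1
  simp at h1
  exact abs_le_of_sq_le_sq h1 (norm_nonneg _)

theorem abs_co_le (x : J) (n : ℕ) : |co x n| ≤ ‖x‖ := by
  have := abs_co_sub_le x 0 n
  rwa [co_zero_idx, sub_zero] at this


/-- post-composition of a monotone sequence with a monotone map -/
def cp (g : ℕ →o ℕ) (i : Idx) : Idx := (g.comp i.1, i.2)

theorem va_comp (x : ℕ → ℝ) (g : ℕ →o ℕ) (i : Idx) : va (fun n => x (g n)) i = va x (cp g i) := rfl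

def minO (m : ℕ) : ℕ →o ℕ := ⟨fun n => min n m, fun _ _ h => min_le_min_right m h⟩
def maxO (m : ℕ) : ℕ →o ℕ := ⟨fun n => max n m, fun _ _ h => max_le_max_right m h⟩

/-- truncation: `n ↦ x (min n m)` -/
theorem exists_trunc (x : J) (m : ℕ) : ∃ y : J, co y = (fun n => co x (min n m)) ∧ ‖y‖ ≤ ‖x‖ :=
  exists_mk _ (by simp [co_zero_idx]) _ (norm_nonneg x) fun i => by
    change va (fun n => co x (minO m n)) i ≤ _
    rw [va_comp]; exact va_co_le x _

noncomputable def tr (x : J) (m : ℕ) : J := (exists_trunc x m).choose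
theorem co_tr (x : J) (m n : ℕ) : co (tr x m) n = co x (min n m) :=
  congrFun (exists_trunc x m).choose_spec.1 n
theorem norm_tr_le (x : J) (m : ℕ) : ‖tr x m‖ ≤ ‖x‖ := (exists_trunc x m).choose_spec.2

theorem co_sub_tr (x : J) (m n : ℕ) : co (x - tr x m) n = co x (max n m) - co x m := by
  rw [co_sub, Pi.sub_apply, co_tr]
  rcases le_total n m with h | h
  · simp [h]
  · simp [h]

theorem va_sub_tr (x : J) (m : ℕ) (i : Idx) : va (co (x - tr x m)) i = va (co x) (cp (maxO m) i) := by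
  have : va (co (x - tr x m)) i = va (fun n => co x (max n m) - co x m) i := by
    congr 1; funext n; exact co_sub_tr x m n
  rw [this]
  unfold va
  apply Finset.sum_congr rfl
  intro j _
  simp only [cp, maxO, OrderHom.comp_coe, Function.comp_apply, OrderHom.coe_mk]
  ring

theorem norm_sub_tr_le (x : J) (m : ℕ) : ‖x - tr x m‖ ≤ ‖x‖ :=
  norm_le _ _ (norm_nonneg x) fun i => by rw [va_sub_tr]; exact va_co_le x _

/-- concatenation -/
def cat (q : ℕ →o ℕ) (k : ℕ) (q' : ℕ →o ℕ) (h : ∀ j, q k ≤ q' j) : ℕ →o ℕ :=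
  ⟨fun j => if j ≤ k then q j else q' (j - (k+1)), by
    intro a b hab
    by_cases hb : b ≤ k
    · have ha : a ≤ k := le_trans hab hb
      simp only [ha, hb, if_true]
      exact q.monotone hab
    · by_cases ha : a ≤ k
      · simp only [ha, hb, if_true, if_false]
        exact (q.monotone ha).trans (h _)
      · simp only [ha, hb, if_false]
        exact q'.monotone (by omega)⟩

theorem va_cat (x : ℕ → ℝ) (q : ℕ →o ℕ) (k : ℕ) (q' : ℕ →o ℕ) (h : ∀ j, q k ≤ q' j) (k' : ℕ) :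
    va x (q, k) + va x (q', k') ≤ va x (cat q k q' h, k + 1 + k') := by
  unfold va
  simp only
  rw [Finset.sum_range_add, Finset.sum_range_succ]
  have h1 : ∑ j ∈ Finset.range k, (x ((cat q k q' h) (j+1)) - x ((cat q k q' h) j)) ^ 2
      = ∑ j ∈ Finset.range k, (x (q (j+1)) - x (q j)) ^ 2 := by
    apply Finset.sum_congr rfl
    intro j hj
    have hj' : j < k := Finset.mem_range.1 hj
    have e1 : (cat q k q' h) (j+1) = q (j+1) := by
      change (if j + 1 ≤ k then q (j+1) else q' (j + 1 - (k+1))) = _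
      rw [if_pos (by omega)]
    have e2 : (cat q k q' h) j = q j := by
      change (if j ≤ k then q j else q' (j - (k+1))) = _
      rw [if_pos (by omega)]
    rw [e1, e2]
  have h2 : ∑ j ∈ Finset.range k', (x ((cat q k q' h) (k + 1 + j+1)) - x ((cat q k q' h) (k + 1 + j))) ^ 2
      = ∑ j ∈ Finset.range k', (x (q' (j+1)) - x (q' j)) ^ 2 := by
    apply Finset.sum_congr rfl
    intro j hj
    have e1 : (cat q k q' h) (k+1+j+1) = q' (j+1) := by
      change (if k+1+j + 1 ≤ k then q (k+1+j+1) else q' (k+1+j + 1 - (k+1))) = _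
      rw [if_neg (by omega)]; congr 1; omega
    have e2 : (cat q k q' h) (k+1+j) = q' j := by
      change (if k+1+j ≤ k then q (k+1+j) else q' (k+1+j - (k+1))) = _
      rw [if_neg (by omega)]; congr 1; omega
    rw [e1, e2]
  rw [h1, h2]
  have h3 := sq_nonneg (x ((cat q k q' h) (k+1)) - x ((cat q k q' h) k))
  linarith

theorem exists_va_gt (x : J) (a : ℝ) (ha : a < ‖x‖ ^ 2) (hx : 0 ≤ a) : ∃ i, a < va (co x) i := by
  by_contra hcon
  push Not at hcon
  have h1 : ‖x‖ ≤ Real.sqrt a := norm_le x _ (Real.sqrt_nonneg _) fun i => by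
    rw [Real.sq_sqrt hx]; exact hcon i
  have h2 : ‖x‖ ^ 2 ≤ a := by
    calc ‖x‖ ^ 2 ≤ (Real.sqrt a) ^ 2 := pow_le_pow_left₀ (norm_nonneg _) h1 2
      _ = a := Real.sq_sqrt hx
  linarith

/-- tails tend to zero -/
theorem tail_small (x : J) (δ : ℝ) (hδ : 0 < δ) : ∃ m₀, ∀ m ≥ m₀, ‖x - tr x m‖ ≤ δ := by
  by_cases hsm : ‖x‖ ≤ δ
  · exact ⟨0, fun m _ => (norm_sub_tr_le x m).trans hsm⟩
  push Not at hsm
  have h0 : 0 ≤ ‖x‖ ^ 2 - δ ^ 2 := by nlinarith
  obtain ⟨⟨q, k⟩, hq⟩ := exists_va_gt x (‖x‖ ^ 2 - δ ^ 2) (by nlinarith) h0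
  refine ⟨q k, fun m hm => norm_le _ _ hδ.le fun i => ?_⟩
  rw [va_sub_tr]
  have h1 := va_cat (co x) q k ((maxO m).comp i.1) (fun j => by
    change q k ≤ max (i.1 j) m
    exact hm.trans (le_max_right _ _)) i.2
  have h2 := va_co_le x (cat q k ((maxO m).comp i.1) (fun j => by
    change q k ≤ max (i.1 j) m
    exact hm.trans (le_max_right _ _)), k + 1 + i.2)
  have h3 : va (co x) (cp (maxO m) i) = va (co x) ((maxO m).comp i.1, i.2) := rfl
  rw [h3]
  linarith

theorem cauchy_co (x : J) : CauchySeq (co x) := by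
  rw [Metric.cauchySeq_iff']
  intro ε hε
  obtain ⟨m₀, h⟩ := tail_small x (ε/2) (by positivity)
  refine ⟨m₀, fun n hn => ?_⟩
  have h1 := abs_co_le (x - tr x m₀) n
  rw [co_sub_tr, max_eq_left hn] at h1
  rw [Real.dist_eq]
  have := h m₀ le_rfl
  linarith

theorem exists_lim (x : J) : ∃ l, Tendsto (co x) atTop (𝓝 l) := cauchySeq_tendsto_of_complete (cauchy_co x)

noncomputable def limv (x : J) : ℝ := (exists_lim x).choose
theorem tendsto_limv (x : J) : Tendsto (co x) atTop (𝓝 (limv x)) := (exists_lim x).choose_spec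

theorem limv_eq {x : J} {l : ℝ} (h : Tendsto (co x) atTop (𝓝 l)) : limv x = l :=
  tendsto_nhds_unique (tendsto_limv x) h

theorem abs_limv_le (x : J) : |limv x| ≤ ‖x‖ :=
  le_of_tendsto (tendsto_limv x).abs (Eventually.of_forall fun n => abs_co_le x n)

/-- the limit functional -/
noncomputable def L : J →L[ℝ] ℝ :=
  LinearMap.mkContinuous
    { toFun := limv
      map_add' := fun x y => limv_eq (by rw [co_add]; exact (tendsto_limv x).add (tendsto_limv y))
      map_smul' := fun c x => limv_eq (by rw [co_smul]; exact (tendsto_limv x).const_smul c) }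
    1 (fun x => by simpa using abs_limv_le x)

theorem L_apply (x : J) : L x = limv x := rfl

/-- coordinate functionals -/
noncomputable def e (n : ℕ) : J →L[ℝ] ℝ :=
  LinearMap.mkContinuous
    { toFun := fun x => co x n
      map_add' := fun x y => by rw [co_add]; rfl
      map_smul' := fun c x => by rw [co_smul]; rfl }
    1 (fun x => by simpa using abs_co_le x n)

theorem e_apply (n : ℕ) (x : J) : e n x = co x n := rfl

/-- the step functions `u m = 1_{(m, ∞)}` -/
theorem exists_u (m : ℕ) : ∃ y : J, co y = (fun n => if m < n then 1 else 0) ∧ ‖y‖ ≤ 1 :=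
  exists_mk _ (by simp) 1 zero_le_one fun i => by
    have h1 : ∀ k, ∑ j ∈ Finset.range k, ((if m < i.1 (j+1) then (1:ℝ) else 0) - (if m < i.1 j then (1:ℝ) else 0)) ^ 2
        = (if m < i.1 k then (1:ℝ) else 0) - (if m < i.1 0 then (1:ℝ) else 0) := by
      intro k
      induction k with
      | zero => simp
      | succ k ih =>
        rw [Finset.sum_range_succ, ih]
        have hm := i.1.monotone (Nat.le_succ k)
        by_cases h1 : m < i.1 k
        · have h2 : m < i.1 (k+1) := lt_of_lt_of_le h1 hm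
          simp [h1, h2]
        · by_cases h2 : m < i.1 (k+1)
          · simp [h1, h2]; ring
          · simp [h1, h2]
    unfold va
    rw [h1]
    split_ifs <;> norm_num

noncomputable def u (m : ℕ) : J := (exists_u m).choose
theorem co_u (m n : ℕ) : co (u m) n = if m < n then 1 else 0 := congrFun (exists_u m).choose_spec.1 n
theorem norm_u_le (m : ℕ) : ‖u m‖ ≤ 1 := (exists_u m).choose_spec.2

theorem L_u (m : ℕ) : L (u m) = 1 := by
  rw [L_apply]
  apply limv_eq
  apply tendsto_const_nhds.congr'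
  filter_upwards [eventually_gt_atTop m] with n hn
  rw [co_u, if_pos hn]

theorem tr_eq_sum (x : J) (m : ℕ) : tr x m = ∑ i ∈ Finset.range m, (co x (i+1) - co x i) • u i := by
  induction m with
  | zero =>
    apply co_inj
    funext n
    rw [co_tr]
    simp [co_z, co_zero_idx]
  | succ m ih =>
    rw [Finset.sum_range_succ, ← ih]
    apply co_inj
    funext n
    rw [co_add, Pi.add_apply, co_smul, Pi.smul_apply, co_tr, co_tr, co_u]
    by_cases h : m < n
    · rw [min_eq_right (by omega : m + 1 ≤ n), min_eq_right (by omega : m ≤ n), if_pos h]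
      simp
    · rw [min_eq_left (by omega : n ≤ m + 1), min_eq_left (by omega : n ≤ m), if_neg h]
      simp


/-- pointwise estimate behind the upper `2`-estimate -/
theorem sq_sum_le_two (K : Finset ℕ) (a b : ℕ → ℝ)
    (ha : ∀ k ∈ K, ∀ l ∈ K, k ≠ l → a k = 0 ∨ a l = 0)
    (hb : ∀ k ∈ K, ∀ l ∈ K, k ≠ l → b k = 0 ∨ b l = 0) :
    (∑ k ∈ K, (a k - b k)) ^ 2 ≤ 2 * ∑ k ∈ K, (a k - b k) ^ 2 := by
  classical
  set T := K.filter (fun k => a k - b k ≠ 0) with hT
  have h1 : ∑ k ∈ K, (a k - b k) = ∑ k ∈ T, (a k - b k) := by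
    rw [hT, Finset.sum_filter_ne_zero]
  have hcard : T.card ≤ 2 := by
    by_contra hcon
    push Not at hcon
    obtain ⟨x, hx, y, hy, z, hz, hxy, hxz, hyz⟩ := Finset.two_lt_card.1 hcon
    rw [hT, Finset.mem_filter] at hx hy hz
    have a1 := ha x hx.1 y hy.1 hxy
    have a2 := ha x hx.1 z hz.1 hxz
    have a3 := ha y hy.1 z hz.1 hyz
    have b1 := hb x hx.1 y hy.1 hxy
    have b2 := hb x hx.1 z hz.1 hxz
    have b3 := hb y hy.1 z hz.1 hyz
    have hx2 := hx.2
    have hy2 := hy.2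
    have hz2 := hz.2
    rcases a1 with a1 | a1 <;> rcases a2 with a2 | a2 <;> rcases a3 with a3 | a3 <;>
      rcases b1 with b1 | b1 <;> rcases b2 with b2 | b2 <;> rcases b3 with b3 | b3 <;>
      simp_all
  have h2 : (∑ k ∈ T, (a k - b k)) ^ 2 ≤ T.card * ∑ k ∈ T, (a k - b k) ^ 2 := sq_sum_le_card_mul_sum_sq
  have h3 : ∑ k ∈ T, (a k - b k) ^ 2 ≤ ∑ k ∈ K, (a k - b k) ^ 2 :=
    Finset.sum_le_sum_of_subset_of_nonneg (Finset.filter_subset _ _) fun _ _ _ => sq_nonneg _
  have h4 : (0:ℝ) ≤ ∑ k ∈ T, (a k - b k) ^ 2 := Finset.sum_nonneg fun _ _ => sq_nonneg _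
  have h5 : (T.card : ℝ) ≤ 2 := by exact_mod_cast hcard
  rw [h1]
  nlinarith

theorem co_sum (K : Finset ℕ) (v : ℕ → J) (n : ℕ) : co (∑ k ∈ K, v k) n = ∑ k ∈ K, co (v k) n := by
  exact map_sum (e n) v K

/-- upper `2`-estimate for disjointly supported vectors -/
theorem norm_sum_sq_le (K : Finset ℕ) (v : ℕ → J)
    (hv : ∀ k ∈ K, ∀ l ∈ K, k ≠ l → ∀ n, co (v k) n = 0 ∨ co (v l) n = 0) :
    ‖∑ k ∈ K, v k‖ ^ 2 ≤ 2 * ∑ k ∈ K, ‖v k‖ ^ 2 := by
  have h0 : 0 ≤ 2 * ∑ k ∈ K, ‖v k‖ ^ 2 := by positivity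
  have h1 : ‖∑ k ∈ K, v k‖ ≤ Real.sqrt (2 * ∑ k ∈ K, ‖v k‖ ^ 2) := by
    refine norm_le _ _ (Real.sqrt_nonneg _) fun i => ?_
    rw [Real.sq_sqrt h0]
    calc va (co (∑ k ∈ K, v k)) i
        = ∑ j ∈ Finset.range i.2, (∑ k ∈ K, (co (v k) (i.1 (j+1)) - co (v k) (i.1 j))) ^ 2 := by
          unfold va
          apply Finset.sum_congr rfl
          intro j _
          rw [co_sum, co_sum, Finset.sum_sub_distrib]
      _ ≤ ∑ j ∈ Finset.range i.2, 2 * ∑ k ∈ K, (co (v k) (i.1 (j+1)) - co (v k) (i.1 j)) ^ 2 := by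
          apply Finset.sum_le_sum
          intro j _
          exact sq_sum_le_two K (fun k => co (v k) (i.1 (j+1))) (fun k => co (v k) (i.1 j))
            (fun k hk l hl hkl => hv k hk l hl hkl _) (fun k hk l hl hkl => hv k hk l hl hkl _)
      _ = 2 * ∑ k ∈ K, va (co (v k)) i := by
          rw [← Finset.mul_sum, Finset.sum_comm]
          rfl
      _ ≤ 2 * ∑ k ∈ K, ‖v k‖ ^ 2 := by
          have := Finset.sum_le_sum (s := K) (fun k _ => va_co_le (v k) i)
          linarith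
  calc ‖∑ k ∈ K, v k‖ ^ 2 ≤ (Real.sqrt (2 * ∑ k ∈ K, ‖v k‖ ^ 2)) ^ 2 :=
        pow_le_pow_left₀ (norm_nonneg _) h1 2
    _ = _ := Real.sq_sqrt h0

/-- Functionals are small on far finitely supported blocks. -/
theorem block_small (f : J →L[ℝ] ℝ) (ε : ℝ) (hε : 0 < ε) :
    ∃ m₀, ∀ m ≥ m₀, ∀ v : J, (∀ n ≤ m, co v n = 0) → (∃ M, ∀ n > M, co v n = 0) →
      |f v| ≤ ε * ‖v‖ := by
  by_contra hcon
  push Not at hcon
  have key : ∀ m₀ : ℕ, ∃ w : J, ∃ M : ℕ, m₀ ≤ M ∧ (∀ n ≤ m₀, co w n = 0) ∧ (∀ n > M, co w n = 0) ∧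
      ‖w‖ ≤ 1 ∧ ε ≤ f w := by
    intro m₀
    obtain ⟨m, hm, v, hv1, ⟨M, hM⟩, hlt⟩ := hcon m₀
    have hv0 : 0 < ‖v‖ := by
      rcases (norm_nonneg v).eq_or_lt with h | h
      · exfalso
        have : v = 0 := norm_eq_zero.1 h.symm
        rw [this] at hlt
        simp at hlt
      · exact h
    have hw : ∀ s : ℝ, |s| = 1 → s * f v = |f v| → ∃ w : J, ∃ M : ℕ, m₀ ≤ M ∧ (∀ n ≤ m₀, co w n = 0) ∧
        (∀ n > M, co w n = 0) ∧ ‖w‖ ≤ 1 ∧ ε ≤ f w := by
      intro s hs hsf
      refine ⟨(s / ‖v‖) • v, max m₀ M, le_max_left _ _, ?_, ?_, ?_, ?_⟩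
      · intro n hn
        rw [co_smul, Pi.smul_apply, hv1 n (hn.trans hm), smul_zero]
      · intro n hn
        rw [co_smul, Pi.smul_apply, hM n (lt_of_le_of_lt (le_max_right _ _) hn), smul_zero]
      · rw [norm_smul, Real.norm_eq_abs, abs_div, hs, abs_of_pos hv0]
        rw [one_div, inv_mul_cancel₀ hv0.ne']
      · rw [map_smul, smul_eq_mul, div_mul_eq_mul_div, hsf, le_div_iff₀ hv0]
        exact hlt.le
    rcases le_total 0 (f v) with h | h
    · exact hw 1 (by simp) (by rw [abs_of_nonneg h, one_mul])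
    · exact hw (-1) (by simp) (by rw [abs_of_nonpos h]; ring)
  choose W M hM hW1 hW2 hW3 hW4 using key
  let m : ℕ → ℕ := fun k => Nat.rec 0 (fun _ p => M p) k
  have hm : ∀ k, m (k+1) = M (m k) := fun k => rfl
  have hmono : Monotone m := monotone_nat_of_le_succ fun k => by rw [hm]; exact hM _
  have hdisj : ∀ k l, k < l → ∀ n, co (W (m k)) n = 0 ∨ co (W (m l)) n = 0 := by
    intro k l hkl n
    rcases le_or_gt n (m l) with h | h
    · exact Or.inr (hW1 _ n h)
    · left
      apply hW2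
      have : m (k+1) ≤ m l := hmono hkl
      rw [hm] at this
      omega
  obtain ⟨K, hK⟩ := exists_nat_gt (2 * ‖f‖ ^ 2 / ε ^ 2)
  have hest := norm_sum_sq_le (Finset.range K) (fun k => W (m k)) (by
    intro k _ l _ hkl n
    rcases lt_or_gt_of_ne hkl with h | h
    · exact hdisj k l h n
    · exact (hdisj l k h n).symm)
  have h1 : ∑ k ∈ Finset.range K, ‖W (m k)‖ ^ 2 ≤ K := by
    calc ∑ k ∈ Finset.range K, ‖W (m k)‖ ^ 2 ≤ ∑ k ∈ Finset.range K, (1:ℝ) := by
          apply Finset.sum_le_sum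
          intro k _
          exact pow_le_one₀ (norm_nonneg _) (hW3 _)
      _ = K := by simp
  have h2 : (K:ℝ) * ε ≤ f (∑ k ∈ Finset.range K, W (m k)) := by
    rw [map_sum]
    calc (K:ℝ) * ε = ∑ k ∈ Finset.range K, ε := by simp
      _ ≤ _ := Finset.sum_le_sum fun k _ => hW4 _
  have h3 : f (∑ k ∈ Finset.range K, W (m k)) ≤ ‖f‖ * ‖∑ k ∈ Finset.range K, W (m k)‖ :=
    (le_abs_self _).trans (f.le_opNorm _)
  have h4 : ((K:ℝ) * ε) ^ 2 ≤ ‖f‖ ^ 2 * (2 * K) := by
    have h5 : (K:ℝ) * ε ≤ ‖f‖ * ‖∑ k ∈ Finset.range K, W (m k)‖ := h2.trans h3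
    calc ((K:ℝ) * ε) ^ 2 ≤ (‖f‖ * ‖∑ k ∈ Finset.range K, W (m k)‖) ^ 2 :=
          pow_le_pow_left₀ (by positivity) h5 2
      _ = ‖f‖ ^ 2 * ‖∑ k ∈ Finset.range K, W (m k)‖ ^ 2 := by ring
      _ ≤ ‖f‖ ^ 2 * (2 * K) := by
          apply mul_le_mul_of_nonneg_left _ (by positivity)
          linarith
  rw [div_lt_iff₀ (by positivity)] at hK
  have hKpos : (0:ℝ) < K := by
    rcases Nat.eq_zero_or_pos K with h | h
    · exfalso
      rw [h] at hK
      have : 0 ≤ 2 * ‖f‖ ^ 2 := by positivity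
      simp at hK
      linarith
    · exact_mod_cast h
  nlinarith


theorem tendsto_tr (x : J) : Tendsto (fun m => tr x m) atTop (𝓝 x) := by
  rw [Metric.tendsto_atTop]
  intro ε hε
  obtain ⟨m₀, h⟩ := tail_small x (ε/2) (by positivity)
  refine ⟨m₀, fun m hm => ?_⟩
  rw [dist_comm, dist_eq_norm]
  linarith [h m hm]

theorem cauchy_fu (f : J →L[ℝ] ℝ) : CauchySeq (fun m => f (u m)) := by
  rw [Metric.cauchySeq_iff']
  intro ε hε
  obtain ⟨m₀, h⟩ := block_small f (ε/4) (by positivity)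
  refine ⟨m₀, fun n hn => ?_⟩
  have h1 := h m₀ le_rfl (u n - u m₀) (by
    intro k hk
    rw [co_sub, Pi.sub_apply, co_u, co_u, if_neg (by omega), if_neg (by omega), sub_zero]) ⟨n, by
    intro k hk
    rw [co_sub, Pi.sub_apply, co_u, co_u, if_pos (by omega), if_pos (by omega), sub_self]⟩
  have h2 : ‖u n - u m₀‖ ≤ 2 := by
    have := norm_sub_le (u n) (u m₀)
    linarith [norm_u_le n, norm_u_le m₀]
  rw [Real.dist_eq, ← map_sub]
  nlinarith

/-- after subtracting a multiple of the limit functional, a functional is small on tails -/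
theorem exists_tail_small (f : J →L[ℝ] ℝ) :
    ∃ c : ℝ, ∀ ε > 0, ∃ m₀, ∀ y : J, (∀ n ≤ m₀, co y n = 0) → |(f - c • L) y| ≤ ε * ‖y‖ := by
  obtain ⟨c, hc⟩ := cauchySeq_tendsto_of_complete (cauchy_fu f)
  refine ⟨c, fun ε hε => ?_⟩
  obtain ⟨m₀, h⟩ := block_small f (ε/2) (by positivity)
  refine ⟨m₀, fun y hy => ?_⟩
  have hlim : Tendsto (fun M => |f (tr y M - co y M • u M)|) atTop (𝓝 |(f - c • L) y|) := by
    have h1 : Tendsto (fun M => f (tr y M)) atTop (𝓝 (f y)) := (f.continuous.tendsto y).comp (tendsto_tr y)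
    have h2 : Tendsto (fun M => co y M * f (u M)) atTop (𝓝 (limv y * c)) := (tendsto_limv y).mul hc
    have h3 : (f - c • L) y = f y - limv y * c := by
      simp [L_apply, mul_comm]
    rw [h3]
    refine (h1.sub h2).abs.congr fun M => ?_
    rw [map_sub, map_smul, smul_eq_mul]
  refine le_of_tendsto hlim (Eventually.of_forall fun M => ?_)
  have h1 := h m₀ le_rfl (tr y M - co y M • u M) (by
    intro n hn
    rw [co_sub, Pi.sub_apply, co_tr, co_smul, Pi.smul_apply, co_u]
    by_cases hM : M < n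
    · rw [if_pos hM, min_eq_right hM.le]; simp
    · rw [if_neg hM, min_eq_left (by omega), hy n hn]; simp) ⟨M, by
    intro n hn
    rw [co_sub, Pi.sub_apply, co_tr, co_smul, Pi.smul_apply, co_u, if_pos hn, min_eq_right (by omega)]
    simp⟩
  have h2 : ‖tr y M - co y M • u M‖ ≤ 2 * ‖y‖ := by
    have h3 := norm_sub_le (tr y M) (co y M • u M)
    have h4 : ‖co y M • u M‖ ≤ ‖y‖ := by
      rw [norm_smul, Real.norm_eq_abs]
      calc |co y M| * ‖u M‖ ≤ ‖y‖ * 1 :=
            mul_le_mul (abs_co_le y M) (norm_u_le M) (norm_nonneg _) (norm_nonneg _)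
        _ = ‖y‖ := mul_one _
    linarith [norm_tr_le y M]
  nlinarith

/-- the predual: the closed span of the coordinate functionals -/
noncomputable def N : Submodule ℝ (J →L[ℝ] ℝ) := (Submodule.span ℝ (Set.range e)).topologicalClosure

theorem e_mem (n : ℕ) : e n ∈ Submodule.span ℝ (Set.range e) := Submodule.subset_span ⟨n, rfl⟩

/-- `J* = N ⊕ ℝ L` -/
theorem exists_sub_mem_N (f : J →L[ℝ] ℝ) : ∃ c : ℝ, f - c • L ∈ N := by
  obtain ⟨c, hc⟩ := exists_tail_small f
  refine ⟨c, ?_⟩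
  set h := f - c • L with hh
  change h ∈ closure (Submodule.span ℝ (Set.range e) : Set (J →L[ℝ] ℝ))
  rw [Metric.mem_closure_iff]
  intro ε hε
  obtain ⟨m₀, hm⟩ := hc (ε/2) (by positivity)
  refine ⟨∑ i ∈ Finset.range m₀, h (u i) • (e (i+1) - e i), ?_, ?_⟩
  · exact Submodule.sum_mem _ fun i _ => Submodule.smul_mem _ _ (Submodule.sub_mem _ (e_mem _) (e_mem _))
  · rw [dist_eq_norm]
    refine lt_of_le_of_lt (ContinuousLinearMap.opNorm_le_bound _ (by positivity : 0 ≤ ε/2) fun x => ?_) (by linarith)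
    have h1 : (∑ i ∈ Finset.range m₀, h (u i) • (e (i+1) - e i)) x = h (tr x m₀) := by
      rw [tr_eq_sum, map_sum]
      rw [sum_apply]
      apply Finset.sum_congr rfl
      intro i _
      simp [e_apply, mul_comm]
    rw [sub_apply, h1, ← map_sub, Real.norm_eq_abs]
    refine (hm (x - tr x m₀) ?_).trans ?_
    · intro n hn
      rw [co_sub_tr, max_eq_right hn, sub_self]
    · exact mul_le_mul_of_nonneg_left (norm_sub_tr_le x m₀) (by positivity)

/-- the unit ball of `J`, as a set of sequences -/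
def Kset : Set (ℕ → ℝ) := {x | x 0 = 0 ∧ ∀ i, ‖S i x‖ ≤ 1}

theorem exists_of_mem_K {x : ℕ → ℝ} (hx : x ∈ Kset) : ∃ X : J, co X = x ∧ ‖X‖ ≤ 1 :=
  exists_mk x hx.1 1 zero_le_one fun i => (norm_S_le_iff i x 1 zero_le_one).1 (hx.2 i)

theorem co_mem_K {x : J} (hx : ‖x‖ ≤ 1) : co x ∈ Kset := ⟨co_zero_idx x, fun i => (S_co_le x i).trans hx⟩

theorem isCompact_K : IsCompact Kset := by
  have hcl : IsClosed Kset := by
    have : Kset = {x | x 0 = 0} ∩ ⋂ i, {x : ℕ → ℝ | ‖S i x‖ ≤ 1} := by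
      ext x; simp [Kset]
    rw [this]
    refine (isClosed_eq (continuous_apply 0) continuous_const).inter (isClosed_iInter fun i => ?_)
    exact isClosed_le (continuous_S i).norm continuous_const
  refine (isCompact_univ_pi (fun _ : ℕ => isCompact_Icc (a := (-1:ℝ)) (b := 1))).of_isClosed_subset hcl ?_
  intro x hx n _
  obtain ⟨X, rfl, hX⟩ := exists_of_mem_K hx
  have := (abs_co_le X n).trans hX
  exact abs_le.1 this

/-- the lift of the ball -/
noncomputable def Th (x : Kset) : J := (exists_of_mem_K x.2).choose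
theorem co_Th (x : Kset) : co (Th x) = x := (exists_of_mem_K x.2).choose_spec.1
theorem norm_Th (x : Kset) : ‖Th x‖ ≤ 1 := (exists_of_mem_K x.2).choose_spec.2

theorem continuous_span {g : J →L[ℝ] ℝ} (hg : g ∈ Submodule.span ℝ (Set.range e)) :
    Continuous (fun x : Kset => g (Th x)) := by
  induction hg using Submodule.span_induction with
  | mem g hg =>
    obtain ⟨n, rfl⟩ := hg
    have : (fun x : Kset => e n (Th x)) = fun x : Kset => (x : ℕ → ℝ) n := by
      funext x; rw [e_apply, co_Th]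
    rw [this]
    exact (continuous_apply n).comp continuous_subtype_val
  | zero => exact continuous_const
  | add f g _ _ hf hg => exact hf.add hg
  | smul c f _ hf => exact hf.const_smul c

theorem continuous_N {g : J →L[ℝ] ℝ} (hg : g ∈ N) : Continuous (fun x : Kset => g (Th x)) := by
  refine continuous_of_uniform_approx_of_continuous fun U hU => ?_
  obtain ⟨ε, hε, hsub⟩ := Metric.mem_uniformity_dist.1 hU
  obtain ⟨g', hg', hd⟩ := Metric.mem_closure_iff.1 hg ε hε
  refine ⟨fun x => g' (Th x), continuous_span hg', fun x => hsub ?_⟩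
  rw [dist_eq_norm]
  rw [dist_eq_norm] at hd
  have h1 : g (Th x) - g' (Th x) = (g - g') (Th x) := rfl
  rw [h1]
  calc ‖(g - g') (Th x)‖ ≤ ‖g - g'‖ * ‖Th x‖ := (g - g').le_opNorm _
    _ ≤ ‖g - g'‖ * 1 := mul_le_mul_of_nonneg_left (norm_Th x) (norm_nonneg _)
    _ < ε := by rw [mul_one]; exact hd

/-- every functional in `N` attains its norm -/
theorem attains_of_mem_N {g : J →L[ℝ] ℝ} (hg : g ∈ N) : ∃ x : J, ‖x‖ ≤ 1 ∧ g x = ‖g‖ := by
  have : CompactSpace Kset := isCompact_iff_compactSpace.1 isCompact_K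
  have : Nonempty Kset := ⟨⟨co 0, co_mem_K (by simp)⟩⟩
  obtain ⟨x₀, -, hx₀⟩ := isCompact_univ.exists_isMaxOn Set.univ_nonempty (continuous_N hg).continuousOn
  refine ⟨Th x₀, norm_Th x₀, le_antisymm ?_ ?_⟩
  · calc g (Th x₀) ≤ ‖g (Th x₀)‖ := le_abs_self _
      _ ≤ ‖g‖ * ‖Th x₀‖ := g.le_opNorm _
      _ ≤ ‖g‖ * 1 := mul_le_mul_of_nonneg_left (norm_Th _) (norm_nonneg _)
      _ = ‖g‖ := mul_one _
  · have hball : ∀ y : J, ‖y‖ ≤ 1 → g y ≤ g (Th x₀) := by
      intro y hy
      have h1 := hx₀ (Set.mem_univ (⟨co y, co_mem_K hy⟩ : Kset))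
      have h2 : Th ⟨co y, co_mem_K hy⟩ = y := co_inj (co_Th _)
      have h3 : g (Th ⟨co y, co_mem_K hy⟩) ≤ g (Th x₀) := h1
      rwa [h2] at h3
    have h0 : 0 ≤ g (Th x₀) := by simpa using hball 0 (by simp)
    refine ContinuousLinearMap.opNorm_le_bound _ h0 fun y => ?_
    rcases (norm_nonneg y).eq_or_lt with hy | hy
    · have : y = 0 := norm_eq_zero.1 hy.symm
      simp [this]
    · have h4 : ∀ z : J, ‖z‖ = ‖y‖ → g z ≤ g (Th x₀) * ‖y‖ := by
        intro z hz
        have h5 := hball (‖y‖⁻¹ • z) (by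
          rw [norm_smul, norm_inv, norm_norm, hz, inv_mul_cancel₀ hy.ne'])
        rw [map_smul, smul_eq_mul, inv_mul_le_iff₀ hy] at h5
        linarith
      rw [Real.norm_eq_abs, abs_le]
      constructor
      · have := h4 (-y) (norm_neg y)
        rw [map_neg] at this
        linarith
      · exact h4 y rfl

theorem span_u {g : J →L[ℝ] ℝ} (hg : g ∈ Submodule.span ℝ (Set.range e)) :
    ∀ᶠ n in atTop, g (u n) = 0 := by
  induction hg using Submodule.span_induction with
  | mem g' hg' =>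
    obtain ⟨k, rfl⟩ := hg'
    filter_upwards [eventually_ge_atTop k] with n hn
    rw [e_apply, co_u, if_neg (by omega)]
  | zero => simp
  | add f₁ f₂ _ _ h₁ h₂ =>
    filter_upwards [h₁, h₂] with n hn1 hn2
    change f₁ (u n) + f₂ (u n) = 0
    rw [hn1, hn2, add_zero]
  | smul c f _ hf =>
    filter_upwards [hf] with n hn
    change c • f (u n) = 0
    rw [hn, smul_zero]

theorem L_notMem : L ∉ N := by
  intro hg
  obtain ⟨g', hg', hd⟩ := Metric.mem_closure_iff.1 hg 1 one_pos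
  obtain ⟨n, hn⟩ := (span_u hg').exists
  rw [dist_eq_norm] at hd
  have h2 : ‖(L - g') (u n)‖ ≤ ‖L - g'‖ * ‖u n‖ := (L - g').le_opNorm _
  have h1 : (L - g') (u n) = 1 := by
    change L (u n) - g' (u n) = 1
    rw [L_u, hn, sub_zero]
  rw [h1] at h2
  have h3 := norm_u_le n
  have h4 := norm_nonneg (L - g')
  simp at h2
  nlinarith [norm_nonneg (u n)]

/-- `J` is not reflexive -/
theorem nonreflexive : ¬ Function.Surjective (NormedSpace.inclusionInDoubleDual ℝ J) := by
  intro hsurj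
  obtain ⟨Ψ, s, h1, h2⟩ := geometric_hahn_banach_closed_point (s := (N : Set (J →L[ℝ] ℝ))) (x := L)
    N.convex (Submodule.isClosed_topologicalClosure _) L_notMem
  have h3 : ∀ g ∈ N, Ψ g = 0 := by
    intro g hg
    by_contra hne
    have h4 := h1 ((s / Ψ g) • g) (N.smul_mem _ hg)
    rw [map_smul, smul_eq_mul, div_mul_cancel₀ _ hne] at h4
    exact lt_irrefl _ h4
  obtain ⟨x, hx⟩ := hsurj Ψ
  have h5 : x = 0 := by
    apply co_inj
    funext n
    have h6 : Ψ (e n) = co x n := by rw [← hx]; rfl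
    rw [← h6, h3 _ (Submodule.le_topologicalClosure _ (e_mem n))]
    rfl
  have h7 : Ψ L = 0 := by
    rw [← hx, h5]; simp
  have h8 := h1 0 N.zero_mem
  rw [map_zero] at h8
  rw [h7] at h2
  linarith

/-- no infinite-dimensional (in fact no two-dimensional) space of non-norm-attaining functionals -/
theorem no_space (Y : Submodule ℝ (J →L[ℝ] ℝ)) (hY : ¬ FiniteDimensional ℝ Y)
    (hna : ∀ f ∈ Y, f ≠ 0 → ∀ x : J, ‖x‖ ≤ 1 → |f x| < ‖f‖) : False := by
  have hN : ∀ g ∈ Y, g ∈ N → g = 0 := by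
    intro g hgY hgN
    by_contra hne
    obtain ⟨x, hx1, hx2⟩ := attains_of_mem_N hgN
    have := hna g hgY hne x hx1
    rw [hx2, abs_of_nonneg (norm_nonneg _)] at this
    exact lt_irrefl _ this
  apply hY
  -- every element of `Y` is a multiple of a fixed one
  by_cases hbot : ∀ f ∈ Y, f = 0
  · have : Y = ⊥ := by
      rw [Submodule.eq_bot_iff]; exact hbot
    rw [this]; infer_instance
  · push Not at hbot
    obtain ⟨f₁, hf₁, hf₁0⟩ := hbot
    obtain ⟨c₁, hc₁⟩ := exists_sub_mem_N f₁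
    have hc₁0 : c₁ ≠ 0 := by
      rintro rfl
      rw [zero_smul, sub_zero] at hc₁
      exact hf₁0 (hN _ hf₁ hc₁)
    have hspan : Y ≤ Submodule.span ℝ {f₁} := by
      intro f₂ hf₂
      obtain ⟨c₂, hc₂⟩ := exists_sub_mem_N f₂
      have h1 : f₂ - (c₂ / c₁) • f₁ ∈ N := by
        have h2 : f₂ - (c₂ / c₁) • f₁ = (f₂ - c₂ • L) - (c₂ / c₁) • (f₁ - c₁ • L) := by
          rw [smul_sub, smul_smul, div_mul_cancel₀ _ hc₁0]; abel
        rw [h2]
        exact N.sub_mem hc₂ (N.smul_mem _ hc₁)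
      have h3 := hN _ (Y.sub_mem hf₂ (Y.smul_mem _ hf₁)) h1
      rw [Submodule.mem_span_singleton]
      exact ⟨c₂ / c₁, (sub_eq_zero.1 h3).symm⟩
    exact Submodule.finiteDimensional_of_le hspan

end Pool.Agent.Helper902.James
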