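import Mathlib

set_option autoImplicit false

open Filter Topology Finset

namespace Pool.Agent.Helper902.NA

/-- A Lipschitz function on a Banach space has, in every ball around `0`, a point at which the
symmetric second differences in countably many directions are small. -/
theorem exists_flat_point {Y : Type*} [NormedAddCommGroup Y] [NormedSpace ℝ Y] [CompleteSpace Y]
    (f : Y → ℝ) (L : ℝ) (hL : ∀ x y, |f x - f y| ≤ L * ‖x - y‖) (v : ℕ → Y) (r : ℝ) (hr : 0 < r) :
    ∃ x : Y, ‖x‖ < r ∧ ∀ k m : ℕ, ∃ h : ℝ, 0 < h ∧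
      f (x + h • v k) + f (x - h • v k) - 2 * f x < h / ((m : ℝ) + 1) := by
  have hL0 : 0 ≤ L ∨ ∀ x y : Y, x = y := by
    by_contra hcon
    push Not at hcon
    obtain ⟨h1, x, y, hxy⟩ := hcon
    have h2 := hL x y
    have h3 : 0 < ‖x - y‖ := norm_pos_iff.2 (sub_ne_zero.2 hxy)
    have h4 := abs_nonneg (f x - f y)
    nlinarith
  have hcont : Continuous f := by
    rw [Metric.continuous_iff]
    intro x ε hε
    refine ⟨ε / (|L| + 1), by positivity, fun y hy => ?_⟩
    rw [Real.dist_eq]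
    rw [dist_eq_norm, lt_div_iff₀ (by positivity)] at hy
    have h1 := hL y x
    have h2 : L * ‖y - x‖ ≤ |L| * ‖y - x‖ := mul_le_mul_of_nonneg_right (le_abs_self L) (norm_nonneg _)
    nlinarith [norm_nonneg (y - x)]
  let A : ℕ × ℕ → Set Y := fun p => {x | ∃ h : ℝ, 0 < h ∧
      f (x + h • v p.1) + f (x - h • v p.1) - 2 * f x < h / ((p.2 : ℝ) + 1)}
  have hopen : ∀ p, IsOpen (A p) := by
    intro p
    have : A p = ⋃ h : ℝ, ⋃ (_ : 0 < h), {x | f (x + h • v p.1) + f (x - h • v p.1) - 2 * f x < h / ((p.2 : ℝ) + 1)} := by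
      ext x
      simp only [A, Set.mem_iUnion]
      constructor
      · rintro ⟨h, h1, h2⟩; exact ⟨h, h1, h2⟩
      · rintro ⟨h, h1, h2⟩; exact ⟨h, h1, h2⟩
    rw [this]
    refine isOpen_iUnion fun h => isOpen_iUnion fun _ => ?_
    refine isOpen_lt ?_ continuous_const
    fun_prop
  have hdense : ∀ p, Dense (A p) := by
    rintro ⟨k, m⟩
    rw [Metric.dense_iff]
    intro x₀ δ hδ
    by_contra hcon
    rw [Set.not_nonempty_iff_eq_empty, Set.eq_empty_iff_forall_notMem] at hcon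
    obtain ⟨K, hK⟩ := exists_nat_gt (2 * L * ‖v k‖ * ((m : ℝ) + 1))
    set h : ℝ := δ / (((K : ℝ) + 1) * (‖v k‖ + 1)) with hh
    have hpos : 0 < h := by positivity
    have key : ∀ j : ℕ, j < K →
        h / ((m : ℝ) + 1) ≤ (f (x₀ + ((j : ℝ) + 2) • (h • v k)) - f (x₀ + ((j : ℝ) + 1) • (h • v k)))
          - (f (x₀ + ((j : ℝ) + 1) • (h • v k)) - f (x₀ + (j : ℝ) • (h • v k))) := by
      intro j hj
      have h1 := hcon (x₀ + ((j : ℝ) + 1) • (h • v k))
      rw [Set.mem_inter_iff, not_and] at h1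
      have h2 : x₀ + ((j : ℝ) + 1) • (h • v k) ∈ Metric.ball x₀ δ := by
        rw [Metric.mem_ball, dist_eq_norm, add_sub_cancel_left, norm_smul, norm_smul]
        rw [Real.norm_eq_abs, Real.norm_eq_abs, abs_of_pos hpos, abs_of_nonneg (by positivity)]
        have h3 : (j : ℝ) + 1 ≤ K := by exact_mod_cast hj
        have h4 : h * (((K : ℝ) + 1) * (‖v k‖ + 1)) = δ := by
          rw [hh]; field_simp
        have h5 : 0 ≤ ‖v k‖ := norm_nonneg _
        calc ((j : ℝ) + 1) * (h * ‖v k‖) ≤ K * (h * ‖v k‖) := by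
              apply mul_le_mul_of_nonneg_right h3 (by positivity)
          _ < h * (((K : ℝ) + 1) * (‖v k‖ + 1)) := by nlinarith [mul_pos hpos (by positivity : (0:ℝ) < (K:ℝ) + 1), mul_nonneg hpos.le h5]
          _ = δ := h4
      have h3 := h1 h2
      simp only [A, Set.mem_ofPred_eq, not_exists, not_and, not_lt] at h3
      have h4 := h3 h hpos
      have e1 : x₀ + ((j : ℝ) + 1) • (h • v k) + h • v k = x₀ + ((j : ℝ) + 2) • (h • v k) := by
        module
      have e2 : x₀ + ((j : ℝ) + 1) • (h • v k) - h • v k = x₀ + (j : ℝ) • (h • v k) := by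
        module
      rw [e1, e2] at h4
      linarith
    have tele : ∀ n : ℕ, n ≤ K → n * (h / ((m : ℝ) + 1)) ≤
        (f (x₀ + ((n : ℝ) + 1) • (h • v k)) - f (x₀ + (n : ℝ) • (h • v k)))
          - (f (x₀ + (1 : ℝ) • (h • v k)) - f (x₀ + (0 : ℝ) • (h • v k))) := by
      intro n
      induction n with
      | zero => intro _; simp
      | succ n ih =>
        intro hn
        have h1 := ih (by omega)
        have h2 := key n (by omega)
        push_cast
        have e1 : (n : ℝ) + 1 + 1 = n + 2 := by ring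
        rw [e1, add_mul, one_mul]
        linarith
    have h1 := tele K le_rfl
    have h2 := hL (x₀ + ((K : ℝ) + 1) • (h • v k)) (x₀ + (K : ℝ) • (h • v k))
    have h3 := hL (x₀ + (1 : ℝ) • (h • v k)) (x₀ + (0 : ℝ) • (h • v k))
    have e1 : x₀ + ((K : ℝ) + 1) • (h • v k) - (x₀ + (K : ℝ) • (h • v k)) = h • v k := by module
    have e2 : x₀ + (1 : ℝ) • (h • v k) - (x₀ + (0 : ℝ) • (h • v k)) = h • v k := by module
    rw [e1, norm_smul, Real.norm_eq_abs, abs_of_pos hpos] at h2
    rw [e2, norm_smul, Real.norm_eq_abs, abs_of_pos hpos] at h3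
    have h4 := (abs_le.1 h2).2
    have h5 := (abs_le.1 h3).1
    have h6 : (K : ℝ) * (h / ((m : ℝ) + 1)) ≤ 2 * (L * (h * ‖v k‖)) := by linarith
    have h7 : (K : ℝ) * h ≤ 2 * (L * (h * ‖v k‖)) * ((m : ℝ) + 1) := by
      rw [← mul_div_assoc, div_le_iff₀ (by positivity)] at h6
      exact h6
    have h8 : (K : ℝ) * h ≤ (2 * L * ‖v k‖ * ((m : ℝ) + 1)) * h := by
      calc (K : ℝ) * h ≤ 2 * (L * (h * ‖v k‖)) * ((m : ℝ) + 1) := h7
        _ = _ := by ring
    have h9 := le_of_mul_le_mul_right h8 hpos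
    linarith
  have hD : Dense (⋂ p, A p) := dense_iInter_of_isOpen hopen hdense
  obtain ⟨x, hx, hxA⟩ := hD.exists_mem_open Metric.isOpen_ball (⟨0, Metric.mem_ball_self hr⟩ : (Metric.ball (0:Y) r).Nonempty)
  refine ⟨x, by simpa using hxA, fun k m => ?_⟩
  exact Set.mem_iInter.1 hx (k, m)

end Pool.Agent.Helper902.NA
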