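import Mathlib
import Pool.Agent.Helper902.NAMazur

set_option autoImplicit false
set_option maxSynthPendingDepth 3

open Filter Topology Finset

namespace Pool.Agent.Helper902.NA

section core

variable {Y : Type*} [NormedAddCommGroup Y] [NormedSpace ℝ Y]

/-- the coordinates are absolutely summable -/
theorem summable_co (co : ℕ → (Y →L[ℝ] ℝ)) (K : ℝ)
    (hK : ∀ (N : ℕ) (x : Y), ∑ n ∈ range N, |co n x| ≤ K * ‖x‖) (x : Y) :
    Summable (fun n => |co n x|) :=
  summable_of_sum_range_le (fun _ => abs_nonneg _) (fun N => hK N x)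

/-- the sum functional -/
noncomputable def sumF (co : ℕ → (Y →L[ℝ] ℝ)) (K : ℝ)
    (hK : ∀ (N : ℕ) (x : Y), ∑ n ∈ range N, |co n x| ≤ K * ‖x‖) : Y →L[ℝ] ℝ :=
  LinearMap.mkContinuous
    { toFun := fun x => ∑' n, co n x
      map_add' := fun x y => by
        simp only [map_add]
        exact (summable_co co K hK x).of_abs.tsum_add (summable_co co K hK y).of_abs
      map_smul' := fun c x => by
        simp only [map_smul, smul_eq_mul, RingHom.id_apply]
        exact tsum_mul_left }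
    K (fun x => by
      simp only [LinearMap.coe_mk, AddHom.coe_mk]
      have h1 := norm_tsum_le_tsum_norm (f := fun n => co n x) (summable_co co K hK x)
      have h2 : ∑' n, ‖co n x‖ ≤ K * ‖x‖ :=
        Real.tsum_le_of_sum_range_le (fun _ => norm_nonneg _) (fun N => hK N x)
      exact h1.trans h2)

theorem core_nonreflexive (v : ℕ → Y) (co : ℕ → (Y →L[ℝ] ℝ)) (C K : ℝ)
    (hbi : ∀ n m, co n (v m) = if n = m then 1 else 0) (hv : ∀ n, ‖v n‖ ≤ C)
    (hK : ∀ (N : ℕ) (x : Y), ∑ n ∈ range N, |co n x| ≤ K * ‖x‖)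
    (hrep : ∀ x : Y, Tendsto (fun N => ∑ n ∈ range N, co n x • v n) atTop (𝓝 x)) :
    ¬ Function.Surjective (NormedSpace.inclusionInDoubleDual ℝ Y) := by
  intro hsurj
  set N : Submodule ℝ (Y →L[ℝ] ℝ) := (Submodule.span ℝ (Set.range co)).topologicalClosure with hN
  have hval : ∀ n, sumF co K hK (v n) = 1 := by
    intro n
    change ∑' k, co k (v n) = 1
    rw [tsum_eq_single n]
    · rw [hbi, if_pos rfl]
    · intro k hk
      rw [hbi, if_neg hk]
  have hCpos : 0 < C := by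
    by_contra hcon
    have h1 : ‖v 0‖ ≤ 0 := (hv 0).trans (not_lt.1 hcon)
    have h2 : v 0 = 0 := norm_le_zero_iff.1 h1
    have h3 := hval 0
    rw [h2, map_zero] at h3
    exact zero_ne_one h3
  have hspan : ∀ g ∈ Submodule.span ℝ (Set.range co), ∀ᶠ n in atTop, g (v n) = 0 := by
    intro g hg
    induction hg using Submodule.span_induction with
    | mem g' hg' =>
      obtain ⟨k, rfl⟩ := hg'
      filter_upwards [eventually_gt_atTop k] with n hn
      rw [hbi, if_neg (by omega)]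
    | zero => simp
    | add f₁ f₂ _ _ h₁ h₂ =>
      filter_upwards [h₁, h₂] with n hn1 hn2
      change f₁ (v n) + f₂ (v n) = 0
      rw [hn1, hn2, add_zero]
    | smul c f _ hf =>
      filter_upwards [hf] with n hn
      change c • f (v n) = 0
      rw [hn, smul_zero]
  have hnot : sumF co K hK ∉ N := by
    intro hg
    obtain ⟨g', hg', hd⟩ := Metric.mem_closure_iff.1 hg (1 / C) (by positivity)
    obtain ⟨n, hn⟩ := (hspan g' hg').exists
    rw [dist_eq_norm] at hd
    have h2 : ‖(sumF co K hK - g') (v n)‖ ≤ ‖sumF co K hK - g'‖ * ‖v n‖ := (sumF co K hK - g').le_opNorm _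
    have h1 : (sumF co K hK - g') (v n) = 1 := by
      change sumF co K hK (v n) - g' (v n) = 1
      rw [hval, hn, sub_zero]
    rw [h1, norm_one] at h2
    have h3 : ‖sumF co K hK - g'‖ * ‖v n‖ ≤ ‖sumF co K hK - g'‖ * C :=
      mul_le_mul_of_nonneg_left (hv n) (norm_nonneg _)
    have h4 : ‖sumF co K hK - g'‖ * C < 1 / C * C := mul_lt_mul_of_pos_right hd hCpos
    rw [one_div, inv_mul_cancel₀ hCpos.ne'] at h4
    linarith
  obtain ⟨Ψ, s, h1, h2⟩ := geometric_hahn_banach_closed_point (s := (N : Set (Y →L[ℝ] ℝ)))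
    (x := sumF co K hK) N.convex (Submodule.isClosed_topologicalClosure _) hnot
  have h3 : ∀ g ∈ N, Ψ g = 0 := by
    intro g hg
    by_contra hne
    have h4 := h1 ((s / Ψ g) • g) (N.smul_mem _ hg)
    rw [map_smul, smul_eq_mul, div_mul_cancel₀ _ hne] at h4
    exact lt_irrefl _ h4
  obtain ⟨x, hx⟩ := hsurj Ψ
  have h5 : x = 0 := by
    refine tendsto_nhds_unique (hrep x) ?_
    have h6 : ∀ n, co n x = 0 := by
      intro n
      have h7 : Ψ (co n) = co n x := by rw [← hx]; rfl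
      rw [← h7, h3 _ (Submodule.le_topologicalClosure _ (Submodule.subset_span ⟨n, rfl⟩))]
    simp only [h6, zero_smul, Finset.sum_const_zero]
    exact tendsto_const_nhds
  have h7 : Ψ (sumF co K hK) = 0 := by
    rw [← hx, h5]; simp
  have h8 := h1 0 N.zero_mem
  rw [map_zero] at h8
  rw [h7] at h2
  linarith

variable [CompleteSpace Y]

/-- Core of the `ℓ₁` case. -/
theorem coreA (v : ℕ → Y) (co : ℕ → (Y →L[ℝ] ℝ)) (C K : ℝ)
    (hbi : ∀ n m, co n (v m) = if n = m then 1 else 0) (hv : ∀ n, ‖v n‖ ≤ C)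
    (hK : ∀ (N : ℕ) (x : Y), ∑ n ∈ range N, |co n x| ≤ K * ‖x‖)
    (hrep : ∀ x : Y, Tendsto (fun N => ∑ n ∈ range N, co n x • v n) atTop (𝓝 x))
    (ε : ℕ → ℝ) (hε : Tendsto ε atTop (𝓝 0))
    (hR : ∀ (n : ℕ) (x : Y), ‖(2:ℝ) • (∑ j ∈ range n, co j x • v j) - x‖ ≤ (1 + ε n) * ‖x‖)
    (hBP : ∀ (Φ₀ : (Y →L[ℝ] ℝ) →L[ℝ] ℝ) (δ : ℝ), 0 < δ → ∃ Φ : (Y →L[ℝ] ℝ) →L[ℝ] ℝ,
      ‖Φ - Φ₀‖ ≤ δ ∧ ∃ y : Y →L[ℝ] ℝ, ‖y‖ ≤ 1 ∧ Φ y = ‖Φ‖)
    (S : Submodule ℝ ((Y →L[ℝ] ℝ) →L[ℝ] ℝ))
    (hS : ∀ φ : (Y →L[ℝ] ℝ) →L[ℝ] ℝ, φ ∈ S ↔ ∃ f : Y →L[ℝ] ℝ, ‖f‖ ≤ 1 ∧ φ f = ‖φ‖) : False := by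
  set ι := NormedSpace.inclusionInDoubleDual ℝ Y with hι
  have hιnorm : ∀ x : Y, ‖ι x‖ = ‖x‖ := fun x => (NormedSpace.inclusionInDoubleDualLi ℝ (E := Y)).norm_map x
  have hιS : ∀ x : Y, ι x ∈ S := by
    intro x
    rw [hS]
    obtain ⟨g, hg1, hg2⟩ := exists_dual_vector'' ℝ x
    refine ⟨g, hg1, ?_⟩
    rw [hιnorm]
    exact hg2
  -- a norm-attaining functional outside `Y`
  have hex : ∃ Φ ∈ S, Φ ∉ Set.range ι := by
    by_contra hcon
    push Not at hcon
    have hclosed : IsClosed (Set.range ι) := by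
      have h := (NormedSpace.inclusionInDoubleDualLi ℝ (E := Y)).isometry.isClosedEmbedding.isClosed_range
      exact h
    apply core_nonreflexive v co C K hbi hv hK hrep
    intro Φ₀
    have : Φ₀ ∈ closure (Set.range ι) := by
      rw [Metric.mem_closure_iff]
      intro δ hδ
      obtain ⟨Φ, h1, h2⟩ := hBP Φ₀ (δ / 2) (by positivity)
      refine ⟨Φ, hcon Φ ((hS Φ).2 h2), ?_⟩
      rw [dist_comm, dist_eq_norm]
      linarith
    rwa [hclosed.closure_eq] at this
  obtain ⟨Φ, hΦS, hΦ⟩ := hex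
  -- subtract the `ℓ₁` part
  have hsum : ∀ N : ℕ, ∑ n ∈ range N, |Φ (co n)| ≤ K * ‖Φ‖ := by
    intro N
    have h1 : ∑ n ∈ range N, |Φ (co n)| = Φ (∑ n ∈ range N, (SignType.sign (Φ (co n)) : ℝ) • co n) := by
      rw [map_sum]
      apply Finset.sum_congr rfl
      intro n _
      rw [map_smul, smul_eq_mul, sign_mul_self]
    have h2 : ‖∑ n ∈ range N, (SignType.sign (Φ (co n)) : ℝ) • co n‖ ≤ K := by
      have hK0 : 0 ≤ K := by
        by_contra hK0
        push Not at hK0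
        have h3 := hK 0 (v 0)
        simp only [Finset.range_zero, Finset.sum_empty] at h3
        have h4 : 0 < ‖v 0‖ := by
          rw [norm_pos_iff]
          intro h0
          have := hbi 0 0
          rw [h0, map_zero, if_pos rfl] at this
          exact zero_ne_one this
        nlinarith
      refine ContinuousLinearMap.opNorm_le_bound _ hK0 fun x => ?_
      rw [_root_.sum_apply]
      refine le_trans (norm_sum_le _ _) (le_trans ?_ (hK N x))
      apply Finset.sum_le_sum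
      intro n _
      rw [smul_apply, smul_eq_mul, norm_mul]
      have h3 : ‖(SignType.sign (Φ (co n)) : ℝ)‖ ≤ 1 := by
        rcases lt_trichotomy (Φ (co n)) 0 with h | h | h
        · simp [h]
        · simp [h]
        · simp [h]
      calc ‖(SignType.sign (Φ (co n)) : ℝ)‖ * ‖co n x‖ ≤ 1 * ‖co n x‖ :=
            mul_le_mul_of_nonneg_right h3 (norm_nonneg _)
        _ = |co n x| := by rw [one_mul]; rfl
    rw [h1]
    calc Φ (∑ n ∈ range N, (SignType.sign (Φ (co n)) : ℝ) • co n)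
        ≤ ‖Φ‖ * ‖∑ n ∈ range N, (SignType.sign (Φ (co n)) : ℝ) • co n‖ :=
          (le_abs_self _).trans (Φ.le_opNorm _)
      _ ≤ ‖Φ‖ * K := mul_le_mul_of_nonneg_left h2 (norm_nonneg Φ)
      _ = K * ‖Φ‖ := mul_comm _ _
  have hsm : Summable (fun n => |Φ (co n)|) := summable_of_sum_range_le (fun _ => abs_nonneg _) hsum
  have hsmv : Summable (fun n => Φ (co n) • v n) := by
    refine Summable.of_norm_bounded (g := fun n => |Φ (co n)| * C) (hsm.mul_right C) fun n => ?_
    rw [norm_smul]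
    exact mul_le_mul_of_nonneg_left (hv n) (norm_nonneg _)
  set x₁ : Y := ∑' n, Φ (co n) • v n with hx₁
  have hcox₁ : ∀ n, co n x₁ = Φ (co n) := by
    intro n
    rw [hx₁, ContinuousLinearMap.map_tsum _ hsmv, tsum_eq_single n]
    · rw [map_smul, hbi, if_pos rfl, smul_eq_mul, mul_one]
    · intro m hm
      rw [map_smul, hbi, if_neg hm.symm, smul_zero]
  set s := Φ - ι x₁ with hs
  have hsS : s ∈ S := by
    rw [hs]
    exact S.sub_mem hΦS (hιS x₁)
  have hsco : ∀ n, s (co n) = 0 := by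
    intro n
    change Φ (co n) - co n x₁ = 0
    rw [hcox₁, sub_self]
  have hs0 : 0 < ‖s‖ := by
    rw [norm_pos_iff]
    intro h0
    exact hΦ ⟨x₁, (sub_eq_zero.1 h0).symm⟩
  -- evenness
  have heven : ∀ x : Y, ‖ι x - s‖ ≤ ‖ι x + s‖ := by
    intro x
    refine ContinuousLinearMap.opNorm_le_bound _ (norm_nonneg _) fun y => ?_
    have hRn : ∀ n : ℕ, ∃ R : Y →L[ℝ] Y, (∀ x, R x = (2:ℝ) • (∑ j ∈ range n, co j x • v j) - x) ∧
        ‖R‖ ≤ 1 + |ε n| := by
      intro n
      let R₀ : Y →L[ℝ] Y := (2:ℝ) • (∑ j ∈ range n, (co j).smulRight (v j)) - ContinuousLinearMap.id ℝ Y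
      have hR₀ : ∀ x, R₀ x = (2:ℝ) • (∑ j ∈ range n, co j x • v j) - x := by
        intro x
        simp [R₀, _root_.sum_apply]
      refine ⟨R₀, hR₀, ContinuousLinearMap.opNorm_le_bound _ (by positivity) fun x => ?_⟩
      rw [hR₀]
      refine (hR n x).trans ?_
      have := le_abs_self (ε n)
      nlinarith [norm_nonneg x]
    choose R hR1 hR2 using hRn
    have h1 : ∀ n, ‖y (R n x) - s y‖ ≤ ‖ι x + s‖ * (‖y‖ * (1 + |ε n|)) := by
      intro n
      have h2 : y.comp (R n) = (2:ℝ) • (∑ j ∈ range n, y (v j) • co j) - y := by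
        ext z
        simp only [ContinuousLinearMap.comp_apply, hR1, map_sub, map_smul, map_sum, smul_eq_mul]
        simp only [sub_apply, smul_apply, _root_.sum_apply, smul_eq_mul]
        congr 2
        apply Finset.sum_congr rfl
        intro j _
        ring
      have h3 : (ι x + s) (y.comp (R n)) = y (R n x) - s y := by
        have h4 : s (y.comp (R n)) = - s y := by
          rw [h2, map_sub, map_smul, map_sum]
          have : ∑ j ∈ range n, s (y (v j) • co j) = 0 := by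
            apply Finset.sum_eq_zero
            intro j _
            rw [map_smul, hsco, smul_zero]
          rw [this, smul_zero, zero_sub]
        change (y.comp (R n)) x + s (y.comp (R n)) = _
        rw [h4]
        simp [sub_eq_add_neg]
      rw [← h3]
      refine ((ι x + s).le_opNorm _).trans ?_
      apply mul_le_mul_of_nonneg_left _ (norm_nonneg _)
      exact (ContinuousLinearMap.opNorm_comp_le _ _).trans (mul_le_mul_of_nonneg_left (hR2 n) (norm_nonneg _))
    have hRx : Tendsto (fun n => R n x) atTop (𝓝 x) := by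
      have h4 : Tendsto (fun n => (2:ℝ) • (∑ j ∈ range n, co j x • v j) - x) atTop (𝓝 ((2:ℝ) • x - x)) :=
        ((hrep x).const_smul (2:ℝ)).sub tendsto_const_nhds
      have h5 : (2:ℝ) • x - x = x := by module
      rw [h5] at h4
      exact h4.congr fun n => (hR1 n x).symm
    have hlim1 : Tendsto (fun n => ‖y (R n x) - s y‖) atTop (𝓝 ‖y x - s y‖) :=
      (((y.continuous.tendsto x).comp hRx).sub tendsto_const_nhds).norm
    have hlim2 : Tendsto (fun n => ‖ι x + s‖ * (‖y‖ * (1 + |ε n|))) atTop (𝓝 (‖ι x + s‖ * (‖y‖ * (1 + |0|)))) :=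
      (((hε.abs.const_add 1).const_mul ‖y‖).const_mul ‖ι x + s‖)
    have h6 := le_of_tendsto_of_tendsto' hlim1 hlim2 h1
    have h7 : (ι x - s) y = y x - s y := rfl
    rw [h7]
    simpa using h6
  have heven' : ∀ x : Y, ‖ι x + s‖ ≤ ‖ι x - s‖ := by
    intro x
    have h1 := heven (-x)
    have h2 : ι (-x) - s = -(ι x + s) := by rw [map_neg]; abel
    have h3 : ι (-x) + s = -(ι x - s) := by rw [map_neg]; abel
    rwa [h2, h3, norm_neg, norm_neg] at h1
  have heq : ∀ x : Y, ‖ι x - s‖ = ‖ι x + s‖ := fun x => le_antisymm (heven x) (heven' x)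
  -- the function `f`
  set f : Y → ℝ := fun x => ‖ι x + s‖ with hf
  have hL : ∀ x y, |f x - f y| ≤ 1 * ‖x - y‖ := by
    intro x y
    have h1 := abs_norm_sub_norm_le (ι x + s) (ι y + s)
    have h2 : (ι x + s) - (ι y + s) = ι (x - y) := by rw [map_sub]; abel
    rw [h2, hιnorm] at h1
    rw [one_mul]
    exact h1
  obtain ⟨x, hx1, hx2⟩ := exists_flat_point f 1 hL v (‖s‖ / 2) (by positivity)
  obtain ⟨y, hy1, hy2⟩ := (hS _).1 (S.add_mem (hιS x) hsS)
  obtain ⟨y', hy1', hy2'⟩ := (hS _).1 (S.sub_mem (hιS x) hsS)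
  have hy2 : y x + s y = f x := hy2
  have hy2' : y' x - s y' = f x := by
    have : y' x - s y' = ‖ι x - s‖ := hy2'
    rw [this, heq]
  have hsub : ∀ u, f x + y (u - x) ≤ f u := by
    intro u
    have h1 : (ι u + s) y ≤ ‖ι u + s‖ := by
      calc (ι u + s) y ≤ ‖(ι u + s) y‖ := le_abs_self _
        _ ≤ ‖ι u + s‖ * ‖y‖ := (ι u + s).le_opNorm _
        _ ≤ ‖ι u + s‖ * 1 := mul_le_mul_of_nonneg_left hy1 (norm_nonneg _)
        _ = _ := mul_one _
    have h2 : (ι u + s) y = y u + s y := rfl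
    rw [map_sub]
    have h3 : f u = ‖ι u + s‖ := rfl
    rw [h3]
    linarith
  have hsub' : ∀ u, f x + y' (u - x) ≤ f u := by
    intro u
    have h1 : (ι u - s) y' ≤ ‖ι u - s‖ := by
      calc (ι u - s) y' ≤ ‖(ι u - s) y'‖ := le_abs_self _
        _ ≤ ‖ι u - s‖ * ‖y'‖ := (ι u - s).le_opNorm _
        _ ≤ ‖ι u - s‖ * 1 := mul_le_mul_of_nonneg_left hy1' (norm_nonneg _)
        _ = _ := mul_one _
    have h2 : (ι u - s) y' = y' u - s y' := rfl
    rw [heq] at h1
    rw [map_sub]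
    have h3 : f u = ‖ι u + s‖ := rfl
    rw [h3]
    linarith
  have hyy : ∀ k, y (v k) = y' (v k) := by
    intro k
    have hone : ∀ a b : Y →L[ℝ] ℝ, (∀ u, f x + a (u - x) ≤ f u) → (∀ u, f x + b (u - x) ≤ f u) →
        a (v k) - b (v k) ≤ 0 := by
      intro a b ha hb
      by_contra hcon
      push Not at hcon
      obtain ⟨m, hm⟩ := exists_nat_gt (1 / (a (v k) - b (v k)))
      obtain ⟨h, hpos, hlt⟩ := hx2 k m
      have h1 := ha (x + h • v k)
      have h2 := hb (x - h • v k)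
      rw [add_sub_cancel_left, map_smul, smul_eq_mul] at h1
      have h3 : x - h • v k - x = -(h • v k) := by abel
      rw [h3, map_neg, map_smul, smul_eq_mul] at h2
      have h4 : h * (a (v k) - b (v k)) < h / ((m : ℝ) + 1) := by linarith
      rw [div_eq_mul_inv] at h4
      have h5 := lt_of_mul_lt_mul_left h4 hpos.le
      rw [div_lt_iff₀ hcon] at hm
      have h6 : (0:ℝ) < (m : ℝ) + 1 := by positivity
      rw [lt_inv_comm₀ hcon h6] at h5
      have h7 : (a (v k) - b (v k))⁻¹ * (a (v k) - b (v k)) = 1 := inv_mul_cancel₀ hcon.ne'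
      nlinarith
    have h1 := hone y y' hsub hsub'
    have h2 := hone y' y hsub' hsub
    linarith
  have hyeq : y = y' := by
    ext u
    have h1 : Tendsto (fun N => y (∑ n ∈ range N, co n u • v n)) atTop (𝓝 (y u)) :=
      (y.continuous.tendsto u).comp (hrep u)
    have h2 : Tendsto (fun N => y' (∑ n ∈ range N, co n u • v n)) atTop (𝓝 (y' u)) :=
      (y'.continuous.tendsto u).comp (hrep u)
    refine tendsto_nhds_unique h1 (h2.congr fun N => ?_)
    rw [map_sum, map_sum]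
    apply Finset.sum_congr rfl
    intro n _
    rw [map_smul, map_smul, hyy]
  rw [← hyeq] at hy2'
  have hfx : f x ≤ ‖x‖ := by
    have h1 : f x = y x := by linarith
    rw [h1]
    calc y x ≤ ‖y x‖ := le_abs_self _
      _ ≤ ‖y‖ * ‖x‖ := y.le_opNorm _
      _ ≤ 1 * ‖x‖ := mul_le_mul_of_nonneg_right hy1 (norm_nonneg _)
      _ = ‖x‖ := one_mul _
  have hfx2 : ‖s‖ - ‖x‖ ≤ f x := by
    have h1 : ‖s‖ ≤ ‖ι x + s‖ + ‖ι x‖ := by
      have := norm_sub_le (ι x + s) (ι x)
      rwa [add_sub_cancel_left] at this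
    rw [hιnorm] at h1
    have h2 : f x = ‖ι x + s‖ := rfl
    linarith
  linarith

end core

end Pool.Agent.Helper902.NA
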