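import Mathlib
import Pool.Agent.Helper902.NACore
import Pool.Agent.Helper902.NABP

set_option autoImplicit false
set_option maxSynthPendingDepth 3

open Filter Topology Finset

namespace Pool.Agent.Helper902.NA

section hereditary

variable {X : Type*} [NormedAddCommGroup X] [NormedSpace ℝ X]

/-- restriction of functionals to a subspace -/
noncomputable def res (p : Submodule ℝ X) : (X →L[ℝ] ℝ) →L[ℝ] (p →L[ℝ] ℝ) :=
  LinearMap.mkContinuous
    { toFun := fun f => f.comp p.subtypeL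
      map_add' := fun f g => by ext x; rfl
      map_smul' := fun c f => by ext x; rfl } 1 (fun f => by
        simp only [LinearMap.coe_mk, AddHom.coe_mk, one_mul]
        refine ContinuousLinearMap.opNorm_le_bound _ (norm_nonneg f) fun x => ?_
        exact f.le_opNorm (x : X))

theorem res_apply (p : Submodule ℝ X) (f : X →L[ℝ] ℝ) (x : p) : res p f x = f x := rfl

theorem norm_res_le (p : Submodule ℝ X) (f : X →L[ℝ] ℝ) : ‖res p f‖ ≤ ‖f‖ :=
  ContinuousLinearMap.opNorm_le_bound _ (norm_nonneg f) fun x => f.le_opNorm (x : X)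

theorem exists_res_eq (p : Submodule ℝ X) (g : p →L[ℝ] ℝ) : ∃ f : X →L[ℝ] ℝ, res p f = g ∧ ‖f‖ = ‖g‖ := by
  obtain ⟨f, h1, h2⟩ := exists_extension_norm_eq p g
  exact ⟨f, by ext x; exact h1 x, h2⟩

theorem norm_comp_res (p : Submodule ℝ X) (φ : (p →L[ℝ] ℝ) →L[ℝ] ℝ) : ‖φ.comp (res p)‖ = ‖φ‖ := by
  apply le_antisymm
  · refine ContinuousLinearMap.opNorm_le_bound _ (norm_nonneg φ) fun f => ?_
    calc ‖φ (res p f)‖ ≤ ‖φ‖ * ‖res p f‖ := φ.le_opNorm _
      _ ≤ ‖φ‖ * ‖f‖ := mul_le_mul_of_nonneg_left (norm_res_le p f) (norm_nonneg φ)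
  · refine ContinuousLinearMap.opNorm_le_bound _ (norm_nonneg (φ.comp (res p))) fun g => ?_
    obtain ⟨f, rfl, hf⟩ := exists_res_eq p g
    rw [← hf]
    exact (φ.comp (res p)).le_opNorm f

/-- The property `NA(X*)` linear passes to subspaces. -/
theorem hereditary (p : Submodule ℝ X) (S : Submodule ℝ ((X →L[ℝ] ℝ) →L[ℝ] ℝ))
    (hS : ∀ φ : (X →L[ℝ] ℝ) →L[ℝ] ℝ, φ ∈ S ↔ ∃ f : X →L[ℝ] ℝ, ‖f‖ ≤ 1 ∧ φ f = ‖φ‖) :
    ∃ S' : Submodule ℝ ((p →L[ℝ] ℝ) →L[ℝ] ℝ),
      ∀ φ : (p →L[ℝ] ℝ) →L[ℝ] ℝ, φ ∈ S' ↔ ∃ f : p →L[ℝ] ℝ, ‖f‖ ≤ 1 ∧ φ f = ‖φ‖ := by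
  let A : ((p →L[ℝ] ℝ) →L[ℝ] ℝ) →ₗ[ℝ] ((X →L[ℝ] ℝ) →L[ℝ] ℝ) :=
    { toFun := fun φ => φ.comp (res p)
      map_add' := fun φ ψ => by ext x; rfl
      map_smul' := fun c φ => by ext x; rfl }
  refine ⟨S.comap A, fun φ => ?_⟩
  rw [Submodule.mem_comap, hS]
  have hA : A φ = φ.comp (res p) := rfl
  rw [hA, norm_comp_res]
  constructor
  · rintro ⟨f, h1, h2⟩
    exact ⟨res p f, (norm_res_le p f).trans h1, h2⟩
  · rintro ⟨g, h1, h2⟩
    obtain ⟨f, rfl, hf⟩ := exists_res_eq p g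
    exact ⟨f, hf.trans_le h1, h2⟩

end hereditary

section caseA

/-- the space `ℓ₁` -/
abbrev l1 : Type := lp (fun _ : ℕ => ℝ) 1

theorem l1_summable (a : l1) : Summable (fun n => |a n|) := by
  have := (lp.memℓp a).summable (by norm_num)
  simpa using this

theorem l1_norm (a : l1) : ‖a‖ = ∑' n, |a n| := by
  rw [lp.norm_eq_tsum_rpow (by norm_num)]
  simp

theorem l1_sum_le (a : l1) (N : ℕ) : ∑ n ∈ range N, |a n| ≤ ‖a‖ := by
  rw [l1_norm]
  exact (l1_summable a).sum_le_tsum _ (fun _ _ => abs_nonneg _)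

variable {X : Type*} [NormedAddCommGroup X] [NormedSpace ℝ X] [CompleteSpace X]

theorem summable_smul (w : ℕ → X) (C : ℝ) (hw : ∀ n, ‖w n‖ ≤ C) (a : l1) :
    Summable (fun n => a n • w n) := by
  refine Summable.of_norm_bounded (g := fun n => |a n| * C) ((l1_summable a).mul_right C) fun n => ?_
  rw [norm_smul]
  exact mul_le_mul_of_nonneg_left (hw n) (norm_nonneg _)

/-- the operator from `ℓ₁` -/
noncomputable def T1 (w : ℕ → X) (C : ℝ) (hw : ∀ n, ‖w n‖ ≤ C) : l1 →L[ℝ] X :=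
  LinearMap.mkContinuous
    { toFun := fun a => ∑' n, a n • w n
      map_add' := fun a b => by
        have : ∀ n, (a + b) n • w n = a n • w n + b n • w n := fun n => by
          rw [lp.coeFn_add, Pi.add_apply, add_smul]
        simp only [this]
        exact (summable_smul w C hw a).tsum_add (summable_smul w C hw b)
      map_smul' := fun c a => by
        have : ∀ n, (c • a) n • w n = c • (a n • w n) := fun n => by
          rw [lp.coeFn_smul, Pi.smul_apply, smul_assoc]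
        simp only [this, RingHom.id_apply]
        exact (summable_smul w C hw a).tsum_const_smul c }
    C (fun a => by
      simp only [LinearMap.coe_mk, AddHom.coe_mk]
      have h1 := tsum_of_norm_bounded ((l1_summable a).mul_right C).hasSum (f := fun n => a n • w n) (fun n => by
        rw [norm_smul]
        exact mul_le_mul_of_nonneg_left (hw n) (norm_nonneg _))
      rw [tsum_mul_right, ← l1_norm, mul_comm] at h1
      exact h1)

theorem T1_tendsto (w : ℕ → X) (C : ℝ) (hw : ∀ n, ‖w n‖ ≤ C) (a : l1) :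
    Tendsto (fun N => ∑ n ∈ range N, a n • w n) atTop (𝓝 (T1 w C hw a)) :=
  (summable_smul w C hw a).hasSum.tendsto_sum_nat

theorem T1_lower (w : ℕ → X) (C : ℝ) (hw : ∀ n, ‖w n‖ ≤ C) (c : ℝ)
    (hlow : ∀ (n : ℕ) (a : ℕ → ℝ), c * ∑ j ∈ range n, |a j| ≤ ‖∑ j ∈ range n, a j • w j‖) (a : l1) :
    c * ‖a‖ ≤ ‖T1 w C hw a‖ := by
  have h1 : Tendsto (fun N => c * ∑ n ∈ range N, |a n|) atTop (𝓝 (c * ‖a‖)) := by
    rw [l1_norm]
    exact (l1_summable a).hasSum.tendsto_sum_nat.const_mul c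
  exact le_of_tendsto_of_tendsto' h1 (T1_tendsto w C hw a).norm (fun N => hlow N _)

/-- The `ℓ₁` case: no linear structure if there is an `ℓ₁`-sequence with asymptotically symmetric
tails. -/
theorem caseA (w : ℕ → X) (c C : ℝ) (hc : 0 < c) (hw : ∀ n, ‖w n‖ ≤ C)
    (hlow : ∀ (n : ℕ) (a : ℕ → ℝ), c * ∑ j ∈ range n, |a j| ≤ ‖∑ j ∈ range n, a j • w j‖)
    (ε : ℕ → ℝ) (hε : Tendsto ε atTop (𝓝 0))
    (hsym : ∀ (n m : ℕ) (a : ℕ → ℝ), n ≤ m →
        ‖∑ j ∈ range n, a j • w j - ∑ j ∈ Ico n m, a j • w j‖ ≤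
          (1 + ε n) * ‖∑ j ∈ range m, a j • w j‖)
    (S : Submodule ℝ ((X →L[ℝ] ℝ) →L[ℝ] ℝ))
    (hS : ∀ φ : (X →L[ℝ] ℝ) →L[ℝ] ℝ, φ ∈ S ↔ ∃ f : X →L[ℝ] ℝ, ‖f‖ ≤ 1 ∧ φ f = ‖φ‖) : False := by
  set T := T1 w C hw with hT
  have hTlow : ∀ a, c * ‖a‖ ≤ ‖T a‖ := T1_lower w C hw c hlow
  have hanti : AntilipschitzWith (Real.toNNReal c⁻¹) T := by
    refine T.antilipschitz_of_bound fun a => ?_
    rw [Real.coe_toNNReal _ (by positivity)]
    have := hTlow a
    rw [inv_mul_eq_div, le_div_iff₀ hc]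
    linarith
  have hinj : Function.Injective T := hanti.injective
  have hclosed : IsClosed (Set.range T) := hanti.isClosed_range T.uniformContinuous
  obtain ⟨p, hpc, e, he⟩ : ∃ p : Submodule ℝ X, IsClosed (p : Set X) ∧ ∃ e : l1 ≃L[ℝ] p,
      ∀ a, (e a : X) = T a :=
    ⟨LinearMap.range T.toLinearMap, hclosed, T.equivRange hinj hclosed, fun a => rfl⟩
  have : CompleteSpace p := hpc.completeSpace_coe
  obtain ⟨S', hS'⟩ := hereditary p S hS
  -- the data
  let v : ℕ → p := fun n => e (lp.single 1 n 1)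
  have hvw : ∀ n, (v n : X) = w n := by
    intro n
    rw [he]
    change ∑' k, (lp.single 1 n (1:ℝ) : l1) k • w k = w n
    rw [tsum_eq_single n]
    · rw [lp.single_apply_self, one_smul]
    · intro k hk
      rw [lp.single_apply_ne _ _ _ hk, zero_smul]
  let evl : ℕ → (l1 →L[ℝ] ℝ) := fun n =>
    LinearMap.mkContinuous
      { toFun := fun a => a n
        map_add' := fun a b => rfl
        map_smul' := fun a b => rfl } 1 (fun a => by
          rw [one_mul]
          exact lp.norm_apply_le_norm (by norm_num) a n)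
  have hevl : ∀ n a, evl n a = a n := fun _ _ => rfl
  let co : ℕ → (p →L[ℝ] ℝ) := fun n => (evl n).comp (e.symm : p →L[ℝ] l1)
  have hco : ∀ n x, co n x = (e.symm x) n := fun _ _ => rfl
  have hnorm_symm : ∀ x : p, ‖e.symm x‖ ≤ c⁻¹ * ‖x‖ := by
    intro x
    have h1 := hTlow (e.symm x)
    rw [← he, e.apply_symm_apply] at h1
    rw [inv_mul_eq_div, le_div_iff₀ hc, mul_comm]
    exact h1
  have hbi : ∀ n m, co n (v m) = if n = m then 1 else 0 := by
    intro n m
    rw [hco]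
    change (e.symm (e (lp.single 1 m 1))) n = _
    rw [e.symm_apply_apply]
    by_cases h : n = m
    · subst h
      rw [if_pos rfl]; exact lp.single_apply_self _ _ _
    · rw [if_neg h]; exact lp.single_apply_ne _ _ _ h
  have hsumeq : ∀ (N : ℕ) (x : p), ((∑ n ∈ range N, co n x • v n : p) : X) = ∑ n ∈ range N, (e.symm x) n • w n := by
    intro N x
    rw [Submodule.coe_sum]
    apply Finset.sum_congr rfl
    intro n _
    rw [Submodule.coe_smul, hvw, hco]
  have hrepX : ∀ x : p, Tendsto (fun N => ∑ n ∈ range N, (e.symm x) n • w n) atTop (𝓝 (x : X)) := by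
    intro x
    have h1 := T1_tendsto w C hw (e.symm x)
    have h2 : T1 w C hw (e.symm x) = (x : X) := by
      have := he (e.symm x)
      rw [e.apply_symm_apply] at this
      exact this.symm
    rwa [h2] at h1
  refine coreA (Y := p) v co C c⁻¹ hbi ?_ ?_ ?_ ε hε ?_ (fun Φ₀ δ hδ => bishop_phelps Φ₀ δ hδ) S' hS'
  · intro n
    have h1 : ‖v n‖ = ‖(v n : X)‖ := rfl
    rw [h1, hvw]
    exact hw n
  · intro N x
    refine le_trans ?_ (hnorm_symm x)
    exact l1_sum_le (e.symm x) N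
  · intro x
    rw [tendsto_subtype_rng]
    refine (hrepX x).congr fun N => ?_
    exact (hsumeq N x).symm
  · intro n x
    have h1 : Tendsto (fun m => ‖∑ j ∈ range n, (e.symm x) j • w j - ∑ j ∈ Ico n m, (e.symm x) j • w j‖) atTop
        (𝓝 ‖(((2:ℝ) • (∑ j ∈ range n, co j x • v j) - x : p) : X)‖) := by
      have h2 : (((2:ℝ) • (∑ j ∈ range n, co j x • v j) - x : p) : X)
          = (2:ℝ) • (∑ j ∈ range n, (e.symm x) j • w j) - x := by
        rw [Submodule.coe_sub, Submodule.coe_smul, hsumeq]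
      rw [h2]
      have h3 : Tendsto (fun m => (2:ℝ) • (∑ j ∈ range n, (e.symm x) j • w j) - ∑ j ∈ range m, (e.symm x) j • w j) atTop
          (𝓝 ((2:ℝ) • (∑ j ∈ range n, (e.symm x) j • w j) - x)) := tendsto_const_nhds.sub (hrepX x)
      refine h3.norm.congr' ?_
      filter_upwards [eventually_ge_atTop n] with m hm
      rw [← Finset.sum_range_add_sum_Ico _ hm]
      congr 1
      module
    have h4 : Tendsto (fun m => (1 + ε n) * ‖∑ j ∈ range m, (e.symm x) j • w j‖) atTop (𝓝 ((1 + ε n) * ‖(x : X)‖)) :=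
      (hrepX x).norm.const_mul _
    refine le_of_tendsto_of_tendsto h1 h4 ?_
    filter_upwards [eventually_ge_atTop n] with m hm
    exact hsym n m _ hm

end caseA

end Pool.Agent.Helper902.NA
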