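import Mathlib

set_option autoImplicit false

namespace Pool.Agent.Helper902.NA

/-- distance to a finite dimensional space of functionals, dual form -/
theorem james_dist {E : Type*} [NormedAddCommGroup E] [NormedSpace ℝ E]
    (Φ : StrongDual ℝ E) (θ : ℝ) (hθ : 0 < θ) {ι : Type*} [Finite ι] (L : ι → StrongDual ℝ E)
    (hcon : ∀ f : E, ‖f‖ ≤ 1 → (∀ i, L i f = 0) → Φ f ≤ θ) :
    ∃ Ψ : StrongDual ℝ E, ‖Ψ‖ ≤ θ ∧
      ((Φ - Ψ : StrongDual ℝ E) : E →ₗ[ℝ] ℝ) ∈
        Submodule.span ℝ (Set.range fun i => ((L i : StrongDual ℝ E) : E →ₗ[ℝ] ℝ)) := by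
  classical
  set E0 : Submodule ℝ E := ⨅ i, LinearMap.ker ((L i : StrongDual ℝ E) : E →ₗ[ℝ] ℝ) with hE0
  have hE0mem : ∀ f : E, f ∈ E0 ↔ ∀ i, L i f = 0 := by
    intro f
    rw [hE0, Submodule.mem_iInf]
    rfl
  have hbound : ∀ f ∈ E0, Φ f ≤ θ * ‖f‖ := by
    intro f hf
    rcases eq_or_ne f 0 with h0 | h0
    · simp [h0]
    · have hpos : 0 < ‖f‖ := norm_pos_iff.mpr h0
      have h1 := hcon (‖f‖⁻¹ • f) (by rw [norm_smul]; simp [hpos.ne']) (by
        intro i
        have := (hE0mem f).1 hf i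
        rw [map_smul, this, smul_zero])
      rw [map_smul, smul_eq_mul] at h1
      have h2 := mul_le_mul_of_nonneg_left h1 hpos.le
      rw [← mul_assoc, mul_inv_cancel₀ hpos.ne', one_mul] at h2
      linarith
  set φ : StrongDual ℝ E0 := Φ.comp E0.subtypeL with hφ
  have hφn : ‖φ‖ ≤ θ := by
    refine ContinuousLinearMap.opNorm_le_bound _ hθ.le ?_
    intro f
    have h1 := hbound f f.2
    have h2 := hbound (-f) (E0.neg_mem f.2)
    rw [map_neg, norm_neg] at h2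
    rw [Real.norm_eq_abs, abs_le]
    refine ⟨?_, ?_⟩
    · have : φ f = Φ (f : E) := rfl
      rw [this]
      have h3 : ‖f‖ = ‖(f : E)‖ := rfl
      rw [h3]
      linarith
    · exact h1
  obtain ⟨Ψ, hΨ1, hΨ2⟩ := exists_extension_norm_eq E0 φ
  refine ⟨Ψ, by rw [hΨ2]; exact hφn, ?_⟩
  apply mem_span_of_iInf_ker_le_ker
  intro f hf
  have hfE : f ∈ E0 := hf
  rw [LinearMap.mem_ker]
  have := hΨ1 ⟨f, hfE⟩
  rw [ContinuousLinearMap.coe_coe]
  change Φ f - Ψ f = 0
  have h4 : φ ⟨f, hfE⟩ = Φ f := rfl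
  rw [h4] at this
  rw [← this]
  simp

section James

variable {X : Type*} [NormedAddCommGroup X] [NormedSpace ℝ X]

/-- a functional killing a finite set of vectors on which a far element of the bidual is large -/
theorem james_stepA (Φ : StrongDual ℝ (StrongDual ℝ X)) (θ : ℝ) (hθ : 0 < θ)
    (hd : ∀ x : X, θ < ‖Φ - NormedSpace.inclusionInDoubleDual ℝ X x‖) (s : Finset X) :
    ∃ f : StrongDual ℝ X, ‖f‖ ≤ 1 ∧ (∀ x ∈ s, f x = 0) ∧ θ < Φ f := by
  classical
  by_contra hcon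
  push Not at hcon
  obtain ⟨Ψ, hΨ1, hspan⟩ := james_dist Φ θ hθ
    (fun x : s => NormedSpace.inclusionInDoubleDual ℝ X (x : X)) (by
      intro f hf hfx
      refine hcon f hf fun x hx => ?_
      have := hfx ⟨x, hx⟩
      simpa using this)
  have hle : Submodule.span ℝ (Set.range fun x : s =>
      ((NormedSpace.inclusionInDoubleDual ℝ X (x : X) : StrongDual ℝ (StrongDual ℝ X)) :
        StrongDual ℝ X →ₗ[ℝ] ℝ)) ≤
      LinearMap.range ((ContinuousLinearMap.coeLM ℝ).comp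
        (NormedSpace.inclusionInDoubleDual ℝ X).toLinearMap :
          X →ₗ[ℝ] (StrongDual ℝ X →ₗ[ℝ] ℝ)) := by
    rw [Submodule.span_le]
    rintro _ ⟨x, rfl⟩
    exact ⟨(x : X), rfl⟩
  obtain ⟨x', hx'⟩ := hle hspan
  have hx'' : NormedSpace.inclusionInDoubleDual ℝ X x' = Φ - Ψ := by
    apply ContinuousLinearMap.ext
    intro f
    have := LinearMap.congr_fun hx' f
    simpa using this
  have := hd x'
  rw [hx''] at this
  have h5 : Φ - (Φ - Ψ) = Ψ := by abel
  rw [h5] at this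
  linarith

/-- Helly's step -/
theorem james_stepB (Φ : StrongDual ℝ (StrongDual ℝ X)) (hΦ : ‖Φ‖ ≤ 1) (θ : ℝ)
    (F : Finset (StrongDual ℝ X)) (hF : ∀ f ∈ F, θ < Φ f) :
    ∃ x : X, ‖x‖ ≤ 1 ∧ ∀ f ∈ F, θ ≤ f x := by
  classical
  by_contra hcon
  push Not at hcon
  set A : Set (F → ℝ) := (fun x : X => fun f : F => (f : StrongDual ℝ X) x) '' (Metric.closedBall 0 1)
    with hA
  set B : Set (F → ℝ) := {t | ∀ f, θ < t f} with hB
  have hBo : IsOpen B := by
    have : B = ⋂ f : F, {t : F → ℝ | θ < t f} := by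
      ext t; simp [hB]
    rw [this]
    exact isOpen_iInter_of_finite fun f => isOpen_lt continuous_const (continuous_apply f)
  have hBc : Convex ℝ B := by
    intro a ha b hb p q hp hq hpq f
    have h1 := ha f
    have h2 := hb f
    simp only [Pi.add_apply, Pi.smul_apply, smul_eq_mul]
    rcases eq_or_lt_of_le hp with hp0 | hp0
    · have : q = 1 := by linarith
      rw [← hp0, this]; linarith
    · have h3 : p * θ < p * a f := mul_lt_mul_of_pos_left h1 hp0
      have h4 : q * θ ≤ q * b f := mul_le_mul_of_nonneg_left h2.le hq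
      have h5 : p * θ + q * θ = θ := by rw [← add_mul, hpq, one_mul]
      linarith
  have hAc : Convex ℝ A := by
    have hlin : IsLinearMap ℝ (fun x : X => fun f : F => (f : StrongDual ℝ X) x) :=
      { map_add := by intro x y; ext f; simp
        map_smul := by intro c x; ext f; simp }
    exact (convex_closedBall (0 : X) 1).is_linear_image hlin
  have hdisj : Disjoint B A := by
    rw [Set.disjoint_left]
    rintro t ht ⟨x, hx, rfl⟩
    obtain ⟨f, hfF, hf⟩ := hcon x (by simpa using hx)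
    have := ht ⟨f, hfF⟩
    simp only at this
    linarith
  obtain ⟨L, u, hL1, hL2⟩ := geometric_hahn_banach_open hBc hBo hAc hdisj
  set c : F → ℝ := fun f => - L (Pi.single f 1) with hc
  have hLrep : ∀ t : F → ℝ, L t = - ∑ f, c f * t f := by
    intro t
    have h1 : t = ∑ f, t f • (Pi.single f (1 : ℝ) : F → ℝ) := by
      ext g
      simp [Finset.sum_apply, Pi.single_apply]
    conv_lhs => rw [h1]
    rw [map_sum, ← Finset.sum_neg_distrib]
    refine Finset.sum_congr rfl fun f _ => ?_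
    rw [map_smul]
    simp [hc]
    ring
  set g : StrongDual ℝ X := ∑ f : F, c f • (f : StrongDual ℝ X) with hg
  have hgx : ∀ x : X, ‖x‖ ≤ 1 → g x ≤ -u := by
    intro x hx
    have h1 := hL2 _ ⟨x, by simpa using hx, rfl⟩
    rw [hLrep] at h1
    have h2 : g x = ∑ f : F, c f * (f : StrongDual ℝ X) x := by
      rw [hg]
      simp
    rw [h2]
    linarith
  have hu : 0 ≤ -u := by
    have := hgx 0 (by simp)
    simpa using this
  have hgn : ‖g‖ ≤ -u := by
    refine ContinuousLinearMap.opNorm_le_of_unit_norm hu ?_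
    intro x hx
    rw [Real.norm_eq_abs, abs_le]
    refine ⟨?_, hgx x hx.le⟩
    have := hgx (-x) (by rw [norm_neg]; exact hx.le)
    rw [map_neg] at this
    linarith
  have hΦg : Φ g ≤ -u := by
    calc Φ g ≤ |Φ g| := le_abs_self _
      _ = ‖Φ g‖ := (Real.norm_eq_abs _).symm
      _ ≤ ‖Φ‖ * ‖g‖ := Φ.le_opNorm g
      _ ≤ 1 * (-u) := mul_le_mul hΦ hgn (norm_nonneg _) (by norm_num)
      _ = -u := one_mul _
  have hmem : (fun f : F => Φ (f : StrongDual ℝ X)) ∈ B := fun f => hF f f.2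
  have h1 := hL1 _ hmem
  rw [hLrep] at h1
  have h2 : Φ g = ∑ f : F, c f * Φ (f : StrongDual ℝ X) := by
    rw [hg, map_sum]
    refine Finset.sum_congr rfl fun f _ => ?_
    rw [map_smul, smul_eq_mul]
  rw [h2] at hΦg
  linarith

end James

/-- Riesz lemma for the range of a non surjective isometry -/
theorem james_far {X E : Type*} [NormedAddCommGroup X] [NormedSpace ℝ X] [CompleteSpace X]
    [NormedAddCommGroup E] [NormedSpace ℝ E] (J : X → E) (hadd : ∀ x y, J (x + y) = J x + J y)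
    (hsmul : ∀ (c : ℝ) x, J (c • x) = c • J x) (hn : ∀ x, ‖J x‖ = ‖x‖)
    (hJ : ¬ Function.Surjective J) :
    ∃ Φ : E, ‖Φ‖ ≤ 1 ∧ ∀ x : X, (1 / 4 : ℝ) < ‖Φ - J x‖ := by
  set J' : X →ₗᵢ[ℝ] E := ⟨⟨⟨J, hadd⟩, hsmul⟩, hn⟩ with hJ'
  set R : Submodule ℝ E := LinearMap.range J'.toLinearMap with hR
  have hclosed : IsClosed (R : Set E) := by
    have h1 : (R : Set E) = Set.range J' := by
      ext y
      constructor
      · rintro ⟨x, hx⟩; exact ⟨x, hx⟩
      · rintro ⟨x, hx⟩; exact ⟨x, hx⟩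
    rw [h1]
    exact J'.isometry.isClosedEmbedding.isClosed_range
  have hne : ∃ y : E, y ∉ R := by
    by_contra h
    push Not at h
    exact hJ fun y => h y
  obtain ⟨Φ1, hΦ1, hΦ1'⟩ := riesz_lemma hclosed hne (show (1 / 2 : ℝ) < 1 by norm_num)
  have hΦ1n : 0 < ‖Φ1‖ := by
    rw [norm_pos_iff]
    rintro rfl
    exact hΦ1 (Submodule.zero_mem _)
  refine ⟨‖Φ1‖⁻¹ • Φ1, ?_, ?_⟩
  · rw [norm_smul]; simp [hΦ1n.ne']
  · intro x
    have h1 := hΦ1' (J (‖Φ1‖ • x)) ⟨_, rfl⟩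
    have h2 : ‖Φ1‖⁻¹ • Φ1 - J x = ‖Φ1‖⁻¹ • (Φ1 - J (‖Φ1‖ • x)) := by
      rw [smul_sub, hsmul, smul_smul, inv_mul_cancel₀ hΦ1n.ne', one_smul]
    rw [h2, norm_smul, norm_inv, norm_norm]
    have h3 : ‖Φ1‖⁻¹ * (1 / 2 * ‖Φ1‖) ≤ ‖Φ1‖⁻¹ * ‖Φ1 - J (‖Φ1‖ • x)‖ :=
      mul_le_mul_of_nonneg_left h1 (by positivity)
    have h4 : ‖Φ1‖⁻¹ * (1 / 2 * ‖Φ1‖) = 1 / 2 := by
      field_simp
    linarith

/-- an element of the bidual far from the canonical image -/
theorem james_far' {X : Type*} [NormedAddCommGroup X] [NormedSpace ℝ X] [CompleteSpace X]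
    (hX : ¬ Function.Surjective (NormedSpace.inclusionInDoubleDual ℝ X)) :
    ∃ Φ : StrongDual ℝ (StrongDual ℝ X), ‖Φ‖ ≤ 1 ∧
      ∀ x : X, (1 / 4 : ℝ) < ‖Φ - NormedSpace.inclusionInDoubleDual ℝ X x‖ := by
  have h0 : ∀ x : X, ‖NormedSpace.inclusionInDoubleDual ℝ X x‖ = ‖x‖ := by
    intro x
    exact (NormedSpace.inclusionInDoubleDualLi ℝ (E := X)).norm_map x
  refine james_far (X := X) (E := StrongDual ℝ (StrongDual ℝ X)) (fun x => NormedSpace.inclusionInDoubleDual ℝ X x) ?_ ?_ h0 hX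
  · intro x y
    exact map_add _ _ _
  · intro c x
    exact map_smul _ _ _

/-- the recursion -/
theorem james_rec {X F : Type*} (P : F → Prop) (A : Finset X → F)
    (B : ∀ G : Finset F, (∀ f ∈ G, P f) → X) (hA : ∀ s, P (A s)) :
    ∃ (x : ℕ → X) (f : ℕ → F), ∀ n, ∃ (s : Finset X) (G : Finset F) (hG : ∀ f ∈ G, P f),
      f n = A s ∧ (∀ j, j < n → x j ∈ s) ∧ x n = B G hG ∧ (∀ j, j ≤ n → f j ∈ G) := by
  classical
  let St := {p : Finset X × Finset F // ∀ f ∈ p.2, P f}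
  have hins : ∀ p : St, ∀ f ∈ insert (A p.1.1) p.1.2, P f := by
    intro p f hf
    rcases Finset.mem_insert.1 hf with h | h
    · rw [h]; exact hA _
    · exact p.2 f h
  let fOf : St → F := fun p => A p.1.1
  let xOf : St → X := fun p => B (insert (A p.1.1) p.1.2) (hins p)
  let nxt : St → St := fun p => ⟨(insert (xOf p) p.1.1, insert (fOf p) p.1.2), hins p⟩
  let S : ℕ → St := fun n => Nat.rec ⟨(∅, ∅), by simp⟩ (fun _ p => nxt p) n
  have hS : ∀ n, S (n + 1) = nxt (S n) := fun n => rfl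
  have hmx : ∀ n k, n < k → xOf (S n) ∈ (S k).1.1 := by
    intro n k hk
    induction k with
    | zero => omega
    | succ k ih =>
      rw [hS]
      show _ ∈ insert (xOf (S k)) (S k).1.1
      rcases Nat.lt_succ_iff_lt_or_eq.1 hk with h | h
      · exact Finset.mem_insert_of_mem (ih h)
      · rw [h]; exact Finset.mem_insert_self _ _
  have hmf : ∀ n k, n < k → fOf (S n) ∈ (S k).1.2 := by
    intro n k hk
    induction k with
    | zero => omega
    | succ k ih =>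
      rw [hS]
      show _ ∈ insert (fOf (S k)) (S k).1.2
      rcases Nat.lt_succ_iff_lt_or_eq.1 hk with h | h
      · exact Finset.mem_insert_of_mem (ih h)
      · rw [h]; exact Finset.mem_insert_self _ _
  refine ⟨fun n => xOf (S n), fun n => fOf (S n), fun n => ⟨(S n).1.1,
    insert (A (S n).1.1) (S n).1.2, hins (S n), rfl, fun j hj => hmx j n hj, rfl, ?_⟩⟩
  intro j hj
  rcases Nat.lt_or_eq_of_le hj with h | h
  · exact Finset.mem_insert_of_mem (hmf j n h)
  · rw [h]; exact Finset.mem_insert_self _ _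

/-- James' biorthogonal-type sequences in a nonreflexive Banach space. -/
theorem james_seq {X : Type*} [NormedAddCommGroup X] [NormedSpace ℝ X] [CompleteSpace X]
    (hX : ¬ Function.Surjective (NormedSpace.inclusionInDoubleDual ℝ X)) :
    ∃ θ : ℝ, 0 < θ ∧ ∃ (x : ℕ → X) (f : ℕ → (X →L[ℝ] ℝ)),
      (∀ n, ‖x n‖ ≤ 1) ∧ (∀ n, ‖f n‖ ≤ 1) ∧
      (∀ k n, n < k → f k (x n) = 0) ∧ (∀ k n, k ≤ n → θ ≤ f k (x n)) := by
  obtain ⟨Φ, hΦn, hd⟩ := james_far' hX
  choose cA hA1 hA2 hA3 using james_stepA Φ (1 / 4) (by norm_num) hd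
  choose cB hB1 hB2 using james_stepB Φ hΦn (1 / 4)
  obtain ⟨x, f, hxf⟩ := james_rec (fun f : StrongDual ℝ X => (1 / 4 : ℝ) < Φ f) cA cB hA3
  refine ⟨1 / 4, by norm_num, x, f, ?_, ?_, ?_, ?_⟩
  · intro n
    obtain ⟨s, G, hG, h1, h2, h3, h4⟩ := hxf n
    rw [h3]; exact hB1 _ _
  · intro n
    obtain ⟨s, G, hG, h1, h2, h3, h4⟩ := hxf n
    rw [h1]; exact hA1 _
  · intro k n hnk
    obtain ⟨s, G, hG, h1, h2, h3, h4⟩ := hxf k
    rw [h1]
    exact hA2 _ _ (h2 n hnk)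
  · intro k n hkn
    obtain ⟨s, G, hG, h1, h2, h3, h4⟩ := hxf n
    rw [h3]
    exact hB2 _ _ _ (h4 k hkn)

end Pool.Agent.Helper902.NA
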