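import Mathlib

set_option autoImplicit false

namespace Pool.Agent.Helper902.NA

/-- `y` oscillates along `M` -/
def Osc {Ω : Type*} (A B : ℕ → Set Ω) (M : Set ℕ) (y : Ω) : Prop :=
  {n | n ∈ M ∧ y ∈ A n}.Infinite ∧ {n | n ∈ M ∧ y ∈ B n}.Infinite

/-- hereditary oscillation inside `C` -/
def HOsc {Ω : Type*} (A B : ℕ → Set Ω) (C : Set Ω) (M : Set ℕ) : Prop :=
  ∀ M1 : Set ℕ, M1 ⊆ M → M1.Infinite → ∃ y ∈ C, Osc A B M1 y

theorem HOsc.mono {Ω : Type*} {A B : ℕ → Set Ω} {C : Set Ω} {M M' : Set ℕ} (h : HOsc A B C M)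
    (hM : M' ⊆ M) : HOsc A B C M' := fun M1 h1 h2 => h M1 (h1.trans hM) h2

theorem rosenthal_step {Ω : Type*} (A B : ℕ → Set Ω) (S : Set (Set Ω)) (hS : S.Finite)
    (M : Set ℕ) (hM : M.Infinite) (hH : ∀ C ∈ S, HOsc A B C M) :
    ∃ n ∈ M, ∃ M1 : Set ℕ, M1 ⊆ M ∧ M1.Infinite ∧ (∀ k ∈ M1, n < k) ∧
      ∀ C ∈ S, HOsc A B (C ∩ A n) M1 ∧ HOsc A B (C ∩ B n) M1 := by
  classical
  by_contra hcon
  push Not at hcon
  -- the failing data
  have key : ∀ M' : {M' : Set ℕ // M' ⊆ M ∧ M'.Infinite}, ∃ n ∈ M'.1, ∃ p : S × Bool,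
      ∃ M2 : {M2 : Set ℕ // M2 ⊆ M ∧ M2.Infinite}, M2.1 ⊆ M'.1 ∧ (∀ k ∈ M2.1, n < k) ∧
      ∀ y ∈ (p.1 : Set Ω) ∩ (if p.2 then A n else B n), ¬ Osc A B M2.1 y := by
    rintro ⟨M', hM'1, hM'2⟩
    obtain ⟨n, hn⟩ := hM'2.nonempty
    have hinf : (M' \ Set.Iic n).Infinite := hM'2.sdiff (Set.finite_Iic n)
    obtain ⟨C, hC, hfail⟩ := hcon n (hM'1 hn) (M' \ Set.Iic n)
      (Set.sdiff_subset.trans hM'1) hinf (fun k hk => by simpa using hk.2)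
    by_cases h1 : HOsc A B (C ∩ A n) (M' \ Set.Iic n)
    · have h2 := hfail h1
      unfold HOsc at h2
      push Not at h2
      obtain ⟨M2, h3, h4, h5⟩ := h2
      refine ⟨n, hn, (⟨C, hC⟩, false), ⟨M2, (h3.trans Set.sdiff_subset).trans hM'1, h4⟩,
        h3.trans Set.sdiff_subset, fun k hk => by simpa using (h3 hk).2, ?_⟩
      intro y hy
      exact h5 y (by simpa using hy)
    · unfold HOsc at h1
      push Not at h1
      obtain ⟨M2, h3, h4, h5⟩ := h1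
      refine ⟨n, hn, (⟨C, hC⟩, true), ⟨M2, (h3.trans Set.sdiff_subset).trans hM'1, h4⟩,
        h3.trans Set.sdiff_subset, fun k hk => by simpa using (h3 hk).2, ?_⟩
      intro y hy
      exact h5 y (by simpa using hy)
  choose n hn p M2 hM2 hlt hno using key
  let seq : ℕ → {M' : Set ℕ // M' ⊆ M ∧ M'.Infinite} := fun j =>
    Nat.rec ⟨M, subset_rfl, hM⟩ (fun _ M' => M2 M') j
  have hseq : ∀ j, seq (j + 1) = M2 (seq j) := fun j => rfl
  have hanti : ∀ i j, i ≤ j → (seq j).1 ⊆ (seq i).1 := by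
    intro i j hij
    induction hij with
    | refl => exact subset_rfl
    | step _ ih => exact (hM2 _).trans ih
  have hmono : StrictMono (fun j => n (seq j)) := by
    refine strictMono_nat_of_lt_succ fun j => ?_
    exact hlt (seq j) _ (hn (seq (j + 1)))
  have : Finite S := hS
  obtain ⟨c, hc⟩ := Finite.exists_infinite_fiber (fun j : ℕ => p (seq j))
  have hJ : ((fun j : ℕ => p (seq j)) ⁻¹' {c}).Infinite := Set.infinite_coe_iff.mp hc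
  set J := (fun j : ℕ => p (seq j)) ⁻¹' {c} with hJdef
  have hM1inf : ((fun j => n (seq j)) '' J).Infinite := hJ.image hmono.injective.injOn
  have hM1sub : ((fun j => n (seq j)) '' J) ⊆ M := by
    rintro _ ⟨j, _, rfl⟩
    exact (seq j).2.1 (hn (seq j))
  obtain ⟨y, hyC, hyA, hyB⟩ := hH c.1 c.1.2 _ hM1sub hM1inf
  -- a member of the chosen colour
  obtain ⟨j, hj, hyj⟩ : ∃ j ∈ J, y ∈ (if c.2 then A (n (seq j)) else B (n (seq j))) := by
    by_cases hc2 : c.2 = true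
    · obtain ⟨k, ⟨j, hj, rfl⟩, hk⟩ := hyA.nonempty
      exact ⟨j, hj, by simpa [hc2] using hk⟩
    · obtain ⟨k, ⟨j, hj, rfl⟩, hk⟩ := hyB.nonempty
      exact ⟨j, hj, by simpa [hc2] using hk⟩
  have hpj : p (seq j) = c := hj
  refine hno (seq j) y (by rw [hpj]; exact ⟨hyC, hyj⟩) ?_
  have htrans : ∀ E : Set ℕ, {k | k ∈ ((fun j => n (seq j)) '' J) ∧ k ∈ E}.Infinite →
      {k | k ∈ (M2 (seq j)).1 ∧ k ∈ E}.Infinite := by
    intro E hE
    refine (hE.sdiff (Set.finite_Iic (n (seq j)))).mono ?_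
    rintro k ⟨⟨⟨i, hi, rfl⟩, hkE⟩, hk⟩
    refine ⟨?_, hkE⟩
    have hij : j < i := by
      by_contra hle
      exact hk (hmono.monotone (not_lt.mp hle))
    rw [← hseq]
    exact hanti (j + 1) i hij (hn (seq i))
  exact ⟨htrans {k | y ∈ A k} hyA, htrans {k | y ∈ B k} hyB⟩

/-- Rosenthal's combinatorial lemma: if on every infinite subset `M` of `M₀` some point `y` lies in
`A n` for infinitely many `n ∈ M` and in `B n` for infinitely many `n ∈ M`, then some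
subsequence in `M₀` is Boolean independent. -/
theorem rosenthal_independent {Ω : Type*} (A B : ℕ → Set Ω) (M₀ : Set ℕ) (hM₀ : M₀.Infinite)
    (hosc : ∀ M : Set ℕ, M ⊆ M₀ → M.Infinite →
      ∃ y : Ω, {n | n ∈ M ∧ y ∈ A n}.Infinite ∧ {n | n ∈ M ∧ y ∈ B n}.Infinite) :
    ∃ φ : ℕ → ℕ, StrictMono φ ∧ (∀ j, φ j ∈ M₀) ∧
      ∀ (m : ℕ) (F : Set ℕ), ∃ y : Ω, ∀ j < m,
        (j ∈ F → y ∈ A (φ j)) ∧ (j ∉ F → y ∈ B (φ j)) := by
  classical
  let St := {q : Set (Set Ω) × Set ℕ // q.1.Finite ∧ q.2 ⊆ M₀ ∧ q.2.Infinite ∧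
    ∀ C ∈ q.1, HOsc A B C q.2}
  have step : ∀ q : St, ∃ n ∈ q.1.2, ∃ q' : St, q'.1.2 ⊆ q.1.2 ∧ (∀ k ∈ q'.1.2, n < k) ∧
      ∀ C ∈ q.1.1, C ∩ A n ∈ q'.1.1 ∧ C ∩ B n ∈ q'.1.1 := by
    rintro ⟨⟨S, M⟩, hS, hM0, hM, hH⟩
    obtain ⟨n, hn, M1, h1, h2, h3, h4⟩ := rosenthal_step A B S hS M hM hH
    refine ⟨n, hn, ⟨⟨(fun C => C ∩ A n) '' S ∪ (fun C => C ∩ B n) '' S, M1⟩,
      (hS.image _).union (hS.image _), h1.trans hM0, h2, ?_⟩, h1, h3, ?_⟩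
    · rintro _ (⟨C, hC, rfl⟩ | ⟨C, hC, rfl⟩)
      · exact (h4 C hC).1
      · exact (h4 C hC).2
    · intro C hC
      exact ⟨Or.inl ⟨C, hC, rfl⟩, Or.inr ⟨C, hC, rfl⟩⟩
  choose n hn nx hsub hlt hmem using step
  have hinit : (({Set.univ}, M₀) : Set (Set Ω) × Set ℕ).1.Finite ∧
      (({Set.univ}, M₀) : Set (Set Ω) × Set ℕ).2 ⊆ M₀ ∧
      (({Set.univ}, M₀) : Set (Set Ω) × Set ℕ).2.Infinite ∧
      ∀ C ∈ (({Set.univ}, M₀) : Set (Set Ω) × Set ℕ).1, HOsc A B C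
        (({Set.univ}, M₀) : Set (Set Ω) × Set ℕ).2 := by
    refine ⟨Set.finite_singleton _, subset_rfl, hM₀, ?_⟩
    intro C hC M1 h1 h2
    rw [Set.mem_singleton_iff] at hC
    obtain ⟨y, h3, h4⟩ := hosc M1 h1 h2
    exact ⟨y, by rw [hC]; trivial, h3, h4⟩
  let seq : ℕ → St := fun j => Nat.rec ⟨({Set.univ}, M₀), hinit⟩ (fun _ q => nx q) j
  have hseq : ∀ j, seq (j + 1) = nx (seq j) := fun j => rfl
  refine ⟨fun j => n (seq j), ?_, ?_, ?_⟩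
  · refine strictMono_nat_of_lt_succ fun j => ?_
    exact hlt (seq j) _ (hn (seq (j + 1)))
  · intro j
    exact (seq j).2.2.1 (hn (seq j))
  · intro m F
    have hpat : ∀ m : ℕ, ∃ C ∈ (seq m).1.1, ∀ y ∈ C, ∀ j < m,
        (j ∈ F → y ∈ A (n (seq j))) ∧ (j ∉ F → y ∈ B (n (seq j))) := by
      intro m
      induction m with
      | zero => exact ⟨Set.univ, rfl, fun y _ j hj => absurd hj (Nat.not_lt_zero j)⟩
      | succ m ih =>
        obtain ⟨C, hC, hCy⟩ := ih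
        by_cases hmF : m ∈ F
        · refine ⟨C ∩ A (n (seq m)), (hmem (seq m) C hC).1, ?_⟩
          rintro y ⟨hy1, hy2⟩ j hj
          rcases Nat.lt_succ_iff_lt_or_eq.mp hj with h | rfl
          · exact hCy y hy1 j h
          · exact ⟨fun _ => hy2, fun h => absurd hmF h⟩
        · refine ⟨C ∩ B (n (seq m)), (hmem (seq m) C hC).2, ?_⟩
          rintro y ⟨hy1, hy2⟩ j hj
          rcases Nat.lt_succ_iff_lt_or_eq.mp hj with h | rfl
          · exact hCy y hy1 j h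
          · exact ⟨fun h => absurd h hmF, fun _ => hy2⟩
    obtain ⟨C, hC, hCy⟩ := hpat m
    obtain ⟨y, hy, -⟩ := (seq m).2.2.2.2 C hC (seq m).1.2 subset_rfl (seq m).2.2.2.1
    exact ⟨y, hCy y hy⟩

end Pool.Agent.Helper902.NA
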