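import Mathlib

set_option autoImplicit false

namespace Pool.Agent.Helper902.NA

theorem simons_abs {X B : Type*} [NormedAddCommGroup X] [NormedSpace ℝ X] [CompleteSpace X]
    [NormedAddCommGroup B] [NormedSpace ℝ B] (J : X →L[ℝ] B) (hJ : ∀ u, ‖J u‖ ≤ ‖u‖)
    (Φ : B) (x : ℕ → X) (hx : ∀ n, ‖x n‖ ≤ 1) (Q : (B →L[ℝ] ℝ) → Prop)
    (hNA : ∀ (u : X) (t : ℝ), ∃ y : B →L[ℝ] ℝ, Q y ∧ ‖y‖ ≤ 1 ∧
      y (J u + t • Φ) = ‖J u + t • Φ‖)
    (β : ℝ) (hβ : ∀ u ∈ convexHull ℝ (Set.range x),
      β ≤ ‖J u - Φ‖) (η : ℝ) (hη : 0 < η) :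
    ∃ y : B →L[ℝ] ℝ, Q y ∧ ‖y‖ ≤ 1 ∧ ∀ N : ℕ, ∃ n ≥ N, β - η ≤ y (J (x n)) - y Φ := by
  classical
  let C : ℕ → Set X := fun n => convexHull ℝ (x '' Set.Ici n)
  have hCsub : ∀ n, C n ⊆ convexHull ℝ (Set.range x) := fun n =>
    convexHull_mono (Set.image_subset_range _ _)
  have hCne : ∀ n, (C n).Nonempty := fun n =>
    ⟨x n, subset_convexHull ℝ _ ⟨n, Set.mem_Ici.2 le_rfl, rfl⟩⟩
  have hCanti : ∀ n, C (n + 1) ⊆ C n := fun n =>
    convexHull_mono (Set.image_mono (Set.Ici_subset_Ici.2 (Nat.le_succ n)))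
  have hCconv : ∀ n, Convex ℝ (C n) := fun n => convex_convexHull ℝ _
  have hnorm : ∀ u ∈ convexHull ℝ (Set.range x), ‖u‖ ≤ 1 := by
    intro u hu
    have : convexHull ℝ (Set.range x) ⊆ Metric.closedBall (0 : X) 1 :=
      convexHull_min (by rintro _ ⟨n, rfl⟩; simpa using hx n) (convex_closedBall _ _)
    simpa using this hu
  set D : ℝ := 1 + ‖Φ‖ with hD
  have hD0 : 0 < D := by positivity
  have hv : ∀ u ∈ convexHull ℝ (Set.range x), ‖J u - Φ‖ ≤ D := by
    intro u hu
    calc ‖J u - Φ‖ ≤ ‖J u‖ + ‖Φ‖ := norm_sub_le _ _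
      _ ≤ ‖u‖ + ‖Φ‖ := by
        gcongr
        exact hJ u
      _ ≤ D := by rw [hD]; gcongr; exact hnorm u hu
  set lam : ℕ → ℝ := fun n => ((n + 1).factorial : ℝ)⁻¹ with hlam
  have lpos : ∀ n, 0 < lam n := fun n => by
    simp only [hlam]; positivity
  have lsucc : ∀ n : ℕ, lam (n + 1) = lam n / (n + 2) := by
    intro n
    simp only [hlam]
    rw [Nat.factorial_succ (n + 1)]
    push_cast
    field_simp
    ring
  have lhalf : ∀ n, 2 * lam (n + 1) ≤ lam n := by
    intro n
    rw [lsucc, ← mul_div_assoc, div_le_iff₀ (by positivity)]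
    have := lpos n
    nlinarith [Nat.cast_nonneg (α := ℝ) n]
  have lgeo : ∀ n, lam n ≤ (1 / 2 : ℝ) ^ n := by
    intro n
    induction n with
    | zero => simp [hlam]
    | succ n ih =>
      rw [pow_succ]
      have := lhalf n
      linarith
  have lsum : Summable lam :=
    Summable.of_nonneg_of_le (fun n => (lpos n).le) lgeo
      (summable_geometric_of_lt_one (by norm_num) (by norm_num))
  set e : ℕ → ℝ := fun n =>
    η / 4 * (1 / 2) ^ (n + 1) * (lam n * lam (n + 1) / (lam n + lam (n + 1))) with he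
  have epos : ∀ n, 0 < e n := fun n => by
    have := lpos n
    have := lpos (n + 1)
    simp only [he]; positivity
  have pick : ∀ (n : ℕ) (w : B), ∃ u ∈ C n, ∀ u' ∈ C n,
      ‖w + lam n • (J u - Φ)‖ ≤ ‖w + lam n • (J u' - Φ)‖ + e n := by
    intro n w
    set S : Set ℝ := (fun u => ‖w + lam n • (J u - Φ)‖) '' C n with hS
    have hSne : S.Nonempty := (hCne n).image _
    have hSbd : BddBelow S := ⟨0, by rintro _ ⟨u, _, rfl⟩; positivity⟩
    obtain ⟨_, ⟨u, hu, rfl⟩, hlt⟩ := Real.lt_sInf_add_pos hSne (epos n)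
    refine ⟨u, hu, fun u' hu' => ?_⟩
    have := csInf_le hSbd (Set.mem_image_of_mem (fun u => ‖w + lam n • (J u - Φ)‖) hu')
    simp only at hlt this
    linarith
  choose P hP hPmin using pick
  let w : ℕ → (B) := fun n =>
    Nat.rec 0 (fun k wk => wk + lam k • (J (P k wk) - Φ)) n
  set u : ℕ → X := fun n => P n (w n) with hu
  have w0 : w 0 = 0 := rfl
  have wsucc : ∀ n, w (n + 1) = w n + lam n • (J (u n) - Φ) := fun n => rfl
  have huC : ∀ n, u n ∈ C n := fun n => hP n (w n)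
  have huM : ∀ n, ∀ u' ∈ C n, ‖w (n + 1)‖ ≤ ‖w n + lam n • (J u' - Φ)‖ + e n := fun n =>
    hPmin n (w n)
  -- growth
  have grow : ∀ n, lam n * (β - η / 4 * (1 - (1 / 2) ^ n)) ≤ ‖w (n + 1)‖ - ‖w n‖ := by
    intro n
    induction n with
    | zero =>
      rw [wsucc, w0]
      simp only [zero_add, norm_zero, sub_zero, pow_zero, sub_self, mul_zero]
      rw [norm_smul, Real.norm_of_nonneg (lpos 0).le]
      exact mul_le_mul_of_nonneg_left (hβ _ (hCsub 0 (huC 0))) (lpos 0).le
    | succ n ih =>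
      have l0 := lpos n
      have l1 := lpos (n + 1)
      set t : ℝ := lam n / (lam n + lam (n + 1)) with ht
      have t0 : 0 < t := by positivity
      have t1 : 1 - t = lam (n + 1) / (lam n + lam (n + 1)) := by
        rw [ht]; field_simp; ring
      have t2 : 0 < 1 - t := by rw [t1]; positivity
      have hmem : t • u n + (1 - t) • u (n + 1) ∈ C n :=
        hCconv n (huC n) (hCanti n (huC (n + 1))) t0.le t2.le (by ring)
      have h1 := huM n _ hmem
      have h2 : w n + lam n • (J (t • u n + (1 - t) • u (n + 1)) - Φ) =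
          t • w (n + 2) + (1 - t) • w n := by
        rw [show n + 2 = n + 1 + 1 from rfl, wsucc (n + 1), wsucc n, map_add, map_smul, map_smul]
        have h3 : lam n * (1 - t) = t * lam (n + 1) := by
          rw [t1, ht]; ring
        have h4 : lam n = lam n * t + lam n * (1 - t) := by ring
        have expand : lam n • (t • J (u n) + (1 - t) • J (u (n + 1)) - Φ) =
            (lam n * t) • (J (u n) - Φ) + (lam n * (1 - t)) • (J (u (n + 1)) - Φ) := by
          module
        rw [expand, h3]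
        module
      rw [h2] at h1
      have h3 : ‖t • w (n + 2) + (1 - t) • w n‖ ≤ t * ‖w (n + 2)‖ + (1 - t) * ‖w n‖ := by
        refine (norm_add_le _ _).trans ?_
        rw [norm_smul, norm_smul, Real.norm_of_nonneg t0.le, Real.norm_of_nonneg t2.le]
      have h4 : ‖w (n + 1)‖ - e n ≤ t * ‖w (n + 2)‖ + (1 - t) * ‖w n‖ := by linarith
      -- multiply by lam n + lam (n+1)
      have h5 : (lam n + lam (n + 1)) * (‖w (n + 1)‖ - e n) ≤
          lam n * ‖w (n + 2)‖ + lam (n + 1) * ‖w n‖ := by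
        have := mul_le_mul_of_nonneg_left h4 (by positivity : (0 : ℝ) ≤ lam n + lam (n + 1))
        have e1 : (lam n + lam (n + 1)) * (t * ‖w (n + 2)‖ + (1 - t) * ‖w n‖) =
          lam n * ‖w (n + 2)‖ + lam (n + 1) * ‖w n‖ := by
          rw [t1, ht]; field_simp
        rw [e1] at this
        exact this
      have h6 : (lam n + lam (n + 1)) * e n = η / 4 * (1 / 2) ^ (n + 1) * (lam n * lam (n + 1)) := by
        simp only [he]; field_simp
      have h7 : lam n * (lam (n + 1) * (β - η / 4 * (1 - (1 / 2) ^ (n + 1)))) ≤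
          lam n * (‖w (n + 1 + 1)‖ - ‖w (n + 1)‖) := by
        have h8 : lam (n + 1) * (lam n * (β - η / 4 * (1 - (1 / 2) ^ n))) ≤
          lam (n + 1) * (‖w (n + 1)‖ - ‖w n‖) := mul_le_mul_of_nonneg_left ih l1.le
        have h9 : (1 / 2 : ℝ) ^ (n + 1) = (1 / 2) ^ n / 2 := by rw [pow_succ]; ring
        rw [h9] at h6 ⊢
        have h10 : w (n + 2) = w (n + 1 + 1) := rfl
        rw [h10] at h5
        nlinarith [h5, h6, h8]
      exact le_of_mul_le_mul_left h7 l0
  have grow' : ∀ n, lam n * (β - η / 4) ≤ ‖w (n + 1)‖ - ‖w n‖ := by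
    intro n
    refine le_trans ?_ (grow n)
    refine mul_le_mul_of_nonneg_left ?_ (lpos n).le
    have : (0 : ℝ) < (1 / 2) ^ n := by positivity
    nlinarith
  -- tails
  have tail : ∀ n m, n ≤ m → ‖w m - w n‖ ≤ 2 * D * (lam n - lam m) := by
    intro n m hnm
    induction m, hnm using Nat.le_induction with
    | base => simp
    | succ m hm ih =>
      have : w (m + 1) - w n = (w m - w n) + lam m • (J (u m) - Φ) := by
        rw [wsucc]; abel
      rw [this]
      refine (norm_add_le _ _).trans ?_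
      rw [norm_smul, Real.norm_of_nonneg (lpos m).le]
      have h1 : lam m * ‖J (u m) - Φ‖ ≤ lam m * D :=
        mul_le_mul_of_nonneg_left (hv _ (hCsub m (huC m))) (lpos m).le
      have h2 := lhalf m
      nlinarith
  -- the limit
  have usum : Summable (fun k => lam k • u k) := by
    refine Summable.of_norm_bounded lsum fun k => ?_
    rw [norm_smul, Real.norm_of_nonneg (lpos k).le]
    have := hnorm _ (hCsub k (huC k))
    have := lpos k
    nlinarith
  have wform : ∀ n, w n = J (∑ k ∈ Finset.range n, lam k • u k) -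
      (∑ k ∈ Finset.range n, lam k) • Φ := by
    intro n
    induction n with
    | zero => simp [w0]
    | succ n ih =>
      rw [wsucc, ih, Finset.sum_range_succ, Finset.sum_range_succ, map_add, map_smul]
      module
  set U : X := ∑' k, lam k • u k with hU
  set T : ℝ := ∑' k, lam k with hT
  have wlim : Filter.Tendsto w Filter.atTop (nhds (J U - T • Φ)) := by
    have h1 : Filter.Tendsto (fun n => ∑ k ∈ Finset.range n, lam k • u k) Filter.atTop (nhds U) :=
      usum.hasSum.tendsto_sum_nat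
    have h2 : Filter.Tendsto (fun n => ∑ k ∈ Finset.range n, lam k) Filter.atTop (nhds T) :=
      lsum.hasSum.tendsto_sum_nat
    have h3 := ((J.continuous.tendsto U).comp h1).sub (h2.smul_const Φ)
    refine h3.congr fun n => ?_
    rw [wform n]; rfl
  set W := J U - T • Φ with hW
  have tailW : ∀ n, ‖W - w n‖ ≤ 2 * D * lam n := by
    intro n
    have h1 : Filter.Tendsto (fun m => ‖w m - w n‖) Filter.atTop (nhds ‖W - w n‖) :=
      (wlim.sub_const _).norm
    refine le_of_tendsto h1 ?_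
    filter_upwards [Filter.eventually_ge_atTop n] with m hm
    refine (tail n m hm).trans ?_
    have := lpos m
    nlinarith
  obtain ⟨y, hQ, hy1, hy2⟩ := hNA U (-T)
  have hyW : y W = ‖W‖ := by
    have h1 : J U + (-T) • Φ = W := by rw [hW, neg_smul, sub_eq_add_neg]
    rw [h1] at hy2
    exact hy2
  refine ⟨y, hQ, hy1, fun N => ?_⟩
  -- choose n large
  obtain ⟨M, hM⟩ := exists_nat_gt (16 * D / η)
  set n := max N M with hn
  have hnM : (M : ℝ) ≤ n := by exact_mod_cast le_max_right N M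
  have hbound : 4 * D * lam (n + 1) ≤ η / 4 * lam n := by
    rw [lsucc]
    have h1 : 16 * D < η * (n + 2) := by
      rw [div_lt_iff₀ hη] at hM
      nlinarith
    have h2 : (0 : ℝ) < n + 2 := by positivity
    rw [← mul_div_assoc, div_le_iff₀ h2]
    have := lpos n
    nlinarith
  have hle : ∀ v : B, |y v| ≤ ‖v‖ := by
    intro v
    have := y.le_opNorm v
    rw [Real.norm_eq_abs] at this
    have h0 := norm_nonneg v
    nlinarith
  have hval : lam n * (β - η / 2) ≤ lam n * (y (J (u n)) - y Φ) := by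
    have h1 : lam n * (y (J (u n)) - y Φ) = y (w (n + 1)) - y (w n) := by
      rw [wsucc]; simp
    have h2 := hle (W - w (n + 1))
    have h3 := tailW (n + 1)
    have h4 := hle (w n)
    have h5 : y (W - w (n + 1)) = y W - y (w (n + 1)) := map_sub _ _ _
    rw [h5, hyW] at h2
    have h6 := (abs_le.1 h2).2
    have h7 := (abs_le.1 h4).2
    have h8 : ‖w (n + 1)‖ ≤ ‖W‖ + ‖W - w (n + 1)‖ := by
      have := norm_sub_le W (W - w (n + 1))
      rwa [sub_sub_cancel] at this
    have h9 := grow' n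
    rw [h1]
    nlinarith
  have hval' : β - η / 2 ≤ y (J (u n)) - y Φ := le_of_mul_le_mul_left hval (lpos n)
  by_contra hcon
  push Not at hcon
  have hsub : C n ⊆ {v : X | (y ∘L J) v < β - η + y Φ} := by
    refine convexHull_min ?_ ?_
    · rintro _ ⟨k, hk, rfl⟩
      have hk : n ≤ k := hk
      have := hcon k ((le_max_left N M).trans hk)
      simp only [Set.mem_ofPred_eq, ContinuousLinearMap.comp_apply]
      linarith
    · exact convex_halfSpace_lt (y ∘L J).toLinearMap.isLinear _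
  have := hsub (huC n)
  simp only [Set.mem_ofPred_eq, ContinuousLinearMap.comp_apply] at this
  linarith


/-- A form of Simons' inequality. -/
theorem simons_like {X : Type*} [NormedAddCommGroup X] [NormedSpace ℝ X] [CompleteSpace X]
    (Φ : (X →L[ℝ] ℝ) →L[ℝ] ℝ) (x : ℕ → X) (hx : ∀ n, ‖x n‖ ≤ 1)
    (hNA : ∀ (u : X) (t : ℝ), ∃ y : X →L[ℝ] ℝ, ‖y‖ ≤ 1 ∧
      y u + t * Φ y = ‖NormedSpace.inclusionInDoubleDual ℝ X u + t • Φ‖)
    (β : ℝ) (hβ : ∀ u ∈ convexHull ℝ (Set.range x),
      β ≤ ‖NormedSpace.inclusionInDoubleDual ℝ X u - Φ‖) (η : ℝ) (hη : 0 < η) :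
    ∃ y : X →L[ℝ] ℝ, ‖y‖ ≤ 1 ∧ ∀ N : ℕ, ∃ n ≥ N, β - η ≤ y (x n) - Φ y := by
  obtain ⟨_, ⟨y, hy, rfl⟩, _, h⟩ := simons_abs (B := StrongDual ℝ (StrongDual ℝ X))
    (NormedSpace.inclusionInDoubleDual ℝ X) (NormedSpace.double_dual_bound ℝ X) Φ x hx
    (fun z => ∃ y : X →L[ℝ] ℝ, ‖y‖ ≤ 1 ∧
      NormedSpace.inclusionInDoubleDual ℝ (StrongDual ℝ X) y = z)
    (by
      intro u t
      obtain ⟨y, hy1, hy2⟩ := hNA u t
      refine ⟨NormedSpace.inclusionInDoubleDual ℝ (StrongDual ℝ X) y, ⟨y, hy1, rfl⟩, ?_, ?_⟩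
      · exact (NormedSpace.double_dual_bound ℝ (StrongDual ℝ X) y).trans hy1
      · exact hy2)
    β hβ η hη
  exact ⟨y, hy, h⟩

end Pool.Agent.Helper902.NA
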