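import Mathlib

set_option autoImplicit false

open Finset

namespace Pool.Agent.Helper902.NA

noncomputable def st_q (v : ℕ →₀ ℝ) : ℝ := ∑ i ∈ v.support, |v i|

def st_hd (M : ℕ) (v : ℕ →₀ ℝ) : Prop := ∀ i, M ≤ i → v i = 0

def st_tl (M : ℕ) (v : ℕ →₀ ℝ) : Prop := ∀ i, i < M → v i = 0

theorem st_q_eq {v : ℕ →₀ ℝ} {M : ℕ} (h : st_hd M v) : st_q v = ∑ i ∈ range M, |v i| := by
  unfold st_q
  apply Finset.sum_subset
  · intro i hi
    rw [Finsupp.mem_support_iff] at hi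
    rw [Finset.mem_range]
    by_contra hcon
    exact hi (h i (not_lt.1 hcon))
  · intro i _ hi
    rw [Finsupp.notMem_support_iff] at hi
    rw [hi, abs_zero]

theorem st_exists_hd (v : ℕ →₀ ℝ) : ∃ M, st_hd M v := by
  obtain ⟨M, hM⟩ := Finset.exists_nat_subset_range v.support
  refine ⟨M, fun i hi => ?_⟩
  by_contra hcon
  have := hM (Finsupp.mem_support_iff.2 hcon)
  rw [Finset.mem_range] at this
  omega

theorem st_hd_mono {M M' : ℕ} (h : M ≤ M') {v : ℕ →₀ ℝ} (hv : st_hd M v) : st_hd M' v :=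
  fun i hi => hv i (h.trans hi)

theorem st_tl_mono {M M' : ℕ} (h : M ≤ M') {v : ℕ →₀ ℝ} (hv : st_tl M' v) : st_tl M v :=
  fun i hi => hv i (lt_of_lt_of_le hi h)

theorem st_hd_add {M : ℕ} {u v : ℕ →₀ ℝ} (hu : st_hd M u) (hv : st_hd M v) : st_hd M (u + v) := by
  intro i hi
  rw [Finsupp.add_apply, hu i hi, hv i hi, add_zero]

theorem st_hd_smul {M : ℕ} {t : ℝ} {v : ℕ →₀ ℝ} (hv : st_hd M v) : st_hd M (t • v) := by
  intro i hi
  rw [Finsupp.smul_apply, hv i hi, smul_zero]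

theorem st_q_nonneg (v : ℕ →₀ ℝ) : 0 ≤ st_q v := Finset.sum_nonneg fun _ _ => abs_nonneg _

theorem st_q_smul (t : ℝ) (v : ℕ →₀ ℝ) : st_q (t • v) = |t| * st_q v := by
  obtain ⟨M, hM⟩ := st_exists_hd v
  rw [st_q_eq hM, st_q_eq (st_hd_smul hM), Finset.mul_sum]
  apply Finset.sum_congr rfl
  intro i _
  rw [Finsupp.smul_apply, smul_eq_mul, abs_mul]

theorem st_q_neg (v : ℕ →₀ ℝ) : st_q (-v) = st_q v := by
  have := st_q_smul (-1) v
  simpa using this

theorem st_q_add {M : ℕ} {u v : ℕ →₀ ℝ} (hu : st_hd M u) (hv : st_tl M v) :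
    st_q (u + v) = st_q u + st_q v := by
  obtain ⟨K, hK⟩ := st_exists_hd v
  have h1 : st_hd (max K M) v := st_hd_mono (le_max_left _ _) hK
  have h2 : st_hd (max K M) u := st_hd_mono (le_max_right _ _) hu
  rw [st_q_eq h1, st_q_eq h2, st_q_eq (st_hd_add h2 h1), ← Finset.sum_add_distrib]
  apply Finset.sum_congr rfl
  intro i _
  rw [Finsupp.add_apply]
  rcases lt_or_ge i M with h | h
  · rw [hv i h, add_zero, abs_zero, add_zero]
  · rw [hu i h, zero_add, abs_zero, zero_add]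

theorem st_q_eq_zero {v : ℕ →₀ ℝ} (h : st_q v = 0) : v = 0 := by
  ext i
  unfold st_q at h
  rw [Finset.sum_eq_zero_iff_of_nonneg (fun _ _ => abs_nonneg _)] at h
  by_contra hcon
  exact hcon (abs_eq_zero.1 (h i (Finsupp.mem_support_iff.2 hcon)))

def st_tlS (M : ℕ) : Submodule ℝ (ℕ →₀ ℝ) where
  carrier := {v | st_tl M v}
  add_mem' := by
    intro u v hu hv i hi
    rw [Finsupp.add_apply, hu i hi, hv i hi, add_zero]
  zero_mem' := by intro i _; rfl
  smul_mem' := by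
    intro t v hv i hi
    rw [Finsupp.smul_apply, hv i hi, smul_zero]

def st_Big (W : Submodule ℝ (ℕ →₀ ℝ)) : Prop := ∀ M, ∃ v ∈ W, st_tl M v ∧ st_q v = 1

theorem st_blocks (P : (ℕ →₀ ℝ) → Prop) (h : ∀ M, ∃ v, st_tl M v ∧ P v) (N0 : ℕ) :
    ∃ (v : ℕ → (ℕ →₀ ℝ)) (L : ℕ → ℕ), (∀ j, P (v j)) ∧ (∀ j, st_tl (L j) (v j)) ∧
      (∀ j, st_hd (L (j + 1)) (v j)) ∧ (∀ j, L j < L (j + 1)) ∧ N0 ≤ L 0 := by
  choose f hf1 hf2 using h
  choose g hg using st_exists_hd
  let L : ℕ → ℕ := fun j => Nat.rec N0 (fun _ l => max (l + 1) (g (f l))) j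
  have hL : ∀ j, L (j + 1) = max (L j + 1) (g (f (L j))) := fun j => rfl
  refine ⟨fun j => f (L j), L, fun j => hf2 _, fun j => hf1 _, fun j => ?_, fun j => ?_, le_rfl⟩
  · apply st_hd_mono _ (hg _)
    rw [hL]
    exact le_max_right _ _
  · rw [hL]
    exact lt_of_lt_of_le (Nat.lt_succ_self _) (le_max_left _ _)

theorem st_L_ge {L : ℕ → ℕ} (h : ∀ j, L j < L (j + 1)) (j : ℕ) : j ≤ L j := by
  induction j with
  | zero => exact Nat.zero_le _
  | succ j ih => exact lt_of_le_of_lt ih (h j)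

theorem st_L_mono {L : ℕ → ℕ} (h : ∀ j, L j < L (j + 1)) : Monotone L :=
  monotone_nat_of_le_succ fun j => (h j).le

/-- sums of blocks -/
theorem st_sum_hd {v : ℕ → (ℕ →₀ ℝ)} {L : ℕ → ℕ} (h2 : ∀ j, st_hd (L (j + 1)) (v j))
    (h3 : ∀ j, L j ≤ L (j + 1)) (n : ℕ) (a : ℕ → ℝ) :
    st_hd (L n) (∑ j ∈ range n, a j • v j) := by
  induction n with
  | zero => intro i _; simp
  | succ n ih =>
    rw [Finset.sum_range_succ]
    exact st_hd_add (st_hd_mono (h3 n) ih) (st_hd_smul (h2 n))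

theorem st_sum_q {v : ℕ → (ℕ →₀ ℝ)} {L : ℕ → ℕ} (h1 : ∀ j, st_tl (L j) (v j))
    (h2 : ∀ j, st_hd (L (j + 1)) (v j)) (h3 : ∀ j, L j ≤ L (j + 1)) (hq : ∀ j, st_q (v j) = 1)
    (n : ℕ) (a : ℕ → ℝ) :
    st_q (∑ j ∈ range n, a j • v j) = ∑ j ∈ range n, |a j| := by
  induction n with
  | zero => simp [st_q]
  | succ n ih =>
    rw [Finset.sum_range_succ, Finset.sum_range_succ,
      st_q_add (st_sum_hd h2 h3 n a) (v := a n • v n), ih, st_q_smul, hq, mul_one]
    intro i hi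
    rw [Finsupp.smul_apply, h1 n i hi, smul_zero]

theorem st_mem_span {v : ℕ → (ℕ →₀ ℝ)} {x : ℕ →₀ ℝ}
    (hx : x ∈ Submodule.span ℝ (Set.range v)) :
    ∃ (n : ℕ) (a : ℕ → ℝ), x = ∑ j ∈ range n, a j • v j := by
  rw [Finsupp.mem_span_range_iff_exists_finsupp] at hx
  obtain ⟨c, rfl⟩ := hx
  obtain ⟨M, hM⟩ := Finset.exists_nat_subset_range c.support
  refine ⟨M, fun j => c j, ?_⟩
  exact Finsupp.sum_of_support_subset c hM _ (fun i _ => zero_smul _ _)

theorem st_step1 (p : Seminorm ℝ (ℕ →₀ ℝ)) (C : ℝ) (hC : ∀ v, p v ≤ C * st_q v)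
    (W : Submodule ℝ (ℕ →₀ ℝ)) (hW : st_Big W) (u : ℕ →₀ ℝ) (ε : ℝ) (hε : 0 < ε) :
    ∃ W1 : Submodule ℝ (ℕ →₀ ℝ), W1 ≤ W ∧ st_Big W1 ∧
      ∀ v ∈ W1, st_q v = 1 → p (u - v) ≤ p (u + v) + ε := by
  set h : (ℕ →₀ ℝ) → ℝ := fun v => max (p (u + v)) (p (u - v)) with hh
  have hh0 : ∀ v, 0 ≤ h v := fun v => le_max_of_le_left (apply_nonneg p _)
  set δ : ℝ := ε / 6 with hδ
  have hδ0 : 0 < δ := by positivity
  set S : Set ℝ := {x | ∀ M, ∃ v ∈ W, st_tl M v ∧ st_q v = 1 ∧ h v ≤ x} with hS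
  have hSne : S.Nonempty := by
    refine ⟨p u + C, fun M => ?_⟩
    obtain ⟨v, hv, hv1, hv2⟩ := hW M
    refine ⟨v, hv, hv1, hv2, ?_⟩
    have h1 := hC v
    rw [hv2, mul_one] at h1
    apply max_le
    · exact (map_add_le_add p u v).trans (by linarith)
    · exact (map_sub_le_add p u v).trans (by linarith)
  have hSbdd : BddBelow S := by
    refine ⟨0, fun x hx => ?_⟩
    obtain ⟨v, _, _, _, h4⟩ := hx 0
    exact (hh0 v).trans h4
  obtain ⟨m, hm⟩ : ∃ m, m = sInf S := ⟨_, rfl⟩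
  have ha : ∀ M, ∃ v, st_tl M v ∧ (v ∈ W ∧ st_q v = 1 ∧ h v ≤ m + δ) := by
    intro M
    obtain ⟨x, hx, hx1⟩ := exists_lt_of_csInf_lt hSne (show sInf S < m + δ by rw [hm]; linarith)
    obtain ⟨v, h1, h2, h3, h4⟩ := hx M
    exact ⟨v, h2, h1, h3, h4.trans hx1.le⟩
  have hb : ∃ N0, ∀ v ∈ W, st_tl N0 v → st_q v = 1 → m - δ < h v := by
    by_contra hcon
    push Not at hcon
    have : m - δ ∈ S := by
      intro M
      obtain ⟨v, h1, h2, h3, h4⟩ := hcon M
      exact ⟨v, h1, h2, h3, h4⟩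
    have := csInf_le hSbdd this
    rw [← hm] at this
    linarith
  obtain ⟨N0, hN0⟩ := hb
  obtain ⟨v, L, hv, h1, h2, h3, h4⟩ := st_blocks _ ha N0
  have h3' : ∀ j, L j ≤ L (j + 1) := fun j => (h3 j).le
  set W2 : Submodule ℝ (ℕ →₀ ℝ) := Submodule.span ℝ (Set.range v) with hW2
  have hv2 : ∀ j, v j ∈ W2 := fun j => Submodule.subset_span ⟨j, rfl⟩
  have hW2W : W2 ≤ W := by
    rw [hW2, Submodule.span_le]
    rintro x ⟨j, rfl⟩
    exact (hv j).1
  have hW2tl : ∀ x ∈ W2, st_tl N0 x := by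
    have : W2 ≤ st_tlS N0 := by
      rw [hW2, Submodule.span_le]
      rintro x ⟨j, rfl⟩
      exact st_tl_mono (h4.trans (st_L_mono h3 (Nat.zero_le j))) (h1 j)
    exact fun x hx => this hx
  have hup : ∀ x ∈ W2, st_q x = 1 → p (u + x) ≤ m + δ := by
    intro x hx hq
    obtain ⟨n, a, rfl⟩ := st_mem_span hx
    rw [st_sum_q h1 h2 h3' (fun j => (hv j).2.1)] at hq
    have hid : u + ∑ j ∈ range n, a j • v j =
        ∑ j ∈ range n, (|a j| • u + a j • v j) := by
      rw [Finset.sum_add_distrib, ← Finset.sum_smul, hq, one_smul]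
    rw [hid]
    calc p (∑ j ∈ range n, (|a j| • u + a j • v j))
        ≤ ∑ j ∈ range n, p (|a j| • u + a j • v j) := by
          apply Finset.le_sum_of_subadditive p (map_zero p).le (map_add_le_add p)
      _ ≤ ∑ j ∈ range n, |a j| * (m + δ) := by
          apply Finset.sum_le_sum
          intro j _
          rcases le_total 0 (a j) with ha0 | ha0
          · rw [abs_of_nonneg ha0, ← smul_add, map_smul_eq_mul, Real.norm_of_nonneg ha0]
            exact mul_le_mul_of_nonneg_left ((le_max_left _ _).trans (hv j).2.2) ha0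
          · have : |a j| • u + a j • v j = |a j| • (u - v j) := by
              rw [abs_of_nonpos ha0, smul_sub, neg_smul, neg_smul]
              simp
            rw [this, map_smul_eq_mul, Real.norm_of_nonneg (abs_nonneg _)]
            exact mul_le_mul_of_nonneg_left ((le_max_right _ _).trans (hv j).2.2) (abs_nonneg _)
      _ = m + δ := by rw [← Finset.sum_mul, hq, one_mul]
  have hup' : ∀ x ∈ W2, st_q x = 1 → p (u - x) ≤ m + δ := by
    intro x hx hq
    have := hup (-x) (neg_mem hx) (by rw [st_q_neg, hq])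
    rwa [← sub_eq_add_neg] at this
  have hlow : ∀ x ∈ W2, st_q x = 1 → m - δ < h x := fun x hx hq =>
    hN0 x (hW2W hx) (hW2tl x hx) hq
  have hN1 : ∃ N1, ∀ x ∈ W2, st_tl N1 x → st_q x = 1 → m - 5 * δ < p (u + x) := by
    by_cases hex : ∃ x ∈ W2, st_q x = 1 ∧ p (u + x) ≤ m - 5 * δ
    · obtain ⟨x1, hx1, hq1, hp1⟩ := hex
      obtain ⟨N1, hN1⟩ := st_exists_hd x1
      refine ⟨N1, fun x2 hx2 ht hq2 => ?_⟩
      by_contra hcon
      rw [not_lt] at hcon
      set w : ℕ →₀ ℝ := (1 / 2 : ℝ) • (x1 - x2) with hw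
      have hwW : w ∈ W2 := W2.smul_mem _ (sub_mem hx1 hx2)
      have hwq : st_q w = 1 := by
        rw [hw, st_q_smul, sub_eq_add_neg, st_q_add hN1, st_q_neg, hq1, hq2]
        · norm_num
        · intro i hi
          rw [Finsupp.neg_apply, ht i hi, neg_zero]
      have e1 : u + w = (1 / 2 : ℝ) • (u + x1) + (1 / 2 : ℝ) • (u - x2) := by
        rw [hw]
        module
      have e2 : u - w = (1 / 2 : ℝ) • (u - x1) + (1 / 2 : ℝ) • (u + x2) := by
        rw [hw]
        module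
      have f1 : p (u + w) ≤ m - 2 * δ := by
        rw [e1]
        refine (map_add_le_add p _ _).trans ?_
        rw [map_smul_eq_mul, map_smul_eq_mul]
        have := hup' x2 hx2 hq2
        have hn : ‖(1 / 2 : ℝ)‖ = 1 / 2 := by norm_num
        rw [hn]
        linarith
      have f2 : p (u - w) ≤ m - 2 * δ := by
        rw [e2]
        refine (map_add_le_add p _ _).trans ?_
        rw [map_smul_eq_mul, map_smul_eq_mul]
        have := hup' x1 hx1 hq1
        have hn : ‖(1 / 2 : ℝ)‖ = 1 / 2 := by norm_num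
        rw [hn]
        linarith
      have f3 := hlow w hwW hwq
      have f4 : h w ≤ m - 2 * δ := max_le f1 f2
      linarith
    · push Not at hex
      exact ⟨0, fun x hx _ hq => hex x hx hq⟩
  obtain ⟨N1, hN1⟩ := hN1
  refine ⟨W2 ⊓ st_tlS N1, inf_le_left.trans hW2W, ?_, ?_⟩
  · intro M
    refine ⟨v (max M N1), ⟨hv2 _, ?_⟩, ?_, (hv _).2.1⟩
    · exact st_tl_mono ((le_max_right M N1).trans (st_L_ge h3 _)) (h1 _)
    · exact st_tl_mono ((le_max_left M N1).trans (st_L_ge h3 _)) (h1 _)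
  · rintro x ⟨hx1, hx2⟩ hq
    have g1 := hup' x hx1 hq
    have g2 := hN1 x hx1 hx2 hq
    have : ε = 6 * δ := by rw [hδ]; ring
    linarith

theorem st_step2 (p : Seminorm ℝ (ℕ →₀ ℝ)) (C : ℝ) (hC : ∀ v, p v ≤ C * st_q v)
    (ε : ℝ) (hε : 0 < ε) (S : Finset (ℕ →₀ ℝ)) :
    ∀ W : Submodule ℝ (ℕ →₀ ℝ), st_Big W →
    ∃ W1 : Submodule ℝ (ℕ →₀ ℝ), W1 ≤ W ∧ st_Big W1 ∧
      ∀ u ∈ S, ∀ v ∈ W1, st_q v = 1 → p (u - v) ≤ p (u + v) + ε := by
  classical
  induction S using Finset.induction_on with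
  | empty =>
    intro W hW
    exact ⟨W, le_rfl, hW, fun u hu => absurd hu (Finset.notMem_empty u)⟩
  | insert u S _ ih =>
    intro W hW
    obtain ⟨W1, h1, h2, h3⟩ := ih W hW
    obtain ⟨W2, g1, g2, g3⟩ := st_step1 p C hC W1 h2 u ε hε
    refine ⟨W2, g1.trans h1, g2, fun x hx v hv hq => ?_⟩
    rcases Finset.mem_insert.1 hx with rfl | hx
    · exact g3 v hv hq
    · exact h3 x hx v (g1 hv) hq

noncomputable def st_of (N : ℕ) (a : Fin N → ℝ) : ℕ →₀ ℝ :=
  ∑ i : Fin N, Finsupp.single i.val (a i)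

theorem st_of_apply (N : ℕ) (a : Fin N → ℝ) (i : ℕ) :
    st_of N a i = if h : i < N then a ⟨i, h⟩ else 0 := by
  unfold st_of
  rw [Finsupp.finsetSum_apply]
  split_ifs with h
  · rw [Finset.sum_eq_single ⟨i, h⟩]
    · simp
    · intro j _ hj
      rw [Finsupp.single_apply, if_neg]
      intro h'
      exact hj (Fin.ext h')
    · intro h'
      exact absurd (Finset.mem_univ _) h'
  · apply Finset.sum_eq_zero
    intro j _
    rw [Finsupp.single_apply, if_neg]
    intro h'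
    exact h (h' ▸ j.2)

theorem st_step3 (p : Seminorm ℝ (ℕ →₀ ℝ)) (c C : ℝ) (hc : 0 < c) (hC0 : 0 ≤ C)
    (hC : ∀ v, p v ≤ C * st_q v) (hcq : ∀ v, c * st_q v ≤ p v)
    (ε : ℝ) (hε : 0 < ε) (N : ℕ) (W : Submodule ℝ (ℕ →₀ ℝ)) (hW : st_Big W) :
    ∃ W1 : Submodule ℝ (ℕ →₀ ℝ), W1 ≤ W ∧ (∀ v ∈ W1, st_tl N v) ∧ st_Big W1 ∧
      ∀ u, st_hd N u → ∀ v ∈ W1, p (u - v) ≤ (1 + ε) * p (u + v) := by
  classical
  -- parameters
  obtain ⟨R, hR0, hR⟩ : ∃ R : ℝ, 0 < R ∧ 2 * C ≤ ε * (c * R) := by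
    refine ⟨2 * C / (ε * c) + 1, by positivity, ?_⟩
    have : ε * (c * (2 * C / (ε * c) + 1)) = 2 * C + ε * c := by
      field_simp
    rw [this]
    have : 0 < ε * c := by positivity
    linarith
  obtain ⟨η, hη0, hη⟩ : ∃ η : ℝ, 0 < η ∧ 2 * C * (N * η) ≤ ε * c / 2 := by
    refine ⟨ε * c / (2 * (2 * C * N + 1)), by positivity, ?_⟩
    have h1 : 0 < 2 * C * N + 1 := by positivity
    have h2 : 2 * C * (N * (ε * c / (2 * (2 * C * N + 1)))) =
        (ε * c / 2) * ((2 * C * N) / (2 * C * N + 1)) := by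
      field_simp
    rw [h2]
    have h3 : (2 * C * N) / (2 * C * N + 1) ≤ 1 := by
      rw [div_le_one h1]; linarith
    have h4 : 0 < ε * c / 2 := by positivity
    nlinarith
  -- finite net
  have hcomp : TotallyBounded (Metric.closedBall (0 : Fin N → ℝ) R) :=
    (isCompact_closedBall _ _).totallyBounded
  rw [Metric.totallyBounded_iff] at hcomp
  obtain ⟨t, htf, ht⟩ := hcomp η hη0
  set S : Finset (ℕ →₀ ℝ) := htf.toFinset.image (st_of N) with hS
  have hW' : st_Big (W ⊓ st_tlS N) := by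
    intro M
    obtain ⟨v, h1, h2, h3⟩ := hW (max M N)
    exact ⟨v, ⟨h1, st_tl_mono (le_max_right _ _) h2⟩, st_tl_mono (le_max_left _ _) h2, h3⟩
  obtain ⟨W1, g1, g2, g3⟩ := st_step2 p C hC (ε * c / 2) (by positivity) S (W ⊓ st_tlS N) hW'
  have htl : ∀ v ∈ W1, st_tl N v := fun v hv => (g1 hv).2
  refine ⟨W1, g1.trans inf_le_left, htl, g2, ?_⟩
  -- the normalised case
  have main : ∀ u, st_hd N u → ∀ v ∈ W1, st_q v = 1 → p (u - v) ≤ (1 + ε) * p (u + v) := by
    intro u hu v hv hq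
    have hlow : c * (st_q u + 1) ≤ p (u + v) := by
      have := hcq (u + v)
      rwa [st_q_add hu (htl v hv), hq] at this
    have hpv : p v ≤ C := by
      have := hC v
      rwa [hq, mul_one] at this
    rcases le_total R (st_q u) with hbig | hsmall
    · have h1 : p (u - v) ≤ p (u + v) + 2 * C := by
        have e : u - v = (u + v) + (-(2 : ℝ)) • v := by module
        rw [e]
        refine (map_add_le_add p _ _).trans ?_
        rw [map_smul_eq_mul]
        have : ‖(-(2 : ℝ))‖ = 2 := by norm_num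
        rw [this]
        linarith
      have h2 : c * R ≤ p (u + v) := by
        refine le_trans ?_ hlow
        apply mul_le_mul_of_nonneg_left _ hc.le
        linarith
      have h3 : ε * (c * R) ≤ ε * p (u + v) := mul_le_mul_of_nonneg_left h2 hε.le
      linarith
    · -- use the net
      have hball : (fun i : Fin N => u i.val) ∈ Metric.closedBall (0 : Fin N → ℝ) R := by
        rw [mem_closedBall_zero_iff, pi_norm_le_iff_of_nonneg hR0.le]
        intro i
        rw [Real.norm_eq_abs]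
        refine le_trans ?_ hsmall
        rw [st_q_eq hu]
        exact Finset.single_le_sum (f := fun i => |u i|) (fun _ _ => abs_nonneg _)
          (Finset.mem_range.2 i.2)
      obtain ⟨y, hy, hyu⟩ := Set.mem_iUnion₂.1 (ht hball)
      have hs : st_of N y ∈ S := by
        rw [hS]
        exact Finset.mem_image_of_mem _ (htf.mem_toFinset.2 hy)
      have hsd : st_hd N (u - st_of N y) := by
        intro i hi
        rw [Finsupp.sub_apply, hu i hi, st_of_apply, dif_neg (not_lt.2 hi), sub_zero]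
      have hd : st_q (u - st_of N y) ≤ N * η := by
        rw [st_q_eq hsd]
        calc ∑ i ∈ range N, |(u - st_of N y) i| ≤ ∑ i ∈ range N, η := by
              apply Finset.sum_le_sum
              intro i hi
              rw [Finset.mem_range] at hi
              rw [Finsupp.sub_apply, st_of_apply, dif_pos hi]
              have h1 := (dist_le_pi_dist (fun i : Fin N => u i.val) y ⟨i, hi⟩)
              rw [Real.dist_eq] at h1
              exact h1.trans (Metric.mem_ball.1 hyu).le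
          _ = N * η := by simp
      have hpd : p (u - st_of N y) ≤ C * (N * η) :=
        (hC _).trans (mul_le_mul_of_nonneg_left hd hC0)
      have k1 : p (u - v) ≤ p (st_of N y - v) + C * (N * η) := by
        have e : u - v = (st_of N y - v) + (u - st_of N y) := by abel
        rw [e]
        exact (map_add_le_add p _ _).trans (by linarith)
      have k2 : p (st_of N y + v) ≤ p (u + v) + C * (N * η) := by
        have e : st_of N y + v = (u + v) - (u - st_of N y) := by abel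
        rw [e]
        exact (map_sub_le_add p _ _).trans (by linarith)
      have k3 := g3 _ hs v hv hq
      have k4 : c ≤ p (u + v) := by
        refine le_trans ?_ hlow
        have := st_q_nonneg u
        nlinarith
      have k5 : ε * c ≤ ε * p (u + v) := mul_le_mul_of_nonneg_left k4 hε.le
      linarith
  intro u hu v hv
  rcases (st_q_nonneg v).eq_or_lt with h0 | h0
  · have : v = 0 := st_q_eq_zero h0.symm
    subst this
    rw [sub_zero, add_zero]
    have := apply_nonneg p u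
    nlinarith
  · have hv' : (st_q v)⁻¹ • v ∈ W1 := W1.smul_mem _ hv
    have hq' : st_q ((st_q v)⁻¹ • v) = 1 := by
      rw [st_q_smul, abs_of_nonneg (inv_nonneg.2 h0.le), inv_mul_cancel₀ h0.ne']
    have := main ((st_q v)⁻¹ • u) (st_hd_smul hu) _ hv' hq'
    rw [← smul_sub, ← smul_add, map_smul_eq_mul, map_smul_eq_mul,
      Real.norm_of_nonneg (inv_nonneg.2 h0.le)] at this
    have h5 : (st_q v)⁻¹ * p (u - v) ≤ (st_q v)⁻¹ * ((1 + ε) * p (u + v)) := by
      linarith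
    exact le_of_mul_le_mul_left h5 (inv_pos.2 h0)

/-- Stabilisation: every `ℓ₁`-sequence has normalised blocks for which the tails are
asymptotically symmetric. -/
theorem l1_stabilise {X : Type*} [NormedAddCommGroup X] [NormedSpace ℝ X]
    (e : ℕ → X) (c C : ℝ) (hc : 0 < c) (hC : ∀ n, ‖e n‖ ≤ C)
    (hlow : ∀ (n : ℕ) (a : ℕ → ℝ), c * ∑ j ∈ range n, |a j| ≤ ‖∑ j ∈ range n, a j • e j‖)
    (ε : ℕ → ℝ) (hε : ∀ n, 0 < ε n) :
    ∃ w : ℕ → X, (∀ n, ‖w n‖ ≤ C) ∧
      (∀ (n : ℕ) (a : ℕ → ℝ), c * ∑ j ∈ range n, |a j| ≤ ‖∑ j ∈ range n, a j • w j‖) ∧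
      (∀ (n m : ℕ) (a : ℕ → ℝ), n ≤ m →
        ‖∑ j ∈ range n, a j • w j - ∑ j ∈ Ico n m, a j • w j‖ ≤
          (1 + ε n) * ‖∑ j ∈ range m, a j • w j‖) := by
  classical
  have hC0 : 0 ≤ C := (norm_nonneg _).trans (hC 0)
  set T : (ℕ →₀ ℝ) →ₗ[ℝ] X := Finsupp.linearCombination ℝ e with hT
  have hTv : ∀ (v : ℕ →₀ ℝ) (M : ℕ), st_hd M v → T v = ∑ i ∈ range M, v i • e i := by
    intro v M hM
    rw [hT, Finsupp.linearCombination_apply]
    refine Finsupp.sum_of_support_subset v ?_ _ (fun i _ => zero_smul ℝ (e i))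
    intro i hi
    rw [Finset.mem_range]
    by_contra hcon
    exact (Finsupp.mem_support_iff.1 hi) (hM i (not_lt.1 hcon))
  set p : Seminorm ℝ (ℕ →₀ ℝ) := (normSeminorm ℝ X).comp T with hp
  have hpT : ∀ v, p v = ‖T v‖ := fun v => rfl
  have hcq : ∀ v, c * st_q v ≤ p v := by
    intro v
    obtain ⟨M, hM⟩ := st_exists_hd v
    rw [hpT, hTv v M hM, st_q_eq hM]
    exact hlow M (fun i => v i)
  have hCq : ∀ v, p v ≤ C * st_q v := by
    intro v
    obtain ⟨M, hM⟩ := st_exists_hd v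
    rw [hpT, hTv v M hM, st_q_eq hM, Finset.mul_sum]
    refine (norm_sum_le _ _).trans (Finset.sum_le_sum fun i _ => ?_)
    rw [norm_smul, Real.norm_eq_abs, mul_comm]
    exact mul_le_mul_of_nonneg_right (hC i) (abs_nonneg _)
  -- recursion
  have hbigtop : st_Big ⊤ := by
    intro M
    refine ⟨Finsupp.single M 1, Submodule.mem_top, ?_, ?_⟩
    · intro i hi
      rw [Finsupp.single_apply, if_neg (by omega)]
    · have : st_hd (M + 1) (Finsupp.single M (1 : ℝ)) := by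
        intro i hi
        rw [Finsupp.single_apply, if_neg (by omega)]
      rw [st_q_eq this, Finset.sum_range_succ, Finset.sum_eq_zero]
      · simp
      · intro i hi
        rw [Finset.mem_range] at hi
        rw [Finsupp.single_apply, if_neg (by omega), abs_zero]
  -- one step: from big W and N get v, N' and W'
  have step : ∀ (n : ℕ) (W : Submodule ℝ (ℕ →₀ ℝ)) (N : ℕ), st_Big W →
      ∃ (v : ℕ →₀ ℝ) (N' : ℕ) (W' : Submodule ℝ (ℕ →₀ ℝ)), v ∈ W ∧ st_tl N v ∧ st_q v = 1 ∧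
        st_hd N' v ∧ N ≤ N' ∧ W' ≤ W ∧ st_Big W' ∧
        ∀ u, st_hd N' u → ∀ v ∈ W', p (u - v) ≤ (1 + ε (n + 1)) * p (u + v) := by
    intro n W N hW
    obtain ⟨v, h1, h2, h3⟩ := hW N
    obtain ⟨K, hK⟩ := st_exists_hd v
    obtain ⟨W', g1, _, g3, g4⟩ := st_step3 p c C hc hC0 hCq hcq (ε (n + 1)) (hε _) (max K N) W hW
    exact ⟨v, max K N, W', h1, h2, h3, st_hd_mono (le_max_left _ _) hK, le_max_right _ _, g1, g3, g4⟩
  choose! fv fN fW s1 s2 s3 s4 s5 s6 s7 s8 using step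
  let st : ℕ → Submodule ℝ (ℕ →₀ ℝ) × ℕ := fun n =>
    Nat.rec (⊤, 0) (fun n s => (fW n s.1 s.2, fN n s.1 s.2)) n
  have hst : ∀ n, st (n + 1) = (fW n (st n).1 (st n).2, fN n (st n).1 (st n).2) := fun n => rfl
  have hbig : ∀ n, st_Big (st n).1 := by
    intro n
    induction n with
    | zero => exact hbigtop
    | succ n ih => rw [hst]; exact s7 n _ _ ih
  set v : ℕ → (ℕ →₀ ℝ) := fun n => fv n (st n).1 (st n).2 with hv
  set L : ℕ → ℕ := fun n => (st n).2 with hL
  have t1 : ∀ j, st_tl (L j) (v j) := fun j => s2 j _ _ (hbig j)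
  have t2 : ∀ j, st_hd (L (j + 1)) (v j) := fun j => s4 j _ _ (hbig j)
  have t3 : ∀ j, L j ≤ L (j + 1) := fun j => s5 j _ _ (hbig j)
  have t4 : ∀ j, st_q (v j) = 1 := fun j => s3 j _ _ (hbig j)
  have t5 : ∀ j, v j ∈ (st j).1 := fun j => s1 j _ _ (hbig j)
  have t6 : Antitone (fun n => (st n).1) := antitone_nat_of_succ_le fun n => s6 n _ _ (hbig n)
  have t7 : ∀ n, ∀ u, st_hd (L n) u → ∀ v ∈ (st n).1, p (u - v) ≤ (1 + ε n) * p (u + v) := by
    intro n
    cases n with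
    | zero =>
      intro u hu x _
      have : u = 0 := by
        ext i
        exact hu i (Nat.zero_le i)
      subst this
      rw [zero_sub, zero_add, map_neg_eq_map]
      have h1 := apply_nonneg p x
      have h2 := hε 0
      nlinarith
    | succ n => exact s8 n _ _ (hbig n)
  have hTsum : ∀ (s : Finset ℕ) (a : ℕ → ℝ), ∑ j ∈ s, a j • T (v j) = T (∑ j ∈ s, a j • v j) := by
    intro s a
    rw [map_sum]
    apply Finset.sum_congr rfl
    intro j _
    rw [map_smul]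
  refine ⟨fun n => T (v n), fun n => ?_, fun n a => ?_, fun n m a hnm => ?_⟩
  · have := hCq (v n)
    rwa [t4, mul_one, hpT] at this
  · rw [hTsum, ← hpT, ← st_sum_q t1 t2 t3 t4]
    exact hcq _
  · rw [hTsum, hTsum, hTsum, ← map_sub, ← hpT, ← hpT]
    have h1 : ∑ j ∈ range m, a j • v j =
        ∑ j ∈ range n, a j • v j + ∑ j ∈ Ico n m, a j • v j := by
      rw [Finset.sum_range_add_sum_Ico _ hnm]
    rw [h1]
    apply t7 n _ (st_sum_hd t2 t3 n a)
    apply Submodule.sum_mem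
    intro j hj
    rw [Finset.mem_Ico] at hj
    exact Submodule.smul_mem _ _ (t6 hj.1 (t5 j))

end Pool.Agent.Helper902.NA
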