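import Mathlib
import Pool.Agent.Helper902.NACaseA
import Pool.Agent.Helper902.NABP
import Pool.Agent.Helper902.NARos
import Pool.Agent.Helper902.NAJames
import Pool.Agent.Helper902.NASimons
import Pool.Agent.Helper902.NAStab

set_option autoImplicit false
set_option maxSynthPendingDepth 3

open Filter Topology Finset

namespace Pool.Agent.Helper902.NA

/-- ultrafilter limits of bounded sequences of functionals -/
theorem exists_ultralimit {W : Type*} [NormedAddCommGroup W] [NormedSpace ℝ W]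
    (U : Ultrafilter ℕ) (g : ℕ → (W →L[ℝ] ℝ)) (R : ℝ) (hg : ∀ n, ‖g n‖ ≤ R) :
    ∃ G : W →L[ℝ] ℝ, ∀ w, Tendsto (fun n => g n w) U (𝓝 (G w)) := by
  have hK := WeakDual.isCompact_closedBall (𝕜 := ℝ) (E := W) 0 R
  have h1 : ∀ n, StrongDual.toWeakDual (g n) ∈ (WeakDual.toStrongDual ⁻¹' Metric.closedBall (0 : StrongDual ℝ W) R) := by
    intro n
    simpa using hg n
  have h2 := (isCompact_iff_ultrafilter_le_nhds.1 hK) (U.map (fun n => StrongDual.toWeakDual (g n))) (by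
    rw [le_principal_iff]
    exact Filter.mem_map.2 (Filter.Eventually.of_forall h1))
  obtain ⟨G, -, hG⟩ := h2
  refine ⟨WeakDual.toStrongDual G, fun w => ?_⟩
  have h3 : Tendsto (fun n => StrongDual.toWeakDual (g n)) U (𝓝 G) := hG
  have h4 := ((WeakDual.eval_continuous w).tendsto G).comp h3
  exact h4

/-- finite stabilisation of oscillation levels -/
theorem levels {Ω : Type*} (A B : ℕ → ℕ → Set Ω) (k : ℕ) :
    (∃ i < k, ∃ M₀ : Set ℕ, M₀.Infinite ∧ ∀ M : Set ℕ, M ⊆ M₀ → M.Infinite →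
      ∃ y : Ω, {n | n ∈ M ∧ y ∈ A i n}.Infinite ∧ {n | n ∈ M ∧ y ∈ B i n}.Infinite) ∨
    (∃ M : Set ℕ, M.Infinite ∧ ∀ i < k, ¬ ∃ y : Ω, {n | n ∈ M ∧ y ∈ A i n}.Infinite ∧
      {n | n ∈ M ∧ y ∈ B i n}.Infinite) := by
  induction k with
  | zero => exact Or.inr ⟨Set.univ, Set.infinite_univ, fun i hi => absurd hi (Nat.not_lt_zero i)⟩
  | succ k ih =>
    rcases ih with ⟨i, hi, M₀, h1, h2⟩ | ⟨M, hM, h2⟩
    · exact Or.inl ⟨i, by omega, M₀, h1, h2⟩
    · by_cases hex : ∀ M' : Set ℕ, M' ⊆ M → M'.Infinite →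
        ∃ y : Ω, {n | n ∈ M' ∧ y ∈ A k n}.Infinite ∧ {n | n ∈ M' ∧ y ∈ B k n}.Infinite
      · exact Or.inl ⟨k, by omega, M, hM, hex⟩
      · push Not at hex
        obtain ⟨M', hM', hinf, hno⟩ := hex
        refine Or.inr ⟨M', hinf, fun i hi => ?_⟩
        rintro ⟨y, hy1, hy2⟩
        rcases Nat.lt_succ_iff_lt_or_eq.1 hi with h | h
        · exact h2 i h ⟨y, hy1.mono fun n hn => ⟨hM' hn.1, hn.2⟩, hy2.mono fun n hn => ⟨hM' hn.1, hn.2⟩⟩
        · subst h
          exact hy2 (hno y hy1)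

/-- The main theorem: for a nonreflexive real Banach space `X` the norm-attaining elements of `X**`
are not a linear subspace. -/
theorem main {X : Type*} [NormedAddCommGroup X] [NormedSpace ℝ X] [CompleteSpace X]
    (hX : ¬ Function.Surjective (NormedSpace.inclusionInDoubleDual ℝ X))
    (S : Submodule ℝ ((X →L[ℝ] ℝ) →L[ℝ] ℝ))
    (hS : ∀ φ : (X →L[ℝ] ℝ) →L[ℝ] ℝ, φ ∈ S ↔ ∃ f : X →L[ℝ] ℝ, ‖f‖ ≤ 1 ∧ φ f = ‖φ‖) : False := by
  obtain ⟨θ, hθ, x, f, hx, hf, hf0, hf1⟩ := james_seq hX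
  set δ : ℝ := θ / 10 with hδ
  have hδ0 : 0 < δ := by positivity
  obtain ⟨K, hK⟩ := exists_nat_gt (2 / δ + 1)
  let r : ℕ → ℝ := fun i => -1 + i * δ
  let A : ℕ → ℕ → Set {y : X →L[ℝ] ℝ // ‖y‖ ≤ 1} := fun i n => {y | r i + δ < y.1 (x n)}
  let B : ℕ → ℕ → Set {y : X →L[ℝ] ℝ // ‖y‖ ≤ 1} := fun i n => {y | y.1 (x n) < r i}
  rcases levels A B K with ⟨i, -, M₀, hM₀, hosc⟩ | ⟨M, hM, hno⟩
  · -- the `ℓ₁` case
    obtain ⟨φ, hφ, -, hind⟩ := rosenthal_independent (A i) (B i) M₀ hM₀ hosc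
    have hlow : ∀ (n : ℕ) (a : ℕ → ℝ), (δ / 2) * ∑ j ∈ range n, |a j| ≤ ‖∑ j ∈ range n, a j • x (φ j)‖ := by
      intro n a
      obtain ⟨y₁, hy₁⟩ := hind n {j | 0 ≤ a j}
      obtain ⟨y₂, hy₂⟩ := hind n {j | ¬ (0 ≤ a j)}
      have h1 : δ * ∑ j ∈ range n, |a j| ≤ (y₁.1 - y₂.1) (∑ j ∈ range n, a j • x (φ j)) := by
        rw [map_sum, Finset.mul_sum]
        apply Finset.sum_le_sum
        intro j hj
        have hj' : j < n := Finset.mem_range.1 hj
        rw [map_smul, smul_eq_mul]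
        have h2 : (y₁.1 - y₂.1) (x (φ j)) = y₁.1 (x (φ j)) - y₂.1 (x (φ j)) := rfl
        rw [h2]
        by_cases ha : 0 ≤ a j
        · have h3 : r i + δ < y₁.1 (x (φ j)) := (hy₁ j hj').1 ha
          have h4 : y₂.1 (x (φ j)) < r i := (hy₂ j hj').2 (fun h => h ha)
          rw [abs_of_nonneg ha]
          nlinarith
        · have h3 : y₁.1 (x (φ j)) < r i := (hy₁ j hj').2 ha
          have h4 : r i + δ < y₂.1 (x (φ j)) := (hy₂ j hj').1 ha
          push Not at ha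
          rw [abs_of_neg ha]
          nlinarith
      have h2 : (y₁.1 - y₂.1) (∑ j ∈ range n, a j • x (φ j)) ≤ 2 * ‖∑ j ∈ range n, a j • x (φ j)‖ := by
        calc (y₁.1 - y₂.1) (∑ j ∈ range n, a j • x (φ j))
            ≤ ‖(y₁.1 - y₂.1) (∑ j ∈ range n, a j • x (φ j))‖ := le_abs_self _
          _ ≤ ‖y₁.1 - y₂.1‖ * ‖∑ j ∈ range n, a j • x (φ j)‖ := (y₁.1 - y₂.1).le_opNorm _
          _ ≤ 2 * ‖∑ j ∈ range n, a j • x (φ j)‖ := by
            apply mul_le_mul_of_nonneg_right _ (norm_nonneg _)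
            have := norm_sub_le y₁.1 y₂.1
            linarith [y₁.2, y₂.2]
      linarith
    obtain ⟨w, hw1, hw2, hw3⟩ := l1_stabilise (fun j => x (φ j)) (δ / 2) 1 (by positivity)
      (fun j => hx _) hlow (fun n => 1 / ((n : ℝ) + 1)) (fun n => by positivity)
    exact caseA w (δ / 2) 1 (by positivity) hw1 hw2 (fun n => 1 / ((n : ℝ) + 1))
      tendsto_one_div_add_atTop_nhds_zero_nat hw3 S hS
  · -- the almost weakly Cauchy case
    set ι := NormedSpace.inclusionInDoubleDual ℝ X with hι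
    have hιnorm : ∀ x : X, ‖ι x‖ = ‖x‖ := fun x => (NormedSpace.inclusionInDoubleDualLi ℝ (E := X)).norm_map x
    have hιS : ∀ x : X, ι x ∈ S := by
      intro x
      rw [hS]
      obtain ⟨g, hg1, hg2⟩ := exists_dual_vector'' ℝ x
      refine ⟨g, hg1, ?_⟩
      rw [hιnorm]
      exact hg2
    obtain ⟨φ, hφ, hφM⟩ : ∃ φ : ℕ → ℕ, StrictMono φ ∧ ∀ n, φ n ∈ M :=
      ⟨Nat.nth (· ∈ M), Nat.nth_strictMono hM, fun n => Nat.nth_mem_of_infinite hM n⟩
    let U : Ultrafilter ℕ := hyperfilter ℕ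
    have hU : (U : Filter ℕ) ≤ atTop := Nat.hyperfilter_le_atTop
    obtain ⟨Φ₀, hΦ₀⟩ := exists_ultralimit U (fun n => ι (x (φ n))) 1 (fun n => by rw [hιnorm]; exact hx _)
    have hΦ₀' : ∀ y : X →L[ℝ] ℝ, Tendsto (fun n => y (x (φ n))) U (𝓝 (Φ₀ y)) := hΦ₀
    have hΦf : ∀ k, θ ≤ Φ₀ (f k) := by
      intro k
      refine ge_of_tendsto (hΦ₀' (f k)) (hU ?_)
      filter_upwards [eventually_ge_atTop k] with n hn
      exact hf1 k _ (hn.trans (hφ.id_le n))
    have hdist : ∀ u ∈ convexHull ℝ (Set.range fun n => x (φ n)), θ ≤ ‖ι u - Φ₀‖ := by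
      intro u hu
      have h1 : ∀ u ∈ Submodule.span ℝ (Set.range fun n => x (φ n)), ∀ᶠ k in atTop, f k u = 0 := by
        intro u hu
        induction hu using Submodule.span_induction with
        | mem u hu =>
          obtain ⟨n, rfl⟩ := hu
          filter_upwards [eventually_gt_atTop (φ n)] with k hk
          exact hf0 k _ hk
        | zero => simp
        | add a b _ _ ha hb =>
          filter_upwards [ha, hb] with k h1 h2
          rw [map_add, h1, h2, add_zero]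
        | smul c a _ ha =>
          filter_upwards [ha] with k h1
          rw [map_smul, h1, smul_zero]
      obtain ⟨k, hk⟩ := (h1 u (convexHull_min Submodule.subset_span (Submodule.convex _) hu)).exists
      have h2 : (ι u - Φ₀) (f k) = f k u - Φ₀ (f k) := rfl
      have h3 : ‖(ι u - Φ₀) (f k)‖ ≤ ‖ι u - Φ₀‖ * ‖f k‖ := (ι u - Φ₀).le_opNorm _
      have h4 : ‖ι u - Φ₀‖ * ‖f k‖ ≤ ‖ι u - Φ₀‖ * 1 :=
        mul_le_mul_of_nonneg_left (hf k) (norm_nonneg (ι u - Φ₀))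
      rw [h2, hk, zero_sub, norm_neg, Real.norm_eq_abs] at h3
      have h5 := hΦf k
      have h6 := le_abs_self (Φ₀ (f k))
      linarith
    obtain ⟨Φ, hΦ1, hΦ2⟩ := bishop_phelps Φ₀ (θ / 10) (by positivity)
    have hΦS : Φ ∈ S := (hS Φ).2 hΦ2
    have hNA : ∀ (u : X) (t : ℝ), ∃ y : X →L[ℝ] ℝ, ‖y‖ ≤ 1 ∧ y u + t * Φ y = ‖ι u + t • Φ‖ := by
      intro u t
      obtain ⟨y, hy1, hy2⟩ := (hS _).1 (S.add_mem (hιS u) (S.smul_mem t hΦS))
      exact ⟨y, hy1, hy2⟩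
    have hβ : ∀ u ∈ convexHull ℝ (Set.range fun n => x (φ n)), θ - θ / 10 ≤ ‖ι u - Φ‖ := by
      intro u hu
      have h1 := hdist u hu
      have h2 : ‖ι u - Φ₀‖ ≤ ‖ι u - Φ‖ + ‖Φ - Φ₀‖ := by
        have := norm_add_le (ι u - Φ) (Φ - Φ₀)
        rwa [sub_add_sub_cancel] at this
      linarith
    obtain ⟨y, hy1, hy2⟩ := simons_like Φ (fun n => x (φ n)) (fun n => hx _) hNA (θ - θ / 10) hβ (θ / 10)
      (by positivity)
    -- upper bound
    set Lm := Φ₀ y with hLm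
    have hyx : ∀ n, |y (x n)| ≤ 1 := by
      intro n
      calc |y (x n)| ≤ ‖y‖ * ‖x n‖ := y.le_opNorm _
        _ ≤ 1 * 1 := mul_le_mul hy1 (hx n) (norm_nonneg _) zero_le_one
        _ = 1 := one_mul 1
    have hLm1 : -1 ≤ Lm := ge_of_tendsto (hΦ₀' y) (Eventually.of_forall fun n => (abs_le.1 (hyx _)).1)
    have hLm2 : Lm ≤ 1 := le_of_tendsto (hΦ₀' y) (Eventually.of_forall fun n => (abs_le.1 (hyx _)).2)
    set i := ⌊(Lm + 1) / δ⌋₊ + 1 with hi
    have hi1 : Lm < r i := by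
      have h1 : (Lm + 1) / δ < i := by
        rw [hi]; push_cast; exact Nat.lt_floor_add_one _
      rw [div_lt_iff₀ hδ0] at h1
      simp only [r]
      linarith
    have hi2 : r i ≤ Lm + δ := by
      have h1 : ((⌊(Lm + 1) / δ⌋₊ : ℕ) : ℝ) ≤ (Lm + 1) / δ := Nat.floor_le (by apply div_nonneg <;> linarith)
      rw [le_div_iff₀ hδ0] at h1
      simp only [r, hi]
      push_cast
      linarith
    have hiK : i < K := by
      have h1 : (i : ℝ) < K := by
        have h2 : (i : ℝ) * δ ≤ 2 + δ := by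
          have := hi2
          simp only [r] at this
          linarith
        have h3 : (i : ℝ) ≤ 2 / δ + 1 := by
          rw [← sub_nonneg]
          have h4 : 2 / δ + 1 - i = (2 + δ - i * δ) / δ := by
            field_simp
          rw [h4]
          apply div_nonneg _ hδ0.le
          linarith
        linarith
      exact_mod_cast h1
    have hno' := hno i hiK
    have hBinf : {n | n ∈ M ∧ (⟨y, hy1⟩ : {y : X →L[ℝ] ℝ // ‖y‖ ≤ 1}) ∈ B i n}.Infinite := by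
      have h1 : ∀ᶠ n in (U : Filter ℕ), y (x (φ n)) < r i := (hΦ₀' y).eventually_lt_const hi1
      have h2 : ∃ᶠ n in atTop, y (x (φ n)) < r i := by
        intro hcon
        have h3 := hU hcon
        obtain ⟨n, hn1, hn2⟩ := (h1.and h3).exists
        exact hn2 hn1
      have h3 : {n | y (x (φ n)) < r i}.Infinite := Nat.frequently_atTop_iff_infinite.1 h2
      have h4 := h3.image (hφ.injective.injOn)
      refine h4.mono ?_
      rintro _ ⟨n, hn, rfl⟩
      exact ⟨hφM n, hn⟩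
    have hAfin : ¬ {n | n ∈ M ∧ (⟨y, hy1⟩ : {y : X →L[ℝ] ℝ // ‖y‖ ≤ 1}) ∈ A i n}.Infinite :=
      fun h => hno' ⟨_, h, hBinf⟩
    rw [Set.not_infinite] at hAfin
    obtain ⟨N, hN⟩ := hAfin.bddAbove
    obtain ⟨n, hn1, hn2⟩ := hy2 (N + 1)
    have h1 : φ n ∉ {n | n ∈ M ∧ (⟨y, hy1⟩ : {y : X →L[ℝ] ℝ // ‖y‖ ≤ 1}) ∈ A i n} := by
      intro hmem
      have := hN hmem
      have h2 : n ≤ φ n := hφ.id_le n
      omega
    have h2 : y (x (φ n)) ≤ r i + δ := by
      by_contra hcon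
      push Not at hcon
      exact h1 ⟨hφM n, hcon⟩
    have h3 : |Φ y - Φ₀ y| ≤ θ / 10 := by
      calc |Φ y - Φ₀ y| = ‖(Φ - Φ₀) y‖ := rfl
        _ ≤ ‖Φ - Φ₀‖ * ‖y‖ := (Φ - Φ₀).le_opNorm _
        _ ≤ (θ / 10) * 1 := mul_le_mul hΦ1 hy1 (norm_nonneg _) (by positivity)
        _ = θ / 10 := mul_one _
    have h4 := (abs_le.1 h3).1
    have h5 : θ - θ / 10 - θ / 10 ≤ y (x (φ n)) - Φ y := hn2
    linarith

end Pool.Agent.Helper902.NA
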