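import Mathlib

set_option autoImplicit false
set_option maxSynthPendingDepth 3

namespace Pool.Agent.Helper902.Ren

/-- Nondentability is countably determined. -/
theorem exists_countable_nondentable {X : Type*} [NormedAddCommGroup X] [NormedSpace ℝ X]
    (C : Set X) (hC : C.Nonempty) (ε : ℝ)
    (h : ∀ x ∈ C, x ∈ closure (convexHull ℝ (C \ Metric.ball x ε))) :
    ∃ W : Set X, W ⊆ C ∧ W.Countable ∧ W.Nonempty ∧
      ∀ x ∈ W, x ∈ closure (convexHull ℝ (W \ Metric.ball x ε)) := by
  have step : ∀ x : X, ∃ A : Set X, A.Countable ∧ A ⊆ C ∧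
      (x ∈ C → A ⊆ C \ Metric.ball x ε ∧ x ∈ closure (convexHull ℝ A)) := by
    intro x
    by_cases hx : x ∈ C
    · have hx' := h x hx
      rw [Metric.mem_closure_iff] at hx'
      have h1 : ∀ n : ℕ, ∃ t : Finset X, (t : Set X) ⊆ C \ Metric.ball x ε ∧
          ∃ y ∈ convexHull ℝ (t : Set X), dist x y < 1 / ((n : ℝ) + 1) := by
        intro n
        obtain ⟨y, hy, hd⟩ := hx' (1 / ((n : ℝ) + 1)) (by positivity)
        rw [convexHull_eq_union_convexHull_finite_subsets] at hy
        simp only [Set.mem_iUnion] at hy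
        obtain ⟨t, ht, hyt⟩ := hy
        exact ⟨t, ht, y, hyt, hd⟩
      choose t ht y hy hd using h1
      refine ⟨⋃ n, (t n : Set X), Set.countable_iUnion fun n => (t n).countable_toSet, ?_, ?_⟩
      · exact Set.iUnion_subset fun n => (ht n).trans Set.diff_subset
      · intro _
        refine ⟨Set.iUnion_subset fun n => ht n, ?_⟩
        rw [Metric.mem_closure_iff]
        intro δ hδ
        obtain ⟨n, hn⟩ := exists_nat_one_div_lt hδ
        exact ⟨y n, convexHull_mono (Set.subset_iUnion (fun n => (t n : Set X)) n) (hy n),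
          (hd n).trans hn⟩
    · exact ⟨∅, Set.countable_empty, Set.empty_subset _, fun hh => absurd hh hx⟩
  choose A hAc hAC hA using step
  obtain ⟨x0, hx0⟩ := hC
  let W : ℕ → Set X := fun n => Nat.rec {x0} (fun _ S => S ∪ ⋃ x ∈ S, A x) n
  have W0 : W 0 = {x0} := rfl
  have Ws : ∀ n, W (n + 1) = W n ∪ ⋃ x ∈ W n, A x := fun n => rfl
  have hWC : ∀ n, W n ⊆ C := by
    intro n
    induction n with
    | zero => rw [W0]; simpa using hx0
    | succ n ih =>
      rw [Ws]
      exact Set.union_subset ih (Set.iUnion₂_subset fun x _ => hAC x)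
  have hWc : ∀ n, (W n).Countable := by
    intro n
    induction n with
    | zero => rw [W0]; exact Set.countable_singleton _
    | succ n ih =>
      rw [Ws]
      exact ih.union (ih.biUnion fun x _ => hAc x)
  refine ⟨⋃ n, W n, Set.iUnion_subset hWC, Set.countable_iUnion hWc,
    ⟨x0, Set.mem_iUnion.mpr ⟨0, by rw [W0]; exact Set.mem_singleton x0⟩⟩, ?_⟩
  intro x hx
  obtain ⟨n, hn⟩ := Set.mem_iUnion.mp hx
  have hxC := hWC n hn
  obtain ⟨h1, h2⟩ := hA x hxC
  have h3 : A x ⊆ (⋃ n, W n) \ Metric.ball x ε := by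
    intro y hy
    refine ⟨Set.mem_iUnion.mpr ⟨n + 1, ?_⟩, (h1 hy).2⟩
    rw [Ws]
    exact Or.inr (Set.mem_biUnion hn hy)
  exact closure_mono (convexHull_mono h3) h2

end Pool.Agent.Helper902.Ren
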