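import Mathlib

set_option autoImplicit false
set_option maxSynthPendingDepth 3

namespace Pool.Agent.Helper902.Ren

/-- A bounded nondentable set does not live in a one-dimensional space. -/
theorem exists_ker_ne {𝕜 : Type*} [RCLike 𝕜] {X : Type*} [NormedAddCommGroup X] [NormedSpace 𝕜 X]
    [NormedSpace ℝ X] [IsScalarTower ℝ 𝕜 X] (W : Set X) (hW : W.Nonempty) (M : ℝ)
    (hM : ∀ w ∈ W, ‖w‖ ≤ M) (ε : ℝ) (hε : 0 < ε)
    (h : ∀ x ∈ W, x ∈ closure (convexHull ℝ (W \ Metric.ball x ε))) (g : X →L[𝕜] 𝕜) :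
    ∃ u : X, u ≠ 0 ∧ g u = 0 := by
  by_contra hcon
  push Not at hcon
  have hinj : ∀ u : X, g u = 0 → u = 0 := by
    intro u hu
    by_contra hne
    exact hcon u hne hu
  have hne : ∀ x ∈ W, (W \ Metric.ball x ε).Nonempty := by
    intro x hx
    have h1 := h x hx
    have h2 : (closure (convexHull ℝ (W \ Metric.ball x ε))).Nonempty := ⟨x, h1⟩
    rw [closure_nonempty_iff, convexHull_nonempty_iff] at h2
    exact h2
  obtain ⟨x₀, hx₀⟩ := hW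
  obtain ⟨y₀, hy₀W, hy₀⟩ := hne x₀ hx₀
  set u₀ : X := y₀ - x₀ with hu₀
  have hdist : ε ≤ ‖u₀‖ := by
    rw [Metric.mem_ball, not_lt, dist_eq_norm] at hy₀
    exact hy₀
  have hu₀n : 0 < ‖u₀‖ := lt_of_lt_of_le hε hdist
  have hu₀ne : u₀ ≠ 0 := norm_pos_iff.mp hu₀n
  have hg₀ : g u₀ ≠ 0 := hcon u₀ hu₀ne
  have hg₀n : 0 < ‖g u₀‖ := norm_pos_iff.mpr hg₀
  have hform : ∀ x : X, x = (g x / g u₀) • u₀ := by
    intro x
    have h1 : g (x - (g x / g u₀) • u₀) = 0 := by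
      rw [map_sub, map_smul, smul_eq_mul, div_mul_cancel₀ _ hg₀, sub_self]
    exact sub_eq_zero.mp (hinj _ h1)
  have hnorm : ∀ x : X, ‖g x‖ = (‖g u₀‖ / ‖u₀‖) * ‖x‖ := by
    intro x
    have h1 : ‖x‖ = ‖g x‖ / ‖g u₀‖ * ‖u₀‖ := by
      conv_lhs => rw [hform x]
      rw [norm_smul, norm_div]
    rw [h1]
    field_simp
  set c : ℝ := ‖g u₀‖ / ‖u₀‖ with hc
  have hcpos : 0 < c := div_pos hg₀n hu₀n
  set m : ℝ := sSup ((fun w => ‖g w‖ ^ 2) '' W) with hm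
  have hbdd : BddAbove ((fun w => ‖g w‖ ^ 2) '' W) := by
    refine ⟨(c * M) ^ 2, ?_⟩
    rintro _ ⟨w, hw, rfl⟩
    simp only
    rw [hnorm w]
    have := hM w hw
    gcongr
  have hle : ∀ w ∈ W, ‖g w‖ ^ 2 ≤ m := fun w hw => le_csSup hbdd ⟨w, hw, rfl⟩
  have hce : 0 < c ^ 2 * ε ^ 2 := by positivity
  obtain ⟨_, ⟨x, hxW, rfl⟩, hx⟩ := exists_lt_of_lt_csSup
    (s := (fun w => ‖g w‖ ^ 2) '' W) ⟨_, x₀, hx₀, rfl⟩ (b := m - c ^ 2 * ε ^ 2) (by linarith)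
  simp only at hx
  let f : X →L[ℝ] ℝ := (RCLike.reCLM : 𝕜 →L[ℝ] ℝ).comp
    (((starRingEnd 𝕜 (g x)) • g).restrictScalars ℝ)
  have hf : ∀ y, f y = RCLike.re (starRingEnd 𝕜 (g x) * g y) := by
    intro y
    simp [f]
  have hexp : ∀ y, ‖g y - g x‖ ^ 2 = ‖g y‖ ^ 2 - 2 * f y + ‖g x‖ ^ 2 := by
    intro y
    rw [hf]
    have h1 := @norm_sub_sq 𝕜 𝕜 _ _ _ (g y) (g x)
    rw [h1]
    have h2 : RCLike.re (inner 𝕜 (g y) (g x)) = RCLike.re (starRingEnd 𝕜 (g x) * g y) := by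
      rw [inner_re_symm]
      simp [RCLike.inner_apply, mul_comm]
    rw [h2]
  have hsub : W \ Metric.ball x ε ⊆ {y | f y ≤ (m + ‖g x‖ ^ 2 - c ^ 2 * ε ^ 2) / 2} := by
    rintro y ⟨hyW, hy⟩
    rw [Metric.mem_ball, not_lt, dist_eq_norm] at hy
    have h1 := hexp y
    rw [← map_sub, hnorm] at h1
    have h2 : c ^ 2 * ε ^ 2 ≤ (c * ‖y - x‖) ^ 2 := by
      rw [mul_pow]
      gcongr
    have h3 := hle y hyW
    show f y ≤ _
    linarith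
  have hconv : Convex ℝ {y | f y ≤ (m + ‖g x‖ ^ 2 - c ^ 2 * ε ^ 2) / 2} :=
    convex_halfSpace_le (IsLinearMap.mk (map_add f) (map_smul f)) _
  have hclosed : IsClosed {y | f y ≤ (m + ‖g x‖ ^ 2 - c ^ 2 * ε ^ 2) / 2} :=
    isClosed_le f.continuous continuous_const
  have hmem := closure_minimal (convexHull_min hsub hconv) hclosed (h x hxW)
  have hmem' : f x ≤ (m + ‖g x‖ ^ 2 - c ^ 2 * ε ^ 2) / 2 := hmem
  have hfx := hexp x
  rw [sub_self, norm_zero] at hfx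
  nlinarith

end Pool.Agent.Helper902.Ren
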