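import Mathlib

set_option autoImplicit false
set_option maxSynthPendingDepth 3

open Filter Topology

namespace Pool.Agent.Helper902.Ren

/-- the distance seminorm -/
theorem exists_dist_seminorm {𝕜 : Type*} [RCLike 𝕜] {X : Type*} [NormedAddCommGroup X]
    [NormedSpace 𝕜 X] (F : Submodule 𝕜 X) :
    ∃ q : Seminorm 𝕜 X, (∀ x, q x ≤ ‖x‖) ∧ (∀ x, ∀ a ∈ F, q x ≤ ‖x - a‖) ∧
      ∀ x, ∀ ε > 0, ∃ a ∈ F, ‖x - a‖ < q x + ε := by
  refine ⟨(normSeminorm 𝕜 (X ⧸ F)).comp F.mkQ, ?_, ?_, ?_⟩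
  · intro x
    show ‖(Submodule.Quotient.mk x : X ⧸ F)‖ ≤ ‖x‖
    exact Submodule.Quotient.norm_mk_le F x
  · intro x a ha
    show ‖(Submodule.Quotient.mk x : X ⧸ F)‖ ≤ ‖x - a‖
    have h : (Submodule.Quotient.mk x : X ⧸ F) = Submodule.Quotient.mk (x - a) := by
      rw [Submodule.Quotient.eq]
      simpa using ha
    rw [h]
    exact Submodule.Quotient.norm_mk_le F _
  · intro x ε hε
    obtain ⟨m, hm1, hm2⟩ := Submodule.Quotient.norm_mk_lt (Submodule.Quotient.mk x : X ⧸ F) hε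
    refine ⟨x - m, ?_, ?_⟩
    · rw [← Submodule.Quotient.mk_eq_zero F, Submodule.Quotient.mk_sub, hm1, sub_self]
    · rw [sub_sub_cancel]
      exact hm2

/-- A countable family of seminorms which detects closeness near the closed span of a countable
set `A` (this is the family of the standard locally uniformly rotund renorming). -/
theorem exists_seminorms {𝕜 : Type*} [RCLike 𝕜] {X : Type*} [NormedAddCommGroup X]
    [NormedSpace 𝕜 X] (A : Set X) (hA : A.Countable) :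
    ∃ p : ℕ → Seminorm 𝕜 X, (∀ x, p 0 x = ‖x‖) ∧ (∀ j x, p j x ≤ ‖x‖) ∧
      ∀ (w : X) (x x' : ℕ → X) (κ : ℝ), 0 < κ →
        (∀ j, Tendsto (fun n => p j (x n)) atTop (𝓝 (p j w))) →
        (∀ j, Tendsto (fun n => p j (x' n)) atTop (𝓝 (p j w))) →
        (∀ j, (∀ a b : X, (p j (a + b)) ^ 2 + (p j (a - b)) ^ 2 = 2 * ((p j a) ^ 2 + (p j b) ^ 2)) →
          Tendsto (fun n => p j (x n - x' n)) atTop (𝓝 0)) →
        (∀ n, ∃ a ∈ Submodule.span 𝕜 A, ‖x n - a‖ ≤ κ) →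
        ∃ᶠ n in atTop, ‖x n - x' n‖ ≤ 20 * κ := by
  classical
  set S : Submodule 𝕜 X := Submodule.span 𝕜 A with hS
  have hsep : TopologicalSpace.IsSeparable (S : Set X) := hA.isSeparable.span
  have : TopologicalSpace.SeparableSpace S := hsep.separableSpace
  let y : ℕ → S := TopologicalSpace.denseSeq S
  have hyd : ∀ a ∈ S, ∀ ε > 0, ∃ j, ‖((y j : S) : X) - a‖ < ε := by
    intro a ha ε hε
    obtain ⟨j, hj⟩ := (TopologicalSpace.denseRange_denseSeq S).exists_dist_lt (⟨a, ha⟩ : S) hε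
    refine ⟨j, ?_⟩
    rw [dist_comm, Subtype.dist_eq, dist_eq_norm] at hj
    exact hj
  let F : ℕ → Submodule 𝕜 X := fun k => Submodule.span 𝕜 (Set.range fun i : Fin k => ((y i : S) : X))
  have hFS : ∀ k, F k ≤ S := by
    intro k
    refine Submodule.span_le.2 ?_
    rintro _ ⟨i, rfl⟩
    exact (y i).2
  have hyF : ∀ i, ((y i : S) : X) ∈ F (i + 1) := fun i =>
    Submodule.subset_span ⟨⟨i, Nat.lt_succ_self i⟩, rfl⟩
  choose f hf1 hf2 using fun k => exists_dual_vector'' 𝕜 ((y k : S) : X)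
  choose d hd1 hd2 hd3 using fun F : Submodule 𝕜 X => exists_dist_seminorm F
  let g : ℕ → Seminorm 𝕜 X := fun k => (normSeminorm 𝕜 𝕜).comp (f k).toLinearMap
  have hg : ∀ k x, g k x = ‖f k x‖ := fun k x => rfl
  let p : ℕ → Seminorm 𝕜 X := fun n => if n = 0 then normSeminorm 𝕜 X else if n = 1 then d S
    else if n % 2 = 0 then d (F ((n - 2) / 2)) else g ((n - 3) / 2)
  have p0 : p 0 = normSeminorm 𝕜 X := by simp [p]
  have p1 : p 1 = d S := by simp [p]
  have pF : ∀ k, p (2 * k + 2) = d (F k) := by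
    intro k
    have h1 : 2 * k + 2 ≠ 0 := by omega
    have h2 : 2 * k + 2 ≠ 1 := by omega
    have h3 : (2 * k + 2) % 2 = 0 := by omega
    have h4 : (2 * k + 2 - 2) / 2 = k := by omega
    simp only [p]
    rw [if_neg h1, if_neg h2, if_pos h3, h4]
  have pg : ∀ k, p (2 * k + 3) = g k := by
    intro k
    have h1 : 2 * k + 3 ≠ 0 := by omega
    have h2 : 2 * k + 3 ≠ 1 := by omega
    have h3 : ¬ (2 * k + 3) % 2 = 0 := by omega
    have h4 : (2 * k + 3 - 3) / 2 = k := by omega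
    simp only [p]
    rw [if_neg h1, if_neg h2, if_neg h3, h4]
  have hgle : ∀ k x, ‖f k x‖ ≤ ‖x‖ := by
    intro k x
    calc ‖f k x‖ ≤ ‖f k‖ * ‖x‖ := (f k).le_opNorm x
      _ ≤ 1 * ‖x‖ := mul_le_mul_of_nonneg_right (hf1 k) (norm_nonneg x)
      _ = ‖x‖ := one_mul _
  refine ⟨p, ?_, ?_, ?_⟩
  · intro x
    rw [p0]
    rfl
  · intro j x
    by_cases h1 : j = 0
    · rw [h1, p0]
      exact le_refl _
    by_cases h2 : j = 1
    · rw [h2, p1]
      exact hd1 _ _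
    by_cases h3 : j % 2 = 0
    · simp only [p]
      rw [if_neg h1, if_neg h2, if_pos h3]
      exact hd1 _ _
    · simp only [p]
      rw [if_neg h1, if_neg h2, if_neg h3, hg]
      exact hgle _ _
  intro w x x' κ hκ hx hx' hpar hclose
  -- w is close to S
  have hw : d S w ≤ κ := by
    have h := hx 1
    rw [p1] at h
    refine le_of_tendsto h (Eventually.of_forall fun n => ?_)
    obtain ⟨a, ha, hxa⟩ := hclose n
    exact (hd2 S (x n) a ha).trans hxa
  obtain ⟨a, ha, hwa⟩ := hd3 S w (κ / 2) (by positivity)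
  obtain ⟨i, hi⟩ := hyd a ha (κ / 2) (by positivity)
  have hwF : d (F (i + 1)) w < 2 * κ := by
    refine (hd2 (F (i + 1)) w _ (hyF i)).trans_lt ?_
    calc ‖w - y i‖ = ‖(w - a) - (y i - a)‖ := by rw [sub_sub_sub_cancel_right]
      _ ≤ ‖w - a‖ + ‖((y i : S) : X) - a‖ := norm_sub_le _ _
      _ < 2 * κ := by linarith
  set E := F (i + 1) with hE
  have hxE := hx (2 * (i + 1) + 2)
  have hxE' := hx' (2 * (i + 1) + 2)
  rw [pF] at hxE hxE'
  choose b hb1 hb2 using fun n => hd3 E (x n) κ hκ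
  choose b' hb1' hb2' using fun n => hd3 E (x' n) κ hκ
  have hbd : ∀ᶠ n in atTop, ‖x n - x' n - (b n - b' n)‖ ≤ 6 * κ := by
    filter_upwards [hxE.eventually_lt_const hwF, hxE'.eventually_lt_const hwF] with n h1 h2
    have h3 := hb2 n
    have h4 := hb2' n
    calc ‖x n - x' n - (b n - b' n)‖ = ‖(x n - b n) - (x' n - b' n)‖ := by
          rw [sub_sub_sub_comm]
      _ ≤ ‖x n - b n‖ + ‖x' n - b' n‖ := norm_sub_le _ _
      _ ≤ 6 * κ := by linarith
  -- boundedness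
  have hnx := hx 0
  have hnx' := hx' 0
  rw [p0] at hnx hnx'
  have hnx1 : Tendsto (fun n => ‖x n‖) atTop (𝓝 ‖w‖) := hnx
  have hnx1' : Tendsto (fun n => ‖x' n‖) atTop (𝓝 ‖w‖) := hnx'
  obtain ⟨C, hC⟩ := hnx1.bddAbove_range
  obtain ⟨C', hC'⟩ := hnx1'.bddAbove_range
  have hCn : ∀ n, ‖x n‖ ≤ C := fun n => hC ⟨n, rfl⟩
  have hCn' : ∀ n, ‖x' n‖ ≤ C' := fun n => hC' ⟨n, rfl⟩
  have hbn : ∀ n, ‖b n‖ ≤ 2 * C + κ := by
    intro n
    have h1 := hb2 n
    have h2 := hd1 E (x n)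
    have h3 := hCn n
    have h4 : ‖b n‖ ≤ ‖x n‖ + ‖x n - b n‖ := by
      calc ‖b n‖ = ‖x n - (x n - b n)‖ := by rw [sub_sub_cancel]
        _ ≤ _ := norm_sub_le _ _
    linarith
  have hbn' : ∀ n, ‖b' n‖ ≤ 2 * C' + κ := by
    intro n
    have h1 := hb2' n
    have h2 := hd1 E (x' n)
    have h3 := hCn' n
    have h4 : ‖b' n‖ ≤ ‖x' n‖ + ‖x' n - b' n‖ := by
      calc ‖b' n‖ = ‖x' n - (x' n - b' n)‖ := by rw [sub_sub_cancel]
        _ ≤ _ := norm_sub_le _ _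
    linarith
  have : FiniteDimensional 𝕜 E := FiniteDimensional.span_of_finite 𝕜 (Set.finite_range _)
  have : ProperSpace E := FiniteDimensional.proper_rclike 𝕜 E
  let c : ℕ → E := fun n => ⟨b n - b' n, E.sub_mem (hb1 n) (hb1' n)⟩
  have hcb : ∀ n, ‖c n‖ ≤ 2 * C + κ + (2 * C' + κ) := by
    intro n
    show ‖b n - b' n‖ ≤ _
    exact (norm_sub_le _ _).trans (add_le_add (hbn n) (hbn' n))
  obtain ⟨c0, -, φ, hφ, hlim⟩ := tendsto_subseq_of_bounded
    (Metric.isBounded_closedBall (x := (0 : E)) (r := 2 * C + κ + (2 * C' + κ))) (x := c)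
    (fun n => by rw [mem_closedBall_zero_iff]; exact hcb n)
  have hlim' : Tendsto (fun n => ((c (φ n) : E) : X)) atTop (𝓝 (c0 : X)) :=
    (continuous_subtype_val.tendsto c0).comp hlim
  have hbdφ : ∀ᶠ n in atTop, ‖x (φ n) - x' (φ n) - (c (φ n) : X)‖ ≤ 6 * κ :=
    hφ.tendsto_atTop.eventually hbd
  -- functionals
  have hfj : ∀ j, ‖f j (c0 : X)‖ ≤ 6 * κ := by
    intro j
    have h1 : Tendsto (fun n => ‖f j (x n - x' n)‖) atTop (𝓝 0) := by
      have := hpar (2 * j + 3) (by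
        intro a b
        rw [pg, hg, hg, hg, hg, map_add, map_sub]
        have h := parallelogram_law_with_norm 𝕜 (f j a) (f j b)
        nlinarith [h])
      rw [pg] at this
      exact this
    have h2 : Tendsto (fun n => ‖f j (x (φ n) - x' (φ n))‖ + 6 * κ) atTop (𝓝 (0 + 6 * κ)) :=
      (h1.comp hφ.tendsto_atTop).add_const _
    have h3 : Tendsto (fun n => ‖f j ((c (φ n) : E) : X)‖) atTop (𝓝 ‖f j (c0 : X)‖) :=
      (((f j).continuous.tendsto _).comp hlim').norm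
    have h4 : ∀ᶠ n in atTop, ‖f j ((c (φ n) : E) : X)‖ ≤ ‖f j (x (φ n) - x' (φ n))‖ + 6 * κ := by
      filter_upwards [hbdφ] with n hn
      calc ‖f j ((c (φ n) : E) : X)‖ 
          = ‖f j (x (φ n) - x' (φ n)) - f j (x (φ n) - x' (φ n) - (c (φ n) : X))‖ := by
            rw [← map_sub, sub_sub_cancel]
        _ ≤ ‖f j (x (φ n) - x' (φ n))‖ + ‖f j (x (φ n) - x' (φ n) - (c (φ n) : X))‖ :=
            norm_sub_le _ _
        _ ≤ ‖f j (x (φ n) - x' (φ n))‖ + 6 * κ := by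
            have := hgle j (x (φ n) - x' (φ n) - (c (φ n) : X))
            linarith
    have := le_of_tendsto_of_tendsto h3 h2 h4
    linarith
  have hc0 : ‖(c0 : X)‖ ≤ 8 * κ := by
    obtain ⟨j, hj⟩ := hyd (c0 : X) (hFS _ c0.2) κ hκ
    have h1 : ‖((y j : S) : X)‖ = ‖f j (y j)‖ := by
      rw [hf2 j, RCLike.norm_ofReal, abs_of_nonneg (norm_nonneg _)]
    have h2 : ‖f j (y j)‖ ≤ ‖f j (c0 : X)‖ + ‖f j ((y j : X) - c0)‖ := by
      calc ‖f j (y j)‖ = ‖f j (c0 : X) + f j ((y j : X) - c0)‖ := by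
            rw [← map_add, add_sub_cancel]
        _ ≤ _ := norm_add_le _ _
    have h3 := hgle j ((y j : X) - c0)
    have h4 := hfj j
    have h5 : ‖(c0 : X)‖ ≤ ‖((y j : S) : X)‖ + ‖(y j : X) - c0‖ := by
      calc ‖(c0 : X)‖ = ‖((y j : S) : X) - ((y j : X) - c0)‖ := by rw [sub_sub_cancel]
        _ ≤ _ := norm_sub_le _ _
    linarith
  have hfin : ∀ᶠ n in atTop, ‖x (φ n) - x' (φ n)‖ ≤ 20 * κ := by
    have h1 : ∀ᶠ n in atTop, ‖((c (φ n) : E) : X)‖ < 9 * κ :=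
      hlim'.norm.eventually_lt_const (by linarith)
    filter_upwards [h1, hbdφ] with n h2 h3
    have h4 : ‖x (φ n) - x' (φ n)‖ ≤ ‖x (φ n) - x' (φ n) - (c (φ n) : X)‖ + ‖((c (φ n) : E) : X)‖ := by
      calc ‖x (φ n) - x' (φ n)‖ = ‖(x (φ n) - x' (φ n) - (c (φ n) : X)) + (c (φ n) : X)‖ := by
            rw [sub_add_cancel]
        _ ≤ _ := norm_add_le _ _
    linarith
  exact hφ.tendsto_atTop.frequently hfin.frequently

end Pool.Agent.Helper902.Ren
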