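import Mathlib

set_option autoImplicit false
set_option maxSynthPendingDepth 3
set_option linter.unusedSectionVars false

open Filter Topology Finset

namespace Pool.Agent.Helper902.Ren

variable {𝕜 : Type*} [RCLike 𝕜] {X : Type*} [NormedAddCommGroup X] [NormedSpace 𝕜 X]
  [NormedSpace ℝ X] [IsScalarTower ℝ 𝕜 X]

/-- the data of the construction -/
structure Dat (𝕜 : Type*) [RCLike 𝕜] (X : Type*) [NormedAddCommGroup X] [NormedSpace 𝕜 X] where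
  p : ℕ → Seminorm 𝕜 X
  p0 : ∀ x, p 0 x = ‖x‖
  ple : ∀ j x, p j x ≤ ‖x‖
  g : X →L[𝕜] 𝕜
  gle : ∀ x, ‖g x‖ ≤ ‖x‖
  z : X
  zn : ‖z‖ = 1
  gz : g z = 1
  W : Set X
  Wb : ∀ w ∈ W, ‖w‖ ≤ 1 / 2048
  u : X
  un : ‖u‖ = 2048
  gu : g u = 0

namespace Dat

variable (D : Dat 𝕜 X)

/-- the projection along `z` -/
def pr (x : X) : X := x - D.g x • D.z

theorem pr_add (x y : X) : D.pr (x + y) = D.pr x + D.pr y := by
  unfold pr; rw [map_add, add_smul]; abel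

theorem pr_sub (x y : X) : D.pr (x - y) = D.pr x - D.pr y := by
  unfold pr; rw [map_sub, sub_smul]; abel

theorem pr_smul (c : 𝕜) (x : X) : D.pr (c • x) = c • D.pr x := by
  unfold pr; rw [map_smul, smul_sub, smul_eq_mul, mul_smul]

theorem pr_rsmul (c : ℝ) (x : X) : D.pr (c • x) = c • D.pr x := by
  rw [← algebraMap_smul 𝕜 c x, pr_smul, algebraMap_smul]

theorem pr_z : D.pr D.z = 0 := by
  unfold pr; rw [D.gz, one_smul, sub_self]

theorem pr_u : D.pr D.u = D.u := by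
  unfold pr; rw [D.gu, zero_smul, sub_zero]

theorem g_pr (x : X) : D.g (D.pr x) = 0 := by
  unfold pr; rw [map_sub, map_smul, D.gz, smul_eq_mul, mul_one, sub_self]

theorem pr_pr (x : X) : D.pr (D.pr x) = D.pr x := by
  have h : D.pr (D.pr x) = D.pr x - D.g (D.pr x) • D.z := rfl
  rw [h, g_pr, zero_smul, sub_zero]

theorem norm_pr_le (x : X) : ‖D.pr x‖ ≤ 2 * ‖x‖ := by
  unfold pr
  refine (norm_sub_le _ _).trans ?_
  rw [norm_smul, D.zn, mul_one]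
  linarith [D.gle x]

theorem norm_le_pr (x : X) : ‖x‖ ≤ ‖D.g x‖ + ‖D.pr x‖ := by
  have h : x = D.g x • D.z + D.pr x := by unfold pr; abel
  calc ‖x‖ = ‖D.g x • D.z + D.pr x‖ := by rw [← h]
    _ ≤ ‖D.g x • D.z‖ + ‖D.pr x‖ := norm_add_le _ _
    _ = _ := by rw [norm_smul, D.zn, mul_one]

/-- partial sums of the quadratic form on the kernel part -/
noncomputable def q (N : ℕ) (x : X) : ℝ := ∑ j ∈ range N, (1 / 4 : ℝ) ^ j * (D.p j (D.pr x)) ^ 2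

/-- partial sums of the quadratic form -/
noncomputable def Q (N : ℕ) (x : X) : ℝ := 16 * ‖D.g x‖ ^ 2 + D.q N x

theorem q_nonneg (N : ℕ) (x : X) : 0 ≤ D.q N x := Finset.sum_nonneg fun _ _ => by positivity

theorem q_mono {N M : ℕ} (h : N ≤ M) (x : X) : D.q N x ≤ D.q M x :=
  Finset.sum_le_sum_of_subset_of_nonneg (Finset.range_mono h) fun _ _ _ => by positivity

theorem q_le (N : ℕ) (x : X) : D.q N x ≤ 4 / 3 * ‖D.pr x‖ ^ 2 := by
  have h1 : D.q N x ≤ ∑ j ∈ range N, (1 / 4 : ℝ) ^ j * ‖D.pr x‖ ^ 2 := by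
    apply Finset.sum_le_sum
    intro j _
    apply mul_le_mul_of_nonneg_left _ (by positivity)
    exact pow_le_pow_left₀ (apply_nonneg _ _) (D.ple j _) 2
  have h2 : ∑ j ∈ range N, (1 / 4 : ℝ) ^ j ≤ 4 / 3 := by
    rw [geom_sum_eq (by norm_num)]
    have : (0:ℝ) ≤ (1 / 4 : ℝ) ^ N := by positivity
    rw [div_le_iff_of_neg (by norm_num)]
    linarith
  rw [← Finset.sum_mul] at h1
  exact h1.trans (mul_le_mul_of_nonneg_right h2 (by positivity))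

theorem q_one (x : X) : D.q 1 x = ‖D.pr x‖ ^ 2 := by
  simp [q, D.p0]

theorem sq_convex {a b s t : ℝ} (hs : 0 ≤ s) (ht : 0 ≤ t) (hst : s + t = 1) :
    (s * a + t * b) ^ 2 ≤ s * a ^ 2 + t * b ^ 2 := by
  have h : s * a ^ 2 + t * b ^ 2 - (s * a + t * b) ^ 2 = s * t * (a - b) ^ 2 := by
    have : t = 1 - s := by linarith
    subst this; ring
  nlinarith [mul_nonneg (mul_nonneg hs ht) (sq_nonneg (a - b))]

theorem p_comb (j : ℕ) (x y : X) {s t : ℝ} (hs : 0 ≤ s) (ht : 0 ≤ t) :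
    D.p j (s • x + t • y) ≤ s * D.p j x + t * D.p j y := by
  have h1 : D.p j (s • x) = s * D.p j x := by
    rw [← algebraMap_smul 𝕜 s x, map_smul_eq_mul, norm_algebraMap', Real.norm_of_nonneg hs]
  have h2 : D.p j (t • y) = t * D.p j y := by
    rw [← algebraMap_smul 𝕜 t y, map_smul_eq_mul, norm_algebraMap', Real.norm_of_nonneg ht]
  rw [← h1, ← h2]
  exact map_add_le_add _ _ _

theorem q_convex (N : ℕ) (x y : X) {s t : ℝ} (hs : 0 ≤ s) (ht : 0 ≤ t) (hst : s + t = 1) :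
    D.q N (s • x + t • y) ≤ s * D.q N x + t * D.q N y := by
  unfold q
  rw [Finset.mul_sum, Finset.mul_sum, ← Finset.sum_add_distrib]
  apply Finset.sum_le_sum
  intro j _
  rw [pr_add, pr_rsmul, pr_rsmul]
  have h1 := D.p_comb j (D.pr x) (D.pr y) hs ht
  have h2 : (D.p j (s • D.pr x + t • D.pr y)) ^ 2 ≤ s * (D.p j (D.pr x)) ^ 2 + t * (D.p j (D.pr y)) ^ 2 :=
    (pow_le_pow_left₀ (apply_nonneg _ _) h1 2).trans (sq_convex hs ht hst)
  have h3 : (0:ℝ) ≤ (1/4) ^ j := by positivity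
  nlinarith [mul_le_mul_of_nonneg_left h2 h3]

theorem q_smul (N : ℕ) (c : 𝕜) (x : X) : D.q N (c • x) = ‖c‖ ^ 2 * D.q N x := by
  unfold q
  rw [Finset.mul_sum]
  apply Finset.sum_congr rfl
  intro j _
  rw [pr_smul, map_smul_eq_mul]
  ring

theorem g_rsmul (c : ℝ) (x : X) : D.g (c • x) = c • D.g x := by
  rw [← algebraMap_smul 𝕜 c x, map_smul, algebraMap_smul]

theorem Q_convex (N : ℕ) (x y : X) {s t : ℝ} (hs : 0 ≤ s) (ht : 0 ≤ t) (hst : s + t = 1) :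
    D.Q N (s • x + t • y) ≤ s * D.Q N x + t * D.Q N y := by
  unfold Q
  have h1 := D.q_convex N x y hs ht hst
  have h2 : ‖D.g (s • x + t • y)‖ ≤ s * ‖D.g x‖ + t * ‖D.g y‖ := by
    rw [map_add, g_rsmul, g_rsmul]
    refine (norm_add_le _ _).trans ?_
    rw [norm_smul, norm_smul, Real.norm_of_nonneg hs, Real.norm_of_nonneg ht]
  have h3 : ‖D.g (s • x + t • y)‖ ^ 2 ≤ s * ‖D.g x‖ ^ 2 + t * ‖D.g y‖ ^ 2 :=
    (pow_le_pow_left₀ (norm_nonneg _) h2 2).trans (sq_convex hs ht hst)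
  linarith

theorem Q_smul (N : ℕ) (c : 𝕜) (x : X) : D.Q N (c • x) = ‖c‖ ^ 2 * D.Q N x := by
  unfold Q
  rw [q_smul, map_smul, norm_smul]
  ring

theorem Q_nonneg (N : ℕ) (x : X) : 0 ≤ D.Q N x := by
  unfold Q; have := D.q_nonneg N x; positivity

theorem Q_mono {N M : ℕ} (h : N ≤ M) (x : X) : D.Q N x ≤ D.Q M x := by
  unfold Q; linarith [D.q_mono h x]

/-- the rotund part of the ball -/
def G : Set X := {x | ∀ N, D.Q N x ≤ 1}

theorem G_convex : Convex ℝ D.G := by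
  intro x hx y hy s t hs ht hst N
  have := D.Q_convex N x y hs ht hst
  have h1 := mul_le_mul_of_nonneg_left (hx N) hs
  have h2 := mul_le_mul_of_nonneg_left (hy N) ht
  linarith

theorem G_smul {x : X} (hx : x ∈ D.G) {c : 𝕜} (hc : ‖c‖ ≤ 1) : c • x ∈ D.G := by
  intro N
  rw [Q_smul]
  have h1 : ‖c‖ ^ 2 ≤ 1 := pow_le_one₀ (norm_nonneg _) hc
  have := hx N
  have := D.Q_nonneg N x
  nlinarith

theorem continuous_p (j : ℕ) : Continuous (D.p j) := by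
  rw [Metric.continuous_iff]
  intro x ε hε
  refine ⟨ε, hε, fun y hy => ?_⟩
  rw [Real.dist_eq]
  rw [dist_eq_norm] at hy
  have h1 := abs_sub_map_le_sub (D.p j) y x
  exact (h1.trans (D.ple j _)).trans_lt hy

theorem continuous_pr : Continuous D.pr := by
  unfold pr; fun_prop

theorem continuous_q (N : ℕ) : Continuous (D.q N) := by
  unfold q
  refine continuous_finsetSum _ fun j _ => ?_
  exact (((D.continuous_p j).comp D.continuous_pr).pow 2).const_mul _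

theorem continuous_Q (N : ℕ) : Continuous (D.Q N) := by
  unfold Q
  exact ((D.g.continuous.norm.pow 2).const_mul 16).add (D.continuous_q N)

theorem G_closed : IsClosed D.G := by
  have : D.G = ⋂ N, {x | D.Q N x ≤ 1} := by ext x; simp [G]
  rw [this]
  exact isClosed_iInter fun N => isClosed_le (D.continuous_Q N) continuous_const

theorem G_small {x : X} (hx : ‖x‖ ≤ 1 / 5) : x ∈ D.G := by
  intro N
  unfold Q
  have h1 := D.q_le N x
  have h2 := D.norm_pr_le x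
  have h3 := D.gle x
  have h4 : ‖D.g x‖ ^ 2 ≤ (1/5) ^ 2 := pow_le_pow_left₀ (norm_nonneg _) (h3.trans hx) 2
  have h5 : ‖D.pr x‖ ^ 2 ≤ (2/5) ^ 2 := pow_le_pow_left₀ (norm_nonneg _) (by linarith) 2
  linarith

theorem G_bounds {x : X} (hx : x ∈ D.G) : ‖D.g x‖ ≤ 1 / 4 ∧ ‖D.pr x‖ ≤ 1 := by
  have h := hx 1
  unfold Q at h
  rw [q_one] at h
  have h1 := norm_nonneg (D.g x)
  have h2 := norm_nonneg (D.pr x)
  constructor
  · by_contra hcon
    push Not at hcon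
    nlinarith [sq_nonneg ‖D.pr x‖]
  · by_contra hcon
    push Not at hcon
    nlinarith [sq_nonneg ‖D.g x‖]

theorem G_norm {x : X} (hx : x ∈ D.G) : ‖x‖ ≤ 2 := by
  have := D.G_bounds hx
  linarith [D.norm_le_pr x]

/-- Key rotundity estimate. -/
theorem G_key (F : X →L[𝕜] 𝕜) (hF : ∀ x ∈ D.G, ‖F x‖ ≤ 1) {w y : X} (hw : w ∈ D.G) (hy : y ∈ D.G)
    {η : ℝ} (hη : 0 < η) (hη1 : η < 1) (h : 2 - η ≤ ‖F (w + y)‖) (j : ℕ) :
    (1 / 4 : ℝ) ^ j * (D.p j (D.pr w) - D.p j (D.pr y)) ^ 2 ≤ 8 * η ∧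
    ‖D.g (w - y)‖ ^ 2 ≤ 8 * η ∧
    ((∀ a b : X, (D.p j (a + b)) ^ 2 + (D.p j (a - b)) ^ 2 = 2 * ((D.p j a) ^ 2 + (D.p j b) ^ 2)) →
      (1 / 4 : ℝ) ^ j * (D.p j (D.pr (w - y))) ^ 2 ≤ 8 * η) := by
  -- some partial sum is large
  obtain ⟨N, hN⟩ : ∃ N, (2 - 2 * η) ^ 2 < D.Q N (w + y) := by
    by_contra hcon
    push Not at hcon
    have hs : 0 < 2 - 2 * η := by linarith
    have hmem : ((2 - 2 * η : ℝ) : 𝕜)⁻¹ • (w + y) ∈ D.G := by
      intro N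
      rw [Q_smul, norm_inv, RCLike.norm_ofReal, abs_of_pos hs, inv_pow]
      rw [inv_mul_le_iff₀ (by positivity), mul_one]
      exact hcon N
    have h1 := hF _ hmem
    rw [map_smul, norm_smul, norm_inv, RCLike.norm_ofReal, abs_of_pos hs, inv_mul_le_iff₀ hs, mul_one] at h1
    linarith
  obtain ⟨M, hM, hjM⟩ : ∃ M, (2 - 2 * η) ^ 2 < D.Q M (w + y) ∧ j < M :=
    ⟨max N (j+1), hN.trans_le (D.Q_mono (le_max_left _ _) _), by
      have := le_max_right N (j+1); omega⟩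
  have hQw := hw M
  have hQy := hy M
  -- termwise inequalities
  have hterm : ∀ i, 0 ≤ 2 * (D.p i (D.pr w)) ^ 2 + 2 * (D.p i (D.pr y)) ^ 2 - (D.p i (D.pr (w + y))) ^ 2 := by
    intro i
    have h1 : D.p i (D.pr (w + y)) ≤ D.p i (D.pr w) + D.p i (D.pr y) := by
      rw [pr_add]; exact map_add_le_add _ _ _
    have h2 := pow_le_pow_left₀ (apply_nonneg _ _) h1 2
    nlinarith [sq_nonneg (D.p i (D.pr w) - D.p i (D.pr y))]
  have hg : 2 * ‖D.g w‖ ^ 2 + 2 * ‖D.g y‖ ^ 2 - ‖D.g (w + y)‖ ^ 2 = ‖D.g (w - y)‖ ^ 2 := by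
    rw [map_add, map_sub]
    have := parallelogram_law_with_norm 𝕜 (D.g w) (D.g y)
    nlinarith
  have hsum : 2 * D.Q M w + 2 * D.Q M y - D.Q M (w + y) = 16 * ‖D.g (w - y)‖ ^ 2 +
      ∑ i ∈ range M, (1 / 4 : ℝ) ^ i *
        (2 * (D.p i (D.pr w)) ^ 2 + 2 * (D.p i (D.pr y)) ^ 2 - (D.p i (D.pr (w + y))) ^ 2) := by
    rw [← hg]
    unfold Q q
    have : ∑ i ∈ range M, (1 / 4 : ℝ) ^ i *
        (2 * (D.p i (D.pr w)) ^ 2 + 2 * (D.p i (D.pr y)) ^ 2 - (D.p i (D.pr (w + y))) ^ 2)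
        = 2 * ∑ i ∈ range M, (1 / 4 : ℝ) ^ i * (D.p i (D.pr w)) ^ 2
          + 2 * ∑ i ∈ range M, (1 / 4 : ℝ) ^ i * (D.p i (D.pr y)) ^ 2
          - ∑ i ∈ range M, (1 / 4 : ℝ) ^ i * (D.p i (D.pr (w + y))) ^ 2 := by
      rw [Finset.mul_sum, Finset.mul_sum, ← Finset.sum_add_distrib, ← Finset.sum_sub_distrib]
      apply Finset.sum_congr rfl
      intro i _
      ring
    rw [this]
    ring
  have hsmall : 2 * D.Q M w + 2 * D.Q M y - D.Q M (w + y) ≤ 8 * η := by nlinarith [sq_nonneg η]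
  rw [hsum] at hsmall
  have hj : (1 / 4 : ℝ) ^ j *
        (2 * (D.p j (D.pr w)) ^ 2 + 2 * (D.p j (D.pr y)) ^ 2 - (D.p j (D.pr (w + y))) ^ 2) ≤
      ∑ i ∈ range M, (1 / 4 : ℝ) ^ i *
        (2 * (D.p i (D.pr w)) ^ 2 + 2 * (D.p i (D.pr y)) ^ 2 - (D.p i (D.pr (w + y))) ^ 2) :=
    Finset.single_le_sum (f := fun i => (1 / 4 : ℝ) ^ i *
        (2 * (D.p i (D.pr w)) ^ 2 + 2 * (D.p i (D.pr y)) ^ 2 - (D.p i (D.pr (w + y))) ^ 2))
      (fun i _ => mul_nonneg (by positivity) (hterm i)) (Finset.mem_range.2 hjM)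
  have hj0 : 0 ≤ (1 / 4 : ℝ) ^ j *
        (2 * (D.p j (D.pr w)) ^ 2 + 2 * (D.p j (D.pr y)) ^ 2 - (D.p j (D.pr (w + y))) ^ 2) :=
    mul_nonneg (by positivity) (hterm j)
  have h16 : 0 ≤ ‖D.g (w - y)‖ ^ 2 := by positivity
  refine ⟨?_, by linarith, fun hH => ?_⟩
  · have h1 : D.p j (D.pr (w + y)) ≤ D.p j (D.pr w) + D.p j (D.pr y) := by
      rw [pr_add]; exact map_add_le_add _ _ _
    have h2 := pow_le_pow_left₀ (apply_nonneg _ _) h1 2
    have h3 : (D.p j (D.pr w) - D.p j (D.pr y)) ^ 2 ≤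
        2 * (D.p j (D.pr w)) ^ 2 + 2 * (D.p j (D.pr y)) ^ 2 - (D.p j (D.pr (w + y))) ^ 2 := by nlinarith
    have h4 := mul_le_mul_of_nonneg_left h3 (by positivity : (0:ℝ) ≤ (1/4) ^ j)
    linarith
  · have h1 := hH (D.pr w) (D.pr y)
    rw [← pr_add, ← pr_sub] at h1
    have h2 : (D.p j (D.pr (w - y))) ^ 2 =
        2 * (D.p j (D.pr w)) ^ 2 + 2 * (D.p j (D.pr y)) ^ 2 - (D.p j (D.pr (w + y))) ^ 2 := by linarith
    rw [h2]
    linarith

end Dat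

end Pool.Agent.Helper902.Ren
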