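import Mathlib
import Pool.Agent.Helper902.RenG

set_option autoImplicit false
set_option maxSynthPendingDepth 3
set_option linter.unusedSectionVars false

open Filter Topology Finset

namespace Pool.Agent.Helper902.Ren

variable {𝕜 : Type*} [RCLike 𝕜] {X : Type*} [NormedAddCommGroup X] [NormedSpace 𝕜 X]
  [NormedSpace ℝ X] [IsScalarTower ℝ 𝕜 X]

namespace Dat

variable (D : Dat 𝕜 X)

/-- the thin part of the ball -/
def V : Set X := {x | ∃ θ : 𝕜, ‖θ‖ = 1 ∧ ∃ w ∈ D.W, x = θ • (D.z + w)}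

/-- the (not necessarily closed) unit ball of the new norm -/
def B0 : Set X := convexHull ℝ (D.V ∪ D.G)

theorem V_sub : D.V ⊆ D.B0 := fun _ hx => subset_convexHull ℝ _ (Or.inl hx)
theorem G_sub : D.G ⊆ D.B0 := fun _ hx => subset_convexHull ℝ _ (Or.inr hx)

theorem B0_min {K : Set X} (hV : D.V ⊆ K) (hG : D.G ⊆ K) (hK : Convex ℝ K) : D.B0 ⊆ K :=
  convexHull_min (Set.union_subset hV hG) hK

theorem zero_mem_G : (0 : X) ∈ D.G := D.G_small (by simp)
theorem zero_mem : (0 : X) ∈ D.B0 := D.G_sub D.zero_mem_G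

theorem B0_convex : Convex ℝ D.B0 := convex_convexHull ℝ _

theorem convex_preimage_smul (θ : 𝕜) {K : Set X} (hK : Convex ℝ K) : Convex ℝ {x : X | θ • x ∈ K} := by
  intro x hx y hy s t hs ht hst
  have : θ • (s • x + t • y) = s • (θ • x) + t • (θ • y) := by
    rw [smul_add, smul_comm θ s x, smul_comm θ t y]
  change θ • (s • x + t • y) ∈ K
  rw [this]
  exact hK hx hy hs ht hst

theorem B0_rot {θ : 𝕜} (hθ : ‖θ‖ = 1) {x : X} (hx : x ∈ D.B0) : θ • x ∈ D.B0 := by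
  have h : D.B0 ⊆ {x : X | θ • x ∈ D.B0} := by
    refine D.B0_min ?_ ?_ (convex_preimage_smul θ D.B0_convex)
    · rintro x ⟨θ', hθ', w, hw, rfl⟩
      refine D.V_sub ⟨θ * θ', by rw [norm_mul, hθ, hθ', one_mul], w, hw, by rw [mul_smul]⟩
    · intro x hx
      exact D.G_sub (D.G_smul hx hθ.le)
  exact h hx

theorem B0_rsmul {c : ℝ} (h0 : 0 ≤ c) (h1 : c ≤ 1) {x : X} (hx : x ∈ D.B0) : c • x ∈ D.B0 := by
  have := D.B0_convex hx D.zero_mem h0 (by linarith : 0 ≤ 1 - c) (by ring)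
  simpa using this

theorem B0_balanced : Balanced 𝕜 D.B0 := by
  intro a ha x hx
  obtain ⟨y, hy, rfl⟩ := hx
  change a • y ∈ D.B0
  rcases eq_or_ne a 0 with rfl | ha0
  · rw [zero_smul]; exact D.zero_mem
  · have hn : ‖a‖ ≠ 0 := norm_ne_zero_iff.2 ha0
    have h1 : a • y = ‖a‖ • (((‖a‖ : ℝ) : 𝕜)⁻¹ * a) • y := by
      rw [← algebraMap_smul 𝕜 ‖a‖ (_ : X), smul_smul, ← mul_assoc]
      congr 1
      change a = ((‖a‖ : ℝ) : 𝕜) * ((‖a‖ : ℝ) : 𝕜)⁻¹ * a
      rw [mul_inv_cancel₀ (RCLike.ofReal_ne_zero.2 hn), one_mul]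
    rw [h1]
    refine D.B0_rsmul (norm_nonneg _) ha (D.B0_rot ?_ hy)
    rw [norm_mul, norm_inv, RCLike.norm_ofReal, abs_of_nonneg (norm_nonneg _), inv_mul_cancel₀ hn]

theorem B0_nhds : D.B0 ∈ 𝓝 (0 : X) := by
  refine Filter.mem_of_superset (Metric.closedBall_mem_nhds (0 : X) (by norm_num : (0:ℝ) < 1 / 5)) ?_
  intro x hx
  exact D.G_sub (D.G_small (by simpa using hx))

theorem B0_absorbent : Absorbent ℝ D.B0 := absorbent_nhds_zero D.B0_nhds

/-- the new norm -/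
noncomputable def N : Seminorm 𝕜 X := gaugeSeminorm D.B0_balanced D.B0_convex D.B0_absorbent

theorem N_apply (x : X) : D.N x = gauge D.B0 x := rfl

theorem N_le_one {x : X} (hx : x ∈ D.B0) : D.N x ≤ 1 := gauge_le_one_of_mem hx

theorem mem_of_N_lt {x : X} (hx : D.N x < 1) : x ∈ D.B0 := by
  obtain ⟨b, hb0, hb1, hxb⟩ := exists_lt_of_gauge_lt D.B0_absorbent hx
  obtain ⟨y, hy, rfl⟩ := hxb
  exact D.B0_rsmul hb0.le hb1.le hy

theorem N_rsmul (c : ℝ) (x : X) : D.N (c • x) = |c| * D.N x := by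
  rw [← algebraMap_smul 𝕜 c x, map_smul_eq_mul, norm_algebraMap', Real.norm_eq_abs]

/-- anything true on `B0` and stable under scaling is true on the ball -/
theorem smul_mem_of_N_le {x : X} (hx : D.N x ≤ 1) {c : ℝ} (h0 : 0 ≤ c) (h1 : c < 1) : c • x ∈ D.B0 := by
  apply D.mem_of_N_lt
  rw [N_rsmul, abs_of_nonneg h0]
  have := apply_nonneg D.N x
  nlinarith

/-- a real-valued convex-type bound on `B0` extends to the ball -/
theorem seminorm_le (P : Seminorm 𝕜 X) (K : ℝ) (hV : ∀ x ∈ D.V, P x ≤ K) (hG : ∀ x ∈ D.G, P x ≤ K) (x : X) :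
    P x ≤ K * D.N x := by
  have hconv : Convex ℝ {x : X | P x ≤ K} := by
    intro x hx y hy s t hs ht hst
    have h1 : P (s • x) = s * P x := by
      rw [← algebraMap_smul 𝕜 s x, map_smul_eq_mul, norm_algebraMap', Real.norm_of_nonneg hs]
    have h2 : P (t • y) = t * P y := by
      rw [← algebraMap_smul 𝕜 t y, map_smul_eq_mul, norm_algebraMap', Real.norm_of_nonneg ht]
    have h3 := map_add_le_add P (s • x) (t • y)
    rw [h1, h2] at h3
    have h4 := mul_le_mul_of_nonneg_left (show P x ≤ K from hx) hs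
    have h5 := mul_le_mul_of_nonneg_left (show P y ≤ K from hy) ht
    change P (s • x + t • y) ≤ K
    calc P (s • x + t • y) ≤ s * K + t * K := by linarith
      _ = K := by rw [← add_mul, hst, one_mul]
  have hB : D.B0 ⊆ {x : X | P x ≤ K} := D.B0_min hV hG hconv
  have hK : 0 ≤ K := (apply_nonneg P (0:X)).trans (hG 0 D.zero_mem_G)
  -- for every b > N x we have P x ≤ K b
  refine le_of_forall_pos_le_add fun ε hε => ?_
  have hlt : gauge D.B0 x < D.N x + ε / (K + 1) := by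
    rw [← N_apply]; have : 0 < ε / (K + 1) := by positivity
    linarith
  obtain ⟨b, hb0, hb1, hxb⟩ := exists_lt_of_gauge_lt D.B0_absorbent hlt
  obtain ⟨y, hy, rfl⟩ := hxb
  have h1 : P (b • y) = b * P y := by
    rw [← algebraMap_smul 𝕜 b y, map_smul_eq_mul, norm_algebraMap', Real.norm_of_nonneg hb0.le]
  change P (b • y) ≤ K * D.N (b • y) + ε
  rw [h1]
  have h2 : b * P y ≤ b * K := mul_le_mul_of_nonneg_left (hB hy) hb0.le
  have h3 : b * K ≤ (D.N (b • y) + ε / (K + 1)) * K := mul_le_mul_of_nonneg_right hb1.le hK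
  have h4 : ε / (K + 1) * K ≤ ε := by
    rw [div_mul_eq_mul_div, div_le_iff₀ (by positivity)]
    nlinarith
  nlinarith

theorem V_norm {x : X} (hx : x ∈ D.V) : ‖x‖ ≤ 2 := by
  obtain ⟨θ, hθ, w, hw, rfl⟩ := hx
  rw [norm_smul, hθ, one_mul]
  refine (norm_add_le _ _).trans ?_
  rw [D.zn]
  have := D.Wb w hw
  linarith

theorem norm_le (x : X) : ‖x‖ ≤ 2 * D.N x :=
  D.seminorm_le (normSeminorm 𝕜 X) 2 (fun _ hx => D.V_norm hx) (fun _ hx => D.G_norm hx) x

theorem N_le (x : X) : D.N x ≤ 5 * ‖x‖ := by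
  rcases eq_or_ne x 0 with rfl | hx
  · simp
  · have hn : 0 < ‖x‖ := norm_pos_iff.2 hx
    have h1 : (5 * ‖x‖)⁻¹ • x ∈ D.G := by
      apply D.G_small
      rw [norm_smul, norm_inv, Real.norm_of_nonneg (by positivity)]
      rw [mul_inv, mul_assoc, inv_mul_cancel₀ hn.ne']
      norm_num
    have h2 := D.N_le_one (D.G_sub h1)
    rw [N_rsmul, abs_of_nonneg (by positivity), inv_mul_le_iff₀ (by positivity), mul_one] at h2
    exact h2

theorem g_le (x : X) : ‖D.g x‖ ≤ 2 * D.N x := (D.gle x).trans (D.norm_le x)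

/-- elements of `G` have `N ≤ 1`; elements `u` of the kernel -/
theorem N_u : D.N D.u ≤ 5 / 4 * 2048 := by
  have h1 : ((5 / 4 : ℝ) * 2048)⁻¹ • D.u ∈ D.G := by
    intro M
    have h2 := D.q_le M (((5 / 4 : ℝ) * 2048)⁻¹ • D.u)
    unfold Q
    rw [g_rsmul, D.gu, smul_zero, norm_zero]
    rw [pr_rsmul, D.pr_u, norm_smul, D.un, norm_inv, Real.norm_of_nonneg (by norm_num)] at h2
    have h3 : (4:ℝ) / 3 * (((5:ℝ) / 4 * 2048)⁻¹ * 2048) ^ 2 ≤ 1 := by norm_num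
    linarith
  have h2 := D.N_le_one (D.G_sub h1)
  rw [N_rsmul, abs_of_nonneg (by norm_num), inv_mul_le_iff₀ (by norm_num), mul_one] at h2
  exact h2

/-- the operator `T = I + g ⊗ u` -/
noncomputable def T : X →L[𝕜] X := ContinuousLinearMap.id 𝕜 X + D.g.smulRight D.u

theorem T_apply (x : X) : D.T x = x + D.g x • D.u := rfl

theorem g_T (x : X) : D.g (D.T x) = D.g x := by
  rw [T_apply, map_add, map_smul, D.gu, smul_zero, add_zero]

theorem norm_le_T (x : X) : ‖x‖ ≤ 2049 * ‖D.T x‖ := by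
  have h1 : x = D.T x - D.g (D.T x) • D.u := by
    rw [g_T, T_apply]; abel
  calc ‖x‖ = ‖D.T x - D.g (D.T x) • D.u‖ := by rw [← h1]
    _ ≤ ‖D.T x‖ + ‖D.g (D.T x) • D.u‖ := norm_sub_le _ _
    _ ≤ ‖D.T x‖ + ‖D.T x‖ * 2048 := by
        rw [norm_smul, D.un]
        have := D.gle (D.T x)
        nlinarith
    _ = 2049 * ‖D.T x‖ := by ring

theorem pr_W {w : X} (hw : w ∈ D.W) : ‖D.pr w‖ ≤ 1 / 1024 := by
  have := D.norm_pr_le w
  have := D.Wb w hw
  linarith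

/-- lower bound for the norm of `T` -/
theorem N_T_lower {w : X} (hw : w ∈ D.W) : 2046 ≤ D.N (D.T (D.z + w)) := by
  obtain ⟨f, hf1, hf2⟩ := exists_dual_vector'' 𝕜 D.u
  let F : X →L[𝕜] 𝕜 := f.comp (ContinuousLinearMap.id 𝕜 X - D.g.smulRight D.z)
  have hF : ∀ x, F x = f (D.pr x) := fun x => rfl
  have hFn : ∀ x, ‖F x‖ ≤ ‖D.pr x‖ := fun x => by
    rw [hF]
    calc ‖f (D.pr x)‖ ≤ ‖f‖ * ‖D.pr x‖ := f.le_opNorm _
      _ ≤ 1 * ‖D.pr x‖ := mul_le_mul_of_nonneg_right hf1 (norm_nonneg _)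
      _ = _ := one_mul _
  let P : Seminorm 𝕜 X := (normSeminorm 𝕜 𝕜).comp F.toLinearMap
  have hP : ∀ x, P x = ‖F x‖ := fun x => rfl
  have h1 := D.seminorm_le P 1 (by
    rintro x ⟨θ, hθ, w', hw', rfl⟩
    rw [hP]
    refine (hFn _).trans ?_
    rw [pr_smul, pr_add, pr_z, zero_add, norm_smul, hθ, one_mul]
    exact (D.pr_W hw').trans (by norm_num)) (by
    intro x hx
    rw [hP]
    exact (hFn _).trans (D.G_bounds hx).2) (D.T (D.z + w))
  rw [hP, one_mul] at h1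
  refine le_trans ?_ h1
  have h2 : F (D.T (D.z + w)) = f (D.pr w) + (1 + D.g w) * 2048 := by
    rw [hF, T_apply, pr_add, pr_add, pr_z, zero_add, pr_smul, pr_u, map_add, map_smul, hf2, D.un,
      map_add D.g, D.gz, smul_eq_mul]
    have : ((2048 : ℝ) : 𝕜) = 2048 := RCLike.ofReal_ofNat 2048
    rw [this]
  rw [h2]
  have h3 : ‖f (D.pr w)‖ ≤ 1 / 1024 := (hFn w).trans (D.pr_W hw)
  have h4 : ‖D.g w‖ ≤ 1 / 2048 := (D.gle w).trans (D.Wb w hw)
  have h5 : (2048 : ℝ) = ‖(f (D.pr w) + (1 + D.g w) * 2048) - (f (D.pr w) + D.g w * 2048)‖ := by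
    have : (f (D.pr w) + (1 + D.g w) * 2048) - (f (D.pr w) + D.g w * 2048) = (2048 : 𝕜) := by ring
    rw [this]
    norm_num
  have h6 : ‖f (D.pr w) + D.g w * 2048‖ ≤ 1 / 1024 + 1 := by
    refine (norm_add_le _ _).trans ?_
    rw [norm_mul]
    have : ‖(2048 : 𝕜)‖ = 2048 := by norm_num
    rw [this]
    linarith
  have h7 := norm_sub_le (f (D.pr w) + (1 + D.g w) * 2048) (f (D.pr w) + D.g w * 2048)
  rw [← h5] at h7
  linarith

theorem N_T_G {x : X} (hx : x ∈ D.G) : D.N (D.T x) ≤ 641 := by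
  rw [T_apply]
  have h1 := map_add_le_add D.N x (D.g x • D.u)
  rw [map_smul_eq_mul] at h1
  have h2 := D.N_le_one (D.G_sub hx)
  have h3 := (D.G_bounds hx).1
  have h4 := D.N_u
  have h5 : ‖D.g x‖ * D.N D.u ≤ (1/4) * (5 / 4 * 2048) :=
    mul_le_mul h3 h4 (apply_nonneg _ _) (by norm_num)
  linarith

end Dat

end Pool.Agent.Helper902.Ren
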