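import Mathlib
import Pool.Agent.Helper902.RenG
import Pool.Agent.Helper902.RenN

set_option autoImplicit false
set_option maxSynthPendingDepth 3
set_option linter.unusedSectionVars false

open Filter Topology Finset

namespace Pool.Agent.Helper902.Ren

variable {𝕜 : Type*} [RCLike 𝕜] {X : Type*} [NormedAddCommGroup X] [NormedSpace 𝕜 X]
  [NormedSpace ℝ X] [IsScalarTower ℝ 𝕜 X]

namespace Dat

variable (D : Dat 𝕜 X)

theorem mem_closure_B0 {x : X} (hx : D.N x ≤ 1) : x ∈ closure D.B0 := by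
  have h1 : Tendsto (fun n : ℕ => (1 - 1 / ((n : ℝ) + 1)) • x) atTop (𝓝 ((1 - 0 : ℝ) • x)) :=
    (tendsto_const_nhds.sub tendsto_one_div_add_atTop_nhds_zero_nat).smul_const x
  rw [sub_zero, one_smul] at h1
  refine mem_closure_of_tendsto h1 (Eventually.of_forall fun n => ?_)
  have hpos : (0:ℝ) < (n : ℝ) + 1 := by positivity
  refine D.smul_mem_of_N_le hx ?_ ?_
  · rw [sub_nonneg, div_le_one hpos]; linarith [(Nat.cast_nonneg n : (0:ℝ) ≤ n)]
  · have : 0 < 1 / ((n : ℝ) + 1) := by positivity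
    linarith

theorem q_le_one {x : X} (hx : D.N x ≤ 1) (M : ℕ) : D.q M x ≤ 1 := by
  have hconv : Convex ℝ {x : X | D.q M x ≤ 1} := by
    intro x hx y hy s t hs ht hst
    have h1 := D.q_convex M x y hs ht hst
    have h2 := mul_le_mul_of_nonneg_left (show D.q M x ≤ 1 from hx) hs
    have h3 := mul_le_mul_of_nonneg_left (show D.q M y ≤ 1 from hy) ht
    change D.q M (s • x + t • y) ≤ 1
    linarith
  have hB : D.B0 ⊆ {x : X | D.q M x ≤ 1} := by
    refine D.B0_min ?_ ?_ hconv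
    · rintro x ⟨θ, hθ, w, hw, rfl⟩
      change D.q M (θ • (D.z + w)) ≤ 1
      have h1 := D.q_le M (θ • (D.z + w))
      rw [pr_smul, pr_add, pr_z, zero_add, norm_smul, hθ, one_mul] at h1
      have h2 := D.pr_W hw
      have h3 : ‖D.pr w‖ ^ 2 ≤ (1 / 1024) ^ 2 := pow_le_pow_left₀ (norm_nonneg _) h2 2
      linarith
    · intro x hx
      have h1 := hx M
      unfold Q at h1
      change D.q M x ≤ 1
      nlinarith [sq_nonneg ‖D.g x‖]
  have hcl : IsClosed {x : X | D.q M x ≤ 1} := isClosed_le (D.continuous_q M) continuous_const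
  exact closure_minimal hB hcl (D.mem_closure_B0 hx)

/-- real part of a functional composed with an operator is real-affine: half spaces are convex -/
theorem convex_re (L : X →L[𝕜] 𝕜) (m : ℝ) : Convex ℝ {x : X | RCLike.re (L x) ≤ m} := by
  intro x hx y hy s t hs ht hst
  change RCLike.re (L (s • x + t • y)) ≤ m
  have h1 : L (s • x + t • y) = (s : 𝕜) * L x + (t : 𝕜) * L y := by
    rw [map_add, ← algebraMap_smul 𝕜 s x, ← algebraMap_smul 𝕜 t y, map_smul, map_smul]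
    rfl
  rw [h1, map_add, RCLike.re_ofReal_mul, RCLike.re_ofReal_mul]
  have h2 := mul_le_mul_of_nonneg_left (show RCLike.re (L x) ≤ m from hx) hs
  have h3 := mul_le_mul_of_nonneg_left (show RCLike.re (L y) ≤ m from hy) ht
  calc s * RCLike.re (L x) + t * RCLike.re (L y) ≤ s * m + t * m := by linarith
    _ = m := by rw [← add_mul, hst, one_mul]

theorem closed_re (L : X →L[𝕜] 𝕜) (m : ℝ) : IsClosed {x : X | RCLike.re (L x) ≤ m} :=
  isClosed_le (RCLike.continuous_re.comp L.continuous) continuous_const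

section main

variable {ε δ τ : ℝ} {S : X →L[𝕜] X} {b : X} {F : X →L[𝕜] 𝕜}

theorem N_zw {w : X} (hw : w ∈ D.W) : D.N (D.z + w) ≤ 1 :=
  D.N_le_one (D.V_sub ⟨1, norm_one, w, hw, by rw [one_smul]⟩)

theorem tau_ge (hW : D.W.Nonempty) (hδ1 : δ ≤ 1) (hS : ∀ x, D.N (S x - D.T x) ≤ δ * D.N x)
    (hτ : ∀ x, D.N (S x) ≤ τ * D.N x) (_hδ0 : 0 ≤ δ) : 2045 ≤ τ := by
  obtain ⟨w, hw⟩ := hW
  have h1 := D.N_T_lower hw
  have h2 := D.N_zw hw
  have h3 := hS (D.z + w)
  have h4 := hτ (D.z + w)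
  have h5 : D.N (D.T (D.z + w)) ≤ D.N (S (D.z + w)) + D.N (S (D.z + w) - D.T (D.z + w)) := by
    have := map_sub_le_add D.N (S (D.z + w)) (S (D.z + w) - D.T (D.z + w))
    rwa [sub_sub_cancel] at this
  have h6 := apply_nonneg D.N (D.z + w)
  have h7 : δ * D.N (D.z + w) ≤ 1 := by nlinarith
  have h8 : 2045 ≤ τ * D.N (D.z + w) := by linarith
  by_contra hcon
  push Not at hcon
  have : 0 ≤ τ := by
    by_contra h
    push Not at h
    nlinarith
  nlinarith

theorem re_le_N (hF : ∀ x, ‖F x‖ ≤ D.N x) (x : X) : RCLike.re (F x) ≤ D.N x :=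
  (RCLike.re_le_norm _).trans (hF x)

theorem exists_pair (hW : D.W.Nonempty)
    (hdent : ∀ w ∈ D.W, w ∈ closure (convexHull ℝ (D.W \ Metric.ball w ε)))
    (hδ0 : 0 ≤ δ) (hδ1 : δ ≤ 1) (hS : ∀ x, D.N (S x - D.T x) ≤ δ * D.N x)
    (hτ : ∀ x, D.N (S x) ≤ τ * D.N x) (hb : D.N b ≤ 1)
    (hF : ∀ x, ‖F x‖ ≤ D.N x) (hFb : F (S b) = (τ : 𝕜)) (η : ℝ) (hη : 0 < η) :
    ∃ θ : 𝕜, ‖θ‖ = 1 ∧ ∃ w ∈ D.W, ∃ w' ∈ D.W, ε ≤ ‖w - w'‖ ∧
      τ - η ≤ RCLike.re (F (S (θ • (D.z + w)))) ∧ τ - η ≤ RCLike.re (F (S (θ • (D.z + w')))) := by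
  have hτ1 := D.tau_ge hW hδ1 hS hτ hδ0
  have hex : ∃ v ∈ D.V, τ - η / 2 ≤ RCLike.re (F (S v)) := by
    by_contra hcon
    push Not at hcon
    set m := max (τ - η / 2) 642 with hm
    have hmτ : m < τ := max_lt (by linarith) (by linarith)
    have hB : D.B0 ⊆ {x : X | RCLike.re ((F.comp S) x) ≤ m} := by
      refine D.B0_min ?_ ?_ (convex_re _ _)
      · intro v hv
        have hv1 : RCLike.re (F (S v)) ≤ m := (hcon v hv).le.trans (le_max_left _ _)
        exact hv1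
      · intro x hx
        change RCLike.re (F (S x)) ≤ m
        refine le_trans ?_ (le_max_right _ _)
        have h1 := D.re_le_N hF (S x)
        have h2 := D.N_T_G hx
        have h3 := hS x
        have h4 := D.N_le_one (D.G_sub hx)
        have h5 : D.N (S x) ≤ D.N (D.T x) + D.N (S x - D.T x) := by
          have := map_add_le_add D.N (D.T x) (S x - D.T x)
          rwa [add_sub_cancel] at this
        have h6 := apply_nonneg D.N x
        have h7 : δ * D.N x ≤ 1 := by nlinarith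
        linarith
    have h1 : b ∈ {x : X | RCLike.re ((F.comp S) x) ≤ m} :=
      closure_minimal hB (closed_re _ _) (D.mem_closure_B0 hb)
    have h2 : RCLike.re (F (S b)) ≤ m := h1
    rw [hFb, RCLike.ofReal_re] at h2
    linarith
  obtain ⟨v, ⟨θ, hθ, w, hw, rfl⟩, hv⟩ := hex
  have hex2 : ∃ w' ∈ D.W \ Metric.ball w ε, τ - η ≤ RCLike.re (F (S (θ • (D.z + w')))) := by
    by_contra hcon
    push Not at hcon
    -- the half space
    set L : X →L[𝕜] 𝕜 := θ • (F.comp S) with hL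
    have hLx : ∀ y, L y = F (S (θ • y)) := by
      intro y
      rw [hL]
      change θ • F (S y) = _
      rw [map_smul, map_smul]
    have hsub : D.W \ Metric.ball w ε ⊆ {y : X | RCLike.re (L y) ≤ τ - η - RCLike.re (L D.z)} := by
      intro y hy
      have h1 := hcon y hy
      change RCLike.re (L y) ≤ τ - η - RCLike.re (L D.z)
      rw [← hLx, map_add, map_add] at h1
      linarith
    have h2 := closure_minimal (convexHull_min hsub (convex_re _ _)) (closed_re _ _) (hdent w hw)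
    have h3 : RCLike.re (L w) ≤ τ - η - RCLike.re (L D.z) := h2
    rw [← hLx, map_add, map_add] at hv
    linarith
  obtain ⟨w', ⟨hw', hball⟩, hv'⟩ := hex2
  refine ⟨θ, hθ, w, hw, w', hw', ?_, by linarith, hv'⟩
  rw [Metric.mem_ball, not_lt, dist_eq_norm, norm_sub_rev] at hball
  exact hball

variable (hδ0 : 0 ≤ δ) (hδ1 : δ ≤ 1) (hS : ∀ x, D.N (S x - D.T x) ≤ δ * D.N x)
    (hτ : ∀ x, D.N (S x) ≤ τ * D.N x) (hb : D.N b ≤ 1)
    (hF : ∀ x, ‖F x‖ ≤ D.N x) (hFb : F (S b) = (τ : 𝕜)) (hW : D.W.Nonempty)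

include hδ0 hδ1 hS hτ hb hF hFb hW

theorem wi_props : D.N (((τ : 𝕜))⁻¹ • S b) ≤ 1 ∧ F (((τ : 𝕜))⁻¹ • S b) = 1 ∧
    ‖D.g (((τ : 𝕜))⁻¹ • S b)‖ ≤ 1 / 256 := by
  have hτ1 := D.tau_ge hW hδ1 hS hτ hδ0
  have hτ0 : 0 < τ := by linarith
  have hne : (τ : 𝕜) ≠ 0 := RCLike.ofReal_ne_zero.2 hτ0.ne'
  refine ⟨?_, ?_, ?_⟩
  · rw [map_smul_eq_mul, norm_inv, RCLike.norm_ofReal, abs_of_pos hτ0, inv_mul_le_iff₀ hτ0, mul_one]
    refine (hτ b).trans ?_
    nlinarith
  · rw [map_smul, hFb, smul_eq_mul, inv_mul_cancel₀ hne]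
  · rw [map_smul, norm_smul, norm_inv, RCLike.norm_ofReal, abs_of_pos hτ0, inv_mul_le_iff₀ hτ0]
    have h1 : D.g (S b) = D.g b + D.g (S b - D.T b) := by
      rw [map_sub, D.g_T]; ring
    rw [h1]
    refine (norm_add_le _ _).trans ?_
    have h2 := D.g_le b
    have h3 := D.g_le (S b - D.T b)
    have h4 := hS b
    have h5 := apply_nonneg D.N b
    have h6 : δ * D.N b ≤ 1 := by nlinarith
    linarith

theorem F_z_le : ‖F D.z‖ ≤ 1 / 3 := by
  obtain ⟨h1, h2, h3⟩ := D.wi_props hδ0 hδ1 hS hτ hb hF hFb hW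
  generalize ((τ : 𝕜))⁻¹ • S b = wi at h1 h2 h3
  rcases eq_or_ne (F D.z) 0 with h0 | h0
  · rw [h0, norm_zero]; norm_num
  have hn : ‖F D.z‖ ≠ 0 := norm_ne_zero_iff.2 h0
  set θ : 𝕜 := ((‖F D.z‖ : ℝ) : 𝕜) * (F D.z)⁻¹ with hθ
  have hθn : ‖θ‖ = 1 := by
    rw [hθ, norm_mul, norm_inv, RCLike.norm_ofReal, abs_of_nonneg (norm_nonneg _), mul_inv_cancel₀ hn]
  have hθF : θ * F D.z = ((‖F D.z‖ : ℝ) : 𝕜) := by
    rw [hθ, mul_assoc, inv_mul_cancel₀ h0, mul_one]
  have hmem : (255 / 256 : ℝ) • D.pr wi + (1 / 64 : ℝ) • (θ • D.z) ∈ D.G := by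
    intro M
    have hpr : D.pr ((255 / 256 : ℝ) • D.pr wi + (1 / 64 : ℝ) • (θ • D.z)) = (255 / 256 : ℝ) • D.pr wi := by
      rw [pr_add, pr_rsmul, pr_rsmul, pr_smul, pr_z, pr_pr, smul_zero, smul_zero, add_zero]
    have hg : D.g ((255 / 256 : ℝ) • D.pr wi + (1 / 64 : ℝ) • (θ • D.z)) = (1 / 64 : ℝ) • θ := by
      rw [map_add, g_rsmul, g_rsmul, g_pr, smul_zero, zero_add, map_smul, D.gz, smul_eq_mul, mul_one]
    have hq : D.q M ((255 / 256 : ℝ) • D.pr wi + (1 / 64 : ℝ) • (θ • D.z)) = (255/256)^2 * D.q M wi := by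
      unfold q
      rw [hpr, Finset.mul_sum]
      apply Finset.sum_congr rfl
      intro j _
      have : D.p j ((255 / 256 : ℝ) • D.pr wi) = 255 / 256 * D.p j (D.pr wi) := by
        rw [← algebraMap_smul 𝕜 (255/256 : ℝ) (_ : X), map_smul_eq_mul, norm_algebraMap',
          Real.norm_of_nonneg (by norm_num)]
      rw [this]; ring
    unfold Q
    rw [hg, hq, norm_smul, hθn, Real.norm_of_nonneg (by norm_num)]
    have := D.q_le_one h1 M
    have := D.q_nonneg M wi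
    nlinarith
  have h4 := (D.re_le_N hF _).trans (D.N_le_one (D.G_sub hmem))
  have h5 : F ((255 / 256 : ℝ) • D.pr wi + (1 / 64 : ℝ) • (θ • D.z)) =
      ((255 / 256 : ℝ) : 𝕜) * (1 - D.g wi * F D.z) + ((1 / 64 : ℝ) : 𝕜) * ((‖F D.z‖ : ℝ) : 𝕜) := by
    rw [map_add, ← algebraMap_smul 𝕜 (255/256 : ℝ) (_ : X), ← algebraMap_smul 𝕜 (1/64 : ℝ) (_ : X),
      map_smul, map_smul, map_smul, smul_eq_mul, smul_eq_mul, smul_eq_mul, hθF]
    have : F (D.pr wi) = 1 - D.g wi * F D.z := by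
      unfold pr
      rw [map_sub, map_smul, h2, smul_eq_mul]
    rw [this]
  rw [h5, map_add, RCLike.re_ofReal_mul, RCLike.re_ofReal_mul, RCLike.ofReal_re, map_sub, RCLike.one_re] at h4
  have h6 : RCLike.re (D.g wi * F D.z) ≤ 1 / 256 * ‖F D.z‖ := by
    refine (RCLike.re_le_norm _).trans ?_
    rw [norm_mul]
    exact mul_le_mul_of_nonneg_right h3 (norm_nonneg _)
  have h7 := norm_nonneg (F D.z)
  linarith

theorem F_V_le {v : X} (hv : v ∈ D.V) : ‖F v‖ ≤ 1 / 2 := by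
  have h1 := D.F_z_le hδ0 hδ1 hS hτ hb hF hFb hW
  obtain ⟨θ, hθ, w, hw, rfl⟩ := hv
  rw [map_smul, norm_smul, hθ, one_mul, map_add]
  refine (norm_add_le _ _).trans ?_
  have h2 := (hF w).trans (D.N_le w)
  have h3 := D.Wb w hw
  linarith

/-- points of the ball at which `F` is almost `1` are near `G` -/
theorem near_G {x : X} (hx : D.N x ≤ 1) {η : ℝ} (hη : 0 < η) (hη1 : η < 1) (hFx : 1 - η ≤ RCLike.re (F x)) :
    ∃ y ∈ D.G, ‖x - y‖ ≤ 18 * η ∧ 1 - 91 * η ≤ RCLike.re (F y) := by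
  have hmem : (1 - η) • x ∈ D.B0 := D.smul_mem_of_N_le hx (by linarith) (by linarith)
  have hVne : D.V.Nonempty := by
    obtain ⟨w, hw⟩ := hW
    exact ⟨_, 1, norm_one, w, hw, rfl⟩
  unfold B0 at hmem
  rw [convexHull_union hVne ⟨0, D.zero_mem_G⟩, mem_convexJoin] at hmem
  obtain ⟨pp, hp, y, hy, a, c, ha, hc, hac, hsum⟩ := hmem
  rw [D.G_convex.convexHull_eq] at hy
  have hpF : RCLike.re (F pp) ≤ 1 / 2 := by
    have h1 : D.V ⊆ {x : X | RCLike.re (F x) ≤ 1 / 2} := fun v hv =>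
      (RCLike.re_le_norm _).trans (D.F_V_le hδ0 hδ1 hS hτ hb hF hFb hW hv)
    exact convexHull_min h1 (convex_re _ _) hp
  have hpn : ‖pp‖ ≤ 2 := by
    have h1 : D.V ⊆ Metric.closedBall 0 2 := fun v hv => by simpa using D.V_norm hv
    simpa using convexHull_min h1 (convex_closedBall _ _) hp
  have hyF : RCLike.re (F y) ≤ 1 := (D.re_le_N hF y).trans (D.N_le_one (D.G_sub hy))
  have hyn := D.G_norm hy
  have hxn : ‖x‖ ≤ 2 := by linarith [D.norm_le x]
  have hre : (1 - η) * RCLike.re (F x) = a * RCLike.re (F pp) + c * RCLike.re (F y) := by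
    have h1 := congrArg (fun t => RCLike.re (F t)) hsum
    simp only [map_add] at h1
    have e1 : RCLike.re (F ((1 - η) • x)) = (1 - η) * RCLike.re (F x) := by
      rw [← algebraMap_smul 𝕜 (1 - η) x, map_smul]
      exact RCLike.re_ofReal_mul _ _
    have e2 : RCLike.re (F (a • pp)) = a * RCLike.re (F pp) := by
      rw [← algebraMap_smul 𝕜 a pp, map_smul]
      exact RCLike.re_ofReal_mul _ _
    have e3 : RCLike.re (F (c • y)) = c * RCLike.re (F y) := by
      rw [← algebraMap_smul 𝕜 c y, map_smul]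
      exact RCLike.re_ofReal_mul _ _
    rw [e1, e2, e3] at h1
    exact h1.symm
  have ha4 : a ≤ 4 * η := by
    have h1 : (1 - η) * (1 - η) ≤ (1 - η) * RCLike.re (F x) := mul_le_mul_of_nonneg_left hFx (by linarith)
    have h2 : a * RCLike.re (F pp) ≤ a * (1 / 2) := mul_le_mul_of_nonneg_left hpF ha
    have h3 : c * RCLike.re (F y) ≤ c * 1 := mul_le_mul_of_nonneg_left hyF hc
    nlinarith [sq_nonneg η]
  have hdiff : x - y = η • x + a • (pp - y) := by
    have h1 : (1 - η) • x = a • pp + c • y := hsum.symm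
    have h2 : c = 1 - a := by linarith
    rw [h2, sub_smul, sub_smul, one_smul, one_smul] at h1
    rw [smul_sub]
    have h3 : x = η • x + (a • pp + (y - a • y)) := by rw [← h1]; abel
    calc x - y = (η • x + (a • pp + (y - a • y))) - y := by rw [← h3]
      _ = _ := by abel
  have hdn : ‖x - y‖ ≤ 18 * η := by
    rw [hdiff]
    refine (norm_add_le _ _).trans ?_
    rw [norm_smul, norm_smul, Real.norm_of_nonneg hη.le, Real.norm_of_nonneg ha]
    have h1 : ‖pp - y‖ ≤ 4 := (norm_sub_le _ _).trans (by linarith)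
    have h2 : a * ‖pp - y‖ ≤ (4 * η) * 4 := mul_le_mul ha4 h1 (norm_nonneg _) (by linarith)
    nlinarith
  refine ⟨y, hy, hdn, ?_⟩
  have h1 : RCLike.re (F (x - y)) ≤ 5 * (18 * η) :=
    (D.re_le_N hF _).trans ((D.N_le _).trans (by linarith))
  rw [map_sub, map_sub] at h1
  linarith

theorem wi_mem_G : ((τ : 𝕜))⁻¹ • S b ∈ D.G := by
  obtain ⟨h1, h2, -⟩ := D.wi_props hδ0 hδ1 hS hτ hb hF hFb hW
  rw [← D.G_closed.closure_eq, Metric.mem_closure_iff]
  intro r hr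
  obtain ⟨y, hy, hd, -⟩ := D.near_G hδ0 hδ1 hS hτ hb hF hFb hW h1 (η := min (r / 36) (1/2)) (by positivity)
    (lt_of_le_of_lt (min_le_right _ _) (by norm_num)) (by
      rw [h2, RCLike.one_re]
      have : 0 < min (r / 36) (1/2) := by positivity
      linarith)
  refine ⟨y, hy, ?_⟩
  rw [dist_eq_norm]
  have := min_le_left (r / 36) (1/2)
  linarith

/-- maximising sequences -/
theorem max_seq (x : ℕ → X) (hx : ∀ n, D.N (x n) ≤ 1)
    (hFx : ∀ n : ℕ, 1 - 1 / (1000 * ((n : ℝ) + 1)) ≤ RCLike.re (F (x n))) (j : ℕ) :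
    Tendsto (fun n => D.p j (D.pr (x n))) atTop (𝓝 (D.p j (D.pr (((τ : 𝕜))⁻¹ • S b)))) ∧
    Tendsto (fun n => D.g (x n)) atTop (𝓝 (D.g (((τ : 𝕜))⁻¹ • S b))) ∧
    ((∀ a b : X, (D.p j (a + b)) ^ 2 + (D.p j (a - b)) ^ 2 = 2 * ((D.p j a) ^ 2 + (D.p j b) ^ 2)) →
      Tendsto (fun n => D.p j (D.pr (x n - ((τ : 𝕜))⁻¹ • S b))) atTop (𝓝 0)) := by
  obtain ⟨h1, h2, -⟩ := D.wi_props hδ0 hδ1 hS hτ hb hF hFb hW
  have hwG := D.wi_mem_G hδ0 hδ1 hS hτ hb hF hFb hW
  set wi := ((τ : 𝕜))⁻¹ • S b with hwi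
  set η : ℕ → ℝ := fun n => 1 / (1000 * ((n : ℝ) + 1)) with hη
  have hη0 : ∀ n, 0 < η n := fun n => by positivity
  have hη1 : ∀ n, η n ≤ 1 / 1000 := fun n => by
    simp only [hη]
    apply div_le_div_of_nonneg_left (by norm_num) (by norm_num)
    have : (0:ℝ) ≤ n := Nat.cast_nonneg n
    linarith
  have hηlim : Tendsto η atTop (𝓝 0) := by
    have := (tendsto_one_div_add_atTop_nhds_zero_nat (𝕜 := ℝ)).const_mul (1/1000)
    rw [mul_zero] at this
    refine this.congr fun n => ?_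
    simp only [hη]
    field_simp
  have hex : ∀ n, ∃ y ∈ D.G, ‖x n - y‖ ≤ 18 * η n ∧ 1 - 91 * η n ≤ RCLike.re (F y) := fun n =>
    D.near_G hδ0 hδ1 hS hτ hb hF hFb hW (hx n) (hη0 n) (lt_of_le_of_lt (hη1 n) (by norm_num)) (hFx n)
  choose y hyG hyd hyF using hex
  have hkey := fun n => D.G_key F (fun x hx => (hF x).trans (D.N_le_one (D.G_sub hx))) hwG (hyG n)
    (η := 91 * η n) (by have := hη0 n; positivity) (by linarith [hη1 n]) (by
      have h3 : RCLike.re (F (wi + y n)) = 1 + RCLike.re (F (y n)) := by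
        rw [map_add, map_add, h2, RCLike.one_re]
      have h4 := RCLike.re_le_norm (F (wi + y n))
      rw [h3] at h4
      linarith [hyF n]) j
  have hlim18 : Tendsto (fun n => 36 * η n) atTop (𝓝 0) := by
    have := hηlim.const_mul 36; rwa [mul_zero] at this
  have hlim728 : Tendsto (fun n => 8 * (91 * η n)) atTop (𝓝 0) := by
    have := (hηlim.const_mul 91).const_mul 8; simpa using this
  have h4j : (0:ℝ) < (1/4) ^ j := by positivity
  have hlimj : Tendsto (fun n => Real.sqrt (((1 / 4 : ℝ) ^ j)⁻¹ * (8 * (91 * η n)))) atTop (𝓝 0) := by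
    have := (hlim728.const_mul (((1 / 4 : ℝ) ^ j)⁻¹)).sqrt
    simpa using this
  have hprd : ∀ n, ‖D.pr (x n - y n)‖ ≤ 36 * η n := fun n => by
    have := D.norm_pr_le (x n - y n)
    linarith [hyd n]
  have hl1 : Tendsto (fun n => 36 * η n + Real.sqrt (((1 / 4 : ℝ) ^ j)⁻¹ * (8 * (91 * η n)))) atTop (𝓝 0) := by
    have := hlim18.add hlimj
    rwa [add_zero] at this
  refine ⟨?_, ?_, fun hH => ?_⟩
  · rw [tendsto_iff_dist_tendsto_zero]
    refine squeeze_zero (fun _ => dist_nonneg) (fun n => ?_) hl1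
    rw [Real.dist_eq]
    have e1 : |D.p j (D.pr (x n)) - D.p j (D.pr (y n))| ≤ 36 * η n := by
      have h5 := abs_sub_map_le_sub (D.p j) (D.pr (x n)) (D.pr (y n))
      rw [← pr_sub] at h5
      exact h5.trans ((D.ple j _).trans (hprd n))
    have e2 : |D.p j (D.pr (y n)) - D.p j (D.pr wi)| ≤ Real.sqrt (((1 / 4 : ℝ) ^ j)⁻¹ * (8 * (91 * η n))) := by
      apply Real.abs_le_sqrt
      rw [← div_eq_inv_mul, le_div_iff₀ h4j]
      have := (hkey n).1
      nlinarith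
    calc |D.p j (D.pr (x n)) - D.p j (D.pr wi)|
        ≤ |D.p j (D.pr (x n)) - D.p j (D.pr (y n))| + |D.p j (D.pr (y n)) - D.p j (D.pr wi)| := abs_sub_le _ _ _
      _ ≤ _ := add_le_add e1 e2
  · rw [tendsto_iff_dist_tendsto_zero]
    have hl : Tendsto (fun n => 36 * η n + Real.sqrt (8 * (91 * η n))) atTop (𝓝 0) := by
      have := hlim18.add hlim728.sqrt
      simpa using this
    refine squeeze_zero (fun _ => dist_nonneg) (fun n => ?_) hl
    rw [dist_eq_norm]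
    have e1 : ‖D.g (x n) - D.g (y n)‖ ≤ 36 * η n := by
      rw [← map_sub]
      have := D.gle (x n - y n)
      have := hη0 n
      linarith [hyd n]
    have e2 : ‖D.g (y n) - D.g wi‖ ≤ Real.sqrt (8 * (91 * η n)) := by
      rw [← map_sub]
      apply Real.le_sqrt_of_sq_le
      have h5 := (hkey n).2.1
      have h6 : ‖D.g (y n - wi)‖ = ‖D.g (wi - y n)‖ := by
        rw [← norm_neg, ← map_neg, neg_sub]
      rw [h6]
      exact h5
    calc ‖D.g (x n) - D.g wi‖ ≤ ‖D.g (x n) - D.g (y n)‖ + ‖D.g (y n) - D.g wi‖ := norm_sub_le_norm_sub_add_norm_sub _ _ _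
      _ ≤ _ := add_le_add e1 e2
  · refine squeeze_zero (fun _ => apply_nonneg _ _) (fun n => ?_) hl1
    have e1 : D.p j (D.pr (x n - y n)) ≤ 36 * η n := (D.ple j _).trans (hprd n)
    have e2 : D.p j (D.pr (y n - wi)) ≤ Real.sqrt (((1 / 4 : ℝ) ^ j)⁻¹ * (8 * (91 * η n))) := by
      apply Real.le_sqrt_of_sq_le
      rw [← div_eq_inv_mul, le_div_iff₀ h4j]
      have h5 := (hkey n).2.2 hH
      have h6 : D.p j (D.pr (y n - wi)) = D.p j (D.pr (wi - y n)) := by
        rw [pr_sub, pr_sub, map_sub_rev]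
      rw [h6]
      linarith
    have e3 : D.pr (x n - wi) = D.pr (x n - y n) + D.pr (y n - wi) := by
      rw [← pr_add, sub_add_sub_cancel]
    rw [e3]
    exact (map_add_le_add _ _ _).trans (add_le_add e1 e2)

theorem no_NA (_hε : 0 < ε) (hδp : 0 < δ) (hδε : 200000 * δ < ε)
    (hdent : ∀ w ∈ D.W, w ∈ closure (convexHull ℝ (D.W \ Metric.ball w ε)))
    (hC : ∀ (w : X) (x x' : ℕ → X) (κ : ℝ), 0 < κ →
        (∀ j, Tendsto (fun n => D.p j (x n)) atTop (𝓝 (D.p j w))) →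
        (∀ j, Tendsto (fun n => D.p j (x' n)) atTop (𝓝 (D.p j w))) →
        (∀ j, (∀ a b : X, (D.p j (a + b)) ^ 2 + (D.p j (a - b)) ^ 2 = 2 * ((D.p j a) ^ 2 + (D.p j b) ^ 2)) →
          Tendsto (fun n => D.p j (x n - x' n)) atTop (𝓝 0)) →
        (∀ n, ∃ a ∈ Submodule.span 𝕜 (insert D.u (D.pr '' D.W)), ‖x n - a‖ ≤ κ) →
        ∃ᶠ n in atTop, ‖x n - x' n‖ ≤ 20 * κ) : False := by
  have hτ1 := D.tau_ge hW hδ1 hS hτ hδ0
  have hτ0 : 0 < τ := by linarith
  have hne : (τ : 𝕜) ≠ 0 := RCLike.ofReal_ne_zero.2 hτ0.ne'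
  choose θ hθ w hw w' hw' hww hF1 hF2 using fun n : ℕ =>
    D.exists_pair hW hdent hδ0 hδ1 hS hτ hb hF hFb (τ * (1 / (1000 * ((n : ℝ) + 1)))) (by positivity)
  set x : ℕ → X := fun n => ((τ : 𝕜))⁻¹ • S (θ n • (D.z + w n)) with hx
  set x' : ℕ → X := fun n => ((τ : 𝕜))⁻¹ • S (θ n • (D.z + w' n)) with hx'
  have hNθ : ∀ n (v : X), D.N (θ n • v) = D.N v := fun n v => by rw [map_smul_eq_mul, hθ, one_mul]
  have hN : ∀ (n : ℕ) (v : X), v ∈ D.W → D.N (((τ : 𝕜))⁻¹ • S (θ n • (D.z + v))) ≤ 1 := by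
    intro n v hv
    rw [map_smul_eq_mul, norm_inv, RCLike.norm_ofReal, abs_of_pos hτ0, inv_mul_le_iff₀ hτ0, mul_one]
    refine (hτ _).trans ?_
    rw [hNθ]
    have := D.N_zw hv
    nlinarith
  have hre : ∀ (n : ℕ) (v : X), τ - τ * (1 / (1000 * ((n : ℝ) + 1))) ≤ RCLike.re (F (S (θ n • (D.z + v)))) →
      1 - 1 / (1000 * ((n : ℝ) + 1)) ≤ RCLike.re (F (((τ : 𝕜))⁻¹ • S (θ n • (D.z + v)))) := by
    intro n v hv
    rw [map_smul, smul_eq_mul, ← RCLike.ofReal_inv, RCLike.re_ofReal_mul]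
    rw [inv_mul_eq_div, le_div_iff₀ hτ0]
    linarith
  have m1 := fun j => D.max_seq hδ0 hδ1 hS hτ hb hF hFb hW x (fun n => hN n _ (hw n)) (fun n => hre n _ (hF1 n)) j
  have m2 := fun j => D.max_seq hδ0 hδ1 hS hτ hb hF hFb hW x' (fun n => hN n _ (hw' n)) (fun n => hre n _ (hF2 n)) j
  set wi := ((τ : 𝕜))⁻¹ • S b with hwi
  have hfreq := hC (D.pr wi) (fun n => D.pr (x n)) (fun n => D.pr (x' n)) (4 * δ / τ) (by positivity)
    (fun j => (m1 j).1) (fun j => (m2 j).1) (fun j hH => by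
      have h1 := (m1 j).2.2 hH
      have h2 := (m2 j).2.2 hH
      refine squeeze_zero (fun _ => apply_nonneg _ _) (fun n => ?_) (by simpa using h1.add h2)
      have e1 : D.pr (x n) - D.pr (x' n) = D.pr (x n - wi) - D.pr (x' n - wi) := by
        rw [← pr_sub, ← pr_sub]; congr 1; abel
      rw [e1]
      exact map_sub_le_add _ _ _) (fun n => by
      refine ⟨((τ : 𝕜))⁻¹ • D.pr (D.T (θ n • (D.z + w n))), ?_, ?_⟩
      · apply Submodule.smul_mem
        rw [T_apply, pr_add, pr_smul, pr_smul, pr_add, pr_z, zero_add, pr_u]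
        apply Submodule.add_mem
        · exact Submodule.smul_mem _ _ (Submodule.subset_span (Or.inr ⟨w n, hw n, rfl⟩))
        · exact Submodule.smul_mem _ _ (Submodule.subset_span (Or.inl rfl))
      · have e1 : D.pr (x n) - ((τ : 𝕜))⁻¹ • D.pr (D.T (θ n • (D.z + w n)))
            = ((τ : 𝕜))⁻¹ • D.pr (S (θ n • (D.z + w n)) - D.T (θ n • (D.z + w n))) := by
          rw [hx]
          simp only
          rw [pr_smul, pr_sub, smul_sub]
        rw [e1, norm_smul, norm_inv, RCLike.norm_ofReal, abs_of_pos hτ0, inv_mul_eq_div]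
        apply div_le_div_of_nonneg_right _ hτ0.le
        have h1 := D.norm_pr_le (S (θ n • (D.z + w n)) - D.T (θ n • (D.z + w n)))
        have h2 := D.norm_le (S (θ n • (D.z + w n)) - D.T (θ n • (D.z + w n)))
        have h3 := hS (θ n • (D.z + w n))
        rw [hNθ] at h3
        have h4 := D.N_zw (hw n)
        have h5 : δ * D.N (D.z + w n) ≤ δ := by nlinarith
        linarith)
  have hgl : Tendsto (fun n => ‖D.g (x n) - D.g (x' n)‖) atTop (𝓝 0) := by
    have := ((m1 0).2.1.sub (m2 0).2.1).norm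
    simpa using this
  have hev := hgl.eventually_lt_const (show 0 < δ / τ by positivity)
  obtain ⟨n, hn1, hn2⟩ := (hfreq.and_eventually hev).exists
  have hxx : ‖x n - x' n‖ ≤ 81 * δ / τ := by
    have h1 := D.norm_le_pr (x n - x' n)
    rw [map_sub, pr_sub] at h1
    have h2 : 81 * δ / τ = δ / τ + 20 * (4 * δ / τ) := by ring
    linarith
  have e2 : x n - x' n = ((τ : 𝕜))⁻¹ • S (θ n • (w n - w' n)) := by
    simp only [hx, hx']
    rw [← smul_sub, ← map_sub, ← smul_sub]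
    congr 3
    abel_nf
  rw [e2, norm_smul, norm_inv, RCLike.norm_ofReal, abs_of_pos hτ0, inv_mul_eq_div,
    div_le_div_iff_of_pos_right hτ0] at hxx
  have h3 := D.norm_le_T (θ n • (w n - w' n))
  rw [norm_smul, hθ, one_mul] at h3
  have h4 : ‖D.T (θ n • (w n - w' n))‖ ≤ ‖S (θ n • (w n - w' n))‖ + ‖S (θ n • (w n - w' n)) - D.T (θ n • (w n - w' n))‖ := by
    have := norm_sub_le (S (θ n • (w n - w' n))) (S (θ n • (w n - w' n)) - D.T (θ n • (w n - w' n)))
    rwa [sub_sub_cancel] at this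
  have h5 := D.norm_le (S (θ n • (w n - w' n)) - D.T (θ n • (w n - w' n)))
  have h6 := hS (θ n • (w n - w' n))
  rw [hNθ] at h6
  have h7 := D.N_le (w n - w' n)
  have h8 : ‖w n - w' n‖ ≤ 1 / 1024 := by
    refine (norm_sub_le _ _).trans ?_
    linarith [D.Wb _ (hw n), D.Wb _ (hw' n)]
  have h9 : δ * D.N (w n - w' n) ≤ δ * (5 / 1024) := mul_le_mul_of_nonneg_left (by linarith) hδ0
  have h10 := hww n
  linarith

end main

end Dat

end Pool.Agent.Helper902.Ren
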