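import Mathlib
import Pool.Agent.Helper902.SlBR

set_option autoImplicit false

open Filter Topology

namespace Pool.Agent.Helper902.Sl

variable {X : Type*} [NormedAddCommGroup X] [NormedSpace ℝ X]

/-- points of `C` where `f` is within `α` of its supremum -/
def S (C : Set X) (f : X →L[ℝ] ℝ) (α : ℝ) : Set X := {x | x ∈ C ∧ ∀ c ∈ C, f c ≤ f x + α}

theorem S_mono (C : Set X) (f : X →L[ℝ] ℝ) {α β : ℝ} (h : α ≤ β) : S C f α ⊆ S C f β :=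
  fun _ hx => ⟨hx.1, fun c hc => (hx.2 c hc).trans (by linarith)⟩

theorem exists_near_max (A : Set X) (hA : A.Nonempty) (f : X → ℝ) (K : ℝ) (hK : ∀ a ∈ A, f a ≤ K)
    {α : ℝ} (hα : 0 < α) : ∃ a ∈ A, ∀ b ∈ A, f b ≤ f a + α := by
  have hbdd : BddAbove (f '' A) := ⟨K, by rintro _ ⟨a, ha, rfl⟩; exact hK a ha⟩
  obtain ⟨_, ⟨a, ha, rfl⟩, h2⟩ := exists_lt_of_lt_csSup (hA.image f)
    (show sSup (f '' A) - α < sSup (f '' A) by linarith)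
  refine ⟨a, ha, fun b hb => ?_⟩
  have := le_csSup hbdd (Set.mem_image_of_mem f hb)
  linarith

theorem abs_apply_le (f : X →L[ℝ] ℝ) {x : X} {M : ℝ} (hx : ‖x‖ ≤ M) : |f x| ≤ ‖f‖ * M := by
  have h1 := f.le_opNorm x
  rw [Real.norm_eq_abs] at h1
  exact h1.trans (mul_le_mul_of_nonneg_left hx (norm_nonneg _))

theorem S_nonempty (C : Set X) (hne : C.Nonempty) (M : ℝ) (hM : ∀ x ∈ C, ‖x‖ ≤ M) (f : X →L[ℝ] ℝ)
    {α : ℝ} (hα : 0 < α) : (S C f α).Nonempty := by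
  obtain ⟨a, ha, h⟩ := exists_near_max C hne f (‖f‖ * M)
    (fun a ha => (le_abs_self _).trans (abs_apply_le f (hM a ha))) hα
  exact ⟨a, ha, h⟩

theorem exists_small_osc (C : Set X) (hne : C.Nonempty) (M : ℝ) (hM : ∀ x ∈ C, ‖x‖ ≤ M)
    (f₁ : X →L[ℝ] ℝ) {α₁ : ℝ} (hα₁ : 0 < α₁) (h₀ : X →L[ℝ] ℝ) {κ : ℝ} (hκ : 0 < κ) :
    ∃ f₂ : X →L[ℝ] ℝ, ∃ α₂ : ℝ, 0 < α₂ ∧ S C f₂ α₂ ⊆ S C f₁ α₁ ∧
      ∀ x ∈ S C f₂ α₂, ∀ y ∈ S C f₂ α₂, |h₀ x - h₀ y| ≤ κ := by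
  have hM0 : 0 ≤ M := by
    obtain ⟨x, hx⟩ := hne
    exact (norm_nonneg x).trans (hM x hx)
  set M' : ℝ := ‖h₀‖ * M + 1 with hM'
  have hM'0 : 0 < M' := by positivity
  have hb : ∀ x ∈ C, |h₀ x| ≤ M' := fun x hx => (abs_apply_le h₀ (hM x hx)).trans (by linarith)
  set T : Set ℝ := {s | ∃ b : ℝ, 0 < b ∧ ∀ x ∈ S C f₁ b, h₀ x ≤ s} with hT
  have hTne : T.Nonempty := ⟨M', 1, one_pos, fun x hx => (le_abs_self _).trans (hb x hx.1)⟩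
  have hTb : BddBelow T := by
    refine ⟨-M', ?_⟩
    rintro s ⟨b, hb0, hs⟩
    obtain ⟨x, hx⟩ := S_nonempty C hne M hM f₁ hb0
    have h1 := hs x hx
    have h2 := (abs_le.1 (hb x hx.1)).1
    linarith
  set s₀ := sInf T with hs₀
  obtain ⟨s₁, ⟨b₁, hb₁, hs₁⟩, hs₁'⟩ := exists_lt_of_csInf_lt hTne (show sInf T < s₀ + κ / 2 by linarith)
  have hlow : ∀ b : ℝ, 0 < b → ∃ x ∈ S C f₁ b, s₀ - κ / 8 < h₀ x := by
    intro b hb0
    by_contra hcon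
    push Not at hcon
    have : s₀ - κ / 8 ∈ T := ⟨b, hb0, hcon⟩
    have := csInf_le hTb this
    linarith
  set b := min b₁ α₁ with hbdef
  have hbp : 0 < b := lt_min hb₁ hα₁
  set τ := b / (4 * M') with hτ
  have hτ0 : 0 < τ := by positivity
  have hτM : τ * (2 * M') = b / 2 := by rw [hτ]; field_simp; norm_num
  set α₂ := min (b / 2) (τ * κ / 8) with hα₂
  have hα₂0 : 0 < α₂ := by positivity
  have hsub : S C (f₁ + τ • h₀) α₂ ⊆ S C f₁ b := by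
    intro y hy
    refine ⟨hy.1, fun c hc => ?_⟩
    have h1 := hy.2 c hc
    simp only [add_apply, smul_apply, smul_eq_mul] at h1
    have h2 := abs_le.1 (hb c hc)
    have h3 := abs_le.1 (hb y hy.1)
    have h4 : τ * (h₀ y - h₀ c) ≤ τ * (2 * M') := mul_le_mul_of_nonneg_left (by linarith) hτ0.le
    have h5 := min_le_left (b / 2) (τ * κ / 8)
    nlinarith
  obtain ⟨x, hx, hxs⟩ := hlow (τ * κ / 8) (by positivity)
  have hval : ∀ y ∈ S C (f₁ + τ • h₀) α₂, s₀ - 3 * κ / 8 ≤ h₀ y ∧ h₀ y ≤ s₀ + κ / 2 := by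
    intro y hy
    constructor
    · have h1 := hy.2 x hx.1
      simp only [add_apply, smul_apply, smul_eq_mul] at h1
      have h2 := hx.2 y hy.1
      have h3 := min_le_right (b / 2) (τ * κ / 8)
      have h4 : τ * h₀ x ≤ τ * (h₀ y + κ / 4) := by nlinarith
      have h5 := le_of_mul_le_mul_left h4 hτ0
      linarith
    · have h1 := hs₁ y (S_mono C f₁ (min_le_left _ _) (hsub hy))
      linarith
  refine ⟨f₁ + τ • h₀, α₂, hα₂0, hsub.trans (S_mono C f₁ (min_le_right _ _)), ?_⟩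
  intro x hx y hy
  obtain ⟨h1, h2⟩ := hval x hx
  obtain ⟨h3, h4⟩ := hval y hy
  rw [abs_le]
  constructor <;> linarith

/-- the part of `C` visible from functionals near `f` -/
def Vis (C : Set X) (f : X →L[ℝ] ℝ) (r : ℝ) : Set X :=
  {x | x ∈ C ∧ ∃ g : X →L[ℝ] ℝ, ‖g - f‖ < r ∧ ∀ c ∈ C, g c ≤ g x}

theorem Vis_sub (C : Set X) (M : ℝ) (hM : ∀ x ∈ C, ‖x‖ ≤ M) (f : X →L[ℝ] ℝ) {r α : ℝ} (h : 2 * r * M ≤ α) :
    Vis C f r ⊆ S C f α := by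
  rintro x ⟨hx, g, hg, hmax⟩
  refine ⟨hx, fun c hc => ?_⟩
  have h1 := hmax c hc
  have h2 : ‖c - x‖ ≤ 2 * M := by
    refine (norm_sub_le _ _).trans ?_
    linarith [hM c hc, hM x hx]
  have h3 := abs_le.1 (abs_apply_le (g - f) h2)
  have hM0 : 0 ≤ M := (norm_nonneg x).trans (hM x hx)
  have h4 : ‖g - f‖ * (2 * M) ≤ r * (2 * M) := mul_le_mul_of_nonneg_right hg.le (by linarith)
  have h5 : (g - f) (c - x) = (g c - g x) - (f c - f x) := by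
    simp only [sub_apply, map_sub]; ring
  rw [h5] at h3
  linarith [h3.1]

variable [CompleteSpace X]

theorem Vis_nonempty (C : Set X) (hcl : IsClosed C) (hcv : Convex ℝ C) (hne : C.Nonempty) (M : ℝ)
    (hM : ∀ x ∈ C, ‖x‖ ≤ M) (f : X →L[ℝ] ℝ) {r : ℝ} (hr : 0 < r) : (Vis C f r).Nonempty := by
  obtain ⟨x, hx⟩ := hne
  obtain ⟨Φ, y, hy, h1, -, h2⟩ := brondsted_rockafellar C hcl hcv f x hx (‖f‖ * M - f x)
    (fun z hz => by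
      have := (le_abs_self _).trans (abs_apply_le f (hM z hz))
      linarith) (r / 2) (by positivity)
  exact ⟨y, hy, Φ, by linarith, h2⟩

/-- all slices of the visible part are large -/
theorem Vis_slices (C : Set X) (hcl : IsClosed C) (hcv : Convex ℝ C) (hne : C.Nonempty) (M : ℝ)
    (hM : ∀ x ∈ C, ‖x‖ ≤ M) (f : X →L[ℝ] ℝ) {r : ℝ} (hr : 0 < r) (ρ : ℝ)
    (hρ : ∀ (g : X →L[ℝ] ℝ) (α κ : ℝ), 0 < α → 0 < κ → ∃ x ∈ S C g α, ∃ y ∈ S C g α, ρ - κ < ‖x - y‖)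
    (k : X →L[ℝ] ℝ) {α κ : ℝ} (hα : 0 < α) (hκ : 0 < κ) :
    ∃ x ∈ Vis C f r, ∃ y ∈ Vis C f r, (∀ v ∈ Vis C f r, k v ≤ k x + α) ∧
      (∀ v ∈ Vis C f r, k v ≤ k y + α) ∧ ρ - κ < ‖x - y‖ := by
  obtain ⟨x₀, ⟨hx₀C, g₀, hg₀, hmax₀⟩, hx₀⟩ := exists_near_max (Vis C f r)
    (Vis_nonempty C hcl hcv hne M hM f hr) k (‖k‖ * M)
    (fun a ha => (le_abs_self _).trans (abs_apply_le k (hM a ha.1))) (show 0 < α / 3 by positivity)
  set t := r - ‖g₀ - f‖ with ht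
  have ht0 : 0 < t := by linarith
  have hk1 : 0 < ‖k‖ + 1 := by positivity
  set τ := t / (2 * (‖k‖ + 1)) with hτ
  have hτ0 : 0 < τ := by positivity
  have hτk : τ * ‖k‖ ≤ t / 2 := by
    have h1 : τ * (‖k‖ + 1) = t / 2 := by rw [hτ]; field_simp
    nlinarith
  set g' := g₀ + τ • k with hg'
  have hg'f : ‖g' - f‖ ≤ r - t / 2 := by
    have h1 : g' - f = (g₀ - f) + τ • k := by rw [hg']; abel
    rw [h1]
    refine (norm_add_le _ _).trans ?_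
    rw [norm_smul, Real.norm_of_nonneg hτ0.le]
    linarith
  set m := min (α / (3 * (‖k‖ + 1))) (κ / 4) with hm
  have hm0 : 0 < m := by positivity
  set β := min (τ * α / 3) (t / 4 * m) with hβ
  have hβ0 : 0 < β := by positivity
  obtain ⟨x₁, hx₁, y₁, hy₁, hxy⟩ := hρ g' β (κ / 2) hβ0 (by positivity)
  have key : ∀ x₁ ∈ S C g' β, ∃ x₂ ∈ Vis C f r, ‖x₂ - x₁‖ ≤ κ / 4 ∧ ∀ v ∈ Vis C f r, k v ≤ k x₂ + α := by
    intro x₁ hx₁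
    obtain ⟨Φ, x₂, hx₂, h1, h2, h3⟩ := brondsted_rockafellar C hcl hcv g' x₁ hx₁.1 β hx₁.2 (t / 4) (by positivity)
    have h4 : ‖x₂ - x₁‖ ≤ m := by
      have h5 : t / 4 * ‖x₂ - x₁‖ ≤ t / 4 * m := h2.trans (min_le_right _ _)
      exact le_of_mul_le_mul_left h5 (by positivity)
    have h6 : ‖Φ - f‖ < r := by
      have h7 : Φ - f = (Φ - g') + (g' - f) := by abel
      rw [h7]
      refine (norm_add_le _ _).trans_lt ?_
      linarith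
    refine ⟨x₂, ⟨hx₂, Φ, h6, h3⟩, h4.trans (min_le_right _ _), fun v hv => ?_⟩
    have h8 := hx₀ v hv
    have h9 := hx₁.2 x₀ hx₀C
    have h10 := hmax₀ x₁ hx₁.1
    simp only [hg', add_apply, smul_apply, smul_eq_mul] at h9
    have h11 : τ * k x₀ ≤ τ * (k x₁ + α / 3) := by
      have := min_le_left (τ * α / 3) (t / 4 * m)
      nlinarith
    have h12 := le_of_mul_le_mul_left h11 hτ0
    have h13 := abs_le.1 (abs_apply_le k h4)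
    rw [map_sub] at h13
    have h14 : ‖k‖ * m ≤ α / 3 := by
      have h15 : (‖k‖ + 1) * m ≤ (‖k‖ + 1) * (α / (3 * (‖k‖ + 1))) :=
        mul_le_mul_of_nonneg_left (min_le_left _ _) hk1.le
      have h16 : (‖k‖ + 1) * (α / (3 * (‖k‖ + 1))) = α / 3 := by field_simp
      nlinarith
    linarith [h13.1]
  obtain ⟨x₂, hx₂, hx₂n, hx₂m⟩ := key x₁ hx₁
  obtain ⟨y₂, hy₂, hy₂n, hy₂m⟩ := key y₁ hy₁
  refine ⟨x₂, hx₂, y₂, hy₂, hx₂m, hy₂m, ?_⟩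
  have h1 : x₁ - y₁ = (x₂ - y₂) - (x₂ - x₁) + (y₂ - y₁) := by abel
  have h2 : ‖x₁ - y₁‖ ≤ ‖x₂ - y₂‖ + ‖x₂ - x₁‖ + ‖y₂ - y₁‖ := by
    rw [h1]
    refine (norm_add_le _ _).trans ?_
    have := norm_sub_le (x₂ - y₂) (x₂ - x₁)
    linarith
  linarith

/-- **Homogeneous nondentable sets.** -/
theorem exists_homogeneous (C : Set X) (hcl : IsClosed C) (hcv : Convex ℝ C) (hne : C.Nonempty) (M : ℝ)
    (hM : ∀ x ∈ C, ‖x‖ ≤ M) (δ₀ : ℝ)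
    (hC : ∀ (g : X →L[ℝ] ℝ) (α : ℝ), 0 < α → ∃ x ∈ S C g α, ∃ y ∈ S C g α, δ₀ ≤ ‖x - y‖)
    (h₀ : X →L[ℝ] ℝ) {c : ℝ} (hc : 0 < c) :
    ∃ (ρ : ℝ) (V : Set X), δ₀ ≤ ρ ∧ V ⊆ C ∧ V.Nonempty ∧ (∀ x ∈ V, ∀ y ∈ V, ‖x - y‖ ≤ ρ + c) ∧
      (∀ x ∈ V, ∀ y ∈ V, |h₀ x - h₀ y| ≤ c) ∧
      ∀ (k : X →L[ℝ] ℝ) (α : ℝ), 0 < α → ∃ x ∈ V, ∃ y ∈ V, (∀ v ∈ V, k v ≤ k x + α) ∧
        (∀ v ∈ V, k v ≤ k y + α) ∧ ρ - c < ‖x - y‖ := by
  have hM0 : 0 ≤ M := by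
    obtain ⟨x, hx⟩ := hne
    exact (norm_nonneg x).trans (hM x hx)
  set R : Set ℝ := {d | ∃ (f : X →L[ℝ] ℝ) (α : ℝ), 0 < α ∧ ∀ x ∈ S C f α, ∀ y ∈ S C f α, ‖x - y‖ ≤ d} with hR
  have hRne : R.Nonempty := ⟨2 * M, 0, 1, one_pos, fun x hx y hy => (norm_sub_le _ _).trans (by
    linarith [hM x hx.1, hM y hy.1])⟩
  have hRb : ∀ d ∈ R, δ₀ ≤ d := by
    rintro d ⟨f, α, hα, hd⟩
    obtain ⟨x, hx, y, hy, hxy⟩ := hC f α hα
    exact hxy.trans (hd x hx y hy)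
  have hRbdd : BddBelow R := ⟨δ₀, hRb⟩
  set ρ := sInf R with hρ
  obtain ⟨d, ⟨f₁, α₁, hα₁, hd⟩, hdρ⟩ := exists_lt_of_csInf_lt hRne (show sInf R < ρ + c by linarith)
  have hlow : ∀ (g : X →L[ℝ] ℝ) (α κ : ℝ), 0 < α → 0 < κ → ∃ x ∈ S C g α, ∃ y ∈ S C g α, ρ - κ < ‖x - y‖ := by
    intro g α κ hα hκ
    by_contra hcon
    push Not at hcon
    have : ρ - κ ∈ R := ⟨g, α, hα, hcon⟩
    have := csInf_le hRbdd this
    linarith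
  obtain ⟨f₂, α₂, hα₂, hsub, hosc⟩ := exists_small_osc C hne M hM f₁ hα₁ h₀ hc
  have hr : 0 < α₂ / (2 * (M + 1)) := by positivity
  have hV : Vis C f₂ (α₂ / (2 * (M + 1))) ⊆ S C f₂ α₂ := by
    apply Vis_sub C M hM
    rw [mul_assoc, div_mul_eq_mul_div, mul_div_assoc', div_le_iff₀ (by positivity)]
    nlinarith
  refine ⟨ρ, Vis C f₂ (α₂ / (2 * (M + 1))), le_csInf hRne hRb, fun x hx => hx.1,
    Vis_nonempty C hcl hcv hne M hM f₂ hr, ?_, ?_, ?_⟩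
  · intro x hx y hy
    exact (hd x (hsub (hV hx)) y (hsub (hV hy))).trans hdρ.le
  · intro x hx y hy
    exact hosc x (hV hx) y (hV hy)
  · intro k α hα
    exact Vis_slices C hcl hcv hne M hM f₂ hr ρ hlow k hα hc

end Pool.Agent.Helper902.Sl
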