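import Mathlib
import Pool.Agent.Helper902.SlMain

set_option autoImplicit false

open Filter Topology Pointwise

namespace Pool.Agent.Helper902.Sl

variable {X : Type*} [NormedAddCommGroup X] [NormedSpace ℝ X]

section ball

variable (P : Set X) (δ : ℝ)

/-- the new unit ball -/
def B (P : Set X) (δ : ℝ) : Set X := {w | ∃ a ∈ convexHull ℝ (P ∪ -P), ∃ b : X, ‖b‖ ≤ δ ∧ w = a + b}

theorem B_convex : Convex ℝ (B P δ) := by
  rintro _ ⟨a, ha, b, hb, rfl⟩ _ ⟨a', ha', b', hb', rfl⟩ s t hs ht hst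
  refine ⟨s • a + t • a', convex_convexHull ℝ _ ha ha' hs ht hst, s • b + t • b', ?_, ?_⟩
  · refine (norm_add_le _ _).trans ?_
    rw [norm_smul, norm_smul, Real.norm_of_nonneg hs, Real.norm_of_nonneg ht]
    have h1 := mul_le_mul_of_nonneg_left hb hs
    have h2 := mul_le_mul_of_nonneg_left hb' ht
    calc s * ‖b‖ + t * ‖b'‖ ≤ s * δ + t * δ := by linarith
      _ = δ := by rw [← add_mul, hst, one_mul]
  · rw [smul_add, smul_add]; abel

theorem neg_mem_hull {a : X} (ha : a ∈ convexHull ℝ (P ∪ -P)) : -a ∈ convexHull ℝ (P ∪ -P) := by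
  have h1 : convexHull ℝ (P ∪ -P) ⊆ {x | -x ∈ convexHull ℝ (P ∪ -P)} := by
    refine convexHull_min ?_ ?_
    · rintro x (hx | hx)
      · exact subset_convexHull ℝ _ (Or.inr (by simpa using hx))
      · exact subset_convexHull ℝ _ (Or.inl hx)
    · intro x hx y hy s t hs ht hst
      have : -(s • x + t • y) = s • (-x) + t • (-y) := by
        rw [smul_neg, smul_neg, neg_add]
      change -(s • x + t • y) ∈ convexHull ℝ (P ∪ -P)
      rw [this]
      exact convex_convexHull ℝ _ hx hy hs ht hst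
  exact h1 ha

theorem B_neg {w : X} (hw : w ∈ B P δ) : -w ∈ B P δ := by
  obtain ⟨a, ha, b, hb, rfl⟩ := hw
  exact ⟨-a, neg_mem_hull P ha, -b, by rwa [norm_neg], by abel⟩

variable {P δ}

theorem zero_mem_hull (hP : P.Nonempty) : (0 : X) ∈ convexHull ℝ (P ∪ -P) := by
  obtain ⟨p, hp⟩ := hP
  have h1 : p ∈ convexHull ℝ (P ∪ -P) := subset_convexHull ℝ _ (Or.inl hp)
  have h2 := neg_mem_hull P h1
  have h3 := convex_convexHull ℝ (P ∪ -P) h1 h2 (show (0:ℝ) ≤ 1 / 2 by norm_num)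
    (show (0:ℝ) ≤ 1 / 2 by norm_num) (by norm_num)
  rw [smul_neg, add_neg_cancel] at h3
  exact h3

theorem ball_sub_B (hP : P.Nonempty) {b : X} (hb : ‖b‖ ≤ δ) : b ∈ B P δ :=
  ⟨0, zero_mem_hull hP, b, hb, by rw [zero_add]⟩

theorem B_balanced (hP : P.Nonempty) (hδ : 0 < δ) : Balanced ℝ (B P δ) := by
  intro a ha x hx
  obtain ⟨y, hy, rfl⟩ := hx
  change a • y ∈ B P δ
  rw [Real.norm_eq_abs, abs_le] at ha
  have h0 : (0 : X) ∈ B P δ := ball_sub_B hP (by rw [norm_zero]; exact hδ.le)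
  have h1 := (B_convex P δ) hy (B_neg P δ hy) (show (0:ℝ) ≤ (1 + a) / 2 by linarith)
    (show (0:ℝ) ≤ (1 - a) / 2 by linarith) (by ring)
  have h2 : ((1 + a) / 2) • y + ((1 - a) / 2) • (-y) = a • y := by
    rw [smul_neg, ← sub_eq_add_neg, ← sub_smul]; congr 1; ring
  rwa [h2] at h1

theorem B_absorbent (hP : P.Nonempty) (hδ : 0 < δ) : Absorbent ℝ (B P δ) := by
  apply absorbent_nhds_zero
  refine Filter.mem_of_superset (Metric.closedBall_mem_nhds (0 : X) hδ) ?_
  intro x hx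
  exact ball_sub_B hP (by simpa using hx)

/-- the new norm -/
noncomputable def Nm (hP : P.Nonempty) (hδ : 0 < δ) : Seminorm ℝ X :=
  gaugeSeminorm (B_balanced hP hδ) (B_convex P δ) (B_absorbent hP hδ)

theorem Nm_apply (hP : P.Nonempty) (hδ : 0 < δ) (x : X) : Nm hP hδ x = gauge (B P δ) x := rfl

theorem Nm_le_one (hP : P.Nonempty) (hδ : 0 < δ) {x : X} (hx : x ∈ B P δ) : Nm hP hδ x ≤ 1 :=
  gauge_le_one_of_mem hx

theorem seminorm_le (hP : P.Nonempty) (hδ : 0 < δ) (Q : Seminorm ℝ X) (K : ℝ) (hK : ∀ x ∈ B P δ, Q x ≤ K)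
    (x : X) : Q x ≤ K * Nm hP hδ x := by
  have h0 : (0 : X) ∈ B P δ := ball_sub_B hP (by rw [norm_zero]; exact hδ.le)
  have hK0 : 0 ≤ K := (apply_nonneg Q (0:X)).trans (hK 0 h0)
  refine le_of_forall_pos_le_add fun ε hε => ?_
  have hlt : gauge (B P δ) x < Nm hP hδ x + ε / (K + 1) := by
    rw [← Nm_apply hP hδ]; have : 0 < ε / (K + 1) := by positivity
    linarith
  obtain ⟨b, hb0, hb1, hxb⟩ := exists_lt_of_gauge_lt (B_absorbent hP hδ) hlt
  obtain ⟨y, hy, rfl⟩ := hxb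
  have h1 : Q (b • y) = b * Q y := by
    rw [map_smul_eq_mul, Real.norm_of_nonneg hb0.le]
  change Q (b • y) ≤ K * Nm hP hδ (b • y) + ε
  rw [h1]
  have h2 : b * Q y ≤ b * K := mul_le_mul_of_nonneg_left (hK y hy) hb0.le
  have h3 : b * K ≤ (Nm hP hδ (b • y) + ε / (K + 1)) * K := mul_le_mul_of_nonneg_right hb1.le hK0
  have h4 : ε / (K + 1) * K ≤ ε := by
    rw [div_mul_eq_mul_div, div_le_iff₀ (by positivity)]
    nlinarith
  nlinarith

theorem functional_le (hP : P.Nonempty) (hδ : 0 < δ) (f : X →L[ℝ] ℝ) (K : ℝ) (hK : ∀ x ∈ B P δ, f x ≤ K)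
    (x : X) : f x ≤ K * Nm hP hδ x := by
  have h1 := seminorm_le hP hδ ((normSeminorm ℝ ℝ).comp f.toLinearMap) K (by
    intro x hx
    change ‖f x‖ ≤ K
    rw [Real.norm_eq_abs, abs_le]
    have h2 := hK _ (B_neg P δ hx)
    rw [map_neg] at h2
    exact ⟨by linarith, hK x hx⟩) x
  change ‖f x‖ ≤ _ at h1
  exact (le_abs_self _).trans h1

end ball

/-- the renorming -/
theorem exists_norm (V : Set X) (hV : V.Nonempty) (M : ℝ) (hM : ∀ v ∈ V, ‖v‖ ≤ M) (ρ c ε : ℝ)
    (hc : 0 < c) (hρ : 0 < ρ) (hε : 0 < ε) (hcε : 10 * c < ε * ρ)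
    (h₀ : X →L[ℝ] ℝ) (z : X) (hz : ‖z‖ = 1) (hh : ‖h₀‖ ≤ 1) (h₀z : h₀ z = 1)
    (hdiam : ∀ x ∈ V, ∀ y ∈ V, ‖x - y‖ ≤ ρ + c) (hosc : ∀ x ∈ V, ∀ y ∈ V, |h₀ x - h₀ y| ≤ c)
    (hsl : ∀ (k : X →L[ℝ] ℝ) (α : ℝ), 0 < α → ∃ x ∈ V, ∃ y ∈ V, (∀ v ∈ V, k v ≤ k x + α) ∧
        (∀ v ∈ V, k v ≤ k y + α) ∧ ρ - c < ‖x - y‖) :
    ∃ N : Seminorm ℝ X,
      (∃ c : ℝ, 0 < c ∧ ∃ C : ℝ, 0 < C ∧ ∀ x : X, c * ‖x‖ ≤ N x ∧ N x ≤ C * ‖x‖) ∧
      ∀ f : X →L[ℝ] ℝ, ∀ α : ℝ, 0 < α →
        ∃ x y : X, N x ≤ 1 ∧ N y ≤ 1 ∧ (∀ w : X, N w ≤ 1 → f w < f x + α) ∧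
          (∀ w : X, N w ≤ 1 → f w < f y + α) ∧ 2 - ε < N (x - y) := by
  have hM0 : 0 ≤ M := by
    obtain ⟨x, hx⟩ := hV
    exact (norm_nonneg x).trans (hM x hx)
  set π : X →L[ℝ] X := ContinuousLinearMap.id ℝ X - h₀.smulRight z with hπ
  have hπa : ∀ x, π x = x - h₀ x • z := fun x => rfl
  have hπh : ∀ x, h₀ (π x) = 0 := fun x => by
    rw [hπa, map_sub, map_smul, h₀z, smul_eq_mul, mul_one, sub_self]
  set P : Set X := (fun v => π v + z) '' V with hPdef
  have hP : P.Nonempty := hV.image _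
  set δ : ℝ := c / (4 * (M + 1)) with hδdef
  have hδ : 0 < δ := by positivity
  have hh0 : ∀ x, |h₀ x| ≤ ‖x‖ := fun x => by
    have h1 := h₀.le_opNorm x
    rw [Real.norm_eq_abs] at h1
    exact h1.trans (mul_le_of_le_one_left (norm_nonneg _) hh)
  have hπn : ∀ x, ‖π x‖ ≤ ‖x‖ + |h₀ x| := fun x => by
    rw [hπa]
    refine (norm_sub_le _ _).trans ?_
    rw [norm_smul, hz, mul_one, Real.norm_eq_abs]
  have hπn' : ∀ x, ‖x‖ - |h₀ x| ≤ ‖π x‖ := fun x => by
    have h1 : x = π x + h₀ x • z := by rw [hπa]; abel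
    have h2 : ‖x‖ ≤ ‖π x‖ + |h₀ x| := by
      calc ‖x‖ = ‖π x + h₀ x • z‖ := by rw [← h1]
        _ ≤ ‖π x‖ + ‖h₀ x • z‖ := norm_add_le _ _
        _ = _ := by rw [norm_smul, hz, mul_one, Real.norm_eq_abs]
    linarith
  have hPn : ∀ p ∈ P, ‖p‖ ≤ 2 * M + 1 := by
    rintro _ ⟨v, hv, rfl⟩
    refine (norm_add_le _ _).trans ?_
    have h1 := hπn v
    have h2 := hh0 v
    have h3 := hM v hv
    rw [hz]; linarith
  refine ⟨Nm hP hδ, ⟨1 / (2 * M + 1 + δ), by positivity, 1 / δ, by positivity, fun x => ⟨?_, ?_⟩⟩, ?_⟩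
  · -- lower bound
    have h1 := seminorm_le hP hδ (normSeminorm ℝ X) (2 * M + 1 + δ) (by
      rintro _ ⟨a, ha, b, hb, rfl⟩
      change ‖a + b‖ ≤ _
      refine (norm_add_le _ _).trans ?_
      have h2 : convexHull ℝ (P ∪ -P) ⊆ Metric.closedBall 0 (2 * M + 1) := by
        refine convexHull_min ?_ (convex_closedBall _ _)
        rintro x (hx | hx)
        · simpa using hPn x hx
        · have := hPn _ hx
          simpa using this
      have h3 := h2 ha
      rw [mem_closedBall_zero_iff] at h3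
      linarith) x
    change ‖x‖ ≤ _ at h1
    rw [div_mul_eq_mul_div, one_mul, div_le_iff₀ (by positivity)]
    linarith
  · -- upper bound
    rcases eq_or_ne x 0 with rfl | hx
    · simp
    have hn : 0 < ‖x‖ := norm_pos_iff.2 hx
    have h1 : (δ / ‖x‖) • x ∈ B P δ := ball_sub_B hP (by
      rw [norm_smul, Real.norm_of_nonneg (by positivity), div_mul_cancel₀ _ hn.ne'])
    have h2 := Nm_le_one hP hδ h1
    rw [map_smul_eq_mul, Real.norm_of_nonneg (by positivity), div_mul_eq_mul_div, div_le_one hn] at h2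
    rw [div_mul_eq_mul_div, one_mul, le_div_iff₀ hδ]
    linarith
  · intro f α hα
    -- lower bound for the norm of differences
    have hdiff : ∀ x ∈ V, ∀ y ∈ V, ρ - c < ‖x - y‖ → 2 - ε < Nm hP hδ (π (x - y)) := by
      intro x hx y hy hxy
      have h1 : ρ - 2 * c < ‖π (x - y)‖ := by
        have h2 := hπn' (x - y)
        have h3 := hosc x hx y hy
        rw [← map_sub] at h3
        linarith
      obtain ⟨k, hk1, hk2⟩ := exists_dual_vector'' ℝ (π (x - y))
      have hk3 : k (π (x - y)) = ‖π (x - y)‖ := by simpa using hk2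
      have hkn : ∀ w, |k w| ≤ ‖w‖ := fun w => by
        have h1 := k.le_opNorm w
        rw [Real.norm_eq_abs] at h1
        exact h1.trans (mul_le_of_le_one_left (norm_nonneg _) hk1)
      -- the interval k(π V)
      have hbd : ∀ v ∈ V, |k (π v)| ≤ 2 * M := fun v hv => by
        have h1 := hkn (π v)
        have h2 := hπn v
        have h3 := hh0 v
        have h4 := hM v hv
        linarith
      set I : Set ℝ := (fun v => k (π v)) '' V with hI
      have hIne : I.Nonempty := hV.image _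
      have hIb : BddBelow I := ⟨-(2 * M), by rintro _ ⟨v, hv, rfl⟩; exact (abs_le.1 (hbd v hv)).1⟩
      have hIa : BddAbove I := ⟨2 * M, by rintro _ ⟨v, hv, rfl⟩; exact (abs_le.1 (hbd v hv)).2⟩
      have hlen : sSup I ≤ sInf I + (ρ + 2 * c) := by
        refine csSup_le hIne ?_
        rintro _ ⟨v, hv, rfl⟩
        have h5 : k (π v) - (ρ + 2 * c) ≤ sInf I := by
          refine le_csInf hIne ?_
          rintro _ ⟨w, hw, rfl⟩
          have h6 := (abs_le.1 (hkn (π (v - w)))).2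
          have h7 := hπn (v - w)
          have h8 := hosc v hv w hw
          have h9 := hdiam v hv w hw
          rw [map_sub h₀] at h7
          rw [map_sub π, map_sub k] at h6
          rw [map_sub π] at h7
          linarith
        linarith
      have hinf1 : -(2 * M) ≤ sInf I := le_csInf hIne (by
        rintro _ ⟨v, hv, rfl⟩; exact (abs_le.1 (hbd v hv)).1)
      have hsup1 : sSup I ≤ 2 * M := csSup_le hIne (by
        rintro _ ⟨v, hv, rfl⟩; exact (abs_le.1 (hbd v hv)).2)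
      have hinfsup : sInf I ≤ sSup I := csInf_le_csSup hIne hIb hIa
      set m := (sInf I + sSup I) / 2 with hm
      have hmabs : |m| ≤ 2 * M := by rw [abs_le]; constructor <;> linarith
      set k' : X →L[ℝ] ℝ := k - (m + k z) • h₀ with hk'
      have hk'a : ∀ w, k' w = k w - (m + k z) * h₀ w := fun w => rfl
      have hkz : |k z| ≤ 1 := (hkn z).trans hz.le
      have hk'P : ∀ v ∈ V, |k' (π v + z)| ≤ (ρ + 2 * c) / 2 := by
        intro v hv
        rw [hk'a, map_add, map_add, hπh, h₀z]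
        have h6 := csInf_le hIb ⟨v, hv, rfl⟩
        have h7 := le_csSup hIa ⟨v, hv, rfl⟩
        simp only at h6 h7
        rw [abs_le]
        constructor <;> linarith
      have hk'b : ∀ b : X, ‖b‖ ≤ δ → |k' b| ≤ c / 2 := by
        intro b hb
        rw [hk'a]
        have h6 : |k b - (m + k z) * h₀ b| ≤ |k b| + |m + k z| * |h₀ b| := by
          refine (abs_sub _ _).trans ?_
          rw [abs_mul]
        have h7 : |m + k z| ≤ 2 * M + 1 := (abs_add_le _ _).trans (by linarith)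
        have h8 := hkn b
        have h9 := hh0 b
        have h10 : |m + k z| * |h₀ b| ≤ (2 * M + 1) * δ :=
          mul_le_mul h7 (h9.trans hb) (abs_nonneg _) (by linarith)
        have h11 : (2 * M + 2) * δ = c / 2 := by rw [hδdef]; field_simp; ring
        linarith
      have hk'B : ∀ w ∈ B P δ, k' w ≤ (ρ + 3 * c) / 2 := by
        rintro _ ⟨a, ha, b, hb, rfl⟩
        rw [map_add]
        have h6 : convexHull ℝ (P ∪ -P) ⊆ {x | k' x ≤ (ρ + 2 * c) / 2} := by
          refine convexHull_min ?_ (convex_halfSpace_le k'.toLinearMap.isLinear _)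
          rintro x (hx | hx)
          · obtain ⟨v, hv, rfl⟩ := hx
            exact (abs_le.1 (hk'P v hv)).2
          · obtain ⟨v, hv, hvx⟩ := hx
            have h7 := (abs_le.1 (hk'P v hv)).1
            have h8 : x = -(π v + z) := by
              have h9 : π v + z = -x := hvx
              rw [h9, neg_neg]
            change k' x ≤ _
            rw [h8, map_neg]
            linarith
        have h7 : k' a ≤ (ρ + 2 * c) / 2 := h6 ha
        have h8 := (abs_le.1 (hk'b b hb)).2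
        linarith
      have h12 := functional_le hP hδ k' _ hk'B (π (x - y))
      rw [hk'a, hπh, mul_zero, sub_zero, hk3] at h12
      have h13 : 0 < (ρ + 3 * c) / 2 := by positivity
      by_contra hcon
      push Not at hcon
      have h14 : (ρ + 3 * c) / 2 * Nm hP hδ (π (x - y)) ≤ (ρ + 3 * c) / 2 * (2 - ε) :=
        mul_le_mul_of_nonneg_left hcon h13.le
      nlinarith
    -- near maximum over the ball part
    obtain ⟨b₀, hb₀, hb₀m⟩ := exists_near_max (Metric.closedBall (0:X) δ) ⟨0, by simp [hδ.le]⟩ f (‖f‖ * δ)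
      (fun a ha => (le_abs_self _).trans (abs_apply_le f (by simpa using ha))) (show 0 < α / 4 by positivity)
    rw [mem_closedBall_zero_iff] at hb₀
    obtain ⟨p₀, hp₀, hp₀m⟩ := exists_near_max (P ∪ -P) (hP.mono (Set.subset_union_left)) f (‖f‖ * (2 * M + 1))
      (fun a ha => (le_abs_self _).trans (abs_apply_le f (by
        rcases ha with ha | ha
        · exact hPn a ha
        · have := hPn _ ha; simpa using this))) (show 0 < α / 4 by positivity)
    -- the common final step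
    have hfin : ∀ p : X, p ∈ P ∪ -P → f p₀ ≤ f p + α / 4 →
        Nm hP hδ (p + b₀) ≤ 1 ∧ ∀ w : X, Nm hP hδ w ≤ 1 → f w < f (p + b₀) + α := by
      intro p hp hpm
      have hmem : p + b₀ ∈ B P δ := ⟨p, subset_convexHull ℝ _ hp, b₀, hb₀, rfl⟩
      refine ⟨Nm_le_one hP hδ hmem, fun w hw => ?_⟩
      have h1 : ∀ w ∈ B P δ, f w ≤ f (p + b₀) + 3 * α / 4 := by
        rintro _ ⟨a, ha, b, hb, rfl⟩
        have h2 : convexHull ℝ (P ∪ -P) ⊆ {x | f x ≤ f p + α / 2} := by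
          refine convexHull_min ?_ (convex_halfSpace_le f.toLinearMap.isLinear _)
          intro x hx
          have h3 := hp₀m x hx
          change f x ≤ _
          linarith
        have h3 : f a ≤ f p + α / 2 := h2 ha
        have h4 := hb₀m b (by simpa using hb)
        rw [map_add, map_add]
        linarith
      have h5 := functional_le hP hδ f _ h1 w
      have h6 : 0 ≤ f (p + b₀) + 3 * α / 4 := by
        have := h1 0 (ball_sub_B hP (by rw [norm_zero]; exact hδ.le))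
        rwa [map_zero] at this
      have h7 : (f (p + b₀) + 3 * α / 4) * Nm hP hδ w ≤ (f (p + b₀) + 3 * α / 4) * 1 :=
        mul_le_mul_of_nonneg_left hw h6
      linarith
    rcases hp₀ with hp₀ | hp₀
    · obtain ⟨v₀, hv₀, rfl⟩ := hp₀
      obtain ⟨x, hx, y, hy, hxm, hym, hxy⟩ := hsl (f.comp π) (α / 4) (by positivity)
      have h1 := hxm v₀ hv₀
      have h2 := hym v₀ hv₀
      simp only [ContinuousLinearMap.comp_apply] at h1 h2
      obtain ⟨h3, h4⟩ := hfin (π x + z) (Or.inl ⟨x, hx, rfl⟩) (by simp only [map_add]; linarith)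
      obtain ⟨h5, h6⟩ := hfin (π y + z) (Or.inl ⟨y, hy, rfl⟩) (by simp only [map_add]; linarith)
      refine ⟨_, _, h3, h5, h4, h6, ?_⟩
      have h7 : π x + z + b₀ - (π y + z + b₀) = π (x - y) := by rw [map_sub]; abel
      rw [h7]
      exact hdiff x hx y hy hxy
    · obtain ⟨v₀, hv₀, hv₀'⟩ := hp₀
      have hp₀e : p₀ = -(π v₀ + z) := by
        simp only at hv₀'
        rw [hv₀', neg_neg]
      obtain ⟨x, hx, y, hy, hxm, hym, hxy⟩ := hsl (-(f.comp π)) (α / 4) (by positivity)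
      have h1 := hxm v₀ hv₀
      have h2 := hym v₀ hv₀
      simp only [neg_apply, ContinuousLinearMap.comp_apply] at h1 h2
      obtain ⟨h3, h4⟩ := hfin (-(π x + z)) (Or.inr ⟨x, hx, by rw [neg_neg]⟩) (by
        rw [hp₀e]; simp only [map_add, map_neg]; linarith)
      obtain ⟨h5, h6⟩ := hfin (-(π y + z)) (Or.inr ⟨y, hy, by rw [neg_neg]⟩) (by
        rw [hp₀e]; simp only [map_add, map_neg]; linarith)
      refine ⟨_, _, h3, h5, h4, h6, ?_⟩
      have h7 : -(π x + z) + b₀ - (-(π y + z) + b₀) = -π (x - y) := by rw [map_sub]; abel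
      rw [h7, map_neg_eq_map]
      exact hdiff x hx y hy hxy

/-- Spaces failing the RNP: all slices of the unit ball of some equivalent norm are large. -/
theorem main [CompleteSpace X]
    (hX : ∃ D : Set X, D.Nonempty ∧ Bornology.IsBounded D ∧ ∃ δ : ℝ, 0 < δ ∧
        ∀ f : X →L[ℝ] ℝ, ∀ α : ℝ, 0 < α →
          ∃ x ∈ D, ∃ y ∈ D, sSup (f '' D) - α < f x ∧ sSup (f '' D) - α < f y ∧
            δ ≤ ‖x - y‖) (ε : ℝ) (hε : 0 < ε) :
      ∃ N : Seminorm ℝ X,
        (∃ c : ℝ, 0 < c ∧ ∃ C : ℝ, 0 < C ∧ ∀ x : X, c * ‖x‖ ≤ N x ∧ N x ≤ C * ‖x‖) ∧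
        ∀ f : X →L[ℝ] ℝ, ∀ α : ℝ, 0 < α →
          ∃ x y : X, N x ≤ 1 ∧ N y ≤ 1 ∧
            sSup (f '' {z : X | N z ≤ 1}) - α < f x ∧
            sSup (f '' {z : X | N z ≤ 1}) - α < f y ∧
            2 - ε < N (x - y) := by
  obtain ⟨D, hDne, hDb, δ₀, hδ₀, hD⟩ := hX
  obtain ⟨M, hM0, hM⟩ := hDb.exists_pos_norm_le
  set C : Set X := closure (convexHull ℝ D) with hC
  have hDC : D ⊆ C := (subset_convexHull ℝ D).trans subset_closure
  have hCM : ∀ x ∈ C, ‖x‖ ≤ M := by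
    have h1 : C ⊆ Metric.closedBall 0 M :=
      closure_minimal (convexHull_min (fun x hx => by simpa using hM x hx) (convex_closedBall _ _))
        Metric.isClosed_closedBall
    intro x hx
    simpa using h1 hx
  have hCs : ∀ (g : X →L[ℝ] ℝ) (α : ℝ), 0 < α → ∃ x ∈ S C g α, ∃ y ∈ S C g α, δ₀ ≤ ‖x - y‖ := by
    intro g α hα
    obtain ⟨x, hx, y, hy, hgx, hgy, hxy⟩ := hD g α hα
    have hbdd : BddAbove (g '' D) := ⟨‖g‖ * M, by
      rintro _ ⟨a, ha, rfl⟩
      exact (le_abs_self _).trans (abs_apply_le g (hM a ha))⟩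
    have hle : ∀ c ∈ C, g c ≤ sSup (g '' D) := by
      have h1 : C ⊆ {x | g x ≤ sSup (g '' D)} :=
        closure_minimal (convexHull_min (fun x hx => le_csSup hbdd (Set.mem_image_of_mem g hx))
          (convex_halfSpace_le g.toLinearMap.isLinear _)) (isClosed_le g.continuous continuous_const)
      exact fun c hc => h1 hc
    exact ⟨x, ⟨hDC hx, fun c hc => by linarith [hle c hc]⟩, y, ⟨hDC hy, fun c hc => by linarith [hle c hc]⟩, hxy⟩
  obtain ⟨z₀, hz₀⟩ : ∃ z₀ : X, z₀ ≠ 0 := by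
    obtain ⟨x, -, y, -, -, -, hxy⟩ := hD 0 1 one_pos
    refine ⟨x - y, fun h => ?_⟩
    rw [h, norm_zero] at hxy
    linarith
  have hz₀n : 0 < ‖z₀‖ := norm_pos_iff.2 hz₀
  set z : X := ‖z₀‖⁻¹ • z₀ with hz
  have hz1 : ‖z‖ = 1 := by
    rw [hz, norm_smul, norm_inv, norm_norm, inv_mul_cancel₀ hz₀n.ne']
  obtain ⟨h₀, hh1, hh2⟩ := exists_dual_vector'' ℝ z
  have h₀z : h₀ z = 1 := by
    have : h₀ z = ‖z‖ := by simpa using hh2
    rw [this, hz1]
  set c : ℝ := ε * δ₀ / 16 with hc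
  have hc0 : 0 < c := by positivity
  obtain ⟨ρ, V, hρ, hVC, hVne, hdiam, hosc, hsl⟩ := exists_homogeneous C isClosed_closure
    (convex_convexHull ℝ D).closure (hDne.mono hDC) M hCM δ₀ hCs h₀ hc0
  have hρ0 : 0 < ρ := hδ₀.trans_le hρ
  obtain ⟨N, hN1, hN2⟩ := exists_norm V hVne M (fun v hv => hCM v (hVC hv)) ρ c ε hc0 hρ0 hε (by
    have h1 : ε * δ₀ ≤ ε * ρ := mul_le_mul_of_nonneg_left hρ hε.le
    have h2 : 0 < ε * δ₀ := by positivity
    rw [hc]; linarith) h₀ z hz1 hh1 h₀z hdiam hosc hsl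
  refine ⟨N, hN1, fun f α hα => ?_⟩
  obtain ⟨x, y, hx, hy, hxm, hym, hxy⟩ := hN2 f (α / 2) (by positivity)
  have hne : (f '' {z : X | N z ≤ 1}).Nonempty := ⟨f x, x, hx, rfl⟩
  refine ⟨x, y, hx, hy, ?_, ?_, hxy⟩
  · have : sSup (f '' {z : X | N z ≤ 1}) ≤ f x + α / 2 := csSup_le hne (by
      rintro _ ⟨w, hw, rfl⟩; exact (hxm w hw).le)
    linarith
  · have : sSup (f '' {z : X | N z ≤ 1}) ≤ f y + α / 2 := csSup_le hne (by
      rintro _ ⟨w, hw, rfl⟩; exact (hym w hw).le)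
    linarith

end Pool.Agent.Helper902.Sl
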